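import Mathlib

/-!
JOB CA-23 (asymptotic inequalities, about 120-180 lines; independent).

`L_cond`.  `u = log x ≥ 5`, `L = ⌈100 u⌉₊`, `100 u ≤ L ≤ 100 u + 1 ≤ 101 u`.
`log (102 L E F B) ≤ log 102 + log (101 u) + 9 u ≤ 4.63 + 4.62 + log u + 9u` and
`8 (1 + 9.25 + log u + 9u) = 82 + 8 log u + 72 u ≤ 100 u` because `log u ≤ u/e` (or `log u ≤ u - 1`...:
`8 log u + 82 ≤ 28 u` for `u ≥ 5`: at `u = 5` it is `12.9 + 82 ≤ 140`, and `log u ≤ log 5 + (u-5)/5`).

`asym`.  Each of the five statements holds for all large `t` (`Filter.Eventually atTop`; take the conjunction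
and `Filter.eventually_atTop`): `log t → ∞`, `t → ∞`; `t^10 = o(exp(t/2))`; the fourth because
`(log t)^5 = o(t)` (multiply by the positive denominator);
the fifth: let `C = 3 * 10^8 * 101^4`.  Suppose `z > t^4`, `t ≥ 1`; then `t < z^(1/4)`,
`z t ≤ C (log (z t))^4 t^4` (since `3 (10^4 (101 l)^2 t²)² = 3 * 10^8 * 101^4 l^4 t^4`), so
`z ≤ C (log(zt))^4 t^3 ≤ C ((5/4) log z)^4 z^(3/4)`, i.e. `z^(1/4) ≤ C ((5/4) log z)^4`; this is false for
`z ≥ Z0` (`(log z)^4 = o(z^(1/4))`), and `z > t^4 ≥ Z0` if `t ≥ max(1, Z0)`.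
-/

namespace Pool.Agent.H91.CA

open Filter Topology

theorem L_cond {x : ℝ} {E F B : ℕ} (hx : 5 ≤ Real.log x) (hx0 : 0 < x) (hE : 1 ≤ E) (hF : 1 ≤ F)
    (hB : 1 ≤ B) (h : (E : ℝ) * F * B ≤ x ^ 9) :
    8 * (1 + Real.log (102 * ((⌈100 * Real.log x⌉₊ : ℕ) : ℝ) * E * F * B)) ≤
        ((⌈100 * Real.log x⌉₊ : ℕ) : ℝ) ∧
      ((⌈100 * Real.log x⌉₊ : ℕ) : ℝ) ≤ 101 * Real.log x := by
  set u := Real.log x with hu
  have h1 : 100 * u ≤ ((⌈100 * u⌉₊ : ℕ) : ℝ) := Nat.le_ceil _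
  have h2 : ((⌈100 * u⌉₊ : ℕ) : ℝ) < 100 * u + 1 := Nat.ceil_lt_add_one (by linarith)
  have h3 : ((⌈100 * u⌉₊ : ℕ) : ℝ) ≤ 101 * u := by linarith
  refine ⟨?_, h3⟩
  set L := ((⌈100 * u⌉₊ : ℕ) : ℝ) with hL
  have hE' : (1 : ℝ) ≤ E := by exact_mod_cast hE
  have hF' : (1 : ℝ) ≤ F := by exact_mod_cast hF
  have hB' : (1 : ℝ) ≤ B := by exact_mod_cast hB
  have hL0 : 0 < L := by linarith
  have hu0 : 0 < u := by linarith
  have hEFB : 0 < (E : ℝ) * F * B := by positivity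
  have h4 : 102 * L * E * F * B ≤ 2 ^ 14 * u * x ^ 9 := by
    have e : 102 * L * E * F * B = (102 * L) * ((E : ℝ) * F * B) := by ring
    rw [e]
    have h5 : 102 * L ≤ 2 ^ 14 * u := by linarith
    exact mul_le_mul h5 h hEFB.le (by positivity)
  have h6 : Real.log (102 * L * E * F * B) ≤ 14 * Real.log 2 + Real.log u + 9 * u := by
    have h7 := Real.log_le_log (by positivity) h4
    have h8 : Real.log (2 ^ 14 * u * x ^ 9) = 14 * Real.log 2 + Real.log u + 9 * u := by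
      rw [Real.log_mul (by positivity) (by positivity), Real.log_mul (by positivity) (by positivity),
        Real.log_pow, Real.log_pow]
      push_cast
      ring
    linarith
  have h9 := Real.log_two_lt_d9
  have h10 := Real.log_le_sub_one_of_pos hu0
  linarith

theorem Asy_exp (K : ℝ) (n : ℕ) (c : ℝ) (hc : 0 < c) :
    ∀ᶠ t : ℝ in atTop, K * t ^ n < Real.exp (c * t) := by
  have h1 := Real.tendsto_pow_mul_exp_neg_atTop_nhds_zero n
  have h2 : Tendsto (fun t : ℝ => c * t) atTop atTop := tendsto_id.const_mul_atTop hc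
  have h3 := h1.comp h2
  have h4 : 0 < c ^ n / (|K| + 1) := by positivity
  have h5 := h3.eventually_lt_const h4
  filter_upwards [h5, eventually_ge_atTop 0] with t ht ht0
  rw [Function.comp_apply, Real.exp_neg, ← div_eq_mul_inv, div_lt_div_iff₀ (Real.exp_pos _)
    (by positivity), mul_pow] at ht
  have h6 : t ^ n * (|K| + 1) < Real.exp (c * t) := by
    have h7 : c ^ n * (t ^ n * (|K| + 1)) < c ^ n * Real.exp (c * t) := by
      calc c ^ n * (t ^ n * (|K| + 1)) = c ^ n * t ^ n * (|K| + 1) := by ring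
        _ < _ := ht
    exact lt_of_mul_lt_mul_left h7 (by positivity)
  have h8 : K * t ^ n ≤ t ^ n * (|K| + 1) := by
    have h9 := le_abs_self K
    have h10 : 0 ≤ t ^ n := by positivity
    nlinarith
  linarith

theorem asym : ∃ T : ℝ, ∀ t : ℝ, T ≤ t → 3 * 10 ^ 8 ≤ Real.log t ∧ 200 ≤ t ∧
    32 * t ^ 10 ≤ Real.exp (t / 2) ∧
    Real.log 4 + 12474 * (10 ^ 8 * (Real.log t) ^ 2) * Real.log t <
      t / (198 * (10 ^ 8 * (Real.log t) ^ 2)) ∧
    ∀ z : ℝ, 1 ≤ z →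
      z * t ≤ 3 * (10 ^ 4 * (101 * Real.log (z * t)) ^ 2 * t ^ 2) ^ 2 → z ≤ t ^ 4 := by
  rw [← Filter.eventually_atTop]
  have hlog := Real.tendsto_log_atTop
  obtain ⟨W, hW⟩ := Filter.eventually_atTop.mp
    (Asy_exp (3 * 10 ^ 8 * 101 ^ 4 * (5 / 4) ^ 4) 4 (1 / 4) (by norm_num))
  filter_upwards [hlog.eventually_ge_atTop (3 * 10 ^ 8), eventually_ge_atTop 200,
    Asy_exp 32 10 (1 / 2) (by norm_num),
    hlog.eventually (Asy_exp ((2 + 12474 * 10 ^ 8) * (198 * 10 ^ 8)) 5 1 one_pos),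
    hlog.eventually_ge_atTop W] with t h1 h2 h3 h4 h5
  have ht0 : 0 < t := by linarith
  refine ⟨h1, h2, ?_, ?_, ?_⟩
  · have e : t / 2 = 1 / 2 * t := by ring
    rw [e]
    exact h3.le
  · rw [one_mul, Real.exp_log ht0] at h4
    set l := Real.log t with hl
    have hl1 : 1 ≤ l := by linarith
    have hlog4 : Real.log 4 ≤ 2 := by
      have e : (4 : ℝ) = 2 ^ 2 := by norm_num
      rw [e, Real.log_pow]
      have := Real.log_two_lt_d9
      push_cast
      linarith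
    rw [lt_div_iff₀ (by positivity)]
    refine lt_of_le_of_lt ?_ h4
    have hl3 : 1 ≤ l ^ 3 := one_le_pow₀ hl1
    have h6 : Real.log 4 + 12474 * (10 ^ 8 * l ^ 2) * l ≤ (2 + 12474 * 10 ^ 8) * l ^ 3 := by
      nlinarith
    calc (Real.log 4 + 12474 * (10 ^ 8 * l ^ 2) * l) * (198 * (10 ^ 8 * l ^ 2))
        ≤ ((2 + 12474 * 10 ^ 8) * l ^ 3) * (198 * (10 ^ 8 * l ^ 2)) := by gcongr
      _ = _ := by ring
  · intro z hz h
    by_contra hcon
    push Not at hcon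
    have hz0 : 0 < z := by linarith
    set w := Real.log z with hw
    have hzw : z = Real.exp w := (Real.exp_log hz0).symm
    have hlt : Real.log t < w / 4 := by
      have h6 := Real.log_lt_log (by positivity) hcon
      rw [Real.log_pow] at h6
      push_cast at h6
      linarith
    have ht1 : t < Real.exp (w / 4) := by
      rw [← Real.exp_log ht0]
      exact Real.exp_lt_exp.mpr hlt
    have hlt0 : 0 ≤ Real.log t := by linarith
    have hw1 : 0 < w := by linarith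
    have hW1 : W ≤ w := by linarith
    have h7 := hW w hW1
    have h8 : Real.log (z * t) ≤ 5 / 4 * w := by
      rw [Real.log_mul hz0.ne' ht0.ne']
      linarith
    have h9 : 0 ≤ Real.log (z * t) := by
      rw [Real.log_mul hz0.ne' ht0.ne']
      linarith
    have h10 : z * t ≤ (3 * 10 ^ 8 * 101 ^ 4 * (5 / 4) ^ 4 * w ^ 4) * t ^ 3 * t := by
      refine h.trans ?_
      have h11 : (Real.log (z * t)) ^ 4 ≤ (5 / 4 * w) ^ 4 := by gcongr
      calc 3 * (10 ^ 4 * (101 * Real.log (z * t)) ^ 2 * t ^ 2) ^ 2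
          = 3 * 10 ^ 8 * 101 ^ 4 * (Real.log (z * t)) ^ 4 * t ^ 4 := by ring
        _ ≤ 3 * 10 ^ 8 * 101 ^ 4 * (5 / 4 * w) ^ 4 * t ^ 4 := by gcongr
        _ = _ := by ring
    have h12 : z ≤ (3 * 10 ^ 8 * 101 ^ 4 * (5 / 4) ^ 4 * w ^ 4) * t ^ 3 :=
      le_of_mul_le_mul_right h10 ht0
    have h13 : t ^ 3 ≤ Real.exp (3 * w / 4) := by
      have h14 : t ^ 3 ≤ (Real.exp (w / 4)) ^ 3 := by gcongr
      refine h14.trans (le_of_eq ?_)
      rw [← Real.exp_nat_mul]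
      congr 1
      push_cast
      ring
    have h15 : z < Real.exp (1 / 4 * w) * Real.exp (3 * w / 4) := by
      calc z ≤ (3 * 10 ^ 8 * 101 ^ 4 * (5 / 4) ^ 4 * w ^ 4) * t ^ 3 := h12
        _ ≤ (3 * 10 ^ 8 * 101 ^ 4 * (5 / 4) ^ 4 * w ^ 4) * Real.exp (3 * w / 4) := by gcongr
        _ < _ := by
          apply mul_lt_mul_of_pos_right h7 (Real.exp_pos _)
    rw [← Real.exp_add] at h15
    have e : 1 / 4 * w + 3 * w / 4 = w := by ring
    rw [e, ← hzw] at h15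
    exact lt_irrefl _ h15

end Pool.Agent.H91.CA
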