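import Pool.Agent.H91.CA.Lfl2
import Pool.Agent.H91.CA.Asy

/-!
JOB CA-25 (bounds from `lfl_arch`, about 130-180 lines; uses the stubs `lfl_arch`, `L_cond`).

`r_le`.  `t = log q`.  `p^d/q^z ≤ p^d/p^(2jz) = p^(-r) ≤ 1/2`; `z t - c log 2 = -log (1 - p^d/q^z)` is between `0`
and `2 p^(-r)` (`-log(1-y) ≤ 2y` for `0 ≤ y ≤ 1/2`).  `c ≥ 1` since `2 * 2^c ≥ q^z > 2`.  `lfl_arch` with
`a = q`, `b = 2`, `u = z`, `v = c`, `E = ⌈t⌉₊ ≤ t + 1`, `F = 1` (`log 2 ≤ 1`), `B = max z c`: `c log 2 ≤ z t`, so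
`c ≤ 2 z t ≤ 2 t^5`, `E F B ≤ 2t * 2t^5 ≤ t^9`; `L = ⌈100 log t⌉₊ ≤ 101 log t` (`L_cond` with `x = t`).
So `exp(-5000 L² E) ≤ 2 p^(-r)`, `r log p ≤ log 2 + 5000 L² E ≤ 1 + 5000 * 10201 (log t)² (t+1)
≤ 10^8 (log t)² t`.

`dlow`: `p^d < q^z`, so `(2jz+1) log p ≤ d log p < z log q`, and
`log q = 2j log p + log (1 + 4^i/p^(2j)) ≤ 2j log p + 4^i/p^(2j)`; so `log p < z 4^i / p^(2j)`.

`beta_z`.  `z log q - d log p = log (1 + 2^c/p^d)` is between `0` and `2^c/p^d < p/p^d ≤ 2p/q^z`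
(`q^z = p^d + 2^c ≤ 2 p^d`).  `lfl_arch` with `a = q`, `b = p`, `E = ⌈t⌉₊ ≤ 2t`, `F = ⌈log p⌉₊ ≤ 2 log p`
(`log p ≥ 1`), `B = max z d ≤ z t ≤ t^5`, `E F B ≤ t^9`, `L = ⌈100 log t⌉₊`:
`z t ≤ log (2p) + 5000 L² E F ≤ 2 log p + 20000 (101 log t)² t log p ≤ 3 * 10^8 (log t)² log p * t`.
-/

namespace Pool.Agent.H91.CA

theorem RLe_log1m {y : ℝ} (h0 : 0 ≤ y) (h1 : y ≤ 1 / 2) : -(2 * y) ≤ Real.log (1 - y) := by
  have hpos : 0 < 1 - y := by linarith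
  have h := Real.one_sub_inv_le_log_of_pos hpos
  have h2 : -(2 * y) ≤ 1 - (1 - y)⁻¹ := by
    have h3 : (1 - y)⁻¹ ≤ 1 + 2 * y := by
      rw [inv_le_comm₀ hpos (by linarith), inv_le_iff_one_le_mul₀ (by linarith)]
      nlinarith
    linarith
  linarith

theorem RLe_ceil {x : ℝ} (h : 1 ≤ x) : 1 ≤ ⌈x⌉₊ ∧ x ≤ (⌈x⌉₊ : ℝ) ∧ (⌈x⌉₊ : ℝ) ≤ x + 1 := by
  refine ⟨?_, Nat.le_ceil x, (Nat.ceil_lt_add_one (by linarith)).le⟩
  rw [Nat.one_le_ceil_iff]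
  linarith

theorem r_le {p q i j c d z r : ℕ} (hp : 2 ≤ p) (hq : q = 4 ^ i + p ^ (2 * j)) (hq2 : q % 2 = 1)
    (hz : 1 ≤ z) (h : 2 ^ c + p ^ d = q ^ z) (hr : d + r = 2 * j * z) (hr1 : 1 ≤ r)
    (hlam : 200 ≤ Real.log q) (hll : 5 ≤ Real.log (Real.log q))
    (hzl : (z : ℝ) ≤ (Real.log q) ^ 4) :
    r * Real.log p ≤ 10 ^ 8 * (Real.log (Real.log q)) ^ 2 * Real.log q := by
  set t := Real.log q with ht
  set l := Real.log t with hl
  have hp0 : (0 : ℝ) < p := by exact_mod_cast (by omega : 0 < p)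
  have hp2 : (2 : ℝ) ≤ p := by exact_mod_cast hp
  have hq0' : 0 < q := by
    rcases Nat.eq_zero_or_pos q with h0 | h0
    · omega
    · exact h0
  have hq0 : (0 : ℝ) < q := by exact_mod_cast hq0'
  have hq3 : (3 : ℝ) ≤ q := by
    by_contra hcon
    have h1 : t ≤ q := by
      have := Real.log_le_sub_one_of_pos hq0
      linarith
    linarith
  have hqz0 : (0 : ℝ) < (q : ℝ) ^ z := by positivity
  have hpd0 : (0 : ℝ) < (p : ℝ) ^ d := by positivity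
  have hpr0 : (0 : ℝ) < (p : ℝ) ^ r := by positivity
  have hreal : (2 : ℝ) ^ c + (p : ℝ) ^ d = (q : ℝ) ^ z := by exact_mod_cast h
  have hmul : (p : ℝ) ^ d * (p : ℝ) ^ r ≤ (q : ℝ) ^ z := by
    rw [← pow_add, hr, pow_mul]
    refine pow_le_pow_left₀ (by positivity) ?_ _
    rw [hq]
    push_cast
    have : (0 : ℝ) ≤ 4 ^ i := by positivity
    linarith
  set y : ℝ := (p : ℝ) ^ d / (q : ℝ) ^ z with hy
  have hy0 : 0 < y := by positivity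
  have hy1 : y ≤ ((p : ℝ) ^ r)⁻¹ := by
    rw [hy, div_le_iff₀ hqz0, ← div_eq_inv_mul, le_div_iff₀ hpr0]
    exact hmul
  have hpr2 : (2 : ℝ) ≤ (p : ℝ) ^ r := by
    calc (2 : ℝ) ≤ p := hp2
      _ = (p : ℝ) ^ 1 := (pow_one _).symm
      _ ≤ (p : ℝ) ^ r := pow_le_pow_right₀ (by linarith) hr1
  have hy2 : y ≤ 1 / 2 := by
    refine hy1.trans ?_
    rw [one_div]
    exact inv_anti₀ (by norm_num) hpr2
  have h2c : (2 : ℝ) ^ c = (q : ℝ) ^ z * (1 - y) := by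
    rw [hy]
    field_simp
    linarith
  have hlog : (c : ℝ) * Real.log 2 = z * t + Real.log (1 - y) := by
    have h3 := congrArg Real.log h2c
    rw [Real.log_pow, Real.log_mul hqz0.ne' (by linarith), Real.log_pow] at h3
    exact h3
  have hlo := RLe_log1m hy0.le hy2
  have hhi : Real.log (1 - y) ≤ 0 := by
    have := Real.log_le_sub_one_of_pos (by linarith : 0 < 1 - y)
    linarith
  have hz1 : (1 : ℝ) ≤ z := by exact_mod_cast hz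
  have hc1 : 1 ≤ c := by
    by_contra hcon
    have hc0 : c = 0 := by omega
    rw [hc0] at h2c
    have h3 : (3 : ℝ) ≤ (q : ℝ) ^ z := by
      calc (3 : ℝ) ≤ q := hq3
        _ = (q : ℝ) ^ 1 := (pow_one _).symm
        _ ≤ (q : ℝ) ^ z := pow_le_pow_right₀ (by linarith) hz
    have h4 : (q : ℝ) ^ z * (1 - y) ≥ 3 * (1 / 2) := by
      apply mul_le_mul h3 (by linarith) (by norm_num) hqz0.le
    rw [← h2c] at h4
    norm_num at h4
  have hlog2 := Real.log_two_gt_d9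
  have hlog2' := Real.log_two_lt_d9
  have hcz : (c : ℝ) ≤ 2 * (z * t) := by
    have h3 : (c : ℝ) * Real.log 2 ≤ z * t := by linarith
    have hc0 : (0 : ℝ) ≤ c := Nat.cast_nonneg c
    nlinarith
  obtain ⟨hE1, hE2, hE3⟩ := RLe_ceil (show (1 : ℝ) ≤ t by linarith)
  have ht0 : 0 < t := by linarith
  have hB : ((max z c : ℕ) : ℝ) ≤ 2 * t ^ 5 := by
    rw [Nat.cast_max]
    have h5 : z * t ≤ t ^ 5 := by
      calc z * t ≤ t ^ 4 * t := mul_le_mul_of_nonneg_right hzl ht0.le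
        _ = t ^ 5 := by ring
    refine max_le ?_ (by linarith)
    nlinarith
  have hEFB : ((⌈t⌉₊ : ℕ) : ℝ) * ((1 : ℕ) : ℝ) * ((max z c : ℕ) : ℝ) ≤ t ^ 9 := by
    rw [Nat.cast_one, mul_one]
    calc ((⌈t⌉₊ : ℕ) : ℝ) * ((max z c : ℕ) : ℝ) ≤ (2 * t) * (2 * t ^ 5) :=
          mul_le_mul (by linarith) hB (Nat.cast_nonneg _) (by linarith)
      _ = 4 * t ^ 6 := by ring
      _ ≤ t ^ 3 * t ^ 6 := by
          refine mul_le_mul_of_nonneg_right ?_ (by positivity)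
          nlinarith [sq_nonneg t, mul_pos ht0 ht0]
      _ = t ^ 9 := by ring
  obtain ⟨hL1, hL2⟩ := L_cond (x := t) (E := ⌈t⌉₊) (F := 1) (B := max z c) hll ht0 hE1 le_rfl
    (le_max_of_le_left hz) hEFB
  have hcop : q.Coprime 2 := Nat.coprime_two_right.mpr (Nat.odd_iff.mpr hq2)
  have key := lfl_arch (a := q) (b := 2) (u := z) (v := c) (E := ⌈t⌉₊) (F := 1)
    (L := ⌈100 * l⌉₊) (B := max z c) hcop (by
      have : (2 : ℝ) ≤ q := by linarith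
      exact_mod_cast this) le_rfl hz hc1 (le_max_left _ _) (le_max_right _ _) hE2
    (by push_cast; linarith) hE1 le_rfl hL1
  have habs : |(z : ℝ) * Real.log q - (c : ℝ) * Real.log ((2 : ℕ) : ℝ)| ≤ 2 * ((p : ℝ) ^ r)⁻¹ := by
    have e : ((2 : ℕ) : ℝ) = 2 := by norm_num
    rw [e, hlog, abs_le]
    constructor <;> linarith
  have h6 := key.trans habs
  have h7 : -(5000 * ((⌈100 * l⌉₊ : ℕ) : ℝ) ^ 2 * ((⌈t⌉₊ : ℕ) : ℝ) * ((1 : ℕ) : ℝ)) ≤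
      Real.log 2 - r * Real.log p := by
    have h8 := Real.log_le_log (Real.exp_pos _) h6
    rw [Real.log_exp, Real.log_mul (by norm_num) (inv_ne_zero hpr0.ne'), Real.log_inv,
      Real.log_pow] at h8
    linarith
  have hLn : (0 : ℝ) ≤ ((⌈100 * l⌉₊ : ℕ) : ℝ) := Nat.cast_nonneg _
  have hL3 : ((⌈100 * l⌉₊ : ℕ) : ℝ) ^ 2 ≤ 10201 * l ^ 2 := by
    calc ((⌈100 * l⌉₊ : ℕ) : ℝ) ^ 2 ≤ (101 * l) ^ 2 := pow_le_pow_left₀ hLn hL2 2
      _ = 10201 * l ^ 2 := by ring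
  have h9 : 5000 * ((⌈100 * l⌉₊ : ℕ) : ℝ) ^ 2 * ((⌈t⌉₊ : ℕ) : ℝ) ≤
      5000 * (10201 * l ^ 2) * (t + 1) := by
    have : 5000 * ((⌈100 * l⌉₊ : ℕ) : ℝ) ^ 2 ≤ 5000 * (10201 * l ^ 2) := by linarith
    exact mul_le_mul this hE3 (Nat.cast_nonneg _) (by positivity)
  rw [Nat.cast_one, mul_one] at h7
  have hl2 : 25 ≤ l ^ 2 := by nlinarith
  nlinarith [mul_nonneg (sq_nonneg l) ht0.le]

theorem dlow {p q i j c d z : ℕ} (hp : 2 ≤ p) (hq : q = 4 ^ i + p ^ (2 * j))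
    (h : 2 ^ c + p ^ d = q ^ z) (hd : 2 * j * z + 1 ≤ d) :
    (p : ℝ) ^ (2 * j) * Real.log p < z * 4 ^ i := by
  have hp0 : (0 : ℝ) < p := by exact_mod_cast (by omega : 0 < p)
  have hp2 : (2 : ℝ) ≤ p := by exact_mod_cast hp
  have hlp : 0 < Real.log p := Real.log_pos (by linarith)
  have hP : (0 : ℝ) < (p : ℝ) ^ (2 * j) := by positivity
  have hqr : (q : ℝ) = 4 ^ i + (p : ℝ) ^ (2 * j) := by
    rw [hq]
    push_cast
    ring
  have hq0 : (0 : ℝ) < q := by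
    rw [hqr]
    positivity
  have hreal : (2 : ℝ) ^ c + (p : ℝ) ^ d = (q : ℝ) ^ z := by exact_mod_cast h
  have hlt : (p : ℝ) ^ d < (q : ℝ) ^ z := by
    have : (0 : ℝ) < 2 ^ c := by positivity
    linarith
  have h1 := Real.log_lt_log (by positivity) hlt
  rw [Real.log_pow, Real.log_pow] at h1
  have hd' : ((2 * j * z + 1 : ℕ) : ℝ) ≤ d := by exact_mod_cast hd
  push_cast at hd'
  have h2 : (2 * (j : ℝ) * z + 1) * Real.log p ≤ d * Real.log p :=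
    mul_le_mul_of_nonneg_right hd' hlp.le
  have h3 : Real.log q ≤ 2 * j * Real.log p + 4 ^ i / (p : ℝ) ^ (2 * j) := by
    have e : (q : ℝ) = (p : ℝ) ^ (2 * j) * (1 + 4 ^ i / (p : ℝ) ^ (2 * j)) := by
      rw [hqr]
      field_simp
      ring
    rw [e, Real.log_mul hP.ne' (by positivity), Real.log_pow]
    have h4 := Real.log_le_sub_one_of_pos
      (show (0 : ℝ) < 1 + 4 ^ i / (p : ℝ) ^ (2 * j) by positivity)
    push_cast
    linarith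
  have hz0 : (0 : ℝ) ≤ z := Nat.cast_nonneg z
  have h5 : (z : ℝ) * Real.log q ≤ z * (2 * j * Real.log p + 4 ^ i / (p : ℝ) ^ (2 * j)) :=
    mul_le_mul_of_nonneg_left h3 hz0
  have h6 : Real.log p < z * (4 ^ i / (p : ℝ) ^ (2 * j)) := by nlinarith
  rw [← mul_div_assoc, lt_div_iff₀ hP] at h6
  linarith

theorem beta_z {p q c d z : ℕ} (hp : 3 ≤ p) (hpq : p < q) (hcop : q.Coprime p) (hz : 1 ≤ z)
    (hd : 1 ≤ d) (h : 2 ^ c + p ^ d = q ^ z) (hc : 2 ^ c < p)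
    (hlam : 200 ≤ Real.log q) (hll : 5 ≤ Real.log (Real.log q))
    (hzl : (z : ℝ) ≤ (Real.log q) ^ 4) :
    (z : ℝ) ≤ 3 * 10 ^ 8 * (Real.log (Real.log q)) ^ 2 * Real.log p := by
  set t := Real.log q with ht
  set l := Real.log t with hl
  set s := Real.log p with hs
  have hp3 : (3 : ℝ) ≤ p := by exact_mod_cast hp
  have hp0 : (0 : ℝ) < p := by linarith
  have hpq' : (p : ℝ) < q := by exact_mod_cast hpq
  have hq0 : (0 : ℝ) < q := by linarith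
  have hs1 : 1 ≤ s := by
    rw [hs, Real.le_log_iff_exp_le hp0]
    have := Real.exp_one_lt_d9
    linarith
  have hst : s ≤ t := Real.log_le_log hp0 hpq'.le
  have ht0 : 0 < t := by linarith
  have hz1 : (1 : ℝ) ≤ z := by exact_mod_cast hz
  have hqz0 : (0 : ℝ) < (q : ℝ) ^ z := by positivity
  have hpd0 : (0 : ℝ) < (p : ℝ) ^ d := by positivity
  have hreal : (2 : ℝ) ^ c + (p : ℝ) ^ d = (q : ℝ) ^ z := by exact_mod_cast h
  have hcr : (2 : ℝ) ^ c < p := by exact_mod_cast hc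
  have hppd : (p : ℝ) ≤ (p : ℝ) ^ d := by
    calc (p : ℝ) = (p : ℝ) ^ 1 := (pow_one _).symm
      _ ≤ (p : ℝ) ^ d := pow_le_pow_right₀ (by linarith) hd
  have h2c0 : (0 : ℝ) < 2 ^ c := by positivity
  have hlog : (z : ℝ) * t = d * s + Real.log (1 + 2 ^ c / (p : ℝ) ^ d) := by
    have e : (q : ℝ) ^ z = (p : ℝ) ^ d * (1 + 2 ^ c / (p : ℝ) ^ d) := by
      field_simp
      linarith
    have h3 := congrArg Real.log e
    rw [Real.log_pow, Real.log_mul hpd0.ne' (by positivity), Real.log_pow] at h3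
    exact h3
  have hlo : 0 ≤ Real.log (1 + 2 ^ c / (p : ℝ) ^ d) := by
    apply Real.log_nonneg
    have : (0 : ℝ) ≤ 2 ^ c / (p : ℝ) ^ d := by positivity
    linarith
  have hhi : Real.log (1 + 2 ^ c / (p : ℝ) ^ d) ≤ 2 * p / (q : ℝ) ^ z := by
    have h4 := Real.log_le_sub_one_of_pos
      (show (0 : ℝ) < 1 + 2 ^ c / (p : ℝ) ^ d by positivity)
    have h5 : 2 ^ c / (p : ℝ) ^ d ≤ 2 * p / (q : ℝ) ^ z := by
      rw [div_le_div_iff₀ hpd0 hqz0]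
      nlinarith
    linarith
  have hds : (d : ℝ) * s ≤ z * t := by linarith
  have hd0 : (0 : ℝ) ≤ d := Nat.cast_nonneg d
  have hdz : (d : ℝ) ≤ z * t := by nlinarith
  obtain ⟨hE1, hE2, hE3⟩ := RLe_ceil (show (1 : ℝ) ≤ t by linarith)
  obtain ⟨hF1, hF2, hF3⟩ := RLe_ceil hs1
  have h5 : z * t ≤ t ^ 5 := by
    calc z * t ≤ t ^ 4 * t := mul_le_mul_of_nonneg_right hzl ht0.le
      _ = t ^ 5 := by ring
  have hB : ((max z d : ℕ) : ℝ) ≤ t ^ 5 := by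
    rw [Nat.cast_max]
    refine max_le ?_ (by linarith)
    nlinarith
  have hEFB : ((⌈t⌉₊ : ℕ) : ℝ) * ((⌈s⌉₊ : ℕ) : ℝ) * ((max z d : ℕ) : ℝ) ≤ t ^ 9 := by
    calc ((⌈t⌉₊ : ℕ) : ℝ) * ((⌈s⌉₊ : ℕ) : ℝ) * ((max z d : ℕ) : ℝ)
        ≤ ((2 * t) * (2 * t)) * t ^ 5 := by
          refine mul_le_mul (mul_le_mul (by linarith) (by linarith) (Nat.cast_nonneg _)
            (by linarith)) hB (Nat.cast_nonneg _) (by positivity)
      _ = 4 * t ^ 7 := by ring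
      _ ≤ t ^ 2 * t ^ 7 := by
          refine mul_le_mul_of_nonneg_right ?_ (by positivity)
          nlinarith
      _ = t ^ 9 := by ring
  obtain ⟨hL1, hL2⟩ := L_cond (x := t) (E := ⌈t⌉₊) (F := ⌈s⌉₊) (B := max z d) hll ht0 hE1 hF1
    (le_max_of_le_left hz) hEFB
  have key := lfl_arch (a := q) (b := p) (u := z) (v := d) (E := ⌈t⌉₊) (F := ⌈s⌉₊)
    (L := ⌈100 * l⌉₊) (B := max z d) hcop (by omega) (by omega) hz hd (le_max_left _ _)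
    (le_max_right _ _) hE2 hF2 hE1 hF1 hL1
  have habs : |(z : ℝ) * Real.log q - (d : ℝ) * Real.log p| ≤ 2 * p / (q : ℝ) ^ z := by
    rw [← ht, ← hs, hlog, abs_le]
    constructor <;> linarith
  have h6 := key.trans habs
  have h7 : -(5000 * ((⌈100 * l⌉₊ : ℕ) : ℝ) ^ 2 * ((⌈t⌉₊ : ℕ) : ℝ) * ((⌈s⌉₊ : ℕ) : ℝ)) ≤
      Real.log 2 + s - z * t := by
    have h8 := Real.log_le_log (Real.exp_pos _) h6
    rw [Real.log_exp, Real.log_div (by positivity) hqz0.ne', Real.log_mul (by norm_num) hp0.ne',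
      Real.log_pow] at h8
    linarith
  have hlog2' := Real.log_two_lt_d9
  have hLn : (0 : ℝ) ≤ ((⌈100 * l⌉₊ : ℕ) : ℝ) := Nat.cast_nonneg _
  have hL3 : ((⌈100 * l⌉₊ : ℕ) : ℝ) ^ 2 ≤ 10201 * l ^ 2 := by
    calc ((⌈100 * l⌉₊ : ℕ) : ℝ) ^ 2 ≤ (101 * l) ^ 2 := pow_le_pow_left₀ hLn hL2 2
      _ = 10201 * l ^ 2 := by ring
  have h9 : 5000 * ((⌈100 * l⌉₊ : ℕ) : ℝ) ^ 2 * ((⌈t⌉₊ : ℕ) : ℝ) * ((⌈s⌉₊ : ℕ) : ℝ) ≤
      5000 * (10201 * l ^ 2) * (2 * t) * (2 * s) := by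
    have h10 : 5000 * ((⌈100 * l⌉₊ : ℕ) : ℝ) ^ 2 ≤ 5000 * (10201 * l ^ 2) := by linarith
    have h11 : ((⌈t⌉₊ : ℕ) : ℝ) ≤ 2 * t := by linarith
    have h12 : ((⌈s⌉₊ : ℕ) : ℝ) ≤ 2 * s := by linarith
    exact mul_le_mul (mul_le_mul h10 h11 (Nat.cast_nonneg _) (by positivity)) h12
      (Nat.cast_nonneg _) (by positivity)
  have hl2 : 25 ≤ l ^ 2 := by nlinarith
  have h13 : z * t ≤ 3 * 10 ^ 8 * l ^ 2 * s * t := by
    have h14 : 1 + s ≤ 2 * s := by linarith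
    have h15 : 1 ≤ l ^ 2 * t := by nlinarith
    have h16 : s ≤ l ^ 2 * t * s := le_mul_of_one_le_left (by linarith) h15
    nlinarith
  exact le_of_mul_le_mul_right h13 ht0

end Pool.Agent.H91.CA
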