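import Mathlib

/-!
JOB CA-18 (2-adic uniqueness, about 100-150 lines; independent).

If `M = 0` there is nothing to prove.  Let `ρ` be an integer with `r ρ ≡ 1 (mod 2^M)` (`r` is odd);
`X0 = 4^i ρ²`, `Y0 = 1 + r * y(X0)` (integers).  `y(0) = 0`, `X0` even (`i ≥ 1`), so `Y0` is odd.
Evaluating the divisibility `hX` at `X0`: `X0^(m+1)` divides `(Y0^(2j) + r² X0)^z - Y0^d`, and
`2^M ∣ 4^(i(m+1)) ∣ X0^(m+1)`; `r² X0 ≡ 4^i (mod 2^M)`, so `(4^i + Y0^(2j))^z ≡ Y0^d (mod 2^M)`.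
Also `(4^i + p^(2j))^z ≡ p^d (mod 2^M)` by `h`.  Put
`s1 = ∑_{a<2j} p^a Y0^(2j-1-a)` (an even number of odd terms: even), so `p^(2j) - Y0^(2j) = (p - Y0) s1`;
`(4^i + p^(2j))^z - (4^i + Y0^(2j))^z = (p - Y0) s1 s2` for an integer `s2`; `p^d - Y0^d = (p - Y0) s3` with
`s3 = ∑_{a<d} p^a Y0^(d-1-a)` odd (`d` odd terms, `d` odd).  So `2^M ∣ (p - Y0)(s1 s2 - s3)` and
`s1 s2 - s3` is odd, hence `2^M ∣ p - Y0`.
Finally modulo `2^M`: `r^(2m) p ≡ r^(2m) Y0 = r^(2m) + r ∑_{k ≤ m} y_k 4^(ik) ρ^(2k) r^(2m)` and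
`ρ^(2k) r^(2m) ≡ r^(2(m-k))` for `k ≤ m`.
-/

namespace Pool.Agent.H91.CA

open Polynomial

theorem tayB_sum_cast {x y : ℤ} (hx : ((x : ℤ) : ZMod 2) = 1) (hy : ((y : ℤ) : ZMod 2) = 1)
    (n : ℕ) : ((∑ a ∈ Finset.range n, x ^ a * y ^ (n - 1 - a) : ℤ) : ZMod 2) = n := by
  push_cast
  rw [hx, hy]
  simp

theorem tay_mod {p i j z d r c m M : ℕ} (hi : 1 ≤ i) (hj : 1 ≤ j) (hd : d % 2 = 1)
    (hr : r % 2 = 1) (hp : p % 2 = 1)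
    (h : 2 ^ c + p ^ d = (4 ^ i + p ^ (2 * j)) ^ z) (hMc : M ≤ c) (hMm : M ≤ 2 * i * (m + 1))
    (y : ℤ[X]) (hdeg : y.natDegree ≤ m) (hy0 : y.coeff 0 = 0)
    (hX : X ^ (m + 1) ∣ ((1 + C (r : ℤ) * y) ^ (2 * j) + C ((r : ℤ) ^ 2) * X) ^ z -
        (1 + C (r : ℤ) * y) ^ d) :
    (2 : ℤ) ^ M ∣ (r : ℤ) ^ (2 * m) * p - ((r : ℤ) ^ (2 * m) +
      r * ∑ k ∈ Finset.range (m + 1), y.coeff k * 4 ^ (i * k) * (r : ℤ) ^ (2 * (m - k))) := by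
  have hodd : Odd (r : ℤ) := by
    exact_mod_cast Nat.odd_iff.2 hr
  have hcop : IsCoprime (r : ℤ) ((2 : ℤ) ^ M) :=
    IsCoprime.pow_right (Int.isCoprime_iff_gcd_eq_one.2 (by
      rw [← Int.isCoprime_iff_gcd_eq_one]
      obtain ⟨k, hk⟩ := hodd
      exact ⟨1, -k, by rw [hk]; ring⟩))
  obtain ⟨ρ, v, hρ⟩ := hcop
  set X0 : ℤ := 4 ^ i * ρ ^ 2 with hX0
  set Y0 : ℤ := 1 + r * y.eval X0 with hY0
  have hcast : ∀ a : ℤ, ((a : ℤ) : ZMod (2 ^ M)) = 0 ↔ (2 : ℤ) ^ M ∣ a := by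
    intro a
    rw [ZMod.intCast_zmod_eq_zero_iff_dvd]
    push_cast
    rfl
  have h2M : (2 : ZMod (2 ^ M)) ^ M = 0 := by
    have := (hcast ((2 : ℤ) ^ M)).2 dvd_rfl
    push_cast at this
    exact this
  have hrρ : (r : ZMod (2 ^ M)) * (ρ : ZMod (2 ^ M)) = 1 := by
    have h1 := congrArg (fun a : ℤ => (a : ZMod (2 ^ M))) hρ
    push_cast at h1
    rw [h2M, mul_zero, add_zero] at h1
    rw [mul_comm]
    exact h1
  -- parity of Y0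
  have hXy : X ∣ y := Polynomial.X_dvd_iff.2 hy0
  obtain ⟨y', hy'⟩ := hXy
  have hX0even : ((X0 : ℤ) : ZMod 2) = 0 := by
    rw [hX0]
    push_cast
    have h4 : (4 : ZMod 2) = 0 := by decide
    rw [h4, zero_pow (by omega), zero_mul]
  have hY0odd : ((Y0 : ℤ) : ZMod 2) = 1 := by
    rw [hY0, hy', Polynomial.eval_mul, Polynomial.eval_X]
    push_cast
    rw [hX0even]
    ring
  have hpodd : (((p : ℤ) : ℤ) : ZMod 2) = 1 := by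
    obtain ⟨k, hk⟩ := Nat.odd_iff.2 hp
    rw [hk]
    push_cast
    have h2 : (2 : ZMod 2) = 0 := by decide
    rw [h2]
    ring
  -- evaluation of the divisibility
  have hev : X0 ^ (m + 1) ∣ (Y0 ^ (2 * j) + (r : ℤ) ^ 2 * X0) ^ z - Y0 ^ d := by
    have h1 := Polynomial.eval_dvd (x := X0) hX
    simpa [hY0] using h1
  have hX0pow : (2 : ℤ) ^ M ∣ X0 ^ (m + 1) := by
    have h1 : X0 ^ (m + 1) = 2 ^ (2 * i * (m + 1)) * ρ ^ (2 * (m + 1)) := by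
      rw [hX0, mul_pow, ← pow_mul, ← pow_mul, mul_assoc 2 i, pow_mul 2 2 (i * (m + 1))]
      norm_num
    rw [h1]
    exact dvd_mul_of_dvd_left (pow_dvd_pow _ hMm) _
  have hX0R : (r : ZMod (2 ^ M)) ^ 2 * (X0 : ZMod (2 ^ M)) = 4 ^ i := by
    rw [hX0]
    push_cast
    calc (r : ZMod (2 ^ M)) ^ 2 * (4 ^ i * (ρ : ZMod (2 ^ M)) ^ 2) = 4 ^ i * ((r : ZMod (2 ^ M)) * ρ) ^ 2 := by ring
      _ = 4 ^ i := by rw [hrρ, one_pow, mul_one]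
  have hE1 : ((4 : ZMod (2 ^ M)) ^ i + (Y0 : ZMod (2 ^ M)) ^ (2 * j)) ^ z = (Y0 : ZMod (2 ^ M)) ^ d := by
    have h1 := (hcast _).2 (hX0pow.trans hev)
    push_cast at h1
    rw [hX0R, add_comm ((Y0 : ZMod (2 ^ M)) ^ (2 * j))] at h1
    exact sub_eq_zero.1 h1
  have hE2 : ((4 : ZMod (2 ^ M)) ^ i + (p : ZMod (2 ^ M)) ^ (2 * j)) ^ z = (p : ZMod (2 ^ M)) ^ d := by
    have h1 := congrArg (fun a : ℕ => (a : ZMod (2 ^ M))) h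
    push_cast at h1
    have h2 : (2 : ZMod (2 ^ M)) ^ c = 0 := by
      rw [← Nat.add_sub_cancel' hMc, pow_add, h2M, zero_mul]
    rw [h2, zero_add] at h1
    exact h1.symm
  -- the quotient
  obtain ⟨s2, hs2⟩ := sub_dvd_pow_sub_pow ((4 : ℤ) ^ i + (p : ℤ) ^ (2 * j))
    ((4 : ℤ) ^ i + Y0 ^ (2 * j)) z
  have hs1 := geom_sum₂_mul (p : ℤ) Y0 (2 * j)
  have hs3 := geom_sum₂_mul (p : ℤ) Y0 d
  set s1 := ∑ a ∈ Finset.range (2 * j), (p : ℤ) ^ a * Y0 ^ (2 * j - 1 - a) with hs1d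
  set s3 := ∑ a ∈ Finset.range d, (p : ℤ) ^ a * Y0 ^ (d - 1 - a) with hs3d
  have hs1c : ((s1 : ℤ) : ZMod 2) = 0 := by
    rw [hs1d, tayB_sum_cast hpodd hY0odd]
    push_cast
    have h2 : (2 : ZMod 2) = 0 := by decide
    rw [h2, zero_mul]
  have hs3c : ((s3 : ℤ) : ZMod 2) = 1 := by
    rw [hs3d, tayB_sum_cast hpodd hY0odd]
    obtain ⟨k, hk⟩ := Nat.odd_iff.2 hd
    rw [hk]
    push_cast
    have h2 : (2 : ZMod 2) = 0 := by decide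
    rw [h2]
    ring
  have hprod : (2 : ℤ) ^ M ∣ (p - Y0) * (s1 * s2 - s3) := by
    rw [← hcast]
    have h1 : ((p : ℤ) - Y0) * (s1 * s2 - s3)
        = (((4 : ℤ) ^ i + (p : ℤ) ^ (2 * j)) ^ z - ((4 : ℤ) ^ i + Y0 ^ (2 * j)) ^ z)
          - ((p : ℤ) ^ d - Y0 ^ d) := by
      rw [hs2, ← hs3]
      have h2 : (4 : ℤ) ^ i + (p : ℤ) ^ (2 * j) - (4 ^ i + Y0 ^ (2 * j))
          = s1 * (p - Y0) := by
        rw [hs1]
        ring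
      rw [h2]
      ring
    rw [h1]
    push_cast
    rw [hE1, hE2, sub_self]
  have hcop2 : IsCoprime ((2 : ℤ) ^ M) (s1 * s2 - s3) := by
    refine IsCoprime.pow_left ?_
    rw [Int.prime_two.coprime_iff_not_dvd]
    intro hdvd
    have h1 : ((s1 * s2 - s3 : ℤ) : ZMod 2) = 0 :=
      (ZMod.intCast_zmod_eq_zero_iff_dvd _ 2).2 (by exact_mod_cast hdvd)
    push_cast at h1
    rw [hs1c, hs3c] at h1
    revert h1
    rw [zero_mul]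
    decide
  have hpY : (2 : ℤ) ^ M ∣ p - Y0 := hcop2.dvd_of_dvd_mul_right hprod
  have hpYR : (p : ZMod (2 ^ M)) = (Y0 : ZMod (2 ^ M)) := by
    have h1 := (hcast _).2 hpY
    push_cast at h1
    exact sub_eq_zero.1 h1
  rw [← hcast]
  push_cast
  rw [hpYR, hY0, Polynomial.eval_eq_sum_range' (Nat.lt_succ_of_le hdeg)]
  push_cast
  rw [mul_add, mul_one, add_sub_add_left_eq_sub, sub_eq_zero, Finset.mul_sum, Finset.mul_sum,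
    Finset.mul_sum]
  refine Finset.sum_congr rfl fun k hk => ?_
  have hkm : k ≤ m := Nat.lt_succ_iff.1 (Finset.mem_range.1 hk)
  rw [hX0]
  push_cast
  have h1 : (r : ZMod (2 ^ M)) ^ (2 * m) = (r : ZMod (2 ^ M)) ^ (2 * k) * (r : ZMod (2 ^ M)) ^ (2 * (m - k)) := by
    rw [← pow_add]
    congr 1
    omega
  have h2 : ((4 : ZMod (2 ^ M)) ^ i * (ρ : ZMod (2 ^ M)) ^ 2) ^ k = 4 ^ (i * k) * (ρ : ZMod (2 ^ M)) ^ (2 * k) := by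
    rw [mul_pow, ← pow_mul, ← pow_mul]
  have h3 : (r : ZMod (2 ^ M)) ^ (2 * k) * (ρ : ZMod (2 ^ M)) ^ (2 * k) = 1 := by
    rw [← mul_pow, hrρ, one_pow]
  rw [h1, h2]
  calc (r : ZMod (2 ^ M)) ^ (2 * k) * (r : ZMod (2 ^ M)) ^ (2 * (m - k)) * ((r : ZMod (2 ^ M)) * ((y.coeff k : ZMod (2 ^ M)) *
      (4 ^ (i * k) * (ρ : ZMod (2 ^ M)) ^ (2 * k))))
      = ((r : ZMod (2 ^ M)) ^ (2 * k) * (ρ : ZMod (2 ^ M)) ^ (2 * k)) * ((r : ZMod (2 ^ M)) * ((y.coeff k : ZMod (2 ^ M)) * 4 ^ (i * k)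
        * (r : ZMod (2 ^ M)) ^ (2 * (m - k)))) := by ring
    _ = _ := by rw [h3, one_mul]

end Pool.Agent.H91.CA
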