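import Pool.Agent.H91.CA.Def

/-!
JOB CA-10 (homomorphisms of `ℤ√q` to `ℤ_[p]` and to `ℤ_[2]`, about 120-180 lines; independent;
`eA`, `eC`, `eD` are defined in Def.lean: `eA = ⟨2^i, 1⟩`, `eC = ⟨2^(c/2), q^((z-1)/2)⟩`, `eD = ⟨2^i+p^j, 1⟩`).

`adic_p`.  Hensel's lemma (`hensels_lemma`) for `F = X^2 - q` over `ℤ_[p]` at `a = -2^i`:
`F(a) = 4^i - q = -p^(2j)` has norm `< 1` and `F'(a) = -2 * 2^i` has norm `1` (`p` is odd).  This gives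
`s` with `s^2 = q`, `‖s + 2^i‖ < 1`.  `φ = Zsqrtd.lift ⟨s, _⟩`, i.e. `φ ⟨x, y⟩ = x + y s`.
`φ ⟨2^i, -1⟩ = 2^i - s = 2 * 2^i - (s + 2^i)` has norm `1` (unit plus nonunit);
`φ ⟨2^i, 1⟩ * φ ⟨2^i, -1⟩ = 4^i - q = -p^(2j)`, so `φ ⟨2^i, 1⟩ = 2^i + s` has norm `p^(-2j)`;
`s` has norm `1` (`s^2 = q`, `p ∤ q`);
`φ ⟨2^i+p^j, 1⟩ = p^j + (2^i + s)`: norms `p^(-j)` and `p^(-2j) < p^(-j)`, so norm `p^(-j)`;
`φ ⟨2^i+p^j, -1⟩ = p^j + (2^i - s)` has norm `1`.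
`adic_p_c`.  With `C = ⟨2^(c/2), q^((z-1)/2)⟩`, `C * star C = 2^c - q^z = -p^d` (`c` even, `z` odd) and
`C + star C = 2 * 2^(c/2)` has norm `1`; so `φ C`, `φ (star C)` are not both nonunits, and the product of
their norms is `p^(-d)`.

`adic_two`.  Hensel for `F = X^2 - q` over `ℤ_[2]` at `a = p^j`: `‖F(a)‖ = ‖4^i‖ = 2^(-2i)`,
`‖F'(a)‖ = ‖2 p^j‖ = 1/2`, `‖F(a)‖ < 1/4` as `i ≥ 2`.  So there is `s` with `s^2 = q` and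
`‖s - p^j‖ < 1/2`.  `ψ ⟨x, y⟩ = x + y s`.  As `q` is odd, `‖s‖ = 1`; for `a` even and `b` odd
`‖a + b s‖ = 1`.  `ψ ⟨2^i + p^j, 1⟩ = 2^i + 2 p^j + (s - p^j)`: norms `≤ 1/4`, `= 1/2`, `≤ 1/4` (a norm `< 1/2`
is `≤ 1/4`), so norm `1/2 = 2^(-1)`.  `ψ ⟨2^i+p^j, 1⟩ * ψ ⟨2^i+p^j, -1⟩ = (2^i+p^j)^2 - q = 2^(i+1) p^j` has
norm `2^(-(i+1))`, so the other norm is `2^(-i)`.
-/

namespace Pool.Agent.H91.CA

open Zsqrtd

theorem adic_sqrt {p : ℕ} [Fact p.Prime] (q : ℕ) (a : ℤ_[p])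
    (h : ‖a * a - (q : ℤ_[p])‖ < ‖2 * a‖ ^ 2) :
    ∃ s : ℤ_[p], s * s = ((q : ℤ) : ℤ_[p]) ∧ ‖s - a‖ < ‖2 * a‖ := by
  have h1 : (Polynomial.aeval a) (Polynomial.X ^ 2 - Polynomial.C (q : ℤ_[p])) =
      a * a - (q : ℤ_[p]) := by
    simp [pow_two]
  have h2 : (Polynomial.aeval a)
      (Polynomial.derivative (Polynomial.X ^ 2 - Polynomial.C (q : ℤ_[p]))) = 2 * a := by
    simp [one_add_one_eq_two]
  obtain ⟨s, hs, hs2, -, -⟩ := hensels_lemma (p := p) (R := ℤ_[p])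
    (F := Polynomial.X ^ 2 - Polynomial.C (q : ℤ_[p])) (a := a) (by rw [h1, h2]; exact h)
  refine ⟨s, ?_, by rw [← h2]; exact hs2⟩
  have h3 : (Polynomial.aeval s) (Polynomial.X ^ 2 - Polynomial.C (q : ℤ_[p])) =
      s * s - (q : ℤ_[p]) := by
    simp [pow_two]
  rw [h3] at hs
  rw [Int.cast_natCast]
  exact sub_eq_zero.1 hs

theorem adic_two_norm {p : ℕ} [Fact p.Prime] (hp2 : p ≠ 2) : ‖(2 : ℤ_[p])‖ = 1 := by
  have h : ¬ ‖((2 : ℤ) : ℤ_[p])‖ < 1 := by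
    rw [PadicInt.norm_int_lt_one_iff_dvd]
    intro hd
    have h2 : p ∣ 2 := by exact_mod_cast hd
    have h3 := (Nat.prime_dvd_prime_iff_eq (Fact.out : p.Prime) Nat.prime_two).1 h2
    exact hp2 h3
  have h1 := PadicInt.norm_le_one ((2 : ℤ) : ℤ_[p])
  have h4 : ‖((2 : ℤ) : ℤ_[p])‖ = 1 := le_antisymm h1 (not_lt.1 h)
  simpa using h4

theorem adic_add_unit {p : ℕ} [Fact p.Prime] {x y : ℤ_[p]} (hx : ‖x‖ = 1) (hy : ‖y‖ < 1) :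
    ‖x + y‖ = 1 := by
  rw [PadicInt.norm_add_eq_max_of_ne (by rw [hx]; exact hy.ne'), hx]
  exact max_eq_left hy.le

theorem adic_sub_unit {p : ℕ} [Fact p.Prime] {x y : ℤ_[p]} (hx : ‖x‖ = 1) (hy : ‖y‖ < 1) :
    ‖x - y‖ = 1 := by
  rw [sub_eq_add_neg]
  exact adic_add_unit hx (by rwa [_root_.norm_neg])

theorem adic_p {p q i j : ℕ} [Fact p.Prime] (hp2 : p ≠ 2) (hj : 1 ≤ j)
    (hq : q = 4 ^ i + p ^ (2 * j)) :
    ∃ φ : ℤ√(q : ℤ) →+* ℤ_[p], ‖φ ⟨0, 1⟩‖ = 1 ∧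
      ‖φ (eA q i)‖ = ((p : ℝ) ^ (2 * j))⁻¹ ∧ ‖φ (star (eA q i))‖ = 1 ∧
      ‖φ (eD p q i j)‖ = ((p : ℝ) ^ j)⁻¹ ∧
      ‖φ (star (eD p q i j))‖ = 1 := by
  have hp1 : (1 : ℝ) < p := by exact_mod_cast (Fact.out : p.Prime).one_lt
  have hp0 : (0 : ℝ) < p := by linarith
  have n2 := adic_two_norm (p := p) hp2
  have n2i : ‖(2 : ℤ_[p]) ^ i‖ = 1 := by rw [norm_pow, n2, one_pow]
  have npk : ∀ k : ℕ, ‖(p : ℤ_[p]) ^ k‖ = ((p : ℝ) ^ k)⁻¹ := by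
    intro k
    rw [PadicInt.norm_p_pow, zpow_neg, zpow_natCast]
  have hlt : ∀ k : ℕ, 1 ≤ k → ((p : ℝ) ^ k)⁻¹ < 1 := by
    intro k hk
    exact inv_lt_one_of_one_lt₀ (one_lt_pow₀ hp1 (by omega))
  have hqc : (q : ℤ_[p]) = (2 ^ i) * (2 ^ i) + (p : ℤ_[p]) ^ (2 * j) := by
    rw [hq]
    push_cast
    rw [← mul_pow]
    norm_num
  have ha : ‖(-(2 : ℤ_[p]) ^ i) * (-(2 : ℤ_[p]) ^ i) - (q : ℤ_[p])‖ <
      ‖2 * (-(2 : ℤ_[p]) ^ i)‖ ^ 2 := by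
    have e1 : (-(2 : ℤ_[p]) ^ i) * (-(2 : ℤ_[p]) ^ i) - (q : ℤ_[p]) =
        -((p : ℤ_[p]) ^ (2 * j)) := by
      rw [hqc]; ring
    rw [e1, _root_.norm_neg, npk, _root_.norm_mul, _root_.norm_neg, n2i, n2]
    have := hlt (2 * j) (by omega)
    simpa using this
  obtain ⟨s, hs, hs2⟩ := adic_sqrt q (-(2 : ℤ_[p]) ^ i) ha
  have hs3 : ‖s + 2 ^ i‖ < 1 := by
    have e2 : s - -(2 : ℤ_[p]) ^ i = s + 2 ^ i := by ring
    rw [e2, _root_.norm_mul, _root_.norm_neg, n2i, n2] at hs2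
    simpa using hs2
  have hsn : ‖s‖ = 1 := by
    have e3 : s = -(2 : ℤ_[p]) ^ i + (s + 2 ^ i) := by ring
    rw [e3]
    exact adic_add_unit (by rw [_root_.norm_neg]; exact n2i) hs3
  have hminus : ‖(2 : ℤ_[p]) ^ i - s‖ = 1 := by
    have e4 : (2 : ℤ_[p]) ^ i - s = 2 * 2 ^ i - (s + 2 ^ i) := by ring
    rw [e4]
    exact adic_sub_unit (by rw [_root_.norm_mul, n2, n2i, one_mul]) hs3
  have hs' : s * s = (2 ^ i) * (2 ^ i) + (p : ℤ_[p]) ^ (2 * j) := by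
    rw [hs, Int.cast_natCast, hqc]
  have hplus : ‖(2 : ℤ_[p]) ^ i + s‖ = ((p : ℝ) ^ (2 * j))⁻¹ := by
    have e5 : ((2 : ℤ_[p]) ^ i + s) * (2 ^ i - s) = -((p : ℤ_[p]) ^ (2 * j)) := by
      have : ((2 : ℤ_[p]) ^ i + s) * (2 ^ i - s) = 2 ^ i * 2 ^ i - s * s := by ring
      rw [this, hs']; ring
    have e6 := congrArg (fun t => ‖t‖) e5
    beta_reduce at e6
    rw [_root_.norm_mul, hminus, mul_one, _root_.norm_neg, npk] at e6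
    exact e6
  refine ⟨Zsqrtd.lift ⟨s, hs⟩, ?_, ?_, ?_, ?_, ?_⟩
  · have e : (Zsqrtd.lift ⟨s, hs⟩ : ℤ√(q : ℤ) →+* ℤ_[p]) ⟨0, 1⟩ = s := by
      simp
    rw [e, hsn]
  · have e : (Zsqrtd.lift ⟨s, hs⟩ : ℤ√(q : ℤ) →+* ℤ_[p]) (eA q i) = 2 ^ i + s := by
      simp [eA]
    rw [e, hplus]
  · have e : (Zsqrtd.lift ⟨s, hs⟩ : ℤ√(q : ℤ) →+* ℤ_[p]) (star (eA q i)) = 2 ^ i - s := by
      simp [eA]
      ring
    rw [e, hminus]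
  · have e : (Zsqrtd.lift ⟨s, hs⟩ : ℤ√(q : ℤ) →+* ℤ_[p]) (eD p q i j) =
        (p : ℤ_[p]) ^ j + (2 ^ i + s) := by
      simp [eD]
      ring
    have h7 : ((p : ℝ) ^ (2 * j))⁻¹ < ((p : ℝ) ^ j)⁻¹ := by
      apply inv_strictAnti₀ (by positivity)
      exact pow_lt_pow_right₀ hp1 (by omega)
    rw [e, PadicInt.norm_add_eq_max_of_ne (by rw [hplus, npk]; exact h7.ne'), hplus, npk]
    exact max_eq_left h7.le
  · have e : (Zsqrtd.lift ⟨s, hs⟩ : ℤ√(q : ℤ) →+* ℤ_[p]) (star (eD p q i j)) =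
        (2 ^ i - s) + (p : ℤ_[p]) ^ j := by
      simp [eD]
      ring
    rw [e]
    exact adic_add_unit hminus (by rw [npk]; exact hlt j hj)

theorem adic_p_c {p q c d z : ℕ} [Fact p.Prime] (hp2 : p ≠ 2) (hc : c % 2 = 0)
    (hz : z % 2 = 1) (hd : 1 ≤ d) (h : 2 ^ c + p ^ d = q ^ z) (φ : ℤ√(q : ℤ) →+* ℤ_[p]) :
    (‖φ (eC q c z)‖ = ((p : ℝ) ^ d)⁻¹ ∧
      ‖φ (star (eC q c z))‖ = 1) ∨
    (‖φ (eC q c z)‖ = 1 ∧
      ‖φ (star (eC q c z))‖ = ((p : ℝ) ^ d)⁻¹) := by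
  have hp1 : (1 : ℝ) < p := by exact_mod_cast (Fact.out : p.Prime).one_lt
  have n2 := adic_two_norm (p := p) hp2
  have n2i : ‖(2 : ℤ_[p]) ^ (c / 2)‖ = 1 := by rw [norm_pow, n2, one_pow]
  have npk : ‖(p : ℤ_[p]) ^ d‖ = ((p : ℝ) ^ d)⁻¹ := by
    rw [PadicInt.norm_p_pow, zpow_neg, zpow_natCast]
  have hprod : eC q c z * star (eC q c z) = (((-(p : ℤ) ^ d : ℤ)) : ℤ√(q : ℤ)) := by
    have hc2 : c = c / 2 + c / 2 := by omega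
    have hz2 : z = 1 + (z - 1) / 2 + (z - 1) / 2 := by omega
    have h1 : (2 : ℤ) ^ (c / 2) * 2 ^ (c / 2) = 2 ^ c := by
      rw [← pow_add, ← hc2]
    have h2 : (q : ℤ) * (q : ℤ) ^ ((z - 1) / 2) * (q : ℤ) ^ ((z - 1) / 2) = (q : ℤ) ^ z := by
      conv_rhs => rw [hz2]
      rw [pow_add, pow_add, pow_one]
    have h3 : (2 : ℤ) ^ c + (p : ℤ) ^ d = (q : ℤ) ^ z := by exact_mod_cast h
    ext
    · simp only [eC, re_mul, re_star, im_star, re_intCast]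
      linarith
    · simp only [eC, im_mul, re_star, im_star, im_intCast]
      ring
  have hsum : eC q c z + star (eC q c z) = ((2 * 2 ^ (c / 2) : ℤ) : ℤ√(q : ℤ)) := by
    ext
    · simp only [eC, re_add, re_star, re_intCast]
      ring
    · simp only [eC, im_add, im_star, im_intCast]
      ring
  have hprod' : ‖φ (eC q c z)‖ * ‖φ (star (eC q c z))‖ = ((p : ℝ) ^ d)⁻¹ := by
    rw [← _root_.norm_mul, ← map_mul, hprod, map_intCast]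
    push_cast
    rw [_root_.norm_neg, npk]
  have hsum' : ‖φ (eC q c z) + φ (star (eC q c z))‖ = 1 := by
    rw [← map_add, hsum, map_intCast]
    push_cast
    rw [_root_.norm_mul, n2, n2i, one_mul]
  have hle1 := PadicInt.norm_le_one (φ (eC q c z))
  have hle2 := PadicInt.norm_le_one (φ (star (eC q c z)))
  rcases hle1.lt_or_eq with h1 | h1
  · left
    rcases hle2.lt_or_eq with h2 | h2
    · exfalso
      have h3 := PadicInt.nonarchimedean (φ (eC q c z)) (φ (star (eC q c z)))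
      rw [hsum'] at h3
      exact absurd (lt_of_le_of_lt h3 (max_lt h1 h2)) (lt_irrefl _)
    · refine ⟨?_, h2⟩
      rw [h2, mul_one] at hprod'
      exact hprod'
  · right
    refine ⟨h1, ?_⟩
    rw [h1, one_mul] at hprod'
    exact hprod'

theorem adic_two {p q i j : ℕ} (hp2 : p % 2 = 1) (hi : 2 ≤ i)
    (hq : q = 4 ^ i + p ^ (2 * j)) :
    ∃ ψ : ℤ√(q : ℤ) →+* ℤ_[2], (∀ a b : ℤ, Even a → Odd b → ‖ψ ⟨a, b⟩‖ = 1) ∧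
      ‖ψ (eD p q i j)‖ = (2 : ℝ)⁻¹ ∧
      ‖ψ (star (eD p q i j))‖ = ((2 : ℝ) ^ i)⁻¹ := by
  have n2 : ‖(2 : ℤ_[2])‖ = 2⁻¹ := by
    have := PadicInt.norm_p (p := 2)
    simpa using this
  have n2k : ∀ k : ℕ, ‖(2 : ℤ_[2]) ^ k‖ = ((2 : ℝ) ^ k)⁻¹ := by
    intro k
    rw [norm_pow, n2, inv_pow]
  have nodd : ∀ k : ℤ, Odd k → ‖(k : ℤ_[2])‖ = 1 := by
    intro k hk
    have h : ¬ ‖(k : ℤ_[2])‖ < 1 := by
      rw [PadicInt.norm_int_lt_one_iff_dvd]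
      intro hd
      have h2 : (2 : ℤ) ∣ k := by exact_mod_cast hd
      exact (Int.not_even_iff_odd.2 hk) (even_iff_two_dvd.2 h2)
    exact le_antisymm (PadicInt.norm_le_one _) (not_lt.1 h)
  have hpodd : Odd (p : ℤ) := by
    rw [Int.odd_coe_nat]
    exact Nat.odd_iff.2 hp2
  have npj : ‖(p : ℤ_[2]) ^ j‖ = 1 := by
    have := nodd (p : ℤ) hpodd
    rw [Int.cast_natCast] at this
    rw [norm_pow, this, one_pow]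
  have hqc : (q : ℤ_[2]) = 2 ^ (2 * i) + (p : ℤ_[2]) ^ j * (p : ℤ_[2]) ^ j := by
    rw [hq]
    push_cast
    rw [pow_mul 2 2 i, pow_mul, pow_two (p : ℤ_[2]), mul_pow]
    norm_num
  have ha : ‖((p : ℤ_[2]) ^ j) * ((p : ℤ_[2]) ^ j) - (q : ℤ_[2])‖ <
      ‖2 * ((p : ℤ_[2]) ^ j)‖ ^ 2 := by
    have e1 : ((p : ℤ_[2]) ^ j) * ((p : ℤ_[2]) ^ j) - (q : ℤ_[2]) = -((2 : ℤ_[2]) ^ (2 * i)) := by
      rw [hqc]; ring
    rw [e1, _root_.norm_neg, n2k, _root_.norm_mul, npj, n2, mul_one, inv_pow]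
    apply inv_strictAnti₀ (by positivity)
    exact pow_lt_pow_right₀ (by norm_num) (by omega)
  obtain ⟨s, hs, hs2⟩ := adic_sqrt q ((p : ℤ_[2]) ^ j) ha
  rw [_root_.norm_mul, npj, mul_one, n2] at hs2
  -- a norm below 1/2 is at most 1/4
  have hquarter : ∀ x : ℤ_[2], ‖x‖ < 2⁻¹ → ‖x‖ ≤ 4⁻¹ := by
    intro x hx
    have h1 := (PadicInt.norm_le_pow_iff_norm_lt_pow_add_one x (-2)).2 (by
      have : ((2 : ℕ) : ℝ) ^ (-2 + 1 : ℤ) = 2⁻¹ := by norm_num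
      rw [this]; exact hx)
    have h2 : ((2 : ℕ) : ℝ) ^ (-2 : ℤ) = 4⁻¹ := by norm_num
    rw [h2] at h1
    exact h1
  have hs3 : ‖s - (p : ℤ_[2]) ^ j‖ ≤ 4⁻¹ := hquarter _ hs2
  have hsn : ‖s‖ = 1 := by
    have e3 : s = (p : ℤ_[2]) ^ j + (s - (p : ℤ_[2]) ^ j) := by ring
    rw [e3]
    exact adic_add_unit npj (lt_of_le_of_lt hs3 (by norm_num))
  have hs' : s * s = 2 ^ (2 * i) + (p : ℤ_[2]) ^ j * (p : ℤ_[2]) ^ j := by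
    rw [hs, Int.cast_natCast, hqc]
  have hplus : ‖(2 : ℤ_[2]) ^ i + (p : ℤ_[2]) ^ j + s‖ = 2⁻¹ := by
    have e4 : (2 : ℤ_[2]) ^ i + (p : ℤ_[2]) ^ j + s =
        2 * (p : ℤ_[2]) ^ j + (2 ^ i + (s - (p : ℤ_[2]) ^ j)) := by ring
    have h5 : ‖(2 : ℤ_[2]) ^ i + (s - (p : ℤ_[2]) ^ j)‖ ≤ 4⁻¹ := by
      refine (PadicInt.nonarchimedean _ _).trans (max_le ?_ hs3)
      rw [n2k]
      have h6 : (2 : ℝ) ^ 2 ≤ 2 ^ i := pow_le_pow_right₀ (by norm_num) hi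
      have h7 : ((2 : ℝ) ^ i)⁻¹ ≤ (2 ^ 2)⁻¹ := inv_anti₀ (by norm_num) h6
      exact h7.trans (by norm_num)
    have h8 : ‖2 * (p : ℤ_[2]) ^ j‖ = 2⁻¹ := by rw [_root_.norm_mul, n2, npj, mul_one]
    have h9 : ‖(2 : ℤ_[2]) ^ i + (s - (p : ℤ_[2]) ^ j)‖ < 2⁻¹ := lt_of_le_of_lt h5 (by norm_num)
    rw [e4, PadicInt.norm_add_eq_max_of_ne (by rw [h8]; exact h9.ne'), h8]
    exact max_eq_left h9.le
  refine ⟨Zsqrtd.lift ⟨s, hs⟩, ?_, ?_, ?_⟩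
  · intro a b hea hob
    have e : (Zsqrtd.lift ⟨s, hs⟩ : ℤ√(q : ℤ) →+* ℤ_[2]) ⟨a, b⟩ = (b : ℤ_[2]) * s + (a : ℤ_[2]) := by
      simp
      ring
    rw [e]
    refine adic_add_unit (by rw [_root_.norm_mul, nodd b hob, hsn, one_mul]) ?_
    rw [PadicInt.norm_int_lt_one_iff_dvd]
    exact_mod_cast even_iff_two_dvd.1 hea
  · have e : (Zsqrtd.lift ⟨s, hs⟩ : ℤ√(q : ℤ) →+* ℤ_[2]) (eD p q i j) =
        2 ^ i + (p : ℤ_[2]) ^ j + s := by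
      simp [eD]
    rw [e, hplus]
  · have e : (Zsqrtd.lift ⟨s, hs⟩ : ℤ√(q : ℤ) →+* ℤ_[2]) (star (eD p q i j)) =
        2 ^ i + (p : ℤ_[2]) ^ j - s := by
      simp [eD]
      ring
    rw [e]
    have e5 : ((2 : ℤ_[2]) ^ i + (p : ℤ_[2]) ^ j + s) * (2 ^ i + (p : ℤ_[2]) ^ j - s) =
        2 ^ (i + 1) * (p : ℤ_[2]) ^ j := by
      have : ((2 : ℤ_[2]) ^ i + (p : ℤ_[2]) ^ j + s) * (2 ^ i + (p : ℤ_[2]) ^ j - s) =
          (2 ^ i + (p : ℤ_[2]) ^ j) * (2 ^ i + (p : ℤ_[2]) ^ j) - s * s := by ring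
      rw [this, hs']; ring
    have e6 := congrArg (fun t => ‖t‖) e5
    beta_reduce at e6
    rw [_root_.norm_mul, hplus, _root_.norm_mul, npj, mul_one, n2k] at e6
    rw [pow_succ, mul_inv] at e6
    have e7 : (2 : ℝ)⁻¹ * ‖(2 : ℤ_[2]) ^ i + (p : ℤ_[2]) ^ j - s‖ = 2⁻¹ * ((2 : ℝ) ^ i)⁻¹ := by
      rw [e6]; ring
    exact mul_left_cancel₀ (by norm_num) e7

end Pool.Agent.H91.CA
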