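import Mathlib

/-!
JOB CA-26 (numerical deduction for the main case, about 100-150 lines; independent).

Notation: `lp = log p > 4` (`p ≥ 97`), `κ = 10^8 (log t)²`, `w = 4^i < p`.
(1) `t ≤ 2j lp + log 2 ≤ 3 j lp` (as `4^i ≤ p ≤ p^(2j)`), `2 j lp ≤ t`.
(2) `i log 4 ≤ lp`, so `i ≤ lp` (`log 4 > 1`).
(3) `11 (i-1)(r+1) ≤ 22 i r` (`r ≥ 1`).  So `j² lp ≤ 22 i r ≤ 22 lp r`, `j² ≤ 22 r`.
(4) `i r ≥ j² lp/22`, `r lp ≤ κ t`: `i ≥ j² lp/(22 r) ≥ (j lp)²/(22 κ t) ≥ t²/(9 * 22 κ t) = t/(198 κ)`.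
(5) `m`: the least natural number with `p ≤ w^m` (`Nat.find`, or `Nat.clog w p`); `w^(m-1) < p` by minimality
(`m ≥ 1` since `p > 1`), `m ≥ 2` since `p > w`.  `(m-1) i log 4 < lp`, so `m ≤ 2 (m-1) ≤ 2 lp/i`.
(6) `(2j+1) m ≤ 3 j * 2 lp / i = 6 j lp / i ≤ 3 t/i ≤ 594 κ` by (1), (4).
(7) `n = 2 j z ≤ t * t^4 = t^5` (`2 j ≤ 2 j lp ≤ t`), `64 n^4 ≤ 64 t^20 ≤ t^21` (`t ≥ 64`).
(8) `log (4 (64 n^4)^((2j+1)m)) ≤ log 4 + 594 κ * 21 log t = log 4 + 12474 κ log t < t/(198 κ) ≤ i ≤ i log 4`.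
-/

namespace Pool.Agent.H91.CA

theorem CaseN_lp {p : ℕ} (hp97 : 97 ≤ p) : (4 : ℝ) < Real.log p := by
  have hp : (97 : ℝ) ≤ p := by exact_mod_cast hp97
  rw [Real.lt_log_iff_exp_lt (by linarith)]
  have h1 : Real.exp 4 = Real.exp 1 ^ 4 := by
    rw [← Real.exp_nat_mul]
    norm_num
  have h2 : Real.exp 1 ^ 4 < (2.7182818286 : ℝ) ^ 4 :=
    pow_lt_pow_left₀ Real.exp_one_lt_d9 (Real.exp_pos 1).le (by norm_num)
  have h3 : (2.7182818286 : ℝ) ^ 4 < 97 := by norm_num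
  rw [h1]
  linarith

theorem CaseN_log4 : (1 : ℝ) < Real.log 4 := by
  rw [Real.lt_log_iff_exp_lt (by norm_num)]
  linarith [Real.exp_one_lt_d9]

theorem CaseN_q {p i j : ℕ} (hp97 : 97 ≤ p) (hj : 1 ≤ j) (h4 : 4 ^ i < p) :
    (4 : ℝ) ^ i + (p : ℝ) ^ (2 * j) ≤ 2 * (p : ℝ) ^ (2 * j) := by
  have h1 : (4 : ℝ) ^ i < p := by exact_mod_cast h4
  have h2 : (p : ℝ) ≤ (p : ℝ) ^ (2 * j) :=
    le_self_pow₀ (by exact_mod_cast (by omega : 1 ≤ p)) (by omega)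
  linarith

theorem CaseN_tlow {p i j : ℕ} {t : ℝ} (hp97 : 97 ≤ p)
    (ht : t = Real.log ((4 : ℝ) ^ i + (p : ℝ) ^ (2 * j))) : 2 * j * Real.log p ≤ t := by
  have hp : (0 : ℝ) < p := by exact_mod_cast (by omega : 0 < p)
  have h1 : Real.log ((p : ℝ) ^ (2 * j)) ≤ t := by
    rw [ht]
    exact Real.log_le_log (by positivity) (le_add_of_nonneg_left (by positivity))
  rw [Real.log_pow] at h1
  push_cast at h1
  exact h1

theorem CaseN_tup {p i j : ℕ} {t : ℝ} (hp97 : 97 ≤ p) (hj : 1 ≤ j) (h4 : 4 ^ i < p)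
    (ht : t = Real.log ((4 : ℝ) ^ i + (p : ℝ) ^ (2 * j))) : t ≤ 3 * j * Real.log p := by
  have hp : (0 : ℝ) < p := by exact_mod_cast (by omega : 0 < p)
  have h1 : t ≤ Real.log (2 * (p : ℝ) ^ (2 * j)) := by
    rw [ht]
    exact Real.log_le_log (by positivity) (CaseN_q hp97 hj h4)
  rw [Real.log_mul (by norm_num) (by positivity), Real.log_pow] at h1
  push_cast at h1
  have h2 : Real.log 2 < 1 := by
    have := Real.log_two_lt_d9
    linarith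
  have h3 := CaseN_lp hp97
  have h5 : (1 : ℝ) ≤ j := by exact_mod_cast hj
  nlinarith

theorem CaseN_key {p i j : ℕ} {t : ℝ} (hp97 : 97 ≤ p) (hj : 1 ≤ j) (h4 : 4 ^ i < p)
    (ht : t = Real.log ((4 : ℝ) ^ i + (p : ℝ) ^ (2 * j)))
    (h200 : 200 ≤ t) (hexp : 32 * t ^ 10 ≤ Real.exp (t / 2)) :
    16 * t ^ 10 ≤ (p : ℝ) ^ (2 * j - 1) := by
  have hp : (1 : ℝ) ≤ p := by exact_mod_cast (by omega : 1 ≤ p)
  have h1 : Real.exp (t / 2) ^ 2 ≤ 2 * (p : ℝ) ^ (2 * j) := by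
    rw [← Real.exp_nat_mul]
    have h2 : ((2 : ℕ) : ℝ) * (t / 2) = t := by
      push_cast
      ring
    rw [h2, ht, Real.exp_log (by positivity)]
    exact CaseN_q hp97 hj h4
  have h2 : (32 * t ^ 10) ^ 2 ≤ Real.exp (t / 2) ^ 2 :=
    pow_le_pow_left₀ (by positivity) hexp 2
  have h3 : (p : ℝ) ^ (2 * j) ≤ ((p : ℝ) ^ (2 * j - 1)) ^ 2 := by
    rw [← pow_mul]
    exact pow_le_pow_right₀ hp (by omega)
  have h5 : (16 * t ^ 10) ^ 2 ≤ ((p : ℝ) ^ (2 * j - 1)) ^ 2 := by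
    nlinarith
  exact le_of_sq_le_sq h5 (by positivity)

theorem CaseN_jt {p i j : ℕ} {t : ℝ} (hp97 : 97 ≤ p)
    (ht : t = Real.log ((4 : ℝ) ^ i + (p : ℝ) ^ (2 * j))) : 2 * (j : ℝ) ≤ t := by
  have h1 := CaseN_tlow hp97 ht
  have h2 := CaseN_lp hp97
  have h3 : (0 : ℝ) ≤ j := Nat.cast_nonneg j
  nlinarith

theorem CaseN_find {p i : ℕ} (hi : 2 ≤ i) (h4 : 4 ^ i < p) :
    ∃ m : ℕ, 2 ≤ m ∧ 4 ^ (i * (m - 1)) < p ∧ p ≤ 4 ^ (i * m) := by
  classical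
  have hex : ∃ m : ℕ, p ≤ 4 ^ (i * m) := by
    refine ⟨p, ?_⟩
    calc p ≤ i * p := Nat.le_mul_of_pos_left p (by omega)
      _ ≤ 4 ^ (i * p) := (Nat.lt_pow_self (by norm_num)).le
  have h1 : 2 ≤ Nat.find hex := by
    by_contra h
    have h2 := Nat.find_spec hex
    have h3 : 4 ^ (i * Nat.find hex) ≤ 4 ^ i :=
      Nat.pow_le_pow_right (by norm_num) (by
        have h5 : Nat.find hex ≤ 1 := by omega
        calc i * Nat.find hex ≤ i * 1 := Nat.mul_le_mul_left i h5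
          _ = i := mul_one i)
    omega
  refine ⟨Nat.find hex, h1, ?_, Nat.find_spec hex⟩
  have h2 := Nat.find_min hex (m := Nat.find hex - 1) (by omega)
  omega

theorem case_num {p i j z r n : ℕ} {t : ℝ} (hp97 : 97 ≤ p) (hi : 2 ≤ i) (hj : 1 ≤ j)
    (hz : 1 ≤ z) (hr1 : 1 ≤ r) (hn : n = 2 * j * z) (h4 : 4 ^ i < p)
    (ht : t = Real.log ((4 : ℝ) ^ i + (p : ℝ) ^ (2 * j)))
    (hinf : (j : ℝ) ^ 2 * Real.log p ≤ 11 * ((i : ℝ) - 1) * (r + 1))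
    (hr : r * Real.log p ≤ 10 ^ 8 * (Real.log t) ^ 2 * t) (hzt : (z : ℝ) ≤ t ^ 4)
    (h200 : 200 ≤ t) (hlog : 5 ≤ Real.log t)
    (hfin : Real.log 4 + 12474 * (10 ^ 8 * (Real.log t) ^ 2) * Real.log t <
      t / (198 * (10 ^ 8 * (Real.log t) ^ 2))) :
    ∃ m : ℕ, 4 ^ (i * (m - 1)) < p ∧ p ≤ 4 ^ (i * m) ∧
      4 * (64 * n ^ 4) ^ ((2 * j + 1) * m) < 4 ^ i := by
  obtain ⟨m, hm2, hm1, hm⟩ := CaseN_find hi h4
  refine ⟨m, hm1, hm, ?_⟩
  have hlp := CaseN_lp hp97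
  have hl4 := CaseN_log4
  have htl := CaseN_tlow hp97 ht
  have htu := CaseN_tup hp97 hj h4 ht
  have hjt := CaseN_jt hp97 ht
  have hjR : (1 : ℝ) ≤ j := by exact_mod_cast hj
  have hzR : (1 : ℝ) ≤ z := by exact_mod_cast hz
  have hrR : (1 : ℝ) ≤ r := by exact_mod_cast hr1
  have hiR : (2 : ℝ) ≤ i := by exact_mod_cast hi
  have hmR : (2 : ℝ) ≤ m := by exact_mod_cast hm2
  set lp : ℝ := Real.log p with hlpdef
  set κ : ℝ := 10 ^ 8 * (Real.log t) ^ 2 with hκ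
  have hκ0 : 0 < κ := by positivity
  -- step 4
  have h22 : (j : ℝ) ^ 2 * lp ≤ 22 * (i * r) := by
    have h1 : ((i : ℝ) - 1) * (r + 1) ≤ i * (2 * r) :=
      mul_le_mul (by linarith) (by linarith) (by linarith) (by linarith)
    linarith
  have h5 : (j * lp) ^ 2 ≤ 22 * (i * (κ * t)) := by
    have h6 : (j * lp) ^ 2 = (j ^ 2 * lp) * lp := by ring
    have h7 : (j ^ 2 * lp) * lp ≤ 22 * (i * r) * lp :=
      mul_le_mul_of_nonneg_right h22 (by linarith)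
    have h8 : 22 * ((i : ℝ) * r) * lp = 22 * (i * (r * lp)) := by ring
    have h9 : (i : ℝ) * (r * lp) ≤ i * (κ * t) := mul_le_mul_of_nonneg_left hr (by linarith)
    linarith
  have h10 : t ≤ 198 * (i * κ) := by
    have h6 : t ^ 2 ≤ (3 * (j * lp)) ^ 2 :=
      pow_le_pow_left₀ (by linarith) (by linarith) 2
    have h7 : t * t ≤ 198 * (i * κ) * t := by nlinarith
    exact le_of_mul_le_mul_right h7 (by linarith)
  have h11 : t / (198 * κ) ≤ i := by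
    rw [div_le_iff₀ (by positivity)]
    linarith
  -- step 5
  have h12 : (i : ℝ) * (m - 1) ≤ lp := by
    have h13 : ((4 : ℝ) ^ (i * (m - 1))) ≤ p := by exact_mod_cast hm1.le
    have h14 := Real.log_le_log (by positivity) h13
    rw [Real.log_pow] at h14
    have h15 : ((i * (m - 1) : ℕ) : ℝ) = (i : ℝ) * (m - 1) := by
      rw [Nat.cast_mul, Nat.cast_sub (by omega), Nat.cast_one]
    rw [h15] at h14
    have h16 : (0 : ℝ) ≤ (i : ℝ) * (m - 1) := mul_nonneg (by linarith) (by linarith)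
    nlinarith
  have h17 : (i : ℝ) * m ≤ 2 * lp := by
    have h18 : (i : ℝ) * m ≤ i * (2 * (m - 1)) :=
      mul_le_mul_of_nonneg_left (by linarith) (by linarith)
    linarith
  -- step 6
  have h19 : (((2 * j + 1) * m : ℕ) : ℝ) ≤ 594 * κ := by
    push_cast
    have h20 : (i : ℝ) * ((2 * j + 1) * m) ≤ i * (594 * κ) := by
      have h21 : (i : ℝ) * ((2 * j + 1) * m) = (2 * j + 1) * (i * m) := by ring
      have h23 : (2 * (j : ℝ) + 1) * (i * m) ≤ (3 * j) * (2 * lp) :=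
        mul_le_mul (by linarith) h17 (by positivity) (by positivity)
      rw [h21]
      nlinarith
    exact le_of_mul_le_mul_left h20 (by linarith)
  -- step 7
  have hn1 : (n : ℝ) ≤ t ^ 5 := by
    rw [hn]
    push_cast
    calc 2 * (j : ℝ) * z ≤ t * t ^ 4 := mul_le_mul hjt hzt (by linarith) (by linarith)
      _ = t ^ 5 := by ring
  have hn0 : (1 : ℝ) ≤ n := by
    have : 1 ≤ n := by
      rw [hn]
      exact Nat.succ_le_of_lt (by positivity)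
    exact_mod_cast this
  have h24 : 64 * (n : ℝ) ^ 4 ≤ t ^ 21 := by
    have h25 : (n : ℝ) ^ 4 ≤ (t ^ 5) ^ 4 := pow_le_pow_left₀ (by linarith) hn1 4
    calc 64 * (n : ℝ) ^ 4 ≤ t * (t ^ 5) ^ 4 :=
          mul_le_mul (by linarith) h25 (by positivity) (by linarith)
      _ = t ^ 21 := by ring
  have h26 : Real.log (64 * (n : ℝ) ^ 4) ≤ 21 * Real.log t := by
    have h27 := Real.log_le_log (by positivity) h24
    rw [Real.log_pow] at h27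
    push_cast at h27
    exact h27
  -- step 8
  have h28 : Real.log (4 * (64 * (n : ℝ) ^ 4) ^ ((2 * j + 1) * m)) < Real.log ((4 : ℝ) ^ i) := by
    rw [Real.log_mul (by norm_num) (by positivity), Real.log_pow, Real.log_pow]
    have h29 : (((2 * j + 1) * m : ℕ) : ℝ) * Real.log (64 * (n : ℝ) ^ 4) ≤
        594 * κ * (21 * Real.log t) := by
      refine mul_le_mul h19 h26 (Real.log_nonneg ?_) (by positivity)
      have h30 : (1 : ℝ) ≤ (n : ℝ) ^ 4 := one_le_pow₀ hn0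
      linarith
    have h31 : (i : ℝ) ≤ i * Real.log 4 := by nlinarith
    nlinarith
  have h32 := (Real.log_lt_log_iff (by positivity) (by positivity)).1 h28
  exact_mod_cast h32

/-- The smallness condition for the lattice argument: `2^i < √p`, `p^(2j-1) ≥ p^j ≥ √(q/2)`,
`exp(t/2) = √q`, `4 j z ≤ 4 t^5`; so `(4 j z 2^i)² ≤ 16 t^10 p ≤ p^(2j)` because
`16 t^10 ≤ exp(t/2)/2 ≤ √(q/2) ≤ p^j ≤ p^(2j-1)`. -/
theorem case_small {p i j z : ℕ} {t : ℝ} (hp97 : 97 ≤ p) (hj : 1 ≤ j) (h4 : 4 ^ i < p)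
    (ht : t = Real.log ((4 : ℝ) ^ i + (p : ℝ) ^ (2 * j))) (hzt : (z : ℝ) ≤ t ^ 4)
    (h200 : 200 ≤ t) (hexp : 32 * t ^ 10 ≤ Real.exp (t / 2)) : 4 * j * z * 2 ^ i ≤ p ^ j := by
  have hkey := CaseN_key hp97 hj h4 ht h200 hexp
  have hjt := CaseN_jt hp97 ht
  have hp0 : (0 : ℝ) ≤ p := Nat.cast_nonneg p
  have hj0 : (0 : ℝ) ≤ j := Nat.cast_nonneg j
  have hz0 : (0 : ℝ) ≤ z := Nat.cast_nonneg z
  have h4R : (4 : ℝ) ^ i ≤ p := by exact_mod_cast h4.le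
  have h1 : (4 * (j : ℝ) * z) ^ 2 ≤ 16 * t ^ 10 := by
    have h2 : (j : ℝ) * z ≤ t * t ^ 4 := mul_le_mul (by linarith) hzt hz0 (by linarith)
    have h3 : ((j : ℝ) * z) ^ 2 ≤ (t * t ^ 4) ^ 2 := pow_le_pow_left₀ (by positivity) h2 2
    calc (4 * (j : ℝ) * z) ^ 2 = 16 * ((j : ℝ) * z) ^ 2 := by ring
      _ ≤ 16 * (t * t ^ 4) ^ 2 := by linarith
      _ = 16 * t ^ 10 := by ring
  have h2 : (4 * (j : ℝ) * z * 2 ^ i) ^ 2 ≤ ((p : ℝ) ^ j) ^ 2 := by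
    calc (4 * (j : ℝ) * z * 2 ^ i) ^ 2 = (4 * (j : ℝ) * z) ^ 2 * 4 ^ i := by
          rw [mul_pow, ← pow_mul, mul_comm i 2, pow_mul]
          norm_num
      _ ≤ (p : ℝ) ^ (2 * j - 1) * p :=
          mul_le_mul (h1.trans hkey) h4R (by positivity) (by positivity)
      _ = ((p : ℝ) ^ j) ^ 2 := by
          rw [← pow_succ, ← pow_mul]
          exact congrArg _ (by omega)
  have h3 := le_of_sq_le_sq h2 (by positivity)
  exact_mod_cast h3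

/-- `z > p^(2j)/4^i > p^(2j-1) ≥ p^j ≥ √(q/2) > t^4`. -/
theorem case_b1 {p i j z : ℕ} {t : ℝ} (hp97 : 97 ≤ p) (hj : 1 ≤ j) (h4 : 4 ^ i < p)
    (ht : t = Real.log ((4 : ℝ) ^ i + (p : ℝ) ^ (2 * j))) (hzt : (z : ℝ) ≤ t ^ 4)
    (h200 : 200 ≤ t) (hexp : 32 * t ^ 10 ≤ Real.exp (t / 2))
    (hlow : (p : ℝ) ^ (2 * j) * Real.log p < z * 4 ^ i) : False := by
  have hkey := CaseN_key hp97 hj h4 ht h200 hexp
  have hlp := CaseN_lp hp97
  have hp0 : (0 : ℝ) < p := by exact_mod_cast (by omega : 0 < p)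
  have hz0 : (0 : ℝ) ≤ z := Nat.cast_nonneg z
  have h4R : (4 : ℝ) ^ i ≤ p := by exact_mod_cast h4.le
  have h1 : (z : ℝ) * 4 ^ i ≤ t ^ 4 * p := mul_le_mul hzt h4R (by positivity) (by positivity)
  have h2 : (p : ℝ) ^ (2 * j) = (p : ℝ) ^ (2 * j - 1) * p := by
    rw [← pow_succ]
    exact congrArg _ (by omega)
  have h3 : (p : ℝ) ^ (2 * j) * 1 ≤ (p : ℝ) ^ (2 * j) * Real.log p :=
    mul_le_mul_of_nonneg_left (by linarith) (by positivity)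
  have h5 : (p : ℝ) ^ (2 * j - 1) * p < t ^ 4 * p := by linarith
  have h6 : (p : ℝ) ^ (2 * j - 1) < t ^ 4 := lt_of_mul_lt_mul_right h5 hp0.le
  have h7 : t ^ 4 ≤ t ^ 10 := pow_le_pow_right₀ (by linarith) (by norm_num)
  have h8 : (0 : ℝ) < t ^ 10 := by positivity
  linarith

end Pool.Agent.H91.CA
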