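import Mathlib

/-! Definitions for the lattice argument (no job in this file). -/

namespace Pool.Agent.H91.CA

/-- `XA = log ((2^i + √q) / p^j)`. -/
noncomputable def XA (p q i j : ℕ) : ℝ :=
  Real.log (2 ^ i + Real.sqrt q) - j * Real.log p

/-- `XC = log ((2^(c/2) + √(q^z)) / p^(d/2))`. -/
noncomputable def XC (p q c d z : ℕ) : ℝ :=
  Real.log (2 ^ (c / 2) + Real.sqrt ((q : ℝ) ^ z)) - d / 2 * Real.log p

/-- `XD = log ((2^i + p^j + √q) / √(2^(i+1) p^j))`. -/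
noncomputable def XD (p q i j : ℕ) : ℝ :=
  Real.log (2 ^ i + (p : ℝ) ^ j + Real.sqrt q) - ((i + 1) * Real.log 2 + j * Real.log p) / 2

/-- `x^n` for `n ≥ 0`, `(conjugate of x)^(-n)` for `n ≤ 0`. -/
def pw {q : ℤ} (x : ℤ√q) (n : ℤ) : ℤ√q := x ^ n.toNat * (star x) ^ (-n).toNat

/-- The real embedding `⟨x, y⟩ ↦ x + y √q`. -/
noncomputable def emb (q : ℕ) : ℤ√(q : ℤ) →+* ℝ :=
  Zsqrtd.lift ⟨Real.sqrt q, by rw [Real.mul_self_sqrt (Nat.cast_nonneg q)]; simp⟩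

theorem emb_apply (q : ℕ) (x y : ℤ) : emb q ⟨x, y⟩ = x + y * Real.sqrt q := by
  simp [emb]

/-- The elements `A`, `C`, `D` of the paper proof. -/
def eA (q i : ℕ) : ℤ√(q : ℤ) := ⟨2 ^ i, 1⟩

/-- The element `2^(c/2) + √(q^z)`. -/
def eC (q c z : ℕ) : ℤ√(q : ℤ) := ⟨2 ^ (c / 2), (q : ℤ) ^ ((z - 1) / 2)⟩

/-- The element `2^i + p^j + √q`. -/
def eD (p q i j : ℕ) : ℤ√(q : ℤ) := ⟨2 ^ i + (p : ℤ) ^ j, 1⟩

end Pool.Agent.H91.CA
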