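import Mathlib

/-!
JOB CA-03 (small determinant, real case, about 100-150 lines).

Let `N = card ι`.  Proof.  If `ι` is empty the determinant is `1` and the bound is `1`.  Assume `N ≥ 1`;
then `0 ≤ M` (from `hrow`).  Index set of summands `O = Option (Fin T)` (or `range T` plus an extra
symbol): for a column `j` and `o : O` put `g(o,j,i) = x j ^ t * c t i` for `o = some t` and
`g(none,j,i) = b i j`.  Then the entry `(i,j)` is `∑_o g(o,j,i)` and
`det = ∑_σ sign σ ∏_j ∑_o g(o,j,σ j) = ∑_{f : ι → O} det (g(f j, j, i))_{i,j}` (`Finset.prod_univ_sum`,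
`Finset.sum_comm`).
If `f j = f j' = some t` for some `j ≠ j'`, the columns `j` and `j'` are both multiples of `c t`, so that
determinant is `0`.  So only `f` which are injective on `{j | f j ≠ none}` contribute; for such `f` with
`n = N - #{j | f j = none}` the values `t_j` are `n` distinct naturals, `∑ t_j ≥ n (n-1) / 2`, and
`|det (g(f j, j, i))| ≤ ∑_σ ∏_j |g(f j, j, σ j)|`, where for `f j = some t`:
`|g| ≤ |c t (σ j)| H^t = |c t (σ j)| (e H)^t e^{-t}`, and for `f j = none`: `|g| ≤ M e^{-N}`.
(`H ≥ 0` since `|x j| ≤ H`.)  Hence the product is at most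
`∏_j h(f j, σ j) * exp(-(n(n-1)/2 + N (N - n)))` with `h(some t, i) = |c t i| (e H)^t`, `h(none, i) = M`,
and `n(n-1)/2 + N(N-n) ≥ N(N-1)/2` (the difference is `(N-n)(N-n+1)/2`).
Finally `∑_f ∏_j h(f j, σ j) = ∏_j ∑_o h(o, σ j) ≤ (M + M)^N = 2^N M^N`, and there are `N!`
permutations `σ`.
-/

namespace Pool.Agent.H91.CA

theorem detA_sum_nat (s : Finset ℕ) :
    (s.card : ℝ) * ((s.card : ℝ) - 1) / 2 ≤ ∑ x ∈ s, (x : ℝ) := by
  induction s using Finset.induction_on_max with
  | empty => simp
  | insert a s ha ih =>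
    have hns : a ∉ s := fun h => lt_irrefl _ (ha a h)
    have hsub : s ⊆ Finset.range a := fun x hx => Finset.mem_range.2 (ha x hx)
    have hc : s.card ≤ a := by simpa using Finset.card_le_card hsub
    rw [Finset.card_insert_of_notMem hns, Finset.sum_insert hns]
    have hc' : (s.card : ℝ) ≤ a := by exact_mod_cast hc
    push_cast
    nlinarith [ih, hc']

theorem detA_weight {ι : Type*} [Fintype ι] [DecidableEq ι] (T : ℕ) (f : ι → Option (Fin T))
    (hf : ∀ j j', j ≠ j' → ∀ t, f j = some t → f j' ≠ some t) :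
    (Fintype.card ι : ℝ) * ((Fintype.card ι : ℝ) - 1) / 2 ≤
      ∑ j, (match f j with
        | some t => ((t : ℕ) : ℝ)
        | none => (Fintype.card ι : ℝ)) := by
  classical
  set w : ι → ℝ := fun j => (match f j with
        | some t => ((t : ℕ) : ℝ)
        | none => (Fintype.card ι : ℝ)) with hw
  set v : ι → ℕ := fun j => (match f j with
        | some t => (t : ℕ)
        | none => 0) with hv
  set S : Finset ι := Finset.univ.filter (fun j => f j ≠ none) with hS
  have hinj : Set.InjOn v (S : Set ι) := by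
    intro j hj j' hj' h
    by_contra hne
    have h1 : f j ≠ none := by simpa [hS] using hj
    have h2 : f j' ≠ none := by simpa [hS] using hj'
    obtain ⟨t, ht⟩ := Option.ne_none_iff_exists'.1 h1
    obtain ⟨t', ht'⟩ := Option.ne_none_iff_exists'.1 h2
    simp only [hv, ht, ht'] at h
    have : t = t' := Fin.ext h
    subst this
    exact hf j j' hne t ht ht'
  have h1 := detA_sum_nat (S.image v)
  rw [Finset.card_image_of_injOn hinj, Finset.sum_image hinj] at h1
  have h2 : ∑ j ∈ S, (v j : ℝ) = ∑ j ∈ S, w j := by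
    refine Finset.sum_congr rfl fun j hj => ?_
    have h1 : f j ≠ none := by simpa [hS] using hj
    obtain ⟨t, ht⟩ := Option.ne_none_iff_exists'.1 h1
    simp only [hv, hw, ht]
  have h3 : ∑ j ∈ Sᶜ, w j = (Sᶜ.card : ℝ) * (Fintype.card ι : ℝ) := by
    rw [← nsmul_eq_mul]
    refine Finset.sum_eq_card_nsmul fun j hj => ?_
    have h1 : f j = none := by simpa [hS] using hj
    simp only [hw, h1]
  have h4 : ∑ j, w j = ∑ j ∈ S, w j + ∑ j ∈ Sᶜ, w j := (Finset.sum_add_sum_compl S w).symm
  have h5 : S.card + Sᶜ.card = Fintype.card ι := Finset.card_add_card_compl S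
  have h5' : (S.card : ℝ) + (Sᶜ.card : ℝ) = (Fintype.card ι : ℝ) := by exact_mod_cast h5
  rw [h4, h3]
  rw [h2] at h1
  rw [← h5'] 
  have h6 : (0 : ℝ) ≤ (S.card : ℝ) := Nat.cast_nonneg _
  have h7 : (0 : ℝ) ≤ (Sᶜ.card : ℝ) := Nat.cast_nonneg _
  nlinarith [h1, h6, h7]

theorem det_small_arch {ι : Type*} [Fintype ι] [DecidableEq ι] (T : ℕ) (c : ℕ → ι → ℝ)
    (x : ι → ℝ) (b : ι → ι → ℝ) (H M : ℝ) (hx : ∀ j, |x j| ≤ H)
    (hrow : ∀ i, ∑ t ∈ Finset.range T, |c t i| * (Real.exp 1 * H) ^ t ≤ M)
    (hb : ∀ i j, |b i j| ≤ M * Real.exp (-(Fintype.card ι : ℝ))) :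
    |(Matrix.of (fun i j => ∑ t ∈ Finset.range T, x j ^ t * c t i + b i j)).det| ≤
      2 ^ (Fintype.card ι) * (Fintype.card ι).factorial * M ^ (Fintype.card ι) *
        Real.exp (-((Fintype.card ι : ℝ) * ((Fintype.card ι : ℝ) - 1) / 2)) := by
  classical
  rcases isEmpty_or_nonempty ι with he | hne
  · simp [Matrix.det_isEmpty]
  obtain ⟨i0⟩ := hne
  have hH : 0 ≤ H := le_trans (abs_nonneg _) (hx i0)
  have heH : 0 ≤ Real.exp 1 * H := mul_nonneg (Real.exp_pos _).le hH
  have hM : 0 ≤ M := by
    refine le_trans (Finset.sum_nonneg fun t _ => ?_) (hrow i0)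
    exact mul_nonneg (abs_nonneg _) (pow_nonneg heH _)
  set N : ℝ := (Fintype.card ι : ℝ) with hN
  -- the summands
  let base : Option (Fin T) → ι → ι → ℝ := fun o j i => match o with
    | some t => c t i
    | none => b i j
  let sc : Option (Fin T) → ι → ℝ := fun o j => match o with
    | some t => x j ^ (t : ℕ)
    | none => 1
  let hh : Option (Fin T) → ι → ℝ := fun o i => match o with
    | some t => |c t i| * (Real.exp 1 * H) ^ (t : ℕ)
    | none => M
  let w : Option (Fin T) → ℝ := fun o => match o with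
    | some t => ((t : ℕ) : ℝ)
    | none => N
  have hh0 : ∀ o i, 0 ≤ hh o i := by
    intro o i
    cases o with
    | none => exact hM
    | some t => exact mul_nonneg (abs_nonneg _) (pow_nonneg heH _)
  -- entries
  have hent : ∀ i j, ∑ t ∈ Finset.range T, x j ^ t * c t i + b i j =
      ∑ o : Option (Fin T), sc o j * base o j i := by
    intro i j
    rw [Fintype.sum_option, add_comm]
    simp only [sc, base, one_mul]
    rw [Finset.sum_range]
  have hdet : (Matrix.of (fun i j => ∑ t ∈ Finset.range T, x j ^ t * c t i + b i j)).det =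
      ∑ f : ι → Option (Fin T), (∏ j, sc (f j) j) *
        (Matrix.of (fun j i => base (f j) j i)).det := by
    rw [← Matrix.det_transpose]
    have h1 : (Matrix.of (fun i j => ∑ t ∈ Finset.range T, x j ^ t * c t i + b i j)).transpose =
        (fun j => ∑ o : Option (Fin T), (fun i => sc o j * base o j i)) := by
      funext j i
      simp only [Matrix.transpose_apply, Matrix.of_apply]
      rw [hent i j, Finset.sum_apply]
    rw [h1]
    have h2 := (Matrix.detRowAlternating (n := ι) (R := ℝ)).toMultilinearMap.map_sum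
      (fun j (o : Option (Fin T)) => (fun i => sc o j * base o j i))
    have h3 : Matrix.det (fun j => ∑ o : Option (Fin T), (fun i => sc o j * base o j i)) =
      ∑ f : ι → Option (Fin T), Matrix.det (fun j => (fun i => sc (f j) j * base (f j) j i)) := h2
    rw [h3]
    refine Finset.sum_congr rfl fun f _ => ?_
    exact Matrix.det_mul_column (fun j => sc (f j) j) (Matrix.of (fun j i => base (f j) j i))
  -- the bound for one f
  have hone : ∀ f : ι → Option (Fin T),
      |(∏ j, sc (f j) j) * (Matrix.of (fun j i => base (f j) j i)).det| ≤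
        ∑ σ : Equiv.Perm ι, (∏ j, hh (f j) (σ j)) * Real.exp (-(N * (N - 1) / 2)) := by
    intro f
    by_cases hf : ∀ j j', j ≠ j' → ∀ t, f j = some t → f j' ≠ some t
    · have hwt : N * (N - 1) / 2 ≤ ∑ j, w (f j) := detA_weight T f hf
      rw [← Matrix.det_transpose, Matrix.det_apply', Finset.mul_sum]
      refine (Finset.abs_sum_le_sum_abs _ _).trans (Finset.sum_le_sum fun σ _ => ?_)
      have h1 : |(∏ j, sc (f j) j) * (((Equiv.Perm.sign σ : ℤ) : ℝ) *
          ∏ j, (Matrix.of (fun j i => base (f j) j i)).transpose (σ j) j)| =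
          ∏ j, |sc (f j) j * base (f j) j (σ j)| := by
        rw [abs_mul, abs_mul, Finset.abs_prod, Finset.abs_prod]
        have h2 : |((Equiv.Perm.sign σ : ℤ) : ℝ)| = 1 := by
          rcases Int.units_eq_one_or (Equiv.Perm.sign σ) with h | h <;> simp [h]
        rw [h2, one_mul, ← Finset.prod_mul_distrib]
        refine Finset.prod_congr rfl fun j _ => ?_
        rw [abs_mul]
        simp [Matrix.transpose_apply]
      rw [h1]
      have h3 : ∀ j, |sc (f j) j * base (f j) j (σ j)| ≤ hh (f j) (σ j) * Real.exp (-w (f j)) := by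
        intro j
        rcases hfj : f j with _ | t
        · simp only [sc, base, hh, w, one_mul]
          exact hb _ _
        · simp only [sc, base, hh, w]
          rw [abs_mul, abs_pow, mul_pow, ← Real.exp_nat_mul, mul_one]
          have h4 : |x j| ^ (t : ℕ) ≤ H ^ (t : ℕ) := pow_le_pow_left₀ (abs_nonneg _) (hx j) _
          calc |x j| ^ (t : ℕ) * |c t (σ j)| ≤ H ^ (t : ℕ) * |c t (σ j)| :=
                mul_le_mul_of_nonneg_right h4 (abs_nonneg _)
            _ = |c t (σ j)| * (Real.exp ((t : ℕ) : ℝ) * H ^ (t : ℕ)) *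
                  Real.exp (-((t : ℕ) : ℝ)) := by
                rw [Real.exp_neg]
                field_simp
      calc ∏ j, |sc (f j) j * base (f j) j (σ j)|
          ≤ ∏ j, (hh (f j) (σ j) * Real.exp (-w (f j))) :=
            Finset.prod_le_prod (fun j _ => abs_nonneg _) (fun j _ => h3 j)
        _ = (∏ j, hh (f j) (σ j)) * Real.exp (-∑ j, w (f j)) := by
            rw [Finset.prod_mul_distrib, ← Real.exp_sum, Finset.sum_neg_distrib]
        _ ≤ (∏ j, hh (f j) (σ j)) * Real.exp (-(N * (N - 1) / 2)) := by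
            refine mul_le_mul_of_nonneg_left ?_ (Finset.prod_nonneg fun j _ => hh0 _ _)
            exact Real.exp_le_exp.2 (neg_le_neg hwt)
    · push Not at hf
      obtain ⟨j, j', hjj, t, h1, h2⟩ := hf
      have h3 : (Matrix.of (fun j i => base (f j) j i)).det = 0 := by
        refine Matrix.det_zero_of_row_eq hjj ?_
        funext i
        simp only [Matrix.of_apply, base, h1, h2]
      rw [h3, mul_zero, abs_zero]
      exact Finset.sum_nonneg fun σ _ =>
        mul_nonneg (Finset.prod_nonneg fun j _ => hh0 _ _) (Real.exp_pos _).le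
  rw [hdet]
  refine (Finset.abs_sum_le_sum_abs _ _).trans ?_
  refine (Finset.sum_le_sum fun f _ => hone f).trans ?_
  rw [Finset.sum_comm]
  have hσ : ∀ σ : Equiv.Perm ι,
      ∑ f : ι → Option (Fin T), (∏ j, hh (f j) (σ j)) * Real.exp (-(N * (N - 1) / 2)) ≤
        (2 * M) ^ (Fintype.card ι) * Real.exp (-(N * (N - 1) / 2)) := by
    intro σ
    rw [← Finset.sum_mul]
    refine mul_le_mul_of_nonneg_right ?_ (Real.exp_pos _).le
    have h1 : ∑ f : ι → Option (Fin T), ∏ j, hh (f j) (σ j) = ∏ j, ∑ o, hh o (σ j) := by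
      have := Finset.prod_univ_sum (fun _ : ι => (Finset.univ : Finset (Option (Fin T))))
        (fun j o => hh o (σ j))
      rw [this]
      simp
    rw [h1]
    have h2 : ∀ i, ∑ o, hh o i ≤ 2 * M := by
      intro i
      rw [Fintype.sum_option]
      simp only [hh]
      have h3 := hrow i
      rw [Finset.sum_range] at h3
      linarith
    calc ∏ j, ∑ o, hh o (σ j) ≤ ∏ _j : ι, (2 * M) :=
          Finset.prod_le_prod (fun j _ => Finset.sum_nonneg fun o _ => hh0 _ _) (fun j _ => h2 _)
      _ = (2 * M) ^ (Fintype.card ι) := by rw [Finset.prod_const, Finset.card_univ]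
  refine (Finset.sum_le_sum fun σ _ => hσ σ).trans (le_of_eq ?_)
  rw [Finset.sum_const, Finset.card_univ, Fintype.card_perm, nsmul_eq_mul, mul_pow]
  ring

end Pool.Agent.H91.CA
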