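import Mathlib

/-!
JOB CA-04 (divisible determinant, 2-adic case, about 100-140 lines; independent of all other files).

(1) `det_two`.  Let `N = card ι`.  As in the real case write the entry `(i,j)` as a sum over
`o : Option (Fin T)` of `g(some t, j, i) = choose (X j) t * C t i`, `g(none, j, i) = 2^D * b i j`;
`det = ∑_{f : ι → Option (Fin T)} det (g(f j, j, i))`.  If some `f j = none`, that column is divisible by
`2^D`, so the determinant is.  Otherwise `f = some ∘ t`; if `t` is not injective two columns are
proportional (multiples of `C t`) and the determinant is `0`; if `t` is injective, the column `j` is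
divisible by `4^(t j - K)`, so the determinant is divisible by `4^(∑_j (t j - K))` and
`∑_j (t j - K) ≥ ∑_{s=0}^{N-1} (s - K) = (N-K)(N-K-1)/2` (truncated subtraction; the `t j` are `N`
distinct naturals).
(2) `expand_two`.  Induction on `k`.  `k = 0`: `(g^X)^l = (1 + (g^l - 1))^X = ∑_t choose X t (g^l-1)^t`,
`C t = (g^l - 1)^t`, `4 ∣ g - 1 ∣ g^l - 1`.  Step: `X * choose X t = (t+1) choose X (t+1) + t choose X t`,
so `C' 0 = 0`, `C' (t+1) = (t+1) * C t + (t+1) * C (t+1)` works: `4^(t+1-(k+1)) = 4^(t-k)` divides both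
terms.  (Sum over `range T` with `X < T`: `choose X T = 0`.)
-/

namespace Pool.Agent.H91.CA

theorem detT_row_dvd {ι : Type*} [Fintype ι] [DecidableEq ι] (M : ι → ι → ℤ) (c : ι → ℤ)
    (h : ∀ j i, c j ∣ M j i) : (∏ j, c j) ∣ (Matrix.of M).det := by
  choose M' hM' using h
  have h1 : Matrix.of M = Matrix.of (fun j i => c j * (Matrix.of M') j i) := by
    ext j i
    simp only [Matrix.of_apply]
    exact hM' j i
  rw [h1, Matrix.det_mul_column]
  exact Dvd.intro _ rfl

theorem detT_sum_mono (f : ℕ → ℕ) (hf : Monotone f) (S : Finset ℕ) :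
    ∑ s ∈ Finset.range S.card, f s ≤ ∑ s ∈ S, f s := by
  induction S using Finset.induction_on_max with
  | empty => simp
  | insert a S ha ih =>
    have hn : a ∉ S := fun h => lt_irrefl _ (ha a h)
    rw [Finset.card_insert_of_notMem hn, Finset.sum_range_succ, Finset.sum_insert hn, add_comm]
    have h1 : S.card ≤ a := by
      have h2 : S ⊆ Finset.range a := fun x hx => Finset.mem_range.2 (ha x hx)
      have h3 := Finset.card_le_card h2
      rwa [Finset.card_range] at h3
    exact add_le_add (hf h1) ih

theorem detT_gauss (K N : ℕ) :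
    (N - K) * (N - K - 1) ≤ 2 * ∑ s ∈ Finset.range N, (s - K) := by
  induction N with
  | zero => simp
  | succ N ih =>
    rw [Finset.sum_range_succ]
    rcases Nat.lt_or_ge N K with h | h
    · have h1 : N + 1 - K = 0 := by omega
      rw [h1]
      simp
    · obtain ⟨m, rfl⟩ := Nat.exists_eq_add_of_le h
      have h1 : K + m + 1 - K = m + 1 := by omega
      have h2 : K + m - K = m := by omega
      rw [h2] at ih
      rw [h1, h2]
      have h3 : m + 1 - 1 = m := by omega
      rw [h3]
      rcases m with _ | m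
      · simp
      · have h4 : m + 1 - 1 = m := by omega
        rw [h4] at ih
        nlinarith

theorem det_two {ι : Type*} [Fintype ι] [DecidableEq ι] (T K D : ℕ) (C : ℕ → ι → ℤ)
    (hC : ∀ t i, (4 : ℤ) ^ (t - K) ∣ C t i) (X : ι → ℕ) (b : ι → ι → ℤ) :
    (2 : ℤ) ^ (min D ((Fintype.card ι - K) * (Fintype.card ι - K - 1))) ∣
      (Matrix.of (fun i j =>
        ∑ t ∈ Finset.range T, ((X j).choose t : ℤ) * C t i + 2 ^ D * b i j)).det := by
  obtain ⟨g, hg⟩ : ∃ g : ι → Option (Fin T) → ι → ℤ, g = fun j o i =>
      match o with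
      | none => 2 ^ D * b i j
      | some t => ((X j).choose t : ℤ) * C t i := ⟨_, rfl⟩
  have hgn : ∀ j i, g j none i = 2 ^ D * b i j := by
    intro j i
    rw [hg]
  have hgs : ∀ j (t : Fin T) i, g j (some t) i = ((X j).choose t : ℤ) * C t i := by
    intro j t i
    rw [hg]
  rw [← Matrix.det_transpose]
  have h1 : (Matrix.of (fun i j => ∑ t ∈ Finset.range T, ((X j).choose t : ℤ) * C t i +
      2 ^ D * b i j)).transpose = Matrix.of (fun j => ∑ o : Option (Fin T), g j o) := by
    ext j i
    simp only [Matrix.transpose_apply, Matrix.of_apply, Fintype.sum_option]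
    rw [add_comm, Finset.sum_range, Pi.add_apply, Finset.sum_apply]
    simp only [hgn, hgs]
  rw [h1]
  have h2 : (Matrix.of (fun j => ∑ o : Option (Fin T), g j o)).det =
      ∑ f : ι → Option (Fin T), (Matrix.of (fun j => g j (f j))).det := by
    exact (Matrix.detRowAlternating (n := ι) (R := ℤ)).toMultilinearMap.map_sum g
  rw [h2]
  apply Finset.dvd_sum
  intro f _
  by_cases hf : ∃ j, f j = none
  · obtain ⟨j, hj⟩ := hf
    refine (pow_dvd_pow 2 (min_le_left _ _)).trans ?_
    have h3 := detT_row_dvd (fun j => g j (f j)) (fun j' => if j' = j then 2 ^ D else 1) (by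
      intro j' i
      by_cases h4 : j' = j
      · subst h4
        rw [if_pos rfl, hj, hgn]
        exact Dvd.intro _ rfl
      · rw [if_neg h4]
        exact one_dvd _)
    rw [Finset.prod_ite_eq' Finset.univ j, if_pos (Finset.mem_univ _)] at h3
    exact h3
  · have hf' : ∀ j, ∃ t : Fin T, f j = some t := by
      intro j
      rcases h4 : f j with _ | t
      · exact absurd ⟨j, h4⟩ hf
      · exact ⟨t, rfl⟩
    choose t ht using hf'
    by_cases hinj : Function.Injective (fun j => (t j : ℕ))
    · refine (pow_dvd_pow 2 (min_le_right _ _)).trans ?_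
      have h3 := detT_row_dvd (fun j => g j (f j)) (fun j => 4 ^ ((t j : ℕ) - K)) (by
        intro j i
        rw [ht, hgs]
        exact Dvd.dvd.mul_left (hC _ _) _)
      rw [Finset.prod_pow_eq_pow_sum] at h3
      have h5 : (4 : ℤ) = 2 ^ 2 := by norm_num
      rw [h5, ← pow_mul] at h3
      refine (pow_dvd_pow 2 ?_).trans h3
      have h6 := detT_sum_mono (fun s => s - K) (fun a b hab => Nat.sub_le_sub_right hab K)
        (Finset.univ.image (fun j => (t j : ℕ)))
      rw [Finset.card_image_of_injective _ hinj, Finset.card_univ,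
        Finset.sum_image (fun a _ b _ hab => hinj hab)] at h6
      have h7 := detT_gauss K (Fintype.card ι)
      calc _ ≤ 2 * ∑ s ∈ Finset.range (Fintype.card ι), (s - K) := h7
        _ ≤ _ := Nat.mul_le_mul_left 2 h6
    · have h3 : ∃ j j', (t j : ℕ) = t j' ∧ j ≠ j' := by
        unfold Function.Injective at hinj
        push Not at hinj
        exact hinj
      obtain ⟨j, j', hjj, hne⟩ := h3
      have h4 : Matrix.of (fun j => g j (f j)) = Matrix.of (fun j i =>
          ((X j).choose (t j) : ℤ) * (Matrix.of (fun j i => C (t j) i)) j i) := by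
        ext j i
        simp only [Matrix.of_apply]
        rw [ht, hgs]
      rw [h4, Matrix.det_mul_column, Matrix.det_zero_of_row_eq hne, mul_zero]
      · exact dvd_zero _
      · funext i
        simp only [Matrix.of_apply]
        rw [hjj]

theorem expand_two (g : ℤ) (hg : (4 : ℤ) ∣ g - 1) (k l : ℕ) :
    ∃ C : ℕ → ℤ, (∀ t, (4 : ℤ) ^ (t - k) ∣ C t) ∧ ∀ X T : ℕ, X < T →
      (X : ℤ) ^ k * (g ^ X) ^ l = ∑ t ∈ Finset.range T, (X.choose t : ℤ) * C t := by
  induction k with
  | zero =>
    refine ⟨fun t => (g ^ l - 1) ^ t, fun t => ?_, fun X T hXT => ?_⟩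
    · rw [Nat.sub_zero]
      apply pow_dvd_pow_of_dvd
      exact hg.trans (by simpa using sub_dvd_pow_sub_pow g 1 l)
    · have h1 : (g ^ X) ^ l = ((g ^ l - 1) + 1) ^ X := by
        rw [sub_add_cancel, ← pow_mul, ← pow_mul, mul_comm]
      rw [h1, add_pow, pow_zero, one_mul]
      have h2 : Finset.range (X + 1) ⊆ Finset.range T := Finset.range_subset_range.2 hXT
      rw [← Finset.sum_subset h2]
      · apply Finset.sum_congr rfl
        intro t _
        rw [one_pow, mul_one, mul_comm]
      · intro t _ ht
        rw [Finset.mem_range, not_lt] at ht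
        rw [Nat.choose_eq_zero_of_lt (by omega)]
        simp
  | succ k ih =>
    obtain ⟨C, hC, hX⟩ := ih
    obtain ⟨C', h0, hs⟩ : ∃ C' : ℕ → ℤ, C' 0 = 0 ∧
        ∀ t : ℕ, C' (t + 1) = ((t : ℤ) + 1) * (C t + C (t + 1)) := by
      refine ⟨fun t => match t with
        | 0 => 0
        | t + 1 => ((t : ℤ) + 1) * (C t + C (t + 1)), rfl, fun t => rfl⟩
    refine ⟨C', fun t => ?_, fun X T hXT => ?_⟩
    · rcases t with _ | t
      · rw [h0]
        exact dvd_zero _
      · rw [hs, Nat.add_sub_add_right]
        apply Dvd.dvd.mul_left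
        apply dvd_add (hC t)
        exact (pow_dvd_pow 4 (by omega)).trans (hC (t + 1))
    · obtain ⟨n, rfl⟩ : ∃ n, T = n + 1 := ⟨T - 1, by omega⟩
      have h1 := hX X (n + 1) hXT
      rw [pow_succ, mul_comm ((X : ℤ) ^ k), mul_assoc, h1, Finset.mul_sum]
      have key : ∀ t : ℕ, (X : ℤ) * ((X.choose t : ℤ) * C t) =
          ((t : ℤ) + 1) * (X.choose (t + 1) : ℤ) * C t + (t : ℤ) * (X.choose t : ℤ) * C t := by
        intro t
        have h2 : (X : ℤ) * (X.choose t : ℤ) =
            ((t : ℤ) + 1) * (X.choose (t + 1) : ℤ) + (t : ℤ) * (X.choose t : ℤ) := by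
          rcases Nat.lt_or_ge X t with h | h
          · rw [Nat.choose_eq_zero_of_lt h, Nat.choose_eq_zero_of_lt (by omega)]
            simp
          · have h3 := Nat.choose_succ_right_eq X t
            have h4 : (X.choose (t + 1) : ℤ) * ((t : ℤ) + 1) =
                (X.choose t : ℤ) * ((X : ℤ) - t) := by
              have h5 : ((X - t : ℕ) : ℤ) = (X : ℤ) - t := by
                rw [Nat.cast_sub h]
              rw [← h5]
              exact_mod_cast h3
            linear_combination -h4
        rw [← mul_assoc, h2, add_mul]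
      rw [Finset.sum_congr rfl (fun t _ => key t), Finset.sum_add_distrib,
        Finset.sum_range_succ, Nat.choose_eq_zero_of_lt hXT,
        Finset.sum_range_succ' (fun t : ℕ => (t : ℤ) * (X.choose t : ℤ) * C t),
        Finset.sum_range_succ' (fun t : ℕ => (X.choose t : ℤ) * C' t), h0]
      simp only [Nat.cast_zero, mul_zero, zero_mul, add_zero, hs]
      rw [← Finset.sum_add_distrib]
      apply Finset.sum_congr rfl
      intro t _
      push_cast
      ring

end Pool.Agent.H91.CA
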