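import Mathlib

/-!
JOB CA-05 (Taylor expansion of the entries, about 80-120 lines; independent of all other files).

`exp_tail`.  `exp y - ∑_{n<T} y^n/n! = ∑_{n ≥ T} y^n / n! ≤ (y^T / T!) exp y` (since
`(n+T)! ≥ n! T!`; or `Real.exp` Taylor remainder).  `T! ≥ (T/e)^T` (e.g. from `T^T / T! ≤ exp T`), so
`y^T/T! ≤ (e y/T)^T ≤ (e/8)^T` as `T ≥ 8 Γ ≥ 8 y` (`T ≥ 2 N > 0`), and `(e/8)^T = exp((1 - log 8) T)`,
`log 8 > 2.07`, so `≤ exp(-1.07 T)`; times `exp y ≤ exp(T/8)`; total `≤ exp(-0.9 T) ≤ exp(-1.8 N)` and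
`exp(-1.8 N) ≤ exp(-N)/2` because `exp(-0.8 N) ≤ exp(-0.8) < 1/2` for `N ≥ 1`.

`entry_row`: `∑_{t<T} |cf| R^t = ∑_{k ≤ t < T} (lθ)^(t-k) R^(t-k) R^k/(t-k)! ≤ R^k exp(l θ R)`
(`Real.sum_le_exp_of_nonneg`).

`entry`: `∑_{t<T} X^t cf = X^k ∑_{n<T-k} (lθX)^n/n!`; the difference is
`X^k (exp(lθX) - ∑_{n<T-k} ...) + X^k exp(lθX)(exp(lδ) - 1)`; the first is `≤ X^k exp(-N)/2` by `exp_tail`
(with `T - k ≥ 8Γ + 2N`), the second `≤ X^k exp(Γ) * 2 |lδ| ≤ X^k exp Γ exp(-N)/2`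
(`|exp w - 1| ≤ 2|w|` for `|w| ≤ 1`, `Real.abs_exp_sub_one_le`), and `1 ≤ exp Γ`.
-/

namespace Pool.Agent.H91.CA

/-- Taylor coefficients of `x ↦ x^k exp(l θ x)`. -/
noncomputable def cf (k l : ℕ) (θ : ℝ) (t : ℕ) : ℝ :=
  if k ≤ t then ((l : ℝ) * θ) ^ (t - k) / ((t - k).factorial : ℝ) else 0

private theorem Ent_tail_le {y : ℝ} (hy : 0 ≤ y) (T : ℕ) :
    Real.exp y - ∑ n ∈ Finset.range T, y ^ n / (n.factorial : ℝ) ≤
      y ^ T / (T.factorial : ℝ) * Real.exp y := by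
  have hs : Summable (fun n : ℕ => y ^ n / (n.factorial : ℝ)) := Real.summable_pow_div_factorial y
  have he : Real.exp y = ∑' n : ℕ, y ^ n / (n.factorial : ℝ) := by
    rw [Real.exp_eq_exp_ℝ, NormedSpace.exp_eq_tsum_div]
  have h1 := hs.sum_add_tsum_nat_add T
  have h2 : Real.exp y - ∑ n ∈ Finset.range T, y ^ n / (n.factorial : ℝ) =
      ∑' n : ℕ, y ^ (n + T) / ((n + T).factorial : ℝ) := by
    rw [he]
    linarith
  rw [h2]
  conv_rhs => rw [he]
  rw [← tsum_mul_left]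
  refine Summable.tsum_le_tsum (fun n => ?_) ((summable_nat_add_iff T).2 hs) (hs.mul_left _)
  have h3 : (n.factorial : ℝ) * (T.factorial : ℝ) ≤ ((n + T).factorial : ℝ) := by
    exact_mod_cast Nat.le_of_dvd (Nat.factorial_pos _) (Nat.factorial_mul_factorial_dvd_factorial_add n T)
  have h4 : (0 : ℝ) < n.factorial := by exact_mod_cast Nat.factorial_pos n
  have h5 : (0 : ℝ) < T.factorial := by exact_mod_cast Nat.factorial_pos T
  calc y ^ (n + T) / ((n + T).factorial : ℝ) ≤ y ^ (n + T) / ((n.factorial : ℝ) * T.factorial) :=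
        div_le_div_of_nonneg_left (pow_nonneg hy _) (mul_pos h4 h5) h3
    _ = y ^ T / (T.factorial : ℝ) * (y ^ n / (n.factorial : ℝ)) := by
        rw [pow_add]
        field_simp

private theorem Ent_sum (k l m : ℕ) (θ X : ℝ) :
    ∑ t ∈ Finset.range (k + m), X ^ t * cf k l θ t =
      X ^ k * ∑ n ∈ Finset.range m, (l * θ * X) ^ n / (n.factorial : ℝ) := by
  rw [Finset.sum_range_add]
  have h0 : ∑ t ∈ Finset.range k, X ^ t * cf k l θ t = 0 := by
    refine Finset.sum_eq_zero fun t ht => ?_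
    have : ¬ k ≤ t := by
      have := Finset.mem_range.1 ht
      omega
    rw [cf, if_neg this, mul_zero]
  rw [h0, zero_add, Finset.mul_sum]
  refine Finset.sum_congr rfl fun n _ => ?_
  rw [cf, if_pos (Nat.le_add_right k n), Nat.add_sub_cancel_left, pow_add, mul_pow _ X]
  ring

theorem exp_tail {y Γ N : ℝ} {T : ℕ} (hy : 0 ≤ y) (hyΓ : y ≤ Γ) (hN : 1 ≤ N)
    (hT : 8 * Γ + 2 * N ≤ T) :
    Real.exp y - ∑ n ∈ Finset.range T, y ^ n / (n.factorial : ℝ) ≤ Real.exp (-N) / 2 := by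
  have hT' : y ≤ T / 8 := by linarith
  have hTN : 2 * N ≤ T := by linarith
  have hTpos : (0 : ℝ) < T := by linarith
  refine (Ent_tail_le hy T).trans ?_
  have h1 : y ^ T / (T.factorial : ℝ) ≤ (1 / 8) ^ T * Real.exp T := by
    have h2 := Real.pow_div_factorial_le_exp (x := (T : ℝ)) hTpos.le T
    have h3 : y ^ T ≤ (T / 8 : ℝ) ^ T := pow_le_pow_left₀ hy hT' T
    have h5 : (0 : ℝ) < T.factorial := by exact_mod_cast Nat.factorial_pos T
    calc y ^ T / (T.factorial : ℝ) ≤ (T / 8 : ℝ) ^ T / (T.factorial : ℝ) :=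
          div_le_div_of_nonneg_right h3 h5.le
      _ = (1 / 8) ^ T * ((T : ℝ) ^ T / (T.factorial : ℝ)) := by
          rw [div_pow, div_pow, one_pow]
          ring
      _ ≤ (1 / 8) ^ T * Real.exp T := mul_le_mul_of_nonneg_left h2 (by positivity)
  have h6 : Real.exp y ≤ Real.exp (T / 8) := Real.exp_le_exp.2 hT'
  have h7 : (1 / 8 : ℝ) ^ T = Real.exp (-(T * (3 * Real.log 2))) := by
    have : (1 / 8 : ℝ) = Real.exp (-(3 * Real.log 2)) := by
      rw [Real.exp_neg, mul_comm, Real.exp_mul, Real.exp_log (by norm_num)]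
      norm_num
    rw [this, ← Real.exp_nat_mul]
    congr 1
    ring
  have hl2 := Real.log_two_gt_d9
  have hl2' := Real.log_two_lt_d9
  calc y ^ T / (T.factorial : ℝ) * Real.exp y
      ≤ ((1 / 8) ^ T * Real.exp T) * Real.exp (T / 8) :=
        mul_le_mul h1 h6 (Real.exp_pos _).le (by positivity)
    _ = Real.exp (-(T * (3 * Real.log 2)) + T + T / 8) := by
        rw [h7, Real.exp_add, Real.exp_add]
    _ ≤ Real.exp (-N + -Real.log 2) := by
        refine Real.exp_le_exp.2 ?_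
        nlinarith
    _ = Real.exp (-N) / 2 := by
        rw [Real.exp_add, Real.exp_neg (Real.log 2), Real.exp_log (by norm_num)]
        ring

theorem entry_row (k l T : ℕ) {θ R : ℝ} (hθ : 0 ≤ θ) (hR : 0 ≤ R) :
    ∑ t ∈ Finset.range T, |cf k l θ t| * R ^ t ≤ R ^ k * Real.exp (l * θ * R) := by
  have hc : ∀ t, |cf k l θ t| * R ^ t = R ^ t * cf k l θ t := by
    intro t
    have : 0 ≤ cf k l θ t := by
      unfold cf
      split_ifs
      · positivity
      · exact le_rfl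
    rw [abs_of_nonneg this, mul_comm]
  simp only [hc]
  by_cases hk : k ≤ T
  · obtain ⟨m, rfl⟩ := Nat.exists_eq_add_of_le hk
    rw [Ent_sum]
    exact mul_le_mul_of_nonneg_left (Real.sum_le_exp_of_nonneg (by positivity) m) (by positivity)
  · have h0 : ∑ t ∈ Finset.range T, R ^ t * cf k l θ t = 0 := by
      refine Finset.sum_eq_zero fun t ht => ?_
      have : ¬ k ≤ t := by
        have := Finset.mem_range.1 ht
        omega
      rw [cf, if_neg this, mul_zero]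
    rw [h0]
    positivity

theorem entry (k l T : ℕ) {θ X δ Γ N : ℝ} (hX : 0 ≤ X) (hθ : 0 ≤ θ) (hΓ : l * θ * X ≤ Γ)
    (hN : 1 ≤ N) (hT : (k : ℝ) + (8 * Γ + 2 * N) ≤ T) (hδ : |l * δ| ≤ Real.exp (-N) / 4) :
    |X ^ k * Real.exp (l * (θ * X + δ)) - ∑ t ∈ Finset.range T, X ^ t * cf k l θ t| ≤
      X ^ k * Real.exp Γ * Real.exp (-N) := by
  have hy : 0 ≤ (l : ℝ) * θ * X := by positivity
  have hΓ0 : 0 ≤ Γ := hy.trans hΓ
  have hkT : k ≤ T := by
    have : (k : ℝ) ≤ T := by linarith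
    exact_mod_cast this
  obtain ⟨m, rfl⟩ := Nat.exists_eq_add_of_le hkT
  have hm : 8 * Γ + 2 * N ≤ (m : ℝ) := by
    push_cast at hT
    linarith
  rw [Ent_sum]
  set S := ∑ n ∈ Finset.range m, (l * θ * X) ^ n / (n.factorial : ℝ) with hS
  have hS1 : S ≤ Real.exp (l * θ * X) := Real.sum_le_exp_of_nonneg hy m
  have hS2 : Real.exp (l * θ * X) - S ≤ Real.exp (-N) / 2 := exp_tail hy hΓ hN hm
  have hN1 : Real.exp (-N) ≤ 1 := Real.exp_le_one_iff.2 (by linarith)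
  have hw : |Real.exp (l * δ) - 1| ≤ 2 * |l * δ| :=
    Real.abs_exp_sub_one_le (by linarith)
  have hΓ1 : 1 ≤ Real.exp Γ := Real.one_le_exp hΓ0
  have hyΓ : Real.exp (l * θ * X) ≤ Real.exp Γ := Real.exp_le_exp.2 hΓ
  have e1 : X ^ k * Real.exp (l * (θ * X + δ)) - X ^ k * S =
      X ^ k * ((Real.exp (l * θ * X) - S) + Real.exp (l * θ * X) * (Real.exp (l * δ) - 1)) := by
    have : (l : ℝ) * (θ * X + δ) = l * θ * X + l * δ := by ring
    rw [this, Real.exp_add]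
    ring
  rw [e1, abs_mul, abs_of_nonneg (pow_nonneg hX k), mul_assoc (X ^ k) (Real.exp Γ)]
  refine mul_le_mul_of_nonneg_left ?_ (pow_nonneg hX k)
  have hE := Real.exp_pos (-N)
  have a1 : |Real.exp (l * θ * X) - S| ≤ Real.exp Γ * (Real.exp (-N) / 2) := by
    rw [abs_of_nonneg (by linarith)]
    have : Real.exp (-N) / 2 ≤ Real.exp Γ * (Real.exp (-N) / 2) :=
      le_mul_of_one_le_left (by positivity) hΓ1
    linarith
  have a2 : |Real.exp (l * θ * X) * (Real.exp (l * δ) - 1)| ≤ Real.exp Γ * (Real.exp (-N) / 2) := by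
    rw [abs_mul, abs_of_pos (Real.exp_pos _)]
    exact mul_le_mul hyΓ (by linarith) (abs_nonneg _) (Real.exp_pos _).le
  calc |(Real.exp (l * θ * X) - S) + Real.exp (l * θ * X) * (Real.exp (l * δ) - 1)|
      ≤ |Real.exp (l * θ * X) - S| + |Real.exp (l * θ * X) * (Real.exp (l * δ) - 1)| :=
        abs_add_le _ _
    _ ≤ Real.exp Γ * Real.exp (-N) := by linarith

end Pool.Agent.H91.CA
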