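import Mathlib

/-!
JOB CA-13 (pigeonhole, about 60-100 lines; independent).

Put `H = 2 j b - d a ≠ 0`.  For `(n2, n3)` with `0 ≤ n2 < 2j`, `0 ≤ n3 ≤ N3` let `n1` be the integer with
`S := 2j n1 + d n2 + j n3 ∈ [0, 2j)` (`n1 = -((d n2 + j n3) / (2j))`), `Y := n1 a + n2 b + n3 g`, and
consider the pair `(⌊M * fract (Y / H)⌋, ⌊3 S / (2j)⌋) ∈ [0, M) × [0, 3)`.  There are `2j (N3+1) > 3 M`
pairs `(n2, n3)`, so two different ones have the same value.  The difference `(Δ1, Δ2, Δ3)` of the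
corresponding vectors satisfies `|Δ3| ≤ N3`, `|Δ2| < 2j`, `(Δ2, Δ3) ≠ (0,0)`,
`3 |ΔS| < 2j` (integers with the same `⌊3S/(2j)⌋`), and `|ΔY / H - k| < 1 / M` with
`k = ⌊Y/H⌋ - ⌊Y'/H⌋`.  Take `(n1, n2, n3) = (Δ1 + k d, Δ2 - 2 j k, Δ3)`: the value of `2j n1 + d n2 + j n3` is
`ΔS`, and `n1 a + n2 b + n3 g = ΔY - k (2j b - d a) = ΔY - k H`.  It is not zero: if `Δ3 = 0` then
`0 < |Δ2| < 2j`, so `Δ2 - 2jk ≠ 0`.
-/

namespace Pool.Agent.H91.CA

theorem pigeon {j d M N3 : ℕ} (a b g : ℝ) (hj : 1 ≤ j) (hM : 1 ≤ M)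
    (hMN : 3 * M < 2 * j * (N3 + 1)) (hH : 2 * j * b - d * a ≠ 0) :
    ∃ n1 n2 n3 : ℤ, ¬ (n1 = 0 ∧ n2 = 0 ∧ n3 = 0) ∧
      |n1 * a + n2 * b + n3 * g| ≤ |2 * j * b - d * a| / M ∧
      3 * |2 * j * n1 + d * n2 + j * n3| ≤ 2 * j ∧ |n3| ≤ N3 := by
  classical
  obtain ⟨H, hHdef⟩ : ∃ H : ℝ, H = 2 * j * b - d * a := ⟨_, rfl⟩
  rw [← hHdef] at hH ⊢
  let A : ℕ × ℕ → ℤ := fun p => d * p.1 + j * p.2
  let n1 : ℕ × ℕ → ℤ := fun p => -(A p / (2 * j))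
  let S : ℕ × ℕ → ℤ := fun p => A p % (2 * j)
  let Y : ℕ × ℕ → ℝ := fun p => n1 p * a + p.1 * b + p.2 * g
  have h2j : (0 : ℤ) < 2 * j := by omega
  have hS0 : ∀ p, 0 ≤ S p := fun p => Int.emod_nonneg _ h2j.ne'
  have hS1 : ∀ p, S p < 2 * j := fun p => Int.emod_lt_of_pos _ h2j
  have hSn : ∀ p, S p = 2 * j * n1 p + d * p.1 + j * p.2 := by
    intro p
    have h1 := Int.emod_def (A p) (2 * j)
    show A p % (2 * j) = 2 * j * (-(A p / (2 * j))) + d * p.1 + j * p.2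
    rw [h1]
    show (d * p.1 + j * p.2 : ℤ) - 2 * j * (A p / (2 * j)) = _
    ring
  have hMr : (0 : ℝ) < M := by exact_mod_cast hM
  let F : ℕ × ℕ → ℤ × ℤ := fun p => (⌊(M : ℝ) * Int.fract (Y p / H)⌋, 3 * S p / (2 * j))
  have hmaps : ∀ p ∈ Finset.range (2 * j) ×ˢ Finset.range (N3 + 1),
      F p ∈ Finset.Ico (0 : ℤ) M ×ˢ Finset.Ico (0 : ℤ) 3 := by
    intro p _
    rw [Finset.mem_product, Finset.mem_Ico, Finset.mem_Ico]
    refine ⟨⟨?_, ?_⟩, ⟨?_, ?_⟩⟩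
    · exact Int.floor_nonneg.mpr (mul_nonneg hMr.le (Int.fract_nonneg _))
    · rw [Int.floor_lt]
      calc (M : ℝ) * Int.fract (Y p / H) < M * 1 :=
            mul_lt_mul_of_pos_left (Int.fract_lt_one _) hMr
        _ = ((M : ℤ) : ℝ) := by push_cast; ring
    · exact Int.ediv_nonneg (by have := hS0 p; omega) h2j.le
    · exact Int.ediv_lt_of_lt_mul h2j (by have := hS1 p; omega)
  have hcard : (Finset.Ico (0 : ℤ) M ×ˢ Finset.Ico (0 : ℤ) 3).card <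
      (Finset.range (2 * j) ×ˢ Finset.range (N3 + 1)).card := by
    rw [Finset.card_product, Finset.card_product, Int.card_Ico, Int.card_Ico, Finset.card_range,
      Finset.card_range]
    simp only [sub_zero, Int.toNat_natCast]
    have : (3 : ℤ).toNat = 3 := rfl
    rw [this]
    omega
  obtain ⟨p, hp, r, hr, hpr, hF⟩ :=
    Finset.exists_ne_map_eq_of_card_lt_of_maps_to hcard hmaps
  rw [Finset.mem_product, Finset.mem_range, Finset.mem_range] at hp hr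
  have hF1 : ⌊(M : ℝ) * Int.fract (Y p / H)⌋ = ⌊(M : ℝ) * Int.fract (Y r / H)⌋ :=
    congrArg Prod.fst hF
  have hF2 : 3 * S p / (2 * j) = 3 * S r / (2 * j) := congrArg Prod.snd hF
  obtain ⟨k, hk⟩ : ∃ k : ℤ, k = ⌊Y p / H⌋ - ⌊Y r / H⌋ := ⟨_, rfl⟩
  refine ⟨n1 p - n1 r + k * d, (p.1 : ℤ) - r.1 - 2 * j * k, (p.2 : ℤ) - r.2, ?_, ?_, ?_, ?_⟩
  · rintro ⟨-, h2, h3⟩
    have hk0 : k = 0 := by
      by_contra hk0
      rcases lt_or_gt_of_ne hk0 with hneg | hpos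
      · have : 2 * (j : ℤ) * k ≤ 2 * j * (-1) := mul_le_mul_of_nonneg_left (by omega) h2j.le
        omega
      · have : 2 * (j : ℤ) * 1 ≤ 2 * j * k := mul_le_mul_of_nonneg_left (by omega) h2j.le
        omega
    rw [hk0] at h2
    apply hpr
    apply Prod.ext <;> omega
  · have e1 : ((n1 p - n1 r + k * d : ℤ) : ℝ) * a + (((p.1 : ℤ) - r.1 - 2 * j * k : ℤ) : ℝ) * b +
        (((p.2 : ℤ) - r.2 : ℤ) : ℝ) * g = H * (Int.fract (Y p / H) - Int.fract (Y r / H)) := by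
      have e2 : Y p = H * (⌊Y p / H⌋ + Int.fract (Y p / H)) := by
        rw [Int.floor_add_fract, mul_div_cancel₀ _ hH]
      have e3 : Y r = H * (⌊Y r / H⌋ + Int.fract (Y r / H)) := by
        rw [Int.floor_add_fract, mul_div_cancel₀ _ hH]
      have e4 : (k : ℝ) = (⌊Y p / H⌋ : ℝ) - (⌊Y r / H⌋ : ℝ) := by
        rw [hk]
        push_cast
        ring
      have e5 : H * (Int.fract (Y p / H) - Int.fract (Y r / H)) = Y p - Y r - H * k := by
        rw [e4]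
        linear_combination -e2 + e3
      rw [e5, hHdef]
      show _ = ((n1 p : ℝ) * a + p.1 * b + p.2 * g) - ((n1 r : ℝ) * a + r.1 * b + r.2 * g) - _
      push_cast
      ring
    rw [e1, abs_mul, div_eq_mul_inv]
    apply mul_le_mul_of_nonneg_left _ (abs_nonneg _)
    have h1 := Int.abs_sub_lt_one_of_floor_eq_floor hF1
    rw [← mul_sub, abs_mul, abs_of_pos hMr] at h1
    have h2 : |Int.fract (Y p / H) - Int.fract (Y r / H)| * M ≤ 1 := by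
      rw [mul_comm]
      exact h1.le
    exact (le_mul_inv_iff₀ hMr).mpr h2 |>.trans (by rw [one_mul])
  · have e1 : 2 * (j : ℤ) * (n1 p - n1 r + k * d) + d * ((p.1 : ℤ) - r.1 - 2 * j * k) +
        j * ((p.2 : ℤ) - r.2) = S p - S r := by
      rw [hSn p, hSn r]
      ring
    rw [e1]
    have h1 : 3 * S p % (2 * j) < 2 * j := Int.emod_lt_of_pos _ h2j
    have h2 : 3 * S r % (2 * j) < 2 * j := Int.emod_lt_of_pos _ h2j
    have h3 : 0 ≤ 3 * S p % (2 * j) := Int.emod_nonneg _ h2j.ne'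
    have h4 : 0 ≤ 3 * S r % (2 * j) := Int.emod_nonneg _ h2j.ne'
    have h5 := Int.emod_add_mul_ediv (3 * S p) (2 * j)
    have h6 := Int.emod_add_mul_ediv (3 * S r) (2 * j)
    rw [hF2] at h5
    have h7 : |3 * (S p - S r)| ≤ 2 * j := by
      rw [abs_le]
      constructor <;> linarith
    rwa [abs_mul, abs_of_pos (by norm_num : (0 : ℤ) < 3)] at h7
  · rw [abs_le]
    constructor <;> omega

end Pool.Agent.H91.CA
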