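import Pool.Agent.H91.CA.Def

/-!
JOB CA-14 (sizes of the logarithms, about 80-120 lines; independent).

`XA_pos`: `2^i + √q > √q > p^j` (as `q > p^(2j)`).
`XA_le`: with `x = 2^i/p^j`, `√q / p^j = √(1 + x^2) ≤ 1 + x^2/2` and `1 + x + x^2/2 ≤ exp x`
(`Real.quadratic_le_exp_of_nonneg`), so `(2^i + √q)/p^j ≤ exp x`.
`XC_ge`: `2^(c/2) + √(q^z) ≥ √(q^z) ≥ √(p^(2jz)) = p^(jz)`, so `XC ≥ (jz - d/2) log p = r/2 log p`.
`XC_le`: `2^(c/2) ≤ √(2^c) ≤ √(q^z)`, so `XC ≤ log 2 + (z/2) log q - (d/2) log p` and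
`log q = 2j log p + log (1 + 4^i/p^(2j)) ≤ 2j log p + 4^i/p^(2j)`.
-/

namespace Pool.Agent.H91.CA

theorem size_q {p q i j : ℕ} (hq : q = 4 ^ i + p ^ (2 * j)) :
    (q : ℝ) = 4 ^ i + ((p : ℝ) ^ j) ^ 2 := by
  rw [hq, ← pow_mul, mul_comm j 2]
  push_cast
  ring

theorem size_sqrt {p q i j : ℕ} (hp : 2 ≤ p) (hq : q = 4 ^ i + p ^ (2 * j)) :
    (p : ℝ) ^ j < Real.sqrt q := by
  have hp0 : (0 : ℝ) < p := by exact_mod_cast (by omega : 0 < p)
  rw [Real.lt_sqrt (by positivity), size_q hq]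
  have : (0 : ℝ) < 4 ^ i := by positivity
  linarith

theorem size_logq {p q i j : ℕ} (hp : 2 ≤ p) (hq : q = 4 ^ i + p ^ (2 * j)) :
    2 * j * Real.log p ≤ Real.log q ∧
      Real.log q ≤ 2 * j * Real.log p + 4 ^ i / (p : ℝ) ^ (2 * j) := by
  have hp0 : (0 : ℝ) < p := by exact_mod_cast (by omega : 0 < p)
  have h4 : (0 : ℝ) < 4 ^ i := by positivity
  have hP : (0 : ℝ) < (p : ℝ) ^ (2 * j) := by positivity
  have hqr : (q : ℝ) = 4 ^ i + (p : ℝ) ^ (2 * j) := by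
    rw [hq]
    push_cast
    ring
  have hl : Real.log ((p : ℝ) ^ (2 * j)) = 2 * j * Real.log p := by
    rw [Real.log_pow]
    push_cast
    ring
  refine ⟨?_, ?_⟩
  · rw [← hl]
    exact Real.log_le_log hP (by rw [hqr]; linarith)
  · have e : (q : ℝ) = (p : ℝ) ^ (2 * j) * (1 + 4 ^ i / (p : ℝ) ^ (2 * j)) := by
      rw [hqr]
      field_simp
      ring
    have h1 : (0 : ℝ) < 1 + 4 ^ i / (p : ℝ) ^ (2 * j) := by positivity
    rw [e, Real.log_mul hP.ne' h1.ne', hl]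
    have := Real.log_le_sub_one_of_pos h1
    linarith

theorem XA_pos {p q i j : ℕ} (hp : 2 ≤ p) (hq : q = 4 ^ i + p ^ (2 * j)) : 0 < XA p q i j := by
  have hp0 : (0 : ℝ) < p := by exact_mod_cast (by omega : 0 < p)
  have h4 : (0 : ℝ) < 2 ^ i := by positivity
  have h := size_sqrt hp hq
  have hP : (0 : ℝ) < (p : ℝ) ^ j := by positivity
  have h2 : Real.log ((p : ℝ) ^ j) < Real.log (2 ^ i + Real.sqrt q) :=
    Real.log_lt_log hP (by linarith)
  rw [Real.log_pow] at h2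
  unfold XA
  linarith

theorem XA_le {p q i j : ℕ} (hp : 2 ≤ p) (hq : q = 4 ^ i + p ^ (2 * j)) :
    XA p q i j ≤ 2 ^ i / (p : ℝ) ^ j := by
  have hp0 : (0 : ℝ) < p := by exact_mod_cast (by omega : 0 < p)
  have h4 : (0 : ℝ) < 2 ^ i := by positivity
  have hP : (0 : ℝ) < (p : ℝ) ^ j := by positivity
  have hqr := size_q hq
  have h44 : (4 : ℝ) ^ i = (2 ^ i) ^ 2 := by
    rw [← pow_mul, mul_comm, pow_mul]
    norm_num
  rw [h44] at hqr
  have hl : Real.log ((p : ℝ) ^ j) = j * Real.log p := Real.log_pow _ _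
  unfold XA
  rw [← hl]
  generalize (p : ℝ) ^ j = P at *
  generalize (2 : ℝ) ^ i = Q at *
  obtain ⟨x, hx⟩ : ∃ x, x = Q / P := ⟨_, rfl⟩
  have hx0 : 0 < x := by rw [hx]; positivity
  have hQ : Q = P * x := by
    rw [hx]
    field_simp
  have h1 : Real.sqrt q ≤ P * (1 + x ^ 2 / 2) := by
    rw [Real.sqrt_le_left (by positivity), hqr, hQ]
    nlinarith [sq_nonneg (P * x ^ 2)]
  have h2 := Real.quadratic_le_exp_of_nonneg hx0.le
  have h3 : Q + Real.sqrt q ≤ P * Real.exp x := by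
    have := mul_le_mul_of_nonneg_left h2 hP.le
    nlinarith
  have h5 : 0 < Q + Real.sqrt q := by
    have := Real.sqrt_nonneg (q : ℝ)
    linarith
  have h6 := Real.log_le_log h5 h3
  rw [Real.log_mul hP.ne' (Real.exp_pos x).ne', Real.log_exp] at h6
  rw [← hx]
  linarith

theorem size_z {q z : ℕ} : Real.log (Real.sqrt ((q : ℝ) ^ z)) = z / 2 * Real.log q := by
  rw [Real.log_sqrt (by positivity), Real.log_pow]
  ring

theorem XC_ge {p q i j c d z r : ℕ} (hp : 2 ≤ p) (hq : q = 4 ^ i + p ^ (2 * j))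
    (hr : d + r = 2 * j * z) : r / 2 * Real.log p ≤ XC p q c d z := by
  have hp0 : (0 : ℝ) < p := by exact_mod_cast (by omega : 0 < p)
  have h4 : (0 : ℝ) < 4 ^ i := by positivity
  have hq0 : (0 : ℝ) < q := by
    rw [size_q hq]
    positivity
  obtain ⟨h1, -⟩ := size_logq hp hq
  have hs : 0 < Real.sqrt ((q : ℝ) ^ z) := Real.sqrt_pos.2 (by positivity)
  have h2 : Real.log (Real.sqrt ((q : ℝ) ^ z)) ≤
      Real.log (2 ^ (c / 2) + Real.sqrt ((q : ℝ) ^ z)) :=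
    Real.log_le_log hs (by linarith [(by positivity : (0 : ℝ) < 2 ^ (c / 2))])
  rw [size_z] at h2
  have hr' : (d : ℝ) + r = 2 * j * z := by exact_mod_cast hr
  have h3 : (z : ℝ) / 2 * (2 * j * Real.log p) ≤ z / 2 * Real.log q :=
    mul_le_mul_of_nonneg_left h1 (by positivity)
  unfold XC
  have h5 : (r : ℝ) / 2 * Real.log p = z / 2 * (2 * j * Real.log p) - d / 2 * Real.log p := by
    have : (r : ℝ) = 2 * j * z - d := by linarith
    rw [this]
    ring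
  rw [h5]
  linarith

theorem XC_le {p q i j c d z r : ℕ} (hp : 2 ≤ p) (hq : q = 4 ^ i + p ^ (2 * j))
    (h : 2 ^ c + p ^ d = q ^ z) (hr : d + r = 2 * j * z) :
    XC p q c d z ≤ Real.log 2 + r / 2 * Real.log p + z / 2 * (4 ^ i / (p : ℝ) ^ (2 * j)) := by
  have hp0 : (0 : ℝ) < p := by exact_mod_cast (by omega : 0 < p)
  have h4 : (0 : ℝ) < 4 ^ i := by positivity
  have hq0 : (0 : ℝ) < q := by
    rw [size_q hq]
    positivity
  obtain ⟨-, h1⟩ := size_logq hp hq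
  have hs : 0 < Real.sqrt ((q : ℝ) ^ z) := Real.sqrt_pos.2 (by positivity)
  have hc : (2 : ℝ) ^ (c / 2) ≤ Real.sqrt ((q : ℝ) ^ z) := by
    apply Real.le_sqrt_of_sq_le
    have e1 : 2 ^ (c / 2 * 2) ≤ q ^ z := by
      calc 2 ^ (c / 2 * 2) ≤ 2 ^ c := Nat.pow_le_pow_right (by norm_num) (Nat.div_mul_le_self c 2)
        _ ≤ q ^ z := by omega
    rw [← pow_mul]
    exact_mod_cast e1
  have h2 : Real.log (2 ^ (c / 2) + Real.sqrt ((q : ℝ) ^ z)) ≤
      Real.log (2 * Real.sqrt ((q : ℝ) ^ z)) :=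
    Real.log_le_log (by positivity) (by linarith)
  rw [Real.log_mul (by norm_num) hs.ne', size_z] at h2
  have hr' : (d : ℝ) + r = 2 * j * z := by exact_mod_cast hr
  have h3 : (z : ℝ) / 2 * Real.log q ≤ z / 2 * (2 * j * Real.log p + 4 ^ i / (p : ℝ) ^ (2 * j)) :=
    mul_le_mul_of_nonneg_left h1 (by positivity)
  unfold XC
  have h5 : (r : ℝ) / 2 * Real.log p = z / 2 * (2 * j * Real.log p) - d / 2 * Real.log p := by
    have : (r : ℝ) = 2 * j * z - d := by linarith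
    rw [this]
    ring
  rw [h5]
  linarith

end Pool.Agent.H91.CA
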