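import Pool.Agent.H91.CA.LatA
import Pool.Agent.H91.CA.Pig
import Pool.Agent.H91.CA.Size

/-!
JOB CA-15 (the inequality `j² log p ≤ 11 (i-1)(r+1)`, about 80-130 lines; uses the stubs `lat_alg`, `pigeon`,
`XA_pos`, `XA_le`, `XC_ge`, `XC_le`).

Write `a = XA`, `C = XC`, `lp = log p` (`lp > 4.57 > 1` since `p ≥ 97`; e.g. `97 > 2^6.59`, or `exp 4.57 < 97`).
(1) `d * a < 2j * C`: `d a ≤ 2jz * 2^i/p^j ≤ 1/2` (by `hsm`, `d ≤ 2jz`) and `2j C ≥ j r lp ≥ lp > 1`.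
(2) `ε` from `lat_alg`; `H = 2j (ε C) - d a ≠ 0`: for `ε = 1` by (1), for `ε = -1` it is negative.
`|H| ≤ 2j C + d a ≤ 2j log 2 + j r lp + j z 4^i / p^(2j) + 1/2 ≤ j r lp + 2j log 2 + 1`
(`j z 4^i/p^(2j) = (j z 2^i/p^j)(2^i/p^j) ≤ 1/4`).
(3) `pigeon` with `b = ε C`, `g = XD`, `M = 4r + 4`, `N3 = (6r+6)/j` (natural division):
`3 M = 12 (r+1) < 2 j (N3 + 1)` because `j (N3+1) > 6r + 6`.
The second alternative of `lat_alg` is impossible for the vector found: `n3 = 0`, `2j n1 + d n2 = 0`,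
`n1 a + n2 ε C = 0` give `0 = 2j (n1 a + n2 ε C) = n2 (2j ε C - d a) = n2 H`, so `n2 = 0`, `n1 = 0`.
(4) So `log q / 2 ≤ log 2 + |H|/(4r+4) + (j/3) lp + (i-1)/2 * N3 * log 2`, `N3 ≤ 6(r+1)/j`, and
`log q / 2 ≥ j lp`; `|H|/(4r+4) ≤ (j/4) lp + (2j log 2 + 1)/8`.  Hence
`(5/12) j lp ≤ log 2 + (2 j log 2 + 1)/8 + 3 log 2 (i-1)(r+1)/j`, with `log 2 < 0.6932`, `j ≥ 1`:
`(5/12) lp j - 0.992 j ≤ 2.0796 (i-1)(r+1)/j`, and `0.992 ≤ 0.2171 lp`; so
`0.199 j² lp ≤ 2.0796 (i-1)(r+1)`.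
-/

namespace Pool.Agent.H91.CA

theorem Inf_log97 {p : ℕ} (hp97 : 97 ≤ p) : (4.505 : ℝ) ≤ Real.log p := by
  have h1 : (2 : ℝ) ^ 13 ≤ (p : ℝ) ^ 2 := by
    have : (97 : ℝ) ≤ p := by exact_mod_cast hp97
    nlinarith
  have h2 := Real.log_le_log (by positivity) h1
  rw [Real.log_pow, Real.log_pow] at h2
  have h3 := Real.log_two_gt_d9
  push_cast at h2
  linarith

theorem inf3 {p q i j c d z r : ℕ} (hp : p.Prime) (hp97 : 97 ≤ p) (hi : 2 ≤ i) (hj : 1 ≤ j)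
    (hq : q = 4 ^ i + p ^ (2 * j)) (hc : c % 2 = 0) (hc0 : 0 < c) (hd : 1 ≤ d) (hz : z % 2 = 1)
    (h : 2 ^ c + p ^ d = q ^ z) (hr : d + r = 2 * j * z) (hr1 : 1 ≤ r)
    (hsm : 4 * j * z * 2 ^ i ≤ p ^ j) :
    (j : ℝ) ^ 2 * Real.log p ≤ 11 * ((i : ℝ) - 1) * (r + 1) := by
  have hp2 : 2 ≤ p := hp.two_le
  have hpodd : p % 2 = 1 := by
    rcases hp.eq_two_or_odd with h1 | h1
    · omega
    · exact h1
  have hlp := Inf_log97 hp97
  have hl2 := Real.log_two_lt_d9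
  have hl2' := Real.log_two_gt_d9
  obtain ⟨lp, hlpe⟩ : ∃ lp : ℝ, lp = Real.log p := ⟨_, rfl⟩
  obtain ⟨l2, hl2e⟩ : ∃ l2 : ℝ, l2 = Real.log 2 := ⟨_, rfl⟩
  have hz1 : 1 ≤ z := by omega
  have hjr : (1 : ℝ) ≤ j := by exact_mod_cast hj
  have hrr : (1 : ℝ) ≤ r := by exact_mod_cast hr1
  have hzr : (1 : ℝ) ≤ z := by exact_mod_cast hz1
  have hir : (2 : ℝ) ≤ i := by exact_mod_cast hi
  have hpr : (2 : ℝ) ≤ p := by exact_mod_cast hp2
  have hpj : (0 : ℝ) < (p : ℝ) ^ j := by positivity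
  -- small quantities
  obtain ⟨x, hx⟩ : ∃ x : ℝ, x = 2 ^ i / (p : ℝ) ^ j := ⟨_, rfl⟩
  have hx0 : 0 < x := by rw [hx]; positivity
  have hsm' : 4 * (j : ℝ) * z * x ≤ 1 := by
    have h1 : (4 : ℝ) * j * z * 2 ^ i ≤ (p : ℝ) ^ j := by exact_mod_cast hsm
    rw [hx, ← mul_div_assoc, div_le_one hpj]
    exact h1
  have hjz : (1 : ℝ) ≤ (j : ℝ) * z := one_le_mul_of_one_le_of_one_le hjr hzr
  have hx4 : x ≤ 1 / 4 := by
    have h1 : 1 * x ≤ (j * z : ℝ) * x := mul_le_mul_of_nonneg_right hjz hx0.le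
    have h2 : 4 * (j : ℝ) * z * x = 4 * ((j * z : ℝ) * x) := by ring
    linarith
  have hx2 : (4 : ℝ) ^ i / (p : ℝ) ^ (2 * j) = x * x := by
    rw [hx, div_mul_div_comm, ← pow_add, ← pow_add]
    congr 1
    · rw [show (4 : ℝ) = 2 ^ 2 by norm_num, ← pow_mul]
      congr 1
      ring
    · congr 1
      ring
  have ha0 := XA_pos hp2 hq (i := i) (j := j)
  have ha1 := XA_le hp2 hq (i := i) (j := j)
  have hC0 := XC_ge (c := c) hp2 hq hr
  have hC1 := XC_le hp2 hq h hr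
  rw [hx2] at hC1
  rw [← hx] at ha1
  rw [← hlpe] at hlp hC0 hC1 ⊢
  rw [← hl2e] at hl2 hl2' hC1
  obtain ⟨a, hae⟩ : ∃ a : ℝ, a = XA p q i j := ⟨_, rfl⟩
  obtain ⟨C, hCe⟩ : ∃ C : ℝ, C = XC p q c d z := ⟨_, rfl⟩
  rw [← hae] at ha0 ha1
  rw [← hCe] at hC0 hC1
  have hdr : (d : ℝ) + r = 2 * j * z := by exact_mod_cast hr
  have hd0 : (0 : ℝ) ≤ d := Nat.cast_nonneg d
  have hda : d * a ≤ 1 / 2 := by
    have h1 : (d : ℝ) * a ≤ (2 * j * z) * x :=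
      mul_le_mul (by linarith) ha1 ha0.le (by positivity)
    have h2 : 4 * (j : ℝ) * z * x = 2 * ((2 * j * z) * x) := by ring
    linarith
  have hda0 : 0 ≤ d * a := mul_nonneg hd0 ha0.le
  have hCpos : 0 < C := by
    have h1 : 0 < (r : ℝ) / 2 * lp := mul_pos (by linarith) (by linarith)
    linarith
  have hjC : lp ≤ 2 * j * C := by
    have h1 : (1 : ℝ) * (r * lp) ≤ j * (r * lp) :=
      mul_le_mul_of_nonneg_right hjr (mul_nonneg (by linarith) (by linarith))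
    have h2 : (1 : ℝ) * lp ≤ r * lp := mul_le_mul_of_nonneg_right hrr (by linarith)
    have h3 : 2 * (j : ℝ) * (r / 2 * lp) ≤ 2 * j * C :=
      mul_le_mul_of_nonneg_left hC0 (by linarith)
    have h4 : 2 * (j : ℝ) * (r / 2 * lp) = j * (r * lp) := by ring
    linarith
  obtain ⟨ε, hε, hlat⟩ := lat_alg hp hpodd hi hj hq hc hc0 hd hz h
  rw [← hae, ← hCe, ← hlpe, ← hl2e] at hlat
  obtain ⟨H, hHe⟩ : ∃ H : ℝ, H = 2 * j * (ε * C) - d * a := ⟨_, rfl⟩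
  have hH0 : H ≠ 0 := by
    rcases hε with h1 | h1
    · rw [hHe, h1, one_mul]
      have : 0 < 2 * (j : ℝ) * C - d * a := by linarith
      exact this.ne'
    · rw [hHe, h1]
      have h9 : 2 * (j : ℝ) * (-1 * C) - d * a = -(2 * j * C) - d * a := by ring
      have : 2 * (j : ℝ) * (-1 * C) - d * a < 0 := by linarith
      exact this.ne
  have hjC2 : 2 * (j : ℝ) * C ≤ 2 * j * l2 + j * r * lp + 1 / 4 := by
    have h1 : 2 * (j : ℝ) * C ≤ 2 * j * (l2 + r / 2 * lp + z / 2 * (x * x)) :=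
      mul_le_mul_of_nonneg_left hC1 (by linarith)
    have h2 : 2 * (j : ℝ) * (l2 + r / 2 * lp + z / 2 * (x * x)) =
        2 * j * l2 + j * r * lp + (j * z * x) * x := by ring
    have h3 : ((j : ℝ) * z * x) * x ≤ 1 * (1 / 4) := by
      apply mul_le_mul _ hx4 hx0.le (by norm_num)
      linarith
    linarith
  have hHab : |H| ≤ j * r * lp + 2 * j * l2 + 1 := by
    have hjCp : 0 ≤ 2 * (j : ℝ) * C := by linarith
    rw [abs_le]
    rcases hε with h1 | h1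
    · rw [hHe, h1, one_mul]
      constructor <;> linarith
    · have h9 : 2 * (j : ℝ) * (-1 * C) - d * a = -(2 * j * C) - d * a := by ring
      rw [hHe, h1, h9]
      constructor <;> linarith
  have hMN : 3 * (4 * r + 4) < 2 * j * ((6 * r + 6) / j + 1) := by
    have h1 := Nat.lt_mul_div_succ (6 * r + 6) hj
    have h2 : 2 * j * ((6 * r + 6) / j + 1) = 2 * (j * ((6 * r + 6) / j + 1)) := by ring
    rw [h2]
    omega
  obtain ⟨n1, n2, n3, hn0, hY, hS, hn3⟩ :=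
    pigeon (j := j) (d := d) (M := 4 * r + 4) (N3 := (6 * r + 6) / j) a (ε * C) (XD p q i j)
      hj (by omega) hMN (by rw [← hHe]; exact hH0)
  rw [← hHe] at hY
  rcases hlat n1 n2 n3 with hlt | ⟨h1, h2, h3⟩
  swap
  · exfalso
    apply hn0
    have h4 : (n2 : ℝ) * H = 0 := by
      have h5 : (2 * j * n1 + d * n2 : ℝ) = 0 := by exact_mod_cast h3
      rw [hHe]
      have h6 : (n2 : ℝ) * (2 * j * (ε * C) - d * a) =
          2 * j * (n1 * a + n2 * (ε * C)) - (2 * j * n1 + d * n2) * a := by ring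
      rw [h6, h1, h5]
      ring
    have h7 : (n2 : ℝ) = 0 := by
      rcases mul_eq_zero.mp h4 with h8 | h8
      · exact h8
      · exact absurd h8 hH0
    have h8 : n2 = 0 := by exact_mod_cast h7
    refine ⟨?_, h8, h2⟩
    rw [h8, mul_zero, add_zero] at h3
    rcases mul_eq_zero.mp h3 with h9 | h9
    · exfalso
      omega
    · exact h9
  -- the main inequality
  have hqj : (j : ℝ) * lp ≤ Real.log q / 2 := by
    have h1 : (p : ℝ) ^ (2 * j) ≤ q := by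
      rw [hq]
      push_cast
      have : (0 : ℝ) ≤ 4 ^ i := by positivity
      linarith
    have h2 := Real.log_le_log (by positivity) h1
    rw [Real.log_pow, ← hlpe] at h2
    push_cast at h2
    linarith
  have hSb : ((|2 * j * n1 + d * n2 + j * n3| : ℤ) : ℝ) / 2 * lp ≤ j / 3 * lp := by
    apply mul_le_mul_of_nonneg_right _ (by linarith)
    have h1 : (3 : ℝ) * ((|2 * j * n1 + d * n2 + j * n3| : ℤ) : ℝ) ≤ 2 * j := by exact_mod_cast hS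
    linarith
  have hn3b : ((i : ℝ) - 1) / 2 * |(n3 : ℝ)| * l2 ≤ ((i : ℝ) - 1) / 2 * (6 * (r + 1) / j) * l2 := by
    apply mul_le_mul_of_nonneg_right _ (by linarith)
    apply mul_le_mul_of_nonneg_left _ (by linarith)
    have h1 : |(n3 : ℝ)| ≤ (((6 * r + 6) / j : ℕ) : ℝ) := by
      rw [← Int.cast_abs, ← Int.cast_natCast (R := ℝ) ((6 * r + 6) / j)]
      exact Int.cast_le.mpr hn3
    have h2 : (((6 * r + 6) / j : ℕ) : ℝ) ≤ ((6 * r + 6 : ℕ) : ℝ) / j := Nat.cast_div_le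
    push_cast at h2
    have h3 : (6 * (r : ℝ) + 6) / j = 6 * (r + 1) / j := by ring
    linarith
  have hHb : |H| / ((4 * r + 4 : ℕ) : ℝ) ≤ j / 4 * lp + (2 * j * l2 + 1) / 8 := by
    have h0 : (0 : ℝ) < ((4 * r + 4 : ℕ) : ℝ) := by positivity
    rw [div_le_iff₀ h0]
    refine hHab.trans ?_
    push_cast
    have h1 : (j / 4 * lp + (2 * j * l2 + 1) / 8) * (4 * (r : ℝ) + 4) =
        j * r * lp + j * lp + (2 * j * l2 + 1) * ((r + 1) / 2) := by ring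
    rw [h1]
    have h2 : (2 * (j : ℝ) * l2 + 1) * 1 ≤ (2 * j * l2 + 1) * ((r + 1) / 2) := by
      have h4 : 0 ≤ 2 * (j : ℝ) * l2 := mul_nonneg (by linarith) (by linarith)
      exact mul_le_mul_of_nonneg_left (by linarith) (by linarith)
    have h3 : 0 ≤ (j : ℝ) * lp := mul_nonneg (by linarith) (by linarith)
    linarith
  have hmain : (5 / 12 : ℝ) * (j * lp) ≤ l2 + (2 * j * l2 + 1) / 8 +
      ((i : ℝ) - 1) / 2 * (6 * (r + 1) / j) * l2 := by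
    linarith
  have hj0 : (0 : ℝ) < j := by linarith
  have hmul := mul_le_mul_of_nonneg_left hmain hj0.le
  have e1 : (j : ℝ) * (l2 + (2 * j * l2 + 1) / 8 + ((i : ℝ) - 1) / 2 * (6 * (r + 1) / j) * l2) =
      j * l2 + (2 * j ^ 2 * l2 + j) / 8 + 3 * l2 * (((i : ℝ) - 1) * (r + 1)) := by
    field_simp
    ring
  rw [e1] at hmul
  have hK0 : 0 ≤ ((i : ℝ) - 1) * (r + 1) := mul_nonneg (by linarith) (by linarith)
  obtain ⟨K, hK⟩ : ∃ K : ℝ, K = ((i : ℝ) - 1) * (r + 1) := ⟨_, rfl⟩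
  rw [← hK] at hmul hK0
  have e2 : 11 * ((i : ℝ) - 1) * (r + 1) = 11 * K := by rw [hK]; ring
  rw [e2]
  have hj2 : (j : ℝ) ≤ j ^ 2 := by
    have h1 : 1 * (j : ℝ) ≤ j * j := mul_le_mul_of_nonneg_right hjr hj0.le
    rw [sq]
    linarith
  obtain ⟨J, hJ⟩ : ∃ J : ℝ, J = (j : ℝ) ^ 2 := ⟨_, rfl⟩
  have e3 : (j : ℝ) * (5 / 12 * (j * lp)) = 5 / 12 * (J * lp) := by rw [hJ]; ring
  rw [e3, ← hJ] at hmul
  rw [← hJ] at hj2 ⊢
  have hJ1 : 1 ≤ J := by linarith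
  have b1 : (j : ℝ) * l2 ≤ J * 0.69315 := by
    have := mul_le_mul hj2 (by linarith : l2 ≤ 0.69315) (by linarith) (by linarith : 0 ≤ J)
    exact this
  have b2 : (2 * J * l2 + j) / 8 ≤ (2 * J * 0.69315 + J) / 8 := by
    have := mul_le_mul_of_nonneg_left (by linarith : l2 ≤ 0.69315) (by linarith : 0 ≤ J)
    linarith
  have b3 : 3 * l2 * K ≤ 2.0796 * K := mul_le_mul_of_nonneg_right (by linarith) hK0
  have b4 : J * 4.505 ≤ J * lp := mul_le_mul_of_nonneg_left hlp (by linarith)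
  linarith

end Pool.Agent.H91.CA
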