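import Pool.Agent.H91.CA.LatE
import Pool.Agent.H91.CA.Adic

/-!
JOB CA-12 (lattice elements: divisibility and the key inequality, about 150-200 lines; uses the stubs of
Adic and LatE).

Notation: `A = eA`, `C = eC`, `D = eD`; `n⁺ = n.toNat`, `n⁻ = (-n).toNat`, so `n = n⁺ - n⁻`,
`|n| = n⁺ + n⁻`, one of them is `0`.  `ρ = emb q`.
Take `φ` from `adic_p`; by `adic_p_c` one of `C`, `star C`, call it `C1`, has
`‖φ C1‖ = p^(-d)`, `‖φ (star C1)‖ = 1`; `ε = 1` if `C1 = C`, `ε = -1` if `C1 = star C`; so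
`log |ρ C1| = ε XC + (d/2) log p`, `log |ρ (star C1)| = -ε XC + (d/2) log p`.
`β = pw A n1 * pw C1 n2 * pw D n3`, `star β = pw A (-n1) * pw C1 (-n2) * pw D (-n3)`.
`log |ρ β| = Y + w`, `log |ρ (star β)| = -Y + w` (`log_pw`), with `Y = n1 XA + n2 ε XC + n3 XD`,
`w = |n1| j log p + |n2| (d/2) log p + |n3| ((i+1) log 2 + j log p)/2`.
Put `S⁺ = 2j n1⁺ + d n2⁺ + j n3⁺`, `S⁻ = 2j n1⁻ + d n2⁻ + j n3⁻`, `w = (S⁺+S⁻)/2 log p + |n3|(i+1)/2 log 2`.
`‖φ β‖ = p^(-S⁺)`, `‖φ (star β)‖ = p^(-S⁻)` (multiplicativity), so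
`‖φ (β - star β)‖ ≤ p^(-min(S⁺,S⁻))`; `β - star β = ⟨0, 2 im β⟩ = (2 im β) * ⟨0,1⟩` and `‖φ ⟨0,1⟩‖ = 1`, so
`p^min(S⁺,S⁻) ∣ 2 im β` (`PadicInt.norm_int_le_pow_iff_dvd`).
With `ψ` from `adic_two`: `A`, `C1` and their conjugates have norm `1` (even first, odd second component;
`c > 0` even so `c/2 ≥ 1`; `q` odd), also `‖ψ ⟨0,1⟩‖ = 1`; `‖ψ β‖ = 2^(-(n3⁺ + i n3⁻))`,
`‖ψ (star β)‖ = 2^(-(n3⁻ + i n3⁺))`, both `≤ 2^(-|n3|)`, so `2^|n3| ∣ 2 im β`.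
Coprime, so the product divides: `2 im β = e * (p^min * 2^|n3|)`.
If `im β = 0` then `β = star β`, so `S⁺ = S⁻`, i.e. `2j n1 + d n2 + j n3 = 0`, and
`n3⁺ + i n3⁻ = n3⁻ + i n3⁺`, i.e. `(i-1) n3 = 0`, `n3 = 0`; and `Y = 0` from `log|ρ β| = log |ρ (star β)|`:
second alternative.
If `im β ≠ 0`, then `|e| ≥ 1`,
`p^min * 2^|n3| * √q ≤ |2 im β| √q = |ρ β - ρ (star β)| ≤ |ρ β| + |ρ (star β)| ≤ 2 exp(|Y| + w)`;
taking logarithms and using `(S⁺ + S⁻)/2 - min(S⁺, S⁻) = |S⁺ - S⁻|/2`: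
`log q / 2 ≤ log 2 + |Y| + |S|/2 log p + (i-1)/2 |n3| log 2`, `S = 2j n1 + d n2 + j n3`: first alternative.
-/

namespace Pool.Agent.H91.CA

theorem latA_norm_pw {l : ℕ} [Fact l.Prime] {q : ℤ} (φ : ℤ√q →+* ℤ_[l]) (x : ℤ√q) (n : ℤ) :
    ‖φ (pw x n)‖ = ‖φ x‖ ^ n.toNat * ‖φ (star x)‖ ^ (-n).toNat := by
  unfold pw
  rw [map_mul, map_pow, map_pow, _root_.norm_mul, norm_pow, norm_pow]

theorem latA_dvd {l : ℕ} [Fact l.Prime] {q : ℤ} (φ : ℤ√q →+* ℤ_[l]) (h1 : ‖φ ⟨0, 1⟩‖ = 1)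
    (β : ℤ√q) (m : ℕ) (hb : ‖φ β‖ ≤ ((l : ℝ) ^ m)⁻¹) (hb' : ‖φ (star β)‖ ≤ ((l : ℝ) ^ m)⁻¹) :
    (l : ℤ) ^ m ∣ 2 * β.im := by
  rw [← PadicInt.norm_int_le_pow_iff_dvd, zpow_neg, zpow_natCast]
  have e : β - star β = ((2 * β.im : ℤ) : ℤ√q) * ⟨0, 1⟩ := by
    ext
    · simp [Zsqrtd.re_sub, Zsqrtd.re_mul]
    · rw [Zsqrtd.im_sub, Zsqrtd.im_mul, Zsqrtd.im_star, Zsqrtd.re_intCast, Zsqrtd.im_intCast]
      ring
  have e2 : ‖φ (β - star β)‖ = ‖((2 * β.im : ℤ) : ℤ_[l])‖ := by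
    rw [e, map_mul, _root_.norm_mul, h1, mul_one, map_intCast]
  rw [← e2, map_sub, sub_eq_add_neg]
  refine (PadicInt.nonarchimedean _ _).trans (max_le hb ?_)
  rwa [_root_.norm_neg]

theorem latA_core {p q i j d : ℕ} [Fact p.Prime] (hp2 : p % 2 = 1) (hi : 2 ≤ i)
    (φ : ℤ√(q : ℤ) →+* ℤ_[p]) (ψ : ℤ√(q : ℤ) →+* ℤ_[2])
    {A C D : ℤ√(q : ℤ)} {xA xC xD : ℝ} (hq0 : 0 < q)
    (φ1 : ‖φ ⟨0, 1⟩‖ = 1)
    (φA : ‖φ A‖ = ((p : ℝ) ^ (2 * j))⁻¹) (φA' : ‖φ (star A)‖ = 1)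
    (φC : ‖φ C‖ = ((p : ℝ) ^ d)⁻¹) (φC' : ‖φ (star C)‖ = 1)
    (φD : ‖φ D‖ = ((p : ℝ) ^ j)⁻¹) (φD' : ‖φ (star D)‖ = 1)
    (ψ1 : ‖ψ ⟨0, 1⟩‖ = 1)
    (ψA : ‖ψ A‖ = 1) (ψA' : ‖ψ (star A)‖ = 1)
    (ψC : ‖ψ C‖ = 1) (ψC' : ‖ψ (star C)‖ = 1)
    (ψD : ‖ψ D‖ = (2 : ℝ)⁻¹) (ψD' : ‖ψ (star D)‖ = ((2 : ℝ) ^ i)⁻¹)
    (eA0 : emb q A ≠ 0) (eA0' : emb q (star A) ≠ 0)
    (lA : Real.log |emb q A| = xA + j * Real.log p)
    (lA' : Real.log |emb q (star A)| = -xA + j * Real.log p)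
    (eC0 : emb q C ≠ 0) (eC0' : emb q (star C) ≠ 0)
    (lC : Real.log |emb q C| = xC + d / 2 * Real.log p)
    (lC' : Real.log |emb q (star C)| = -xC + d / 2 * Real.log p)
    (eD0 : emb q D ≠ 0) (eD0' : emb q (star D) ≠ 0)
    (lD : Real.log |emb q D| = xD + ((i + 1) * Real.log 2 + j * Real.log p) / 2)
    (lD' : Real.log |emb q (star D)| = -xD + ((i + 1) * Real.log 2 + j * Real.log p) / 2)
    (n1 n2 n3 : ℤ) :
    (Real.log q / 2 ≤ Real.log 2 + |n1 * xA + n2 * xC + n3 * xD| +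
        |(2 * j * n1 + d * n2 + j * n3 : ℤ)| / 2 * Real.log p +
        ((i : ℝ) - 1) / 2 * |(n3 : ℝ)| * Real.log 2) ∨
      (n1 * xA + n2 * xC = 0 ∧ n3 = 0 ∧ 2 * j * n1 + d * n2 = 0) := by
  have hp1 : (1 : ℝ) < p := by exact_mod_cast (Fact.out : p.Prime).one_lt
  have hp0 : (0 : ℝ) < p := by linarith
  set β : ℤ√(q : ℤ) := pw A n1 * pw C n2 * pw D n3 with hβ
  have hβ' : star β = pw A (-n1) * pw C (-n2) * pw D (-n3) := by
    rw [hβ, star_mul', star_mul', star_pw, star_pw, star_pw]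
  -- real sizes
  obtain ⟨a1, a2⟩ := log_pw eA0 eA0' lA lA' n1
  obtain ⟨a3, a4⟩ := log_pw eA0 eA0' lA lA' (-n1)
  obtain ⟨c1, c2⟩ := log_pw eC0 eC0' lC lC' n2
  obtain ⟨c3, c4⟩ := log_pw eC0 eC0' lC lC' (-n2)
  obtain ⟨d1, d2⟩ := log_pw eD0 eD0' lD lD' n3
  obtain ⟨d3, d4⟩ := log_pw eD0 eD0' lD lD' (-n3)
  push_cast at a4 c4 d4
  rw [abs_neg] at a4 c4 d4
  set Y : ℝ := n1 * xA + n2 * xC + n3 * xD with hY
  set w : ℝ := |(n1 : ℝ)| * (j * Real.log p) + |(n2 : ℝ)| * (d / 2 * Real.log p) +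
    |(n3 : ℝ)| * (((i + 1) * Real.log 2 + j * Real.log p) / 2) with hw
  have hb0 : emb q β ≠ 0 := by
    rw [hβ, map_mul, map_mul]
    exact mul_ne_zero (mul_ne_zero a1 c1) d1
  have hb0' : emb q (star β) ≠ 0 := by
    rw [hβ', map_mul, map_mul]
    exact mul_ne_zero (mul_ne_zero a3 c3) d3
  have hlb : Real.log |emb q β| = Y + w := by
    rw [hβ, map_mul, map_mul, abs_mul, abs_mul, Real.log_mul (mul_ne_zero (abs_ne_zero.2 a1)
      (abs_ne_zero.2 c1)) (abs_ne_zero.2 d1), Real.log_mul (abs_ne_zero.2 a1) (abs_ne_zero.2 c1),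
      a2, c2, d2, hY, hw]
    ring
  have hlb' : Real.log |emb q (star β)| = -Y + w := by
    rw [hβ', map_mul, map_mul, abs_mul, abs_mul, Real.log_mul (mul_ne_zero (abs_ne_zero.2 a3)
      (abs_ne_zero.2 c3)) (abs_ne_zero.2 d3), Real.log_mul (abs_ne_zero.2 a3) (abs_ne_zero.2 c3),
      a4, c4, d4, hY, hw]
    ring
  -- valuations
  set Sp : ℕ := 2 * j * n1.toNat + d * n2.toNat + j * n3.toNat with hSp
  set Sm : ℕ := 2 * j * (-n1).toNat + d * (-n2).toNat + j * (-n3).toNat with hSm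
  have vb : ‖φ β‖ = ((p : ℝ) ^ Sp)⁻¹ := by
    rw [hβ, map_mul, map_mul, _root_.norm_mul, _root_.norm_mul, latA_norm_pw, latA_norm_pw,
      latA_norm_pw, φA, φA', φC, φC', φD, φD', hSp]
    simp only [one_pow, mul_one, inv_pow, ← pow_mul]
    rw [← mul_inv, ← mul_inv, ← pow_add, ← pow_add]
  have vb' : ‖φ (star β)‖ = ((p : ℝ) ^ Sm)⁻¹ := by
    rw [hβ', map_mul, map_mul, _root_.norm_mul, _root_.norm_mul, latA_norm_pw, latA_norm_pw,
      latA_norm_pw, φA, φA', φC, φC', φD, φD', hSm]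
    simp only [one_pow, mul_one, inv_pow, ← pow_mul]
    rw [← mul_inv, ← mul_inv, ← pow_add, ← pow_add]
  have ub : ‖ψ β‖ = ((2 : ℝ) ^ (n3.toNat + i * (-n3).toNat))⁻¹ := by
    rw [hβ, map_mul, map_mul, _root_.norm_mul, _root_.norm_mul, latA_norm_pw, latA_norm_pw,
      latA_norm_pw, ψA, ψA', ψC, ψC', ψD, ψD']
    simp only [one_pow, one_mul, inv_pow, ← pow_mul]
    rw [← mul_inv, ← pow_add]
  have ub' : ‖ψ (star β)‖ = ((2 : ℝ) ^ ((-n3).toNat + i * n3.toNat))⁻¹ := by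
    rw [hβ', map_mul, map_mul, _root_.norm_mul, _root_.norm_mul, latA_norm_pw, latA_norm_pw,
      latA_norm_pw, ψA, ψA', ψC, ψC', ψD, ψD']
    simp only [one_pow, one_mul, inv_pow, ← pow_mul, neg_neg]
    rw [← mul_inv, ← pow_add]
  -- relations between the parts
  have r1 := Int.toNat_sub_toNat_neg n1
  have r2 := Int.toNat_sub_toNat_neg n2
  have r3 := Int.toNat_sub_toNat_neg n3
  have s1 := Int.toNat_add_toNat_neg_eq_natAbs n1
  have s2 := Int.toNat_add_toNat_neg_eq_natAbs n2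
  have s3 := Int.toNat_add_toNat_neg_eq_natAbs n3
  have hS : (2 * j * n1 + d * n2 + j * n3 : ℤ) = (Sp : ℤ) - Sm := by
    rw [hSp, hSm]
    push_cast
    linear_combination (-(2 * j : ℤ)) * r1 + (-(d : ℤ)) * r2 + (-(j : ℤ)) * r3
  by_cases him : β.im = 0
  · right
    have hbb : star β = β := by
      apply Zsqrtd.ext
      · rw [Zsqrtd.re_star]
      · rw [Zsqrtd.im_star, him, neg_zero]
    rw [hbb] at vb' ub' hlb'
    have k1 : (p : ℝ) ^ Sp = (p : ℝ) ^ Sm := inv_injective (vb.symm.trans vb')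
    have k2 : Sp = Sm := pow_right_injective₀ hp0 hp1.ne' k1
    have k3 : (2 : ℝ) ^ (n3.toNat + i * (-n3).toNat) = 2 ^ ((-n3).toNat + i * n3.toNat) :=
      inv_injective (ub.symm.trans ub')
    have k4 : n3.toNat + i * (-n3).toNat = (-n3).toNat + i * n3.toNat :=
      pow_right_injective₀ (by norm_num) (by norm_num) k3
    have k5 : n3 = 0 := by
      have e1 : ((n3.toNat : ℤ) + i * (-n3).toNat) = (-n3).toNat + i * n3.toNat := by
        exact_mod_cast k4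
      have e2 : ((i : ℤ) - 1) * n3 = 0 := by
        linear_combination (-1 : ℤ) * e1 + (-((i : ℤ) - 1)) * r3
      rcases mul_eq_zero.1 e2 with e3 | e3
      · exfalso
        omega
      · exact e3
    have k6 : Y = 0 := by
      have := hlb.symm.trans hlb'
      linarith
    refine ⟨?_, k5, ?_⟩
    · rw [hY, k5] at k6
      push_cast at k6
      linarith
    · rw [k2, sub_self, k5, mul_zero, add_zero] at hS
      exact hS
  · left
    set m : ℕ := min Sp Sm with hm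
    have hm1 : m ≤ Sp := min_le_left _ _
    have hm2 : m ≤ Sm := min_le_right _ _
    have inv_mono : ∀ (b : ℝ) (x y : ℕ), 1 < b → x ≤ y → (b ^ y)⁻¹ ≤ (b ^ x)⁻¹ := by
      intro b x y hb hxy
      apply inv_anti₀ (by positivity)
      exact pow_le_pow_right₀ hb.le hxy
    have D1 : (p : ℤ) ^ m ∣ 2 * β.im := latA_dvd φ φ1 β m (by rw [vb]; exact inv_mono _ _ _ hp1 hm1)
      (by rw [vb']; exact inv_mono _ _ _ hp1 hm2)
    have hz1 : n3.toNat = 0 ∨ (-n3).toNat = 0 := by omega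
    have D2 : ((2 : ℕ) : ℤ) ^ n3.natAbs ∣ 2 * β.im := by
      apply latA_dvd ψ ψ1 β n3.natAbs
      · rw [ub]
        apply inv_mono _ _ _ (by norm_num)
        rw [← s3]
        apply Nat.add_le_add_left
        exact Nat.le_mul_of_pos_left _ (by omega)
      · rw [ub']
        apply inv_mono _ _ _ (by norm_num)
        rw [← s3, add_comm]
        apply Nat.add_le_add_left
        exact Nat.le_mul_of_pos_left _ (by omega)
    have hcop : IsCoprime ((p : ℤ) ^ m) (((2 : ℕ) : ℤ) ^ n3.natAbs) := by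
      apply IsCoprime.pow
      rw [Nat.isCoprime_iff_coprime]
      exact Nat.coprime_two_right.2 (Nat.odd_iff.2 hp2)
    obtain ⟨e, he⟩ := hcop.mul_dvd D1 D2
    have he0 : e ≠ 0 := by
      rintro rfl
      rw [mul_zero] at he
      apply him
      omega
    have hbig : (p : ℝ) ^ m * 2 ^ n3.natAbs ≤ |2 * (β.im : ℝ)| := by
      have f1 : |2 * (β.im : ℝ)| = (p : ℝ) ^ m * 2 ^ n3.natAbs * |(e : ℝ)| := by
        have f2 : (2 * (β.im : ℝ)) = (p : ℝ) ^ m * 2 ^ n3.natAbs * e := by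
          have := congrArg (Int.cast : ℤ → ℝ) he
          push_cast at this
          exact this
        rw [f2, abs_mul, abs_of_pos (by positivity : (0 : ℝ) < (p : ℝ) ^ m * 2 ^ n3.natAbs)]
      have f3 : (1 : ℝ) ≤ |(e : ℝ)| := by
        have := Int.one_le_abs he0
        exact_mod_cast this
      rw [f1]
      exact le_mul_of_one_le_right (by positivity) f3
    -- difference of the embeddings
    have hdiff : emb q β - emb q (star β) = 2 * β.im * Real.sqrt q := by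
      have e1 : β = ⟨β.re, β.im⟩ := rfl
      have e2 : star β = ⟨β.re, -β.im⟩ := rfl
      rw [e2, e1, emb_apply, emb_apply]
      push_cast
      ring
    have hY1 : |emb q β| ≤ Real.exp (|Y| + w) := by
      rw [← Real.exp_log (abs_pos.2 hb0), hlb]
      apply Real.exp_le_exp.2
      linarith [le_abs_self Y]
    have hY2 : |emb q (star β)| ≤ Real.exp (|Y| + w) := by
      rw [← Real.exp_log (abs_pos.2 hb0'), hlb']
      apply Real.exp_le_exp.2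
      linarith [neg_le_abs Y]
    have hq1 : (0 : ℝ) < Real.sqrt q := Real.sqrt_pos.2 (by exact_mod_cast hq0)
    have hmain : (p : ℝ) ^ m * 2 ^ n3.natAbs * Real.sqrt q ≤ 2 * Real.exp (|Y| + w) := by
      calc (p : ℝ) ^ m * 2 ^ n3.natAbs * Real.sqrt q ≤ |2 * (β.im : ℝ)| * Real.sqrt q :=
            mul_le_mul_of_nonneg_right hbig hq1.le
        _ = |emb q β - emb q (star β)| := by
            rw [hdiff, abs_mul (2 * (β.im : ℝ)) (Real.sqrt q), abs_of_pos hq1]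
        _ ≤ |emb q β| + |emb q (star β)| := abs_sub _ _
        _ ≤ 2 * Real.exp (|Y| + w) := by linarith
    have hlog := Real.log_le_log (by positivity) hmain
    rw [Real.log_mul (by positivity) hq1.ne', Real.log_mul (by positivity) (by positivity),
      Real.log_pow, Real.log_pow, Real.log_sqrt (Nat.cast_nonneg q),
      Real.log_mul (by norm_num) (Real.exp_pos _).ne', Real.log_exp] at hlog
    -- rewrite `w`
    have t1 : (|(n1 : ℝ)| : ℝ) = n1.toNat + (-n1).toNat := by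
      rw [← Int.cast_abs, Int.abs_eq_natAbs, ← s1]
      push_cast
      ring
    have t2 : (|(n2 : ℝ)| : ℝ) = n2.toNat + (-n2).toNat := by
      rw [← Int.cast_abs, Int.abs_eq_natAbs, ← s2]
      push_cast
      ring
    have t3 : (|(n3 : ℝ)| : ℝ) = n3.toNat + (-n3).toNat := by
      rw [← Int.cast_abs, Int.abs_eq_natAbs, ← s3]
      push_cast
      ring
    have t4 : (n3.natAbs : ℝ) = |(n3 : ℝ)| := by
      rw [t3, ← s3]
      push_cast
      ring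
    have hSps : (Sp : ℝ) + Sm = 2 * j * |(n1 : ℝ)| + d * |(n2 : ℝ)| + j * |(n3 : ℝ)| := by
      rw [t1, t2, t3, hSp, hSm]
      push_cast
      ring
    have hw2 : w = ((Sp : ℝ) + Sm) / 2 * Real.log p + |(n3 : ℝ)| * ((i + 1) / 2) * Real.log 2 := by
      rw [hSps, hw]
      ring
    have hmin : ((Sp : ℝ) + Sm) / 2 - m = |((2 * j * n1 + d * n2 + j * n3 : ℤ) : ℝ)| / 2 := by
      rw [hS]
      push_cast
      rcases le_total Sp Sm with hh | hh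
      · rw [hm, min_eq_left hh]
        have : (Sp : ℝ) ≤ Sm := by exact_mod_cast hh
        rw [abs_of_nonpos (by linarith)]
        ring
      · rw [hm, min_eq_right hh]
        have : (Sm : ℝ) ≤ Sp := by exact_mod_cast hh
        rw [abs_of_nonneg (by linarith)]
        ring
    rw [t4, hw2] at hlog
    have hmin2 : (m : ℝ) = ((Sp : ℝ) + Sm) / 2 -
        |((2 * j * n1 + d * n2 + j * n3 : ℤ) : ℝ)| / 2 := by linarith
    rw [hmin2] at hlog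
    have goal_cast : ((|(2 * j * n1 + d * n2 + j * n3 : ℤ)| : ℤ) : ℝ) =
        |((2 * j * n1 + d * n2 + j * n3 : ℤ) : ℝ)| := by rw [Int.cast_abs]
    rw [goal_cast]
    linarith

theorem lat_alg {p q i j c d z : ℕ} (hp : p.Prime) (hp2 : p % 2 = 1) (hi : 2 ≤ i) (hj : 1 ≤ j)
    (hq : q = 4 ^ i + p ^ (2 * j)) (hc : c % 2 = 0) (hc0 : 0 < c) (hd : 1 ≤ d) (hz : z % 2 = 1)
    (h : 2 ^ c + p ^ d = q ^ z) :
    ∃ ε : ℝ, (ε = 1 ∨ ε = -1) ∧ ∀ n1 n2 n3 : ℤ,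
      (Real.log q / 2 ≤ Real.log 2 + |n1 * XA p q i j + n2 * (ε * XC p q c d z) + n3 * XD p q i j| +
        |(2 * j * n1 + d * n2 + j * n3 : ℤ)| / 2 * Real.log p +
        ((i : ℝ) - 1) / 2 * |(n3 : ℝ)| * Real.log 2) ∨
      (n1 * XA p q i j + n2 * (ε * XC p q c d z) = 0 ∧ n3 = 0 ∧ 2 * j * n1 + d * n2 = 0) := by
  have : Fact p.Prime := ⟨hp⟩
  have hpne : p ≠ 2 := by omega
  have hq0 : 0 < q := by
    rw [hq]
    positivity
  have hqodd : Odd (q : ℤ) := by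
    rw [Int.odd_coe_nat, Nat.odd_iff, hq]
    have h1 : (4 ^ i) % 2 = 0 := by
      have : 4 ^ i = 2 * (2 * 4 ^ (i - 1)) := by
        obtain ⟨k, rfl⟩ : ∃ k, i = k + 1 := ⟨i - 1, by omega⟩
        rw [pow_succ, Nat.add_sub_cancel]
        ring
      omega
    have h2 : (p ^ (2 * j)) % 2 = 1 := by
      simp [Nat.pow_mod, hp2]
    omega
  obtain ⟨φ, φ1, φA, φA', φD, φD'⟩ := adic_p (i := i) hpne hj hq
  obtain ⟨ψ, ψu, ψD, ψD'⟩ := adic_two (i := i) (j := j) hp2 hi hq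
  obtain ⟨eA0, eA0', lA, lA'⟩ := emb_A (j := j) hp.two_le hq
  obtain ⟨eD0, eD0', lD, lD'⟩ := emb_D (i := i) (j := j) hp.two_le hq
  obtain ⟨eC0, eC0', lC, lC'⟩ := emb_C hp.two_le hc hz h
  have hev : ∀ k : ℕ, 1 ≤ k → Even ((2 : ℤ) ^ k) := by
    intro k hk
    exact Int.even_pow.2 ⟨even_two, by omega⟩
  have ψ1 : ‖ψ ⟨0, 1⟩‖ = 1 := ψu 0 1 (by simp) (by simp)
  have ψA : ‖ψ (eA q i)‖ = 1 := ψu _ _ (hev i (by omega)) (by show Odd (1 : ℤ); simp)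
  have ψA' : ‖ψ (star (eA q i))‖ = 1 :=
    ψu _ _ (hev i (by omega)) (by show Odd (-1 : ℤ); simp)
  have hqp : Odd ((q : ℤ) ^ ((z - 1) / 2)) := hqodd.pow
  have ψC : ‖ψ (eC q c z)‖ = 1 := ψu _ _ (hev (c / 2) (by omega)) hqp
  have ψC' : ‖ψ (star (eC q c z))‖ = 1 := ψu _ _ (hev (c / 2) (by omega)) hqp.neg
  rcases adic_p_c hpne hc hz hd h φ with ⟨φC, φC'⟩ | ⟨φC', φC⟩
  · refine ⟨1, Or.inl rfl, fun n1 n2 n3 => ?_⟩
    rw [one_mul]
    exact latA_core hp2 hi φ ψ hq0 φ1 φA φA' φC φC' φD φD' ψ1 ψA ψA' ψC ψC' ψD ψD'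
      eA0 eA0' lA lA' eC0 eC0' lC lC' eD0 eD0' lD lD' n1 n2 n3
  · refine ⟨-1, Or.inr rfl, fun n1 n2 n3 => ?_⟩
    have hss : star (star (eC q c z)) = eC q c z := star_star _
    have key := latA_core (C := star (eC q c z)) (xC := -1 * XC p q c d z) hp2 hi φ ψ hq0 φ1 φA φA'
      φC (by rw [hss]; exact φC') φD φD' ψ1 ψA ψA' ψC' (by rw [hss]; exact ψC) ψD ψD'
      eA0 eA0' lA lA' eC0' (by rw [hss]; exact eC0) (by rw [lC']; ring)
      (by rw [hss, lC]; ring) eD0 eD0' lD lD' n1 n2 n3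
    exact key

end Pool.Agent.H91.CA
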