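import Pool.Agent.H91.CA.Def

/-!
JOB CA-11 (real embedding of the lattice elements, about 100-140 lines; independent).

`n⁺ = n.toNat`, `n⁻ = (-n).toNat`, `n = n⁺ - n⁻`, `|n| = n⁺ + n⁻`.
`log_pw`: `emb (pw x n) = (emb x)^n⁺ (emb (star x))^n⁻`, so its log-abs is `n⁺ (X + w) + n⁻ (-X + w)`.
`emb_A`: `emb A = 2^i + √q > 0`, `emb (star A) = 2^i - √q`, `|emb (star A)| = √q - 2^i > 0` because
`q > 4^i`; `(√q + 2^i)(√q - 2^i) = q - 4^i = p^(2j)`, so `log|emb (star A)| = 2 j log p - log (2^i + √q)`.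
`emb_C`: `emb C = 2^(c/2) + q^((z-1)/2) √q = 2^(c/2) + √(q^z)` (`z` odd), `(2^(c/2))^2 = 2^c` (`c` even),
`(√(q^z) + 2^(c/2))(√(q^z) - 2^(c/2)) = q^z - 2^c = p^d`.
`emb_D`: `emb D = 2^i + p^j + √q`, `emb (star D) = 2^i + p^j - √q > 0` because
`(2^i + p^j)^2 - q = 2^(i+1) p^j > 0`.
-/

namespace Pool.Agent.H91.CA

theorem star_pw {q : ℤ} (x : ℤ√q) (n : ℤ) : star (pw x n) = pw x (-n) := by
  unfold pw
  rw [star_mul', star_pow, star_pow, star_star, neg_neg, mul_comm]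

theorem log_pw {q : ℕ} {x : ℤ√(q : ℤ)} {X w : ℝ} (h1 : emb q x ≠ 0) (h2 : emb q (star x) ≠ 0)
    (hx : Real.log |emb q x| = X + w) (hx' : Real.log |emb q (star x)| = -X + w) (n : ℤ) :
    emb q (pw x n) ≠ 0 ∧ Real.log |emb q (pw x n)| = n * X + |(n : ℝ)| * w := by
  have e : emb q (pw x n) = (emb q x) ^ n.toNat * (emb q (star x)) ^ (-n).toNat := by
    unfold pw
    rw [map_mul, map_pow, map_pow]
  refine ⟨?_, ?_⟩
  · rw [e]
    exact mul_ne_zero (pow_ne_zero _ h1) (pow_ne_zero _ h2)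
  · rw [e, abs_mul, abs_pow, abs_pow, Real.log_mul (pow_ne_zero _ (abs_ne_zero.2 h1))
      (pow_ne_zero _ (abs_ne_zero.2 h2)), Real.log_pow, Real.log_pow, hx, hx']
    have e1 : ((n.toNat : ℕ) : ℝ) - (((-n).toNat : ℕ) : ℝ) = n := by
      have := Int.toNat_sub_toNat_neg n
      exact_mod_cast this
    have e2 : ((n.toNat : ℕ) : ℝ) + (((-n).toNat : ℕ) : ℝ) = |(n : ℝ)| := by
      have := Int.toNat_add_toNat_neg_eq_natAbs n
      have h3 : ((n.natAbs : ℕ) : ℝ) = |(n : ℝ)| := by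
        rw [Nat.cast_natAbs, Int.cast_abs]
      rw [← h3, ← this]
      push_cast
      ring
    linear_combination X * e1 + w * e2

theorem late_aux {a s N L : ℝ} (ha : 0 < a) (hs : a < s) (hN : s * s - a * a = N)
    (hL : Real.log N = L) :
    a - s ≠ 0 ∧ Real.log |a - s| = -Real.log (a + s) + L := by
  have h1 : a - s < 0 := by linarith
  refine ⟨h1.ne, ?_⟩
  rw [abs_of_neg h1, ← hL, ← hN]
  have e : s * s - a * a = (a + s) * (-(a - s)) := by ring
  rw [e, Real.log_mul (by linarith) (by linarith)]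
  ring

theorem emb_A {p q i j : ℕ} (hp : 2 ≤ p) (hq : q = 4 ^ i + p ^ (2 * j)) :
    emb q (eA q i) ≠ 0 ∧ emb q (star (eA q i)) ≠ 0 ∧
      Real.log |emb q (eA q i)| = XA p q i j + j * Real.log p ∧
      Real.log |emb q (star (eA q i))| = -XA p q i j + j * Real.log p := by
  have hp0 : (0 : ℝ) < p := by exact_mod_cast (by omega : 0 < p)
  have e1 : emb q (eA q i) = 2 ^ i + Real.sqrt q := by
    unfold eA
    rw [emb_apply]
    push_cast
    ring
  have e2 : emb q (star (eA q i)) = 2 ^ i - Real.sqrt q := by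
    have : star (eA q i) = ⟨2 ^ i, -1⟩ := rfl
    rw [this, emb_apply]
    push_cast
    ring
  have hqr : (q : ℝ) = 2 ^ i * 2 ^ i + (p : ℝ) ^ (2 * j) := by
    rw [hq]
    push_cast
    rw [← mul_pow]
    norm_num
  have hsq : Real.sqrt q * Real.sqrt q = q := Real.mul_self_sqrt (Nat.cast_nonneg q)
  have h2i : (0 : ℝ) < 2 ^ i := by positivity
  have hpj : (0 : ℝ) < (p : ℝ) ^ (2 * j) := by positivity
  have hs : (2 : ℝ) ^ i < Real.sqrt q := by
    apply Real.lt_sqrt_of_sq_lt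
    rw [hqr]
    nlinarith
  have hsum : 0 < 2 ^ i + Real.sqrt q := by linarith
  obtain ⟨h1, h2⟩ := late_aux (a := 2 ^ i) (s := Real.sqrt q) (N := (p : ℝ) ^ (2 * j))
    (L := 2 * j * Real.log p) h2i hs (by rw [hsq, hqr]; ring) (by
      rw [Real.log_pow]
      push_cast
      ring)
  refine ⟨by rw [e1]; exact hsum.ne', by rw [e2]; exact h1, ?_, ?_⟩
  · rw [e1, abs_of_pos hsum]
    unfold XA
    ring
  · rw [e2, h2]
    unfold XA
    ring

theorem emb_C {p q c d z : ℕ} (hp : 2 ≤ p) (hc : c % 2 = 0) (hz : z % 2 = 1)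
    (h : 2 ^ c + p ^ d = q ^ z) :
    emb q (eC q c z) ≠ 0 ∧ emb q (star (eC q c z)) ≠ 0 ∧
      Real.log |emb q (eC q c z)| = XC p q c d z + d / 2 * Real.log p ∧
      Real.log |emb q (star (eC q c z))| = -XC p q c d z + d / 2 * Real.log p := by
  have hp0 : (0 : ℝ) < p := by exact_mod_cast (by omega : 0 < p)
  have hq0 : (0 : ℝ) ≤ q := Nat.cast_nonneg q
  have hz2 : z = 2 * ((z - 1) / 2) + 1 := by omega
  have hsqrt : (q : ℝ) ^ ((z - 1) / 2) * Real.sqrt q = Real.sqrt ((q : ℝ) ^ z) := by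
    conv_rhs => rw [hz2]
    rw [pow_succ, Real.sqrt_mul (by positivity), pow_mul', Real.sqrt_sq (by positivity)]
  have e1 : emb q (eC q c z) = 2 ^ (c / 2) + Real.sqrt ((q : ℝ) ^ z) := by
    unfold eC
    rw [emb_apply, ← hsqrt]
    push_cast
    ring
  have e2 : emb q (star (eC q c z)) = 2 ^ (c / 2) - Real.sqrt ((q : ℝ) ^ z) := by
    have : star (eC q c z) = ⟨2 ^ (c / 2), -(q : ℤ) ^ ((z - 1) / 2)⟩ := rfl
    rw [this, emb_apply, ← hsqrt]
    push_cast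
    ring
  have hqz : (0 : ℝ) ≤ (q : ℝ) ^ z := by positivity
  have hsq : Real.sqrt ((q : ℝ) ^ z) * Real.sqrt ((q : ℝ) ^ z) = (q : ℝ) ^ z :=
    Real.mul_self_sqrt hqz
  have hr : (2 : ℝ) ^ c + (p : ℝ) ^ d = (q : ℝ) ^ z := by exact_mod_cast h
  have hc2 : (2 : ℝ) ^ (c / 2) * 2 ^ (c / 2) = 2 ^ c := by
    rw [← pow_add]
    congr 1
    omega
  have h2c : (0 : ℝ) < 2 ^ (c / 2) := by positivity
  have hpd : (0 : ℝ) < (p : ℝ) ^ d := by positivity
  have hs : (2 : ℝ) ^ (c / 2) < Real.sqrt ((q : ℝ) ^ z) := by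
    apply Real.lt_sqrt_of_sq_lt
    rw [← hr, pow_two, hc2]
    linarith
  have hsum : 0 < 2 ^ (c / 2) + Real.sqrt ((q : ℝ) ^ z) := by linarith
  obtain ⟨h1, h2⟩ := late_aux (a := 2 ^ (c / 2)) (s := Real.sqrt ((q : ℝ) ^ z))
    (N := (p : ℝ) ^ d) (L := d * Real.log p) h2c hs (by rw [hsq, hc2, ← hr]; ring) (by
      rw [Real.log_pow])
  refine ⟨by rw [e1]; exact hsum.ne', by rw [e2]; exact h1, ?_, ?_⟩
  · rw [e1, abs_of_pos hsum]
    unfold XC
    ring
  · rw [e2, h2]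
    unfold XC
    ring

theorem emb_D {p q i j : ℕ} (hp : 2 ≤ p) (hq : q = 4 ^ i + p ^ (2 * j)) :
    emb q (eD p q i j) ≠ 0 ∧ emb q (star (eD p q i j)) ≠ 0 ∧
      Real.log |emb q (eD p q i j)| =
        XD p q i j + ((i + 1) * Real.log 2 + j * Real.log p) / 2 ∧
      Real.log |emb q (star (eD p q i j))| =
        -XD p q i j + ((i + 1) * Real.log 2 + j * Real.log p) / 2 := by
  have hp0 : (0 : ℝ) < p := by exact_mod_cast (by omega : 0 < p)
  have e1 : emb q (eD p q i j) = 2 ^ i + (p : ℝ) ^ j + Real.sqrt q := by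
    unfold eD
    rw [emb_apply]
    push_cast
    ring
  have e2 : emb q (star (eD p q i j)) = 2 ^ i + (p : ℝ) ^ j - Real.sqrt q := by
    have : star (eD p q i j) = ⟨2 ^ i + (p : ℤ) ^ j, -1⟩ := rfl
    rw [this, emb_apply]
    push_cast
    ring
  have hqr : (q : ℝ) = 2 ^ i * 2 ^ i + (p : ℝ) ^ j * (p : ℝ) ^ j := by
    rw [hq]
    push_cast
    rw [← mul_pow, ← pow_add, two_mul]
    norm_num
  have hsq : Real.sqrt q * Real.sqrt q = q := Real.mul_self_sqrt (Nat.cast_nonneg q)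
  have h2i : (0 : ℝ) < 2 ^ i := by positivity
  have hpj : (0 : ℝ) < (p : ℝ) ^ j := by positivity
  have hs0 : 0 ≤ Real.sqrt q := Real.sqrt_nonneg _
  have hs : Real.sqrt q < 2 ^ i + (p : ℝ) ^ j := by
    rw [Real.sqrt_lt' (by positivity), hqr]
    nlinarith [mul_pos h2i hpj]
  have hsum : 0 < 2 ^ i + (p : ℝ) ^ j + Real.sqrt q := by positivity
  have hdif : 0 < 2 ^ i + (p : ℝ) ^ j - Real.sqrt q := by linarith
  refine ⟨by rw [e1]; exact hsum.ne', by rw [e2]; exact hdif.ne', ?_, ?_⟩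
  · rw [e1, abs_of_pos hsum]
    unfold XD
    ring
  · rw [e2, abs_of_pos hdif]
    unfold XD
    have h3 : Real.log (2 ^ i + (p : ℝ) ^ j + Real.sqrt q) +
        Real.log (2 ^ i + (p : ℝ) ^ j - Real.sqrt q) = (i + 1) * Real.log 2 + j * Real.log p := by
      rw [← Real.log_mul hsum.ne' hdif.ne']
      have h4 : (2 ^ i + (p : ℝ) ^ j + Real.sqrt q) * (2 ^ i + (p : ℝ) ^ j - Real.sqrt q) =
          2 ^ (i + 1) * (p : ℝ) ^ j := by
        have : (2 ^ i + (p : ℝ) ^ j + Real.sqrt q) * (2 ^ i + (p : ℝ) ^ j - Real.sqrt q) =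
            (2 ^ i + (p : ℝ) ^ j) * (2 ^ i + (p : ℝ) ^ j) - Real.sqrt q * Real.sqrt q := by ring
        rw [this, hsq, hqr]
        ring
      rw [h4, Real.log_mul (by positivity) (by positivity), Real.log_pow, Real.log_pow]
      push_cast
      ring
    linarith

end Pool.Agent.H91.CA
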