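import Mathlib

/-!
JOB CA-06 (numerical inequalities for the determinant method, about 80-120 lines; independent).

Put `l0 = log(102 L E F B) ≥ log 102 > 4.6`, so `hL` gives `L ≥ 44`.  With `K = 2500 L E F`, `N = K L`:
`K (1 + l0) ≤ K L / 8 = N/8` (from `hL`); `e * 103 L² E F = e * 103 N/2500 ≤ 0.1121 N` (`e < 2.7183`,
`Real.exp_one_lt_d9`); `log N ≤ N/100` for `N ≥ 2500 * 44^2` (`Real.log_le_sub_one_of_pos` applied to
`N/ 200` etc., or `log N = 2 log √N ≤ 2 √N`), and `2 log 2 + 1/2 ≤ N/100`.  Sum: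
`(0.125 + 0.1121 + 0.02) N < N/2`.
Second: `N - K = K (L-1) ≥ 0.97 N`, `(N-K)(N-K-1) ≥ 0.94 N^2`, times `log 2 > 0.69`: `≥ 0.64 N^2`, while the
left side is at most `N (0.01 + 0.125 + 0.041) N`.
-/

namespace Pool.Agent.H91.CA

private theorem Num_L {L E F B : ℕ} (hE : 1 ≤ E) (hF : 1 ≤ F) (hB : 1 ≤ B)
    (hL : 8 * (1 + Real.log (102 * L * E * F * B)) ≤ L) :
    44 ≤ L ∧ 0 ≤ Real.log (102 * L * E * F * B) := by
  have hL0 : 0 < L := by
    rcases Nat.eq_zero_or_pos L with h | h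
    · subst h
      simp at hL
      linarith
    · exact h
  have hE' : (1 : ℝ) ≤ E := by exact_mod_cast hE
  have hF' : (1 : ℝ) ≤ F := by exact_mod_cast hF
  have hB' : (1 : ℝ) ≤ B := by exact_mod_cast hB
  have hL' : (1 : ℝ) ≤ L := by exact_mod_cast hL0
  have hbig : 102 * (L : ℝ) ≤ 102 * L * E * F * B := by
    have h1 : 102 * (L : ℝ) ≤ 102 * L * E := le_mul_of_one_le_right (by positivity) hE'
    have h2 : 102 * (L : ℝ) * E ≤ 102 * L * E * F := le_mul_of_one_le_right (by positivity) hF'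
    have h3 : 102 * (L : ℝ) * E * F ≤ 102 * L * E * F * B :=
      le_mul_of_one_le_right (by positivity) hB'
    linarith
  have hlog0 : 0 ≤ Real.log (102 * L * E * F * B) := Real.log_nonneg (by linarith)
  have hL8 : (8 : ℝ) ≤ L := by linarith
  have h512 : Real.log 512 ≤ Real.log (102 * L * E * F * B) :=
    Real.log_le_log (by norm_num) (by linarith)
  have h512' : Real.log 512 = 9 * Real.log 2 := by
    rw [show (512 : ℝ) = 2 ^ 9 by norm_num, Real.log_pow]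
    norm_num
  have hl2 := Real.log_two_gt_d9
  refine ⟨?_, hlog0⟩
  have : (44 : ℝ) ≤ L := by linarith
  exact_mod_cast this

private theorem Num_log {N : ℝ} (hN : 0 < N) : Real.log N ≤ N / 1024 + 6 := by
  have h1 : Real.log (N / 1024) ≤ N / 1024 - 1 := Real.log_le_sub_one_of_pos (by positivity)
  rw [Real.log_div hN.ne' (by norm_num)] at h1
  have h2 : Real.log 1024 = 10 * Real.log 2 := by
    rw [show (1024 : ℝ) = 2 ^ 10 by norm_num, Real.log_pow]
    norm_num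
  have hl2 := Real.log_two_lt_d9
  linarith

private theorem Num_N {L E F : ℕ} (hE : 1 ≤ E) (hF : 1 ≤ F) (hL : 44 ≤ L) :
    (4840000 : ℝ) ≤ 2500 * (L : ℝ) ^ 2 * E * F := by
  have hE' : (1 : ℝ) ≤ E := by exact_mod_cast hE
  have hF' : (1 : ℝ) ≤ F := by exact_mod_cast hF
  have hL' : (44 : ℝ) ≤ L := by exact_mod_cast hL
  have h1 : (4840000 : ℝ) ≤ 2500 * (L : ℝ) ^ 2 := by nlinarith
  have h2 : 2500 * (L : ℝ) ^ 2 ≤ 2500 * (L : ℝ) ^ 2 * E :=
    le_mul_of_one_le_right (by positivity) hE'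
  have h3 : 2500 * (L : ℝ) ^ 2 * E ≤ 2500 * (L : ℝ) ^ 2 * E * F :=
    le_mul_of_one_le_right (by positivity) hF'
  linarith

theorem num_arch {L E F B : ℕ} (hE : 1 ≤ E) (hF : 1 ≤ F) (hB : 1 ≤ B)
    (hL : 8 * (1 + Real.log (102 * L * E * F * B)) ≤ L) :
    Real.log 2 + Real.log (2500 * (L : ℝ) ^ 2 * E * F) +
      (Real.log 2 + (2500 * (L : ℝ) * E * F) * (1 + Real.log (102 * L * E * F * B)) +
        Real.exp 1 * (103 * (L : ℝ) ^ 2 * E * F)) < (2500 * (L : ℝ) ^ 2 * E * F - 1) / 2 := by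
  obtain ⟨h44, h0⟩ := Num_L hE hF hB hL
  have hN := Num_N hE hF h44
  have hlogN := Num_log (N := 2500 * (L : ℝ) ^ 2 * E * F) (by linarith)
  have hl2 := Real.log_two_lt_d9
  have he := Real.exp_one_lt_d9
  set l0 := Real.log (102 * L * E * F * B) with hl0
  have hK : (2500 * (L : ℝ) * E * F) * (1 + l0) ≤ (2500 * (L : ℝ) ^ 2 * E * F) / 8 := by
    have h1 : (1 + l0) ≤ L / 8 := by linarith
    have h2 : (0 : ℝ) ≤ 2500 * (L : ℝ) * E * F := by positivity
    calc (2500 * (L : ℝ) * E * F) * (1 + l0) ≤ (2500 * (L : ℝ) * E * F) * (L / 8) :=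
          mul_le_mul_of_nonneg_left h1 h2
      _ = (2500 * (L : ℝ) ^ 2 * E * F) / 8 := by ring
  have hE2 : Real.exp 1 * (103 * (L : ℝ) ^ 2 * E * F) ≤
      (2500 * (L : ℝ) ^ 2 * E * F) * (113 / 1000) := by
    have h2 : (0 : ℝ) ≤ (L : ℝ) ^ 2 * E * F := by positivity
    have h3 : Real.exp 1 ≤ 2.7183 := by linarith
    nlinarith
  linarith

theorem num_two {L E F B : ℕ} (hE : 1 ≤ E) (hF : 1 ≤ F) (hB : 1 ≤ B)
    (hL : 8 * (1 + Real.log (102 * L * E * F * B)) ≤ L) :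
    (2500 * (L : ℝ) ^ 2 * E * F) * (Real.log (2500 * (L : ℝ) ^ 2 * E * F) +
      ((2500 * (L : ℝ) * E * F) * Real.log (102 * L * E * F * B) + 102 * (L : ℝ) ^ 2 * E * F)) <
      (((2500 * L * E * F * L - 2500 * L * E * F) *
        (2500 * L * E * F * L - 2500 * L * E * F - 1) : ℕ) : ℝ) * Real.log 2 := by
  obtain ⟨h44, h0⟩ := Num_L hE hF hB hL
  have hN := Num_N hE hF h44
  have hlogN := Num_log (N := 2500 * (L : ℝ) ^ 2 * E * F) (by linarith)
  have hl2 := Real.log_two_gt_d9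
  set l0 := Real.log (102 * L * E * F * B) with hl0
  have hL' : (44 : ℝ) ≤ L := by exact_mod_cast h44
  have hKl : (2500 * (L : ℝ) * E * F) * l0 ≤ (2500 * (L : ℝ) ^ 2 * E * F) / 8 := by
    have h1 : l0 ≤ L / 8 := by linarith
    have h2 : (0 : ℝ) ≤ 2500 * (L : ℝ) * E * F := by positivity
    calc (2500 * (L : ℝ) * E * F) * l0 ≤ (2500 * (L : ℝ) * E * F) * (L / 8) :=
          mul_le_mul_of_nonneg_left h1 h2
      _ = (2500 * (L : ℝ) ^ 2 * E * F) / 8 := by ring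
  have h102 : 102 * (L : ℝ) ^ 2 * E * F = (2500 * (L : ℝ) ^ 2 * E * F) * (102 / 2500) := by ring
  have hKN : (2500 * (L : ℝ) * E * F) * 44 ≤ 2500 * (L : ℝ) ^ 2 * E * F := by
    have h2 : (0 : ℝ) ≤ 2500 * (L : ℝ) * E * F := by positivity
    calc (2500 * (L : ℝ) * E * F) * 44 ≤ (2500 * (L : ℝ) * E * F) * L :=
          mul_le_mul_of_nonneg_left hL' h2
      _ = 2500 * (L : ℝ) ^ 2 * E * F := by ring
  have hble : 2500 * L * E * F ≤ 2500 * L * E * F * L := Nat.le_mul_of_pos_right _ (by omega)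
  have hc1 : ((2500 * L * E * F * L - 2500 * L * E * F : ℕ) : ℝ) =
      2500 * (L : ℝ) ^ 2 * E * F - 2500 * (L : ℝ) * E * F := by
    rw [Nat.cast_sub hble]
    push_cast
    ring
  have hpos : (1 : ℝ) ≤ ((2500 * L * E * F * L - 2500 * L * E * F : ℕ) : ℝ) := by
    rw [hc1]
    linarith
  have hc2 : ((2500 * L * E * F * L - 2500 * L * E * F - 1 : ℕ) : ℝ) =
      2500 * (L : ℝ) ^ 2 * E * F - 2500 * (L : ℝ) * E * F - 1 := by
    rw [Nat.cast_sub (by exact_mod_cast hpos), hc1]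
    norm_num
  rw [Nat.cast_mul, hc1, hc2, h102]
  set N := 2500 * (L : ℝ) ^ 2 * E * F with hNdef
  set K := 2500 * (L : ℝ) * E * F with hKdef
  have hA : (96 / 100) * N ≤ N - K - 1 := by linarith
  have hB2 : (96 / 100) * N ≤ N - K := by linarith
  have hN0 : 0 ≤ N := by linarith
  have hprod : ((96 / 100) * N) * ((96 / 100) * N) ≤ (N - K) * (N - K - 1) :=
    mul_le_mul hB2 hA (by positivity) (by linarith)
  have hr : ((96 / 100) * N) * ((96 / 100) * N) * (69 / 100) ≤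
      (N - K) * (N - K - 1) * Real.log 2 :=
    mul_le_mul hprod (by linarith) (by norm_num) (by
      exact mul_nonneg (by linarith) (by linarith))
  have hl : N * (Real.log N + (K * l0 + N * (102 / 2500))) ≤ N * (N * (2 / 10)) :=
    mul_le_mul_of_nonneg_left (by linarith) hN0
  have hNN : 0 < N * N := by
    have : 0 < N := by linarith
    positivity
  nlinarith

theorem L_ge {L E F B : ℕ} (hE : 1 ≤ E) (hF : 1 ≤ F) (hB : 1 ≤ B)
    (hL : 8 * (1 + Real.log (102 * L * E * F * B)) ≤ L) : 44 ≤ L :=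
  (Num_L hE hF hB hL).1

end Pool.Agent.H91.CA
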