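import Pool.Agent.H91.CA.Pts
import Pool.Agent.H91.CA.DetA
import Pool.Agent.H91.CA.Ent
import Pool.Agent.H91.CA.Num

/-!
JOB CA-07 (linear forms in two logarithms, real case, about 150-200 lines; uses the stubs
`exists_points`, `inj_box`, `det_small_arch`, `entry`, `entry_row`, `num_arch`, `L_ge`).

Put `α = log a`, `β = log b`, `Λ = u α - v β`, `K = 2500 L E F`, `N = K L` (`= 2500 L² E F`, so
`5000 L² E F = 2 N`), `R1 = S1 = L`, `R2 = 50 L E`, `S2 = 50 L F`.  Suppose `|Λ| < exp(-2N)`.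
`R2 S2 = 2500 L² E F = K L > (K-1) L`, `L ≤ L * L`.  `R := R1+R2 ≤ 51 L E`, `S := S1+S2 ≤ 51 L F`.

Case 1: not (`R2 ≤ v` or `S2 ≤ u`): then `v < R2 = 50 L E`, and `a^u ≠ b^v` (coprime, `u ≥ 1`, `b ≥ 2`, `a ≥ 2`).
If `|Λ| < 1/2`: `|a^u/b^v - 1| = |exp Λ - 1| ≤ 2|Λ|`, while `|a^u - b^v| ≥ 1` gives
`|a^u/b^v - 1| ≥ b^{-v} = exp(-v β) ≥ exp(-50 L E F)`.  So `|Λ| ≥ exp(-50 L E F)/2 ≥ exp(-2N)`.

Case 2: `inj_box` + `exists_points` give `e` with nonzero integer determinant `Δ`, so `|Δ| ≥ 1`.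
Put `θ = α / v`, and for the point `y` with `(r,s) = e y`: `X_y = r u + s v`, `δ_y = - r Λ / v`;
then `log (b^r a^s) = r β + s α = θ X_y + δ_y` (because `β = (u α - Λ)/v`).
The entry `(k,l)` of column `y` is `X_y^k exp(l (θ X_y + δ_y))`.
`H := 51 L (E u + F v)` (real), `|X_y| ≤ H`; `θ H = 51 L (E u α / v + F α) ≤ 51 L (E (F + |Λ|/v) + F E)
≤ 103 L E F` (as `51 L E |Λ| ≤ 1 ≤ L E F`), so `l θ X_y ≤ Γ := 103 L² E F` (`l < L`), also
`l θ (e H) ≤ e Γ`.  `|l δ_y| ≤ L * 51 L E * exp(-2N) ≤ exp(-N)/4` (as `exp N ≥ N ≥ 204 L² E`).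
`T := K + 8 Γ' + 2 N` with `Γ' = 103 L² E F` as a natural number.
`c t (k,l) = cf k l θ t`, `b := entry - ∑_{t<T} X^t cf`; `entry` gives `|b| ≤ X^k exp Γ exp(-N) ≤ M exp(-N)`,
with `M := 2 (e H)^K exp(e Γ)` (`e H ≥ 1`), `entry_row` gives the row sums `≤ (eH)^k exp(l θ e H) ≤ M`.
`det_small_arch` with `ι = Fin K × Fin L`, card `= K L = N`:
`1 ≤ |Δ| ≤ 2^N N! M^N exp(-N(N-1)/2)`; with `N! ≤ N^N` and logarithms:
`0 ≤ N (log 2 + log N + log M - (N-1)/2)`, `log M = log 2 + K (1 + log H) + e Γ`,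
`H ≤ 102 L E F B` (as `u, v ≤ B`, `E + F ≤ 2 E F`).  This contradicts `num_arch`.
-/

namespace Pool.Agent.H91.CA

theorem Lfl_case1 {a b u v : ℕ} (hab : a.Coprime b) (ha : 2 ≤ a) (hb : 2 ≤ b) (hu : 1 ≤ u)
    (h1 : |(u : ℝ) * Real.log a - v * Real.log b| ≤ 1) :
    Real.exp (-(v * Real.log b)) ≤ 2 * |(u : ℝ) * Real.log a - v * Real.log b| := by
  have ha0 : (0 : ℝ) < a := by
    have : 0 < a := by omega
    exact_mod_cast this
  have hb0 : (0 : ℝ) < b := by
    have : 0 < b := by omega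
    exact_mod_cast this
  have hne : a ^ u ≠ b ^ v := by
    intro h
    have h2 : (a ^ u).Coprime (b ^ v) := Nat.Coprime.pow u v hab
    rw [← h, Nat.coprime_self] at h2
    have h3 : 2 ≤ a ^ u := le_trans ha (Nat.le_self_pow (by omega) a)
    omega
  have e1 : Real.exp ((u : ℝ) * Real.log a) = (a : ℝ) ^ u := by
    rw [Real.exp_nat_mul, Real.exp_log ha0]
  have e2 : Real.exp ((v : ℝ) * Real.log b) = (b : ℝ) ^ v := by
    rw [Real.exp_nat_mul, Real.exp_log hb0]
  have hbv : (0 : ℝ) < (b : ℝ) ^ v := by positivity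
  have h2 := Real.abs_exp_sub_one_le h1
  rw [Real.exp_sub, e1, e2] at h2
  refine le_trans ?_ h2
  rw [Real.exp_neg, e2]
  have h3 : (a : ℝ) ^ u / (b : ℝ) ^ v - 1 = ((a : ℝ) ^ u - (b : ℝ) ^ v) / (b : ℝ) ^ v := by
    field_simp
  rw [h3, abs_div, abs_of_pos hbv, inv_eq_one_div]
  apply div_le_div_of_nonneg_right _ hbv.le
  have h4 : ((a : ℤ) ^ u - (b : ℤ) ^ v) ≠ 0 := by
    intro h
    apply hne
    exact_mod_cast sub_eq_zero.1 h
  have h5 := Int.one_le_abs h4
  have h6 : ((1 : ℤ) : ℝ) ≤ ((|(a : ℤ) ^ u - (b : ℤ) ^ v| : ℤ) : ℝ) := by exact_mod_cast h5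
  push_cast at h6
  simpa using h6

/-- the final numerical contradiction -/
theorem Lfl_final {n : ℕ} {M : ℝ} (hn : 1 ≤ n) (hM : 0 < M)
    (h : Real.log 2 + Real.log n + Real.log M < ((n : ℝ) - 1) / 2) :
    2 ^ n * (n.factorial : ℝ) * M ^ n * Real.exp (-((n : ℝ) * ((n : ℝ) - 1) / 2)) < 1 := by
  have hn0 : (0 : ℝ) < n := by exact_mod_cast hn
  have h1 : 2 * (n : ℝ) * M < Real.exp (((n : ℝ) - 1) / 2) := by
    have h2 : 0 < 2 * (n : ℝ) * M := by positivity
    rw [← Real.log_lt_iff_lt_exp h2, Real.log_mul (by positivity) hM.ne',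
      Real.log_mul (by norm_num) hn0.ne']
    exact h
  have h3 : 2 * (n : ℝ) * M * Real.exp (-(((n : ℝ) - 1) / 2)) < 1 := by
    rw [Real.exp_neg, ← div_eq_mul_inv, div_lt_one (Real.exp_pos _)]
    exact h1
  have h4 : ((n.factorial : ℕ) : ℝ) ≤ (n : ℝ) ^ n := by
    exact_mod_cast Nat.factorial_le_pow n
  have h5 : Real.exp (-((n : ℝ) * ((n : ℝ) - 1) / 2)) =
      Real.exp (-(((n : ℝ) - 1) / 2)) ^ n := by
    rw [← Real.exp_nat_mul]
    congr 1
    ring
  calc 2 ^ n * (n.factorial : ℝ) * M ^ n * Real.exp (-((n : ℝ) * ((n : ℝ) - 1) / 2))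
      ≤ 2 ^ n * (n : ℝ) ^ n * M ^ n * Real.exp (-((n : ℝ) * ((n : ℝ) - 1) / 2)) := by gcongr
    _ = (2 * (n : ℝ) * M * Real.exp (-(((n : ℝ) - 1) / 2))) ^ n := by
        rw [h5, mul_pow, mul_pow, mul_pow]
    _ < 1 := pow_lt_one₀ (by positivity) h3 (by omega)

/-- small size facts -/
theorem Lfl_small {L E F η : ℝ} (hL : 44 ≤ L) (hE : 1 ≤ E) (hF : 1 ≤ F) (hη0 : 0 ≤ η)
    (hη : η < Real.exp (-(2 * (2500 * L ^ 2 * E * F)))) :
    204 * L ^ 2 * E * η ≤ Real.exp (-(2500 * L ^ 2 * E * F)) ∧ 51 * η ≤ 1 ∧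
      2 * η < Real.exp (-(50 * L * E * F)) ∧ η ≤ 1 := by
  set N := 2500 * L ^ 2 * E * F with hN
  have hEF : 1 ≤ E * F := by nlinarith
  have hL2 : 1936 ≤ L ^ 2 := by nlinarith
  have hNpos : 1 ≤ N := by
    have : N = 2500 * L ^ 2 * (E * F) := by rw [hN]; ring
    rw [this]
    nlinarith
  have h1 : 204 * L ^ 2 * E ≤ N := by
    have h2 : 204 * L ^ 2 * E ≤ 2500 * L ^ 2 * E := by
      have : 0 ≤ L ^ 2 * E := by positivity
      nlinarith
    have h3 : 2500 * L ^ 2 * E ≤ N := by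
      rw [hN]
      have : 0 ≤ 2500 * L ^ 2 * E := by positivity
      nlinarith
    linarith
  have h2 : N ≤ Real.exp N := by
    have := Real.add_one_le_exp N
    linarith
  have h3 : Real.exp (-(2 * N)) = Real.exp (-N) * Real.exp (-N) := by
    rw [← Real.exp_add]
    congr 1
    ring
  have h4 : N * Real.exp (-N) ≤ 1 := by
    rw [Real.exp_neg, ← div_eq_mul_inv, div_le_one (Real.exp_pos _)]
    exact h2
  have h5 : 0 < Real.exp (-N) := Real.exp_pos _
  have h6 : 204 * L ^ 2 * E * η ≤ Real.exp (-N) := by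
    calc 204 * L ^ 2 * E * η ≤ N * (Real.exp (-N) * Real.exp (-N)) := by
          rw [← h3]
          exact mul_le_mul h1 hη.le hη0 (by linarith)
      _ = (N * Real.exp (-N)) * Real.exp (-N) := by ring
      _ ≤ 1 * Real.exp (-N) := mul_le_mul_of_nonneg_right h4 h5.le
      _ = Real.exp (-N) := one_mul _
  have h7 : Real.exp (-N) ≤ 1 := by
    rw [Real.exp_le_one_iff]
    linarith
  have h8 : 204 ≤ 204 * L ^ 2 * E := by nlinarith
  have h9 : 204 * η ≤ 1 := by
    have : 204 * η ≤ 204 * L ^ 2 * E * η := mul_le_mul_of_nonneg_right h8 hη0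
    linarith
  refine ⟨h6, by linarith, ?_, by linarith⟩
  have h10 : (2 : ℝ) < Real.exp 1 := by
    have := Real.exp_one_gt_d9
    linarith
  have h11 : 50 * L * E * F + 1 ≤ 2 * N := by
    have e1 : 50 * L * E * F = 50 * L * (E * F) := by ring
    have e2 : 2 * N = 5000 * L ^ 2 * (E * F) := by rw [hN]; ring
    rw [e1, e2]
    have e3 : 50 * L + 1 ≤ 5000 * L ^ 2 := by nlinarith
    nlinarith
  calc 2 * η < 2 * Real.exp (-(2 * N)) := by linarith
    _ ≤ Real.exp 1 * Real.exp (-(2 * N)) := mul_le_mul_of_nonneg_right h10.le (Real.exp_pos _).le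
    _ = Real.exp (1 - 2 * N) := by rw [← Real.exp_add]; congr 1
    _ ≤ Real.exp (-(50 * L * E * F)) := Real.exp_le_exp.2 (by linarith)

theorem lfl_arch_cop {a b u v E F L B : ℕ} (hab : a.Coprime b) (ha : 2 ≤ a) (hb : 2 ≤ b)
    (huv : u.Coprime v) (hu : 1 ≤ u) (hv : 1 ≤ v) (huB : u ≤ B) (hvB : v ≤ B)
    (hEa : Real.log a ≤ E) (hFb : Real.log b ≤ F) (hE : 1 ≤ E) (hF : 1 ≤ F)
    (hL : 8 * (1 + Real.log (102 * L * E * F * B)) ≤ L) :
    Real.exp (-(5000 * (L : ℝ) ^ 2 * E * F)) ≤ |u * Real.log a - v * Real.log b| := by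
  by_contra hcon
  push Not at hcon
  have hB : 1 ≤ B := le_trans hu huB
  have hL44 := L_ge hE hF hB hL
  have hnum := num_arch hE hF hB hL
  have hL44' : (44 : ℝ) ≤ L := by exact_mod_cast hL44
  have hE' : (1 : ℝ) ≤ E := by exact_mod_cast hE
  have hF' : (1 : ℝ) ≤ F := by exact_mod_cast hF
  have hB' : (1 : ℝ) ≤ B := by exact_mod_cast hB
  have hu' : (1 : ℝ) ≤ u := by exact_mod_cast hu
  have hv' : (1 : ℝ) ≤ v := by exact_mod_cast hv
  have huB' : (u : ℝ) ≤ B := by exact_mod_cast huB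
  have hvB' : (v : ℝ) ≤ B := by exact_mod_cast hvB
  have ha0 : (0 : ℝ) < a := by
    have : 0 < a := by omega
    exact_mod_cast this
  have hb0 : (0 : ℝ) < b := by
    have : 0 < b := by omega
    exact_mod_cast this
  have hα0 : 0 ≤ Real.log a := Real.log_natCast_nonneg a
  have hβ0 : 0 ≤ Real.log b := Real.log_natCast_nonneg b
  have hη0 := abs_nonneg ((u : ℝ) * Real.log a - v * Real.log b)
  have hηlt : |(u : ℝ) * Real.log a - v * Real.log b| <
      Real.exp (-(2 * (2500 * (L : ℝ) ^ 2 * E * F))) := by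
    have e : 2 * (2500 * (L : ℝ) ^ 2 * E * F) = 5000 * (L : ℝ) ^ 2 * E * F := by ring
    rw [e]
    exact hcon
  obtain ⟨s1, s2, s3, s4⟩ := Lfl_small hL44' hE' hF' hη0 hηlt
  by_cases hbox : 50 * L * E ≤ v ∨ 50 * L * F ≤ u
  swap
  · push Not at hbox
    have h1 := Lfl_case1 hab ha hb hu s4
    have h2 : (v : ℝ) * Real.log b ≤ 50 * L * E * F := by
      have h3 : (v : ℝ) ≤ 50 * L * E := by
        have := hbox.1.le
        exact_mod_cast this
      calc (v : ℝ) * Real.log b ≤ (50 * L * E) * F := mul_le_mul h3 hFb hβ0 (by positivity)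
        _ = 50 * L * E * F := rfl
    have h4 : Real.exp (-(50 * (L : ℝ) * E * F)) ≤ Real.exp (-(v * Real.log b)) :=
      Real.exp_le_exp.2 (by linarith)
    linarith
  · -- main case
    set Λ := (u : ℝ) * Real.log a - v * Real.log b with hΛ
    have hinj := inj_box huv hu hv hbox
    set K := 2500 * L * E * F with hK
    have hKpos : 0 < K := by positivity
    have hKN : 50 * L * E * (50 * L * F) = K * L := by rw [hK]; ring
    obtain ⟨e, he, hdet⟩ := exists_points (K := K) (L := L) (R1 := L) (S1 := L) hab ha hb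
      (Nat.le_mul_self L) hinj (by
        rw [hKN]
        exact Nat.mul_lt_mul_of_pos_right (by omega) (by omega))
    set N := 2500 * (L : ℝ) ^ 2 * E * F with hN
    have hKLN : (((K * L : ℕ) : ℕ) : ℝ) = N := by
      rw [hN, hK]
      push_cast
      ring
    have hN1 : 1 ≤ N := by
      rw [← hKLN]
      have : 0 < K * L := Nat.mul_pos hKpos (by omega)
      exact_mod_cast this
    set θ := Real.log a / v with hθ
    have hθ0 : 0 ≤ θ := div_nonneg hα0 (by linarith)
    set H := 51 * (L : ℝ) * (E * u + F * v) with hH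
    set Γ := 103 * (L : ℝ) ^ 2 * E * F with hΓ
    set M := 2 * (Real.exp 1 * H) ^ K * Real.exp (Real.exp 1 * Γ) with hM
    set X : Fin K × Fin L → ℝ := fun y => ((e y).1 : ℝ) * u + (e y).2 * v with hX
    have hH1 : 1 ≤ H := by
      have h1 : 1 ≤ (E : ℝ) * u + F * v := by nlinarith
      have h2 : (1 : ℝ) ≤ 51 * L := by linarith
      rw [hH]
      nlinarith
    have hH0 : 0 ≤ H := by linarith
    have hr : ∀ y, ((e y).1 : ℝ) ≤ 51 * L * E := by
      intro y
      have h1 := (he y).1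
      have h2 : (e y).1 ≤ 51 * L * E := by nlinarith [Nat.le_mul_of_pos_right L hE]
      exact_mod_cast h2
    have hs : ∀ y, ((e y).2 : ℝ) ≤ 51 * L * F := by
      intro y
      have h1 := (he y).2
      have h2 : (e y).2 ≤ 51 * L * F := by nlinarith [Nat.le_mul_of_pos_right L hF]
      exact_mod_cast h2
    have hX0 : ∀ y, 0 ≤ X y := by
      intro y
      simp only [hX]
      positivity
    have hXH : ∀ y, X y ≤ H := by
      intro y
      simp only [hX, hH]
      have h1 := mul_le_mul_of_nonneg_right (hr y) (by linarith : (0 : ℝ) ≤ u)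
      have h2 := mul_le_mul_of_nonneg_right (hs y) (by linarith : (0 : ℝ) ≤ v)
      nlinarith
    have hθH : θ * H ≤ 103 * L * E * F := by
      have h1 : Real.log a * u / v ≤ F + 1 / 51 := by
        rw [div_le_iff₀ (by linarith)]
        have h2 : Real.log a * u = Λ + v * Real.log b := by rw [hΛ]; ring
        have h3 : Λ ≤ |Λ| := le_abs_self _
        have h4 : (v : ℝ) * Real.log b ≤ v * F := mul_le_mul_of_nonneg_left hFb (by linarith)
        rw [h2]
        nlinarith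
      have h5 : θ * H = 51 * L * (E * (Real.log a * u / v) + F * Real.log a) := by
        rw [hθ, hH]
        field_simp
      rw [h5]
      have h6 : (E : ℝ) * (Real.log a * u / v) ≤ E * (F + 1 / 51) :=
        mul_le_mul_of_nonneg_left h1 (by linarith)
      have h7 : (F : ℝ) * Real.log a ≤ F * E := mul_le_mul_of_nonneg_left hEa (by linarith)
      have h8 : (E : ℝ) * (Real.log a * u / v) + F * Real.log a ≤ 2 * (E * F) + E / 51 := by
        linarith
      have h9 : 51 * (L : ℝ) * (E * (Real.log a * u / v) + F * Real.log a) ≤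
          51 * L * (2 * (E * F) + E / 51) := mul_le_mul_of_nonneg_left h8 (by linarith)
      have h10 : 51 * (L : ℝ) * (2 * (E * F) + E / 51) = 102 * L * E * F + L * E := by ring
      have h11 : (L : ℝ) * E ≤ L * E * F := by
        have : 0 ≤ (L : ℝ) * E := by positivity
        nlinarith
      linarith
    have hlΓ : ∀ l : ℕ, l < L → (l : ℝ) * (θ * H) ≤ Γ := by
      intro l hl
      have h1 : (l : ℝ) ≤ L := by exact_mod_cast hl.le
      calc (l : ℝ) * (θ * H) ≤ L * (103 * L * E * F) :=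
            mul_le_mul h1 hθH (mul_nonneg hθ0 hH0) (by linarith)
        _ = Γ := by rw [hΓ]; ring
    have hΓ0 : 0 ≤ Γ := by positivity
    have he1 : (1 : ℝ) ≤ Real.exp 1 := by
      have := Real.add_one_le_exp (1 : ℝ)
      linarith
    have heH : 1 ≤ Real.exp 1 * H := by nlinarith
    have hMpos : 0 < M := by positivity
    have hpow : ∀ k : ℕ, k < K → ∀ z : ℝ, 0 ≤ z → z ≤ Real.exp 1 * H →
        z ^ k ≤ (Real.exp 1 * H) ^ K := by
      intro k hk z hz hzH
      calc z ^ k ≤ (Real.exp 1 * H) ^ k := pow_le_pow_left₀ hz hzH k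
        _ ≤ (Real.exp 1 * H) ^ K := pow_le_pow_right₀ heH hk.le
    -- the number of terms
    set T := K + (8 * (103 * L ^ 2 * E * F) + 2 * (K * L)) with hT
    have hTr : ∀ k : ℕ, k < K → (k : ℝ) + (8 * Γ + 2 * N) ≤ T := by
      intro k hk
      have h1 : (k : ℝ) ≤ K := by exact_mod_cast hk.le
      have h2 : ((T : ℕ) : ℝ) = K + (8 * Γ + 2 * N) := by
        rw [hT, hΓ, ← hKLN]
        push_cast
        ring
      rw [h2]
      linarith
    -- the entries
    set A : Fin K × Fin L → Fin K × Fin L → ℝ := fun x y =>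
      X y ^ (x.1 : ℕ) * ((b : ℝ) ^ (e y).1 * (a : ℝ) ^ (e y).2) ^ (x.2 : ℕ) with hA
    have hent : ∀ x y, A x y = X y ^ (x.1 : ℕ) *
        Real.exp (((x.2 : ℕ) : ℝ) * (θ * X y + -(((e y).1 : ℝ) * Λ / v))) := by
      intro x y
      have h1 : θ * X y + -(((e y).1 : ℝ) * Λ / v) =
          ((e y).1 : ℝ) * Real.log b + ((e y).2 : ℝ) * Real.log a := by
        have hv0 : (v : ℝ) ≠ 0 := by linarith
        simp only [hθ, hX, hΛ]
        field_simp
        ring
      rw [h1, Real.exp_nat_mul, Real.exp_add, Real.exp_nat_mul, Real.exp_nat_mul,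
        Real.exp_log ha0, Real.exp_log hb0]
    have hb' : ∀ x y, |A x y - ∑ t ∈ Finset.range T, X y ^ t * cf x.1 x.2 θ t| ≤
        M * Real.exp (-N) := by
      intro x y
      have hl : ((x.2 : ℕ) : ℝ) ≤ L := by exact_mod_cast x.2.2.le
      have h1 : ((x.2 : ℕ) : ℝ) * θ * X y ≤ Γ := by
        have h2 : ((x.2 : ℕ) : ℝ) * θ * X y ≤ ((x.2 : ℕ) : ℝ) * θ * H :=
          mul_le_mul_of_nonneg_left (hXH y) (by positivity)
        have h3 := hlΓ x.2 x.2.2
        linarith [mul_assoc ((x.2 : ℕ) : ℝ) θ H]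
      have h2 : |((x.2 : ℕ) : ℝ) * (-(((e y).1 : ℝ) * Λ / v))| ≤ Real.exp (-N) / 4 := by
        have h3 : |((x.2 : ℕ) : ℝ) * (-(((e y).1 : ℝ) * Λ / v))| =
            ((x.2 : ℕ) : ℝ) * (((e y).1 : ℝ) * |Λ| / v) := by
          rw [abs_mul, abs_neg, abs_div, abs_mul, Nat.abs_cast, Nat.abs_cast, Nat.abs_cast]
        rw [h3]
        have h4 : ((e y).1 : ℝ) * |Λ| / v ≤ 51 * L * E * |Λ| := by
          rw [div_le_iff₀ (by linarith)]
          have h5 : ((e y).1 : ℝ) * |Λ| ≤ 51 * L * E * |Λ| :=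
            mul_le_mul_of_nonneg_right (hr y) hη0
          have h6 : 0 ≤ 51 * (L : ℝ) * E * |Λ| := by positivity
          nlinarith
        have h7 : ((x.2 : ℕ) : ℝ) * (((e y).1 : ℝ) * |Λ| / v) ≤ L * (51 * L * E * |Λ|) :=
          mul_le_mul hl h4 (by positivity) (by linarith)
        have h8 : (L : ℝ) * (51 * L * E * |Λ|) = 204 * L ^ 2 * E * |Λ| / 4 := by ring
        rw [h8] at h7
        linarith
      have h3 := entry (x.1 : ℕ) (x.2 : ℕ) T (hX0 y) hθ0 h1 hN1 (hTr x.1 x.1.2) h2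
      rw [hent]
      refine le_trans h3 ?_
      have h4 : X y ^ (x.1 : ℕ) ≤ (Real.exp 1 * H) ^ K := hpow x.1 x.1.2 _ (hX0 y) (by
        have := hXH y
        nlinarith)
      have h5 : Real.exp Γ ≤ Real.exp (Real.exp 1 * Γ) := Real.exp_le_exp.2 (by nlinarith)
      have h6 : X y ^ (x.1 : ℕ) * Real.exp Γ ≤ (Real.exp 1 * H) ^ K *
          Real.exp (Real.exp 1 * Γ) := mul_le_mul h4 h5 (Real.exp_pos _).le (by positivity)
      have h7 : (Real.exp 1 * H) ^ K * Real.exp (Real.exp 1 * Γ) ≤ M := by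
        rw [hM]
        have : 0 ≤ (Real.exp 1 * H) ^ K * Real.exp (Real.exp 1 * Γ) := by positivity
        linarith
      exact mul_le_mul_of_nonneg_right (h6.trans h7) (Real.exp_pos _).le
    have hrow : ∀ x : Fin K × Fin L, ∑ t ∈ Finset.range T, |cf x.1 x.2 θ t| *
        (Real.exp 1 * H) ^ t ≤ M := by
      intro x
      refine le_trans (entry_row (x.1 : ℕ) (x.2 : ℕ) T hθ0 (by linarith)) ?_
      have h4 : (Real.exp 1 * H) ^ (x.1 : ℕ) ≤ (Real.exp 1 * H) ^ K :=
        hpow x.1 x.1.2 _ (by linarith) le_rfl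
      have h5 : Real.exp (((x.2 : ℕ) : ℝ) * θ * (Real.exp 1 * H)) ≤
          Real.exp (Real.exp 1 * Γ) := by
        apply Real.exp_le_exp.2
        have h3 := hlΓ x.2 x.2.2
        calc ((x.2 : ℕ) : ℝ) * θ * (Real.exp 1 * H) =
            Real.exp 1 * (((x.2 : ℕ) : ℝ) * (θ * H)) := by ring
          _ ≤ Real.exp 1 * Γ := mul_le_mul_of_nonneg_left h3 (by linarith)
      have h6 : (Real.exp 1 * H) ^ (x.1 : ℕ) *
          Real.exp (((x.2 : ℕ) : ℝ) * θ * (Real.exp 1 * H)) ≤ (Real.exp 1 * H) ^ K *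
          Real.exp (Real.exp 1 * Γ) := mul_le_mul h4 h5 (Real.exp_pos _).le (by positivity)
      have h7 : (Real.exp 1 * H) ^ K * Real.exp (Real.exp 1 * Γ) ≤ M := by
        rw [hM]
        have : 0 ≤ (Real.exp 1 * H) ^ K * Real.exp (Real.exp 1 * Γ) := by positivity
        linarith
      exact h6.trans h7
    have hcard : Fintype.card (Fin K × Fin L) = K * L := by
      rw [Fintype.card_prod, Fintype.card_fin, Fintype.card_fin]
    have hbound := det_small_arch (ι := Fin K × Fin L) T (fun t x => cf x.1 x.2 θ t) X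
      (fun x y => A x y - ∑ t ∈ Finset.range T, X y ^ t * cf x.1 x.2 θ t) H M
      (fun y => by rw [abs_of_nonneg (hX0 y)]; exact hXH y) hrow
      (fun x y => by rw [hcard, hKLN]; exact hb' x y)
    have hmat : (Matrix.of (fun x y : Fin K × Fin L =>
        ∑ t ∈ Finset.range T, X y ^ t * cf x.1 x.2 θ t +
        (A x y - ∑ t ∈ Finset.range T, X y ^ t * cf x.1 x.2 θ t))) =
        Matrix.of (fun x y => A x y) := by
      ext x y
      simp
    rw [hmat, hcard] at hbound
    have hdet1 : 1 ≤ |(Matrix.of (fun x y : Fin K × Fin L => A x y)).det| := by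
      have h1 : (Matrix.of (fun x y : Fin K × Fin L => A x y)).det =
          (((Matrix.of (fun x y : Fin K × Fin L =>
          (((e y).1 * u + (e y).2 * v : ℕ) : ℤ) ^ (x.1 : ℕ) *
          ((b ^ (e y).1 * a ^ (e y).2 : ℕ) : ℤ) ^ (x.2 : ℕ))).det : ℤ) : ℝ) := by
        rw [Int.cast_det]
        congr 1
        ext x y
        simp [hA, hX]
      rw [h1, ← Int.cast_abs]
      have h2 := Int.one_le_abs hdet
      exact_mod_cast h2
    have hKL1 : 1 ≤ K * L := Nat.mul_pos hKpos (by omega)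
    have hlogM : Real.log M = Real.log 2 + (K * (1 + Real.log H) + Real.exp 1 * Γ) := by
      have hH0' : H ≠ 0 := by linarith
      rw [hM, Real.log_mul (by positivity) (Real.exp_pos _).ne', Real.log_exp,
        Real.log_mul (by norm_num) (by positivity), Real.log_pow,
        Real.log_mul (Real.exp_pos _).ne' hH0', Real.log_exp]
      ring
    have hlogH : Real.log H ≤ Real.log (102 * L * E * F * B) := by
      apply Real.log_le_log (by linarith)
      have h1 : (E : ℝ) * u + F * v ≤ 2 * (E * F) * B := by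
        have h2 : (E : ℝ) * u ≤ (E * F) * B := by
          have : (E : ℝ) ≤ E * F := by nlinarith
          exact mul_le_mul this huB' (by linarith) (by positivity)
        have h3 : (F : ℝ) * v ≤ (E * F) * B := by
          have : (F : ℝ) ≤ E * F := by nlinarith
          exact mul_le_mul this hvB' (by linarith) (by positivity)
        linarith
      have h4 := mul_le_mul_of_nonneg_left h1 (by linarith : (0 : ℝ) ≤ 51 * L)
      rw [hH]
      linarith
    have hKr : ((K : ℕ) : ℝ) = 2500 * (L : ℝ) * E * F := by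
      rw [hK]
      push_cast
      ring
    have hfin := Lfl_final hKL1 hMpos (by
      rw [hKLN, hlogM, hKr]
      have h1 : 2500 * (L : ℝ) * E * F * (1 + Real.log H) ≤
          2500 * (L : ℝ) * E * F * (1 + Real.log (102 * L * E * F * B)) :=
        mul_le_mul_of_nonneg_left (by linarith) (by positivity)
      linarith)
    linarith

end Pool.Agent.H91.CA
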