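import Pool.Agent.H91.CA.Lfl
import Pool.Agent.H91.CA.DetT

/-!
JOB CA-08 (`lfl_arch`, the gcd reduction, ~30 lines, and `lfl_two`, the 2-adic version, ~120-160 lines; uses
the stubs of Lfl, Pts, DetT, Num).

`lfl_arch`: `g = gcd u v`, `u = g u'`, `v = g v'`, `u', v'` coprime, `≥ 1`, `≤ B`;
`|u α - v β| = g |u' α - v' β| ≥ |u' α - v' β|`.

`lfl_two`.  `K = 2500 L E F`, `N = K L`, `R1 = S1 = L`, `R2 = 50 L E`, `S2 = 50 L F`, `a = q`, `b = p`, `u = z`,
`v = d`.  If not (`R2 ≤ d` or `S2 ≤ z`), then `z < 50 L F` and `2^c ≤ q^z`, so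
`c log 2 ≤ z log q ≤ 50 L F E`, `c ≤ 100 L E F ≤ (2500 L² E F)²`.  Otherwise `exists_points` gives `e` with
nonzero integer determinant `Δ`.  Since `d` is odd, there is `f` with `f * d ≡ 1 (mod 2^c)` (natural
number); put `g = q^f`.  As `q` is odd, `q^(2^c) ≡ 1 (mod 2^c)` (the group of units of `ZMod (2^c)` has
order dividing `2^c`), so `g^d ≡ q (mod 2^c)`; and `p^d ≡ q^z` (`2^c` divides the difference), hence
`p ≡ p^(f d) ≡ q^(f z) = g^z (mod 2^c)` (`p` is odd too).  So `p^r q^s ≡ g^(r z + s d)`,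
`4 ∣ g - 1`.  For the entry `(k,l)` in column `y` with `X = r z + s d`:
`X^k (p^r q^s)^l ≡ X^k (g^X)^l (mod 2^c)`, and by `expand_two` `X^k (g^X)^l = ∑_{t<T} choose X t * C t (k,l)`
with `4^(t-k) ∣ C t (k,l)`, so `4^(t-K) ∣ C t (k,l)` (`T` larger than all `X`).  `det_two` with `D = c`:
`2^(min c ((N-K)(N-K-1))) ∣ Δ`.
On the other side `|Δ| ≤ N! * max^N`, entries `≤ H^K * exp(L (R log p + S log q))`, `R ≤ 51 L E`,
`S ≤ 51 L F`, `H = 102 L E F B`, `L (R F + S E) ≤ 102 L² E F`; `N! ≤ N^N`;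
`num_two` says `|Δ| < 2^((N-K)(N-K-1))`.  As `Δ ≠ 0`, `2^(min ..) ≤ |Δ|`, so
`min c (..) < (N-K)(N-K-1)`, i.e. `c < (N-K)(N-K-1) ≤ N²`.
(`Matrix.det_le` or the direct bound over permutations.)
-/

namespace Pool.Agent.H91.CA

theorem lfl_arch {a b u v E F L B : ℕ} (hab : a.Coprime b) (ha : 2 ≤ a) (hb : 2 ≤ b)
    (hu : 1 ≤ u) (hv : 1 ≤ v) (huB : u ≤ B) (hvB : v ≤ B)
    (hEa : Real.log a ≤ E) (hFb : Real.log b ≤ F) (hE : 1 ≤ E) (hF : 1 ≤ F)
    (hL : 8 * (1 + Real.log (102 * L * E * F * B)) ≤ L) :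
    Real.exp (-(5000 * (L : ℝ) ^ 2 * E * F)) ≤ |u * Real.log a - v * Real.log b| := by
  have hg : 0 < u.gcd v := Nat.gcd_pos_of_pos_left _ hu
  have hcop := Nat.coprime_div_gcd_div_gcd hg
  have hu' : u.gcd v * (u / u.gcd v) = u := Nat.mul_div_cancel' (Nat.gcd_dvd_left u v)
  have hv' : u.gcd v * (v / u.gcd v) = v := Nat.mul_div_cancel' (Nat.gcd_dvd_right u v)
  have hu1 : 1 ≤ u / u.gcd v := Nat.div_pos (Nat.gcd_le_left v hu) hg
  have hv1 : 1 ≤ v / u.gcd v := Nat.div_pos (Nat.gcd_le_right u hv) hg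
  have key := lfl_arch_cop hab ha hb hcop hu1 hv1 ((Nat.div_le_self _ _).trans huB)
    ((Nat.div_le_self _ _).trans hvB) hEa hFb hE hF hL
  have h1 : (u : ℝ) * Real.log a - v * Real.log b = (u.gcd v : ℝ) *
      (((u / u.gcd v : ℕ) : ℝ) * Real.log a - ((v / u.gcd v : ℕ) : ℝ) * Real.log b) := by
    have e1 : (u : ℝ) = (u.gcd v : ℝ) * ((u / u.gcd v : ℕ) : ℝ) := by
      rw [← Nat.cast_mul, hu']
    have e2 : (v : ℝ) = (u.gcd v : ℝ) * ((v / u.gcd v : ℕ) : ℝ) := by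
      rw [← Nat.cast_mul, hv']
    calc (u : ℝ) * Real.log a - v * Real.log b
        = ((u.gcd v : ℝ) * ((u / u.gcd v : ℕ) : ℝ)) * Real.log a -
          ((u.gcd v : ℝ) * ((v / u.gcd v : ℕ) : ℝ)) * Real.log b := by rw [← e1, ← e2]
      _ = _ := by ring
  rw [h1, abs_mul, abs_of_pos (by exact_mod_cast hg : (0 : ℝ) < (u.gcd v : ℝ))]
  have h2 : (1 : ℝ) ≤ (u.gcd v : ℝ) := by exact_mod_cast hg
  calc Real.exp (-(5000 * (L : ℝ) ^ 2 * E * F))
      ≤ |((u / u.gcd v : ℕ) : ℝ) * Real.log a - ((v / u.gcd v : ℕ) : ℝ) * Real.log b| := key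
    _ ≤ _ := le_mul_of_one_le_left (abs_nonneg _) h2

theorem Lfl2_pow_two {x : ℕ} (hx : x % 2 = 1) (c : ℕ) : x ^ (2 ^ c) ≡ 1 [MOD 2 ^ c] := by
  have hcop : Nat.Coprime x (2 ^ c) := by
    apply Nat.Coprime.pow_right
    exact Nat.coprime_two_right.2 (Nat.odd_iff.2 hx)
  have h1 := Nat.ModEq.pow_totient hcop
  have h2 : Nat.totient (2 ^ c) ∣ 2 ^ c := by
    rcases Nat.eq_zero_or_pos c with h | h
    · subst h
      simp
    · rw [Nat.totient_prime_pow Nat.prime_two h]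
      simp only [Nat.add_one_sub_one, mul_one]
      exact pow_dvd_pow 2 (Nat.sub_le c 1)
  obtain ⟨m, hm⟩ := h2
  calc x ^ (2 ^ c) = (x ^ Nat.totient (2 ^ c)) ^ m := by rw [← pow_mul, ← hm]
    _ ≡ 1 ^ m [MOD 2 ^ c] := h1.pow m
    _ = 1 := one_pow m

theorem Lfl2_inv {d : ℕ} (hd : d % 2 = 1) (c : ℕ) : ∃ f m : ℕ, f * d = 1 + 2 ^ c * m := by
  have hpos : 0 < 2 ^ c := by positivity
  have h1 := Lfl2_pow_two hd c
  have hd1 : 1 ≤ d ^ (2 ^ c) := Nat.one_le_pow _ _ (by omega)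
  obtain ⟨m, hm⟩ := (Nat.modEq_iff_dvd' hd1).1 h1.symm
  refine ⟨d ^ (2 ^ c - 1), m, ?_⟩
  have h2 : d ^ (2 ^ c - 1) * d = d ^ (2 ^ c) := by
    rw [← pow_succ]
    congr 1
    omega
  omega

theorem Lfl2_pow_inv {x d f m c : ℕ} (hx : x % 2 = 1) (hf : f * d = 1 + 2 ^ c * m) :
    x ^ (f * d) ≡ x [MOD 2 ^ c] := by
  rw [hf, pow_add, pow_one, pow_mul]
  calc x * (x ^ 2 ^ c) ^ m ≡ x * 1 ^ m [MOD 2 ^ c] :=
        ((Lfl2_pow_two hx c).pow m).mul_left x
    _ = x := by rw [one_pow, mul_one]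

theorem Lfl2_g {q p z d c f m : ℕ} (hq : q % 2 = 1) (hp : p % 2 = 1)
    (hf : f * d = 1 + 2 ^ c * m) (h : 2 ^ c + p ^ d = q ^ z) (r s : ℕ) :
    p ^ r * q ^ s ≡ (q ^ f) ^ (r * z + s * d) [MOD 2 ^ c] := by
  have h1 : p ^ d ≡ q ^ z [MOD 2 ^ c] := by
    rw [← h]
    have := (Nat.modEq_zero_iff_dvd.2 (dvd_refl (2 ^ c))).add_right (p ^ d)
    rw [zero_add] at this
    exact this.symm
  have h2 : p ≡ (q ^ f) ^ z [MOD 2 ^ c] := by
    calc p ≡ p ^ (f * d) [MOD 2 ^ c] := (Lfl2_pow_inv hp hf).symm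
      _ = (p ^ d) ^ f := by rw [mul_comm, pow_mul]
      _ ≡ (q ^ z) ^ f [MOD 2 ^ c] := h1.pow f
      _ = (q ^ f) ^ z := by rw [← pow_mul, ← pow_mul, mul_comm]
  have h3 : q ≡ (q ^ f) ^ d [MOD 2 ^ c] := by
    calc q ≡ q ^ (f * d) [MOD 2 ^ c] := (Lfl2_pow_inv hq hf).symm
      _ = (q ^ f) ^ d := by rw [pow_mul]
  calc p ^ r * q ^ s ≡ ((q ^ f) ^ z) ^ r * ((q ^ f) ^ d) ^ s [MOD 2 ^ c] :=
        (h2.pow r).mul (h3.pow s)
    _ = (q ^ f) ^ (r * z + s * d) := by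
        rw [← pow_mul, ← pow_mul (q ^ f) d s, ← pow_add, mul_comm z r, mul_comm d s]

theorem Lfl2_dvd {q p z d c f m : ℕ} (hq4 : q % 4 = 1) (hp4 : p % 4 = 1)
    (hf : f * d = 1 + 2 ^ c * m) (h : 2 ^ c + p ^ d = q ^ z) (K L : ℕ)
    (e : Fin K × Fin L → ℕ × ℕ) :
    (2 : ℤ) ^ (min c ((K * L - K) * (K * L - K - 1))) ∣
      (Matrix.of (fun x y : Fin K × Fin L =>
        (((e y).1 * z + (e y).2 * d : ℕ) : ℤ) ^ (x.1 : ℕ) *
          ((p ^ (e y).1 * q ^ (e y).2 : ℕ) : ℤ) ^ (x.2 : ℕ))).det := by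
  have hg : (4 : ℤ) ∣ ((q ^ f : ℕ) : ℤ) - 1 := by
    have h1 : q ^ f ≡ 1 [MOD 4] := by
      have h2 : q ≡ 1 [MOD 4] := hq4
      simpa using h2.pow f
    have h3 := (Nat.modEq_iff_dvd.1 h1.symm)
    simpa using h3
  choose C hC1 hC2 using fun x : Fin K × Fin L => expand_two ((q ^ f : ℕ) : ℤ) hg x.1 x.2
  have hmod : ∀ x y : Fin K × Fin L, (2 : ℤ) ^ c ∣
      (((e y).1 * z + (e y).2 * d : ℕ) : ℤ) ^ (x.1 : ℕ) *
          ((p ^ (e y).1 * q ^ (e y).2 : ℕ) : ℤ) ^ (x.2 : ℕ) -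
      (((e y).1 * z + (e y).2 * d : ℕ) : ℤ) ^ (x.1 : ℕ) *
          (((q ^ f : ℕ) : ℤ) ^ ((e y).1 * z + (e y).2 * d)) ^ (x.2 : ℕ) := by
    intro x y
    have h1 := (Lfl2_g (by omega) (by omega) hf h (e y).1 (e y).2).symm
    have h2 := (Nat.modEq_iff_dvd.1 h1)
    have h3 : (2 : ℤ) ^ c ∣ ((p ^ (e y).1 * q ^ (e y).2 : ℕ) : ℤ) -
        ((q ^ f : ℕ) : ℤ) ^ ((e y).1 * z + (e y).2 * d) := by
      have h4 : ((2 ^ c : ℕ) : ℤ) = (2 : ℤ) ^ c := by push_cast; ring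
      rw [h4] at h2
      have h5 : (((q ^ f) ^ ((e y).1 * z + (e y).2 * d) : ℕ) : ℤ) =
          ((q ^ f : ℕ) : ℤ) ^ ((e y).1 * z + (e y).2 * d) := by push_cast; ring
      rwa [h5] at h2
    rw [← mul_sub]
    exact Dvd.dvd.mul_left (h3.trans (sub_dvd_pow_sub_pow _ _ _)) _
  choose b hb using hmod
  set T : ℕ := (∑ y, ((e y).1 * z + (e y).2 * d)) + 1 with hT
  have hXT : ∀ y, (e y).1 * z + (e y).2 * d < T := by
    intro y
    rw [hT, Nat.lt_succ_iff]
    exact Finset.single_le_sum (f := fun y => (e y).1 * z + (e y).2 * d)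
      (fun _ _ => Nat.zero_le _) (Finset.mem_univ y)
  have hdet := det_two T K c (fun t x => C x t)
    (fun t x => (pow_dvd_pow 4 (by have := x.1.2; omega)).trans (hC1 x t))
    (fun y => (e y).1 * z + (e y).2 * d) b
  rw [Fintype.card_prod, Fintype.card_fin, Fintype.card_fin] at hdet
  have hM : (Matrix.of (fun x y : Fin K × Fin L =>
        (((e y).1 * z + (e y).2 * d : ℕ) : ℤ) ^ (x.1 : ℕ) *
          ((p ^ (e y).1 * q ^ (e y).2 : ℕ) : ℤ) ^ (x.2 : ℕ))) =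
      Matrix.of (fun x y : Fin K × Fin L => ∑ t ∈ Finset.range T,
        (((e y).1 * z + (e y).2 * d).choose t : ℤ) * C x t + 2 ^ c * b x y) := by
    ext x y
    rw [Matrix.of_apply, Matrix.of_apply, ← hC2 x _ T (hXT y)]
    linear_combination hb x y
  rw [hM]
  exact hdet

theorem Lfl2_det_le {K L q p z d : ℕ} (e : Fin K × Fin L → ℕ × ℕ) {W : ℝ}
    (hW : ∀ x y : Fin K × Fin L, ((((e y).1 * z + (e y).2 * d : ℕ) : ℝ)) ^ (x.1 : ℕ) *
          ((p ^ (e y).1 * q ^ (e y).2 : ℕ) : ℝ) ^ (x.2 : ℕ) ≤ W) :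
    |(((Matrix.of (fun x y : Fin K × Fin L =>
        (((e y).1 * z + (e y).2 * d : ℕ) : ℤ) ^ (x.1 : ℕ) *
          ((p ^ (e y).1 * q ^ (e y).2 : ℕ) : ℤ) ^ (x.2 : ℕ))).det : ℤ) : ℝ)| ≤
      ((K * L).factorial : ℝ) * W ^ (K * L) := by
  have h1 := RingHom.map_det (Int.castRingHom ℝ) (Matrix.of (fun x y : Fin K × Fin L =>
        (((e y).1 * z + (e y).2 * d : ℕ) : ℤ) ^ (x.1 : ℕ) *
          ((p ^ (e y).1 * q ^ (e y).2 : ℕ) : ℤ) ^ (x.2 : ℕ)))
  rw [eq_intCast] at h1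
  rw [h1]
  have h2 := Matrix.det_le (abv := (AbsoluteValue.abs : AbsoluteValue ℝ ℝ)) (x := W)
    (A := (Int.castRingHom ℝ).mapMatrix (Matrix.of (fun x y : Fin K × Fin L =>
        (((e y).1 * z + (e y).2 * d : ℕ) : ℤ) ^ (x.1 : ℕ) *
          ((p ^ (e y).1 * q ^ (e y).2 : ℕ) : ℤ) ^ (x.2 : ℕ)))) (by
      intro x y
      have h3 := hW x y
      simp only [RingHom.mapMatrix_apply, Matrix.map_apply, Matrix.of_apply, eq_intCast,
        AbsoluteValue.abs_apply]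
      rw [abs_of_nonneg (by positivity)]
      push_cast at h3 ⊢
      exact h3)
  rw [Fintype.card_prod, Fintype.card_fin, Fintype.card_fin, nsmul_eq_mul] at h2
  exact h2

theorem lfl_two {q p z d c E F L B : ℕ} (hqp : q.Coprime p) (hq4 : q % 4 = 1) (hp4 : p % 4 = 1)
    (hq : 2 ≤ q) (hp : 2 ≤ p) (hd : d % 2 = 1) (hzd : z.Coprime d) (hz : 1 ≤ z)
    (hzB : z ≤ B) (hdB : d ≤ B) (h : 2 ^ c + p ^ d = q ^ z)
    (hEa : Real.log q ≤ E) (hFb : Real.log p ≤ F) (hE : 1 ≤ E) (hF : 1 ≤ F)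
    (hL : 8 * (1 + Real.log (102 * L * E * F * B)) ≤ L) :
    (c : ℝ) ≤ (2500 * (L : ℝ) ^ 2 * E * F) ^ 2 := by
  have hB : 1 ≤ B := hz.trans hzB
  have hL44 := L_ge hE hF hB hL
  have hEr : (1 : ℝ) ≤ E := by exact_mod_cast hE
  have hFr : (1 : ℝ) ≤ F := by exact_mod_cast hF
  have hLr : (44 : ℝ) ≤ L := by exact_mod_cast hL44
  have hBr : (1 : ℝ) ≤ B := by exact_mod_cast hB
  by_cases hbox : 50 * L * E ≤ d ∨ 50 * L * F ≤ z
  · -- main case
    set K : ℕ := 2500 * L * E * F with hK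
    obtain ⟨e, he, hdet⟩ := exists_points (a := q) (b := p) (u := z) (v := d) (K := K) (L := L)
      (R1 := L) (S1 := L) (R2 := 50 * L * E) (S2 := 50 * L * F) hqp hq hp
      (Nat.le_mul_self L) (inj_box hzd hz (by omega) hbox) (by
        have hKpos : 0 < K := by
          rw [hK]
          positivity
        have h1 : (K - 1) * L < K * L := by
          apply Nat.mul_lt_mul_of_pos_right (by omega) (by omega)
        have h2 : K * L = 50 * L * E * (50 * L * F) := by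
          rw [hK]
          ring
        omega)
    obtain ⟨f, m, hf⟩ := Lfl2_inv hd c
    have hdvd := Lfl2_dvd hq4 hp4 hf h K L e
    have hKr : (K : ℝ) = 2500 * L * E * F := by
      rw [hK]
      push_cast
      ring
    have hNr : ((K * L : ℕ) : ℝ) = 2500 * (L : ℝ) ^ 2 * E * F := by
      rw [Nat.cast_mul, hKr]
      ring
    have hEF : (1 : ℝ) ≤ (E : ℝ) * F := by nlinarith
    have hLEF : (1 : ℝ) ≤ (L : ℝ) * E * F := by nlinarith
    have hNpos : (0 : ℝ) < ((K * L : ℕ) : ℝ) := by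
      rw [hNr]
      positivity
    have hHpos : (1 : ℝ) ≤ 102 * L * E * F * B := by nlinarith
    set H : ℝ := 102 * L * E * F * B with hH
    set M : ℕ := (K * L - K) * (K * L - K - 1) with hM
    by_contra hcon
    push Not at hcon
    have hMN : (M : ℝ) ≤ (2500 * (L : ℝ) ^ 2 * E * F) ^ 2 := by
      rw [← hNr, ← Nat.cast_pow]
      have : M ≤ (K * L) ^ 2 := by
        rw [hM, pow_two]
        exact Nat.mul_le_mul (Nat.sub_le _ _) ((Nat.sub_le _ _).trans (Nat.sub_le _ _))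
      exact_mod_cast this
    have hcM : M ≤ c := by
      have : (M : ℝ) < c := lt_of_le_of_lt hMN hcon
      exact_mod_cast this.le
    rw [min_eq_right hcM] at hdvd
    have hW := Lfl2_det_le (K := K) (L := L) (q := q) (p := p) (z := z) (d := d) e
      (W := H ^ K * Real.exp (102 * (L : ℝ) ^ 2 * E * F)) (by
        intro x y
        have hr : ((e y).1 : ℝ) ≤ 51 * L * E := by
          have h1 := (he y).1
          have h2 : (e y).1 ≤ L + 50 * L * E := h1.le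
          have h3 : ((e y).1 : ℝ) ≤ L + 50 * L * E := by exact_mod_cast h2
          nlinarith
        have hs : ((e y).2 : ℝ) ≤ 51 * L * F := by
          have h1 := (he y).2
          have h2 : (e y).2 ≤ L + 50 * L * F := h1.le
          have h3 : ((e y).2 : ℝ) ≤ L + 50 * L * F := by exact_mod_cast h2
          nlinarith
        have hzr : (z : ℝ) ≤ B := by exact_mod_cast hzB
        have hdr : (d : ℝ) ≤ B := by exact_mod_cast hdB
        have hX : (((e y).1 * z + (e y).2 * d : ℕ) : ℝ) ≤ H := by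
          push_cast
          have h1 : ((e y).1 : ℝ) * z ≤ 51 * L * E * B :=
            mul_le_mul hr hzr (Nat.cast_nonneg _) (by positivity)
          have h2 : ((e y).2 : ℝ) * d ≤ 51 * L * F * B :=
            mul_le_mul hs hdr (Nat.cast_nonneg _) (by positivity)
          have h3 : (E : ℝ) + F ≤ 2 * (E * F) := by nlinarith
          have h4 : 51 * (L : ℝ) * E * B + 51 * L * F * B = 51 * (L * B) * (E + F) := by ring
          have h5 : (0 : ℝ) ≤ 51 * (L * B) := by positivity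
          have h6 : 51 * ((L : ℝ) * B) * (E + F) ≤ 51 * (L * B) * (2 * (E * F)) :=
            mul_le_mul_of_nonneg_left h3 h5
          rw [hH]
          nlinarith
        have hXk : (((e y).1 * z + (e y).2 * d : ℕ) : ℝ) ^ (x.1 : ℕ) ≤ H ^ K := by
          calc (((e y).1 * z + (e y).2 * d : ℕ) : ℝ) ^ (x.1 : ℕ) ≤ H ^ (x.1 : ℕ) :=
                pow_le_pow_left₀ (Nat.cast_nonneg _) hX _
            _ ≤ H ^ K := pow_le_pow_right₀ hHpos x.1.2.le
        have hYl : ((p ^ (e y).1 * q ^ (e y).2 : ℕ) : ℝ) ^ (x.2 : ℕ) ≤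
            Real.exp (102 * (L : ℝ) ^ 2 * E * F) := by
          have hp0 : (0 : ℝ) < p := by
            have : 0 < p := by omega
            exact_mod_cast this
          have hq0 : (0 : ℝ) < q := by
            have : 0 < q := by omega
            exact_mod_cast this
          have hpos : (0 : ℝ) < ((p ^ (e y).1 * q ^ (e y).2 : ℕ) : ℝ) ^ (x.2 : ℕ) := by
            push_cast
            positivity
          rw [← Real.log_le_iff_le_exp hpos, Real.log_pow]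
          push_cast
          rw [Real.log_mul (by positivity) (by positivity), Real.log_pow, Real.log_pow]
          have h1 : ((e y).1 : ℝ) * Real.log p ≤ 51 * L * E * F :=
            mul_le_mul hr hFb (Real.log_natCast_nonneg p) (by positivity)
          have h2 : ((e y).2 : ℝ) * Real.log q ≤ 51 * L * F * E :=
            mul_le_mul hs hEa (Real.log_natCast_nonneg q) (by positivity)
          have h3 : ((x.2 : ℕ) : ℝ) ≤ L := by exact_mod_cast x.2.2.le
          have h4 : ((e y).1 : ℝ) * Real.log p + (e y).2 * Real.log q ≤ 102 * L * E * F := by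
            linarith
          have h5 : (0 : ℝ) ≤ ((e y).1 : ℝ) * Real.log p + (e y).2 * Real.log q :=
            add_nonneg (mul_nonneg (Nat.cast_nonneg _) (Real.log_natCast_nonneg p))
              (mul_nonneg (Nat.cast_nonneg _) (Real.log_natCast_nonneg q))
          calc ((x.2 : ℕ) : ℝ) * (((e y).1 : ℝ) * Real.log p + (e y).2 * Real.log q)
              ≤ L * (102 * L * E * F) := mul_le_mul h3 h4 h5 (by positivity)
            _ = 102 * (L : ℝ) ^ 2 * E * F := by ring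
        exact mul_le_mul hXk hYl (by positivity) (by positivity))
    have hge : (2 : ℝ) ^ M ≤ |(((Matrix.of (fun x y : Fin K × Fin L =>
        (((e y).1 * z + (e y).2 * d : ℕ) : ℤ) ^ (x.1 : ℕ) *
          ((p ^ (e y).1 * q ^ (e y).2 : ℕ) : ℤ) ^ (x.2 : ℕ))).det : ℤ) : ℝ)| := by
      have h1 := Int.le_of_dvd (abs_pos.2 hdet) ((dvd_abs _ _).2 hdvd)
      have h2 : (((2 : ℤ) ^ M : ℤ) : ℝ) ≤ ((|(Matrix.of (fun x y : Fin K × Fin L =>
        (((e y).1 * z + (e y).2 * d : ℕ) : ℤ) ^ (x.1 : ℕ) *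
          ((p ^ (e y).1 * q ^ (e y).2 : ℕ) : ℤ) ^ (x.2 : ℕ))).det| : ℤ) : ℝ) := by
        exact_mod_cast h1
      rw [Int.cast_abs] at h2
      push_cast at h2 ⊢
      exact h2
    have hfin := hge.trans hW
    have hfact : ((K * L).factorial : ℝ) ≤ ((K * L : ℕ) : ℝ) ^ (K * L) := by
      exact_mod_cast Nat.factorial_le_pow (K * L)
    have hWpos : (0 : ℝ) < H ^ K * Real.exp (102 * (L : ℝ) ^ 2 * E * F) := by positivity
    have hfin2 : (2 : ℝ) ^ M ≤ ((K * L : ℕ) : ℝ) ^ (K * L) *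
        (H ^ K * Real.exp (102 * (L : ℝ) ^ 2 * E * F)) ^ (K * L) :=
      hfin.trans (mul_le_mul_of_nonneg_right hfact (by positivity))
    have hlog := Real.log_le_log (by positivity) hfin2
    rw [Real.log_pow, Real.log_mul (by positivity) (by positivity), Real.log_pow, Real.log_pow,
      Real.log_mul (by positivity) (by positivity), Real.log_pow, Real.log_exp, hKr] at hlog
    have hnum := num_two (L := L) (E := E) (F := F) (B := B) hE hF hB hL
    have hM2 : (((2500 * L * E * F * L - 2500 * L * E * F) *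
        (2500 * L * E * F * L - 2500 * L * E * F - 1) : ℕ) : ℝ) = (M : ℝ) := by
      rw [hM, hK]
    rw [hM2, ← hH] at hnum
    rw [hNr] at hlog
    linarith
  · push Not at hbox
    have h1 : (c : ℝ) * Real.log 2 ≤ z * Real.log q := by
      have h2 : (2 : ℝ) ^ c ≤ (q : ℝ) ^ z := by
        have : 2 ^ c ≤ q ^ z := by omega
        exact_mod_cast this
      have h3 := Real.log_le_log (by positivity) h2
      rwa [Real.log_pow, Real.log_pow] at h3
    have h2 : (z : ℝ) ≤ 50 * L * F := by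
      exact_mod_cast hbox.2.le
    have h3 : (0 : ℝ) ≤ Real.log q := Real.log_natCast_nonneg q
    have h4 : (z : ℝ) * Real.log q ≤ 50 * L * F * E := by
      apply mul_le_mul h2 hEa h3 (by positivity)
    have h5 : (0.69 : ℝ) < Real.log 2 := by
      have := Real.log_two_gt_d9
      linarith
    have h6 : (c : ℝ) ≤ 100 * L * F * E := by
      have hc : (0 : ℝ) ≤ c := Nat.cast_nonneg c
      have : (0.69 : ℝ) * c ≤ 50 * L * F * E := by
        calc (0.69 : ℝ) * c ≤ c * Real.log 2 := by nlinarith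
          _ ≤ _ := h1.trans h4
      nlinarith
    have h7 : (1 : ℝ) ≤ 2500 * (L : ℝ) ^ 2 * E * F := by
      have : (1 : ℝ) ≤ (L : ℝ) ^ 2 := by nlinarith
      have h8 : (1 : ℝ) ≤ (L : ℝ) ^ 2 * E := by nlinarith
      have h9 : (1 : ℝ) ≤ (L : ℝ) ^ 2 * E * F := by nlinarith
      nlinarith
    have h8 : 100 * (L : ℝ) * F * E ≤ 2500 * (L : ℝ) ^ 2 * E * F := by
      have h9 : (0 : ℝ) ≤ E * F := by positivity
      have h10 : 100 * (L : ℝ) ≤ 2500 * (L : ℝ) ^ 2 := by nlinarith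
      nlinarith
    calc (c : ℝ) ≤ 2500 * (L : ℝ) ^ 2 * E * F := h6.trans h8
      _ ≤ (2500 * (L : ℝ) ^ 2 * E * F) ^ 2 := by nlinarith

end Pool.Agent.H91.CA
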