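import Mathlib

/-!
JOB CA-19 (order of vanishing, about 70-110 lines; independent).

Put `A = Y^(2j) + r² X`, `F = A^z - Y^d`, `μ = natDegree Y ≥ 1`.  If `e = 0` nothing to prove.  Let `e1` be
the exact order of `F` at `0` (`rootMultiplicity 0 F`, or `natTrailingDegree F`; `F ≠ 0`), `e ≤ e1`, so
`e1 ≥ 1`, `F = X^e1 * G`, `G(0) ≠ 0`.  Derivatives: `A F' - z A' F = A (z A^(z-1) A' - d Y^(d-1) Y') -
z A' (A^z - Y^d) = Y^(d-1) V` with `V = z A' Y - d A Y'` (`z, d ≥ 1`).
`F' = X^(e1-1) (e1 G + X G')`, so `X^(e1-1)` divides `Y^(d-1) V`, and since `Y(0) = 1`, `X^(e1-1) ∣ V`.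
`V ≠ 0`: otherwise `A F' = z A' F`, i.e. `A (e1 G + X G') = z A' X G`, at `0`: `A(0) e1 G(0) = 0`, but
`A(0) = 1`, `e1 ≥ 1`, `G(0) ≠ 0`.  `natDegree V ≤ natDegree A + natDegree Y - 1 ≤ 2jμ + μ - 1`
(`natDegree A ≤ max(1, 2jμ) = 2jμ`; `natDegree_derivative_lt`).  So `e1 - 1 ≤ (2j+1)μ - 1`.
-/

namespace Pool.Agent.H91.CA

open Polynomial

theorem order_bound {j z d r e : ℕ} (hj : 1 ≤ j) (hz : 1 ≤ z) (hd : 1 ≤ d) (Y : ℤ[X])
    (hY0 : Y.coeff 0 = 1) (hdeg : 1 ≤ Y.natDegree)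
    (hF : (Y ^ (2 * j) + C ((r : ℤ) ^ 2) * X) ^ z - Y ^ d ≠ 0)
    (he : X ^ e ∣ (Y ^ (2 * j) + C ((r : ℤ) ^ 2) * X) ^ z - Y ^ d) :
    e ≤ (2 * j + 1) * Y.natDegree := by
  set A : ℤ[X] := Y ^ (2 * j) + C ((r : ℤ) ^ 2) * X with hA
  set F : ℤ[X] := A ^ z - Y ^ d with hFdef
  obtain ⟨G, hG, hGX⟩ := Polynomial.exists_eq_pow_rootMultiplicity_mul_and_not_dvd F hF 0
  set e1 := F.rootMultiplicity 0 with he1
  rw [map_zero, sub_zero] at hG hGX
  have hee : e ≤ e1 := by
    rw [he1, Polynomial.le_rootMultiplicity_iff hF, map_zero, sub_zero]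
    exact he
  rcases Nat.eq_zero_or_pos e with h0 | hpos
  · omega
  have he1pos : 1 ≤ e1 := by omega
  obtain ⟨k, hk⟩ : ∃ k, e1 = k + 1 := ⟨e1 - 1, by omega⟩
  obtain ⟨z', rfl⟩ : ∃ z', z = z' + 1 := ⟨z - 1, by omega⟩
  obtain ⟨d', rfl⟩ : ∃ d', d = d' + 1 := ⟨d - 1, by omega⟩
  have hA0 : A.coeff 0 = 1 := by
    rw [hA]
    simp [Polynomial.coeff_zero_eq_eval_zero] at hY0 ⊢
    rw [hY0, one_pow]
  set V : ℤ[X] := C ((z' + 1 : ℕ) : ℤ) * derivative A * Y - C ((d' + 1 : ℕ) : ℤ) * A * derivative Y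
    with hV
  have hkey : A * derivative F - C ((z' + 1 : ℕ) : ℤ) * derivative A * F = Y ^ d' * V := by
    rw [hFdef, hV, Polynomial.derivative_sub, Polynomial.derivative_pow_succ,
      Polynomial.derivative_pow_succ]
    push_cast
    ring
  have hdF : derivative F = X ^ k * (C ((k + 1 : ℕ) : ℤ) * G + X * derivative G) := by
    rw [hG, hk, Polynomial.derivative_mul, Polynomial.derivative_pow_succ, Polynomial.derivative_X]
    push_cast
    ring
  have hFk : F = X ^ k * (X * G) := by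
    rw [hG, hk]
    ring
  have hid : Y ^ d' * V = X ^ k * (A * (C ((k + 1 : ℕ) : ℤ) * G + X * derivative G)
      - C ((z' + 1 : ℕ) : ℤ) * derivative A * (X * G)) := by
    rw [← hkey, hdF]
    conv_lhs => rw [hFk]
    ring
  have hXV : X ^ k ∣ V := by
    have hdv : X ^ k ∣ Y ^ d' * V := by
      rw [hid]
      exact dvd_mul_right _ _
    refine Polynomial.prime_X.pow_dvd_of_dvd_mul_left k ?_ hdv
    rw [Polynomial.X_dvd_iff, Polynomial.coeff_zero_eq_eval_zero, Polynomial.eval_pow,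
      ← Polynomial.coeff_zero_eq_eval_zero, hY0, one_pow]
    exact one_ne_zero
  have hV0 : V ≠ 0 := by
    intro hV0
    rw [hV0, mul_zero] at hid
    have h1 : A * (C ((k + 1 : ℕ) : ℤ) * G + X * derivative G)
      - C ((z' + 1 : ℕ) : ℤ) * derivative A * (X * G) = 0 := by
      rcases mul_eq_zero.1 hid.symm with h | h
      · exact absurd h (pow_ne_zero _ Polynomial.X_ne_zero)
      · exact h
    have h2 := congrArg (Polynomial.eval 0) h1
    simp only [Polynomial.eval_sub, Polynomial.eval_mul, Polynomial.eval_add, Polynomial.eval_X,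
      Polynomial.eval_C, zero_mul, mul_zero, add_zero, sub_zero, Polynomial.eval_zero] at h2
    rw [← Polynomial.coeff_zero_eq_eval_zero, hA0, one_mul] at h2
    rcases mul_eq_zero.1 h2 with h | h
    · have : ((k + 1 : ℕ) : ℤ) ≠ 0 := by exact_mod_cast Nat.succ_ne_zero k
      exact this h
    · apply hGX
      rw [Polynomial.X_dvd_iff, Polynomial.coeff_zero_eq_eval_zero]
      exact h
  have hk1 : k ≤ V.natDegree := by
    have := Polynomial.natDegree_le_of_dvd hXV hV0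
    rwa [Polynomial.natDegree_X_pow] at this
  set μ := Y.natDegree with hμ
  have hAdeg : A.natDegree ≤ 2 * j * μ := by
    refine (Polynomial.natDegree_add_le _ _).trans (max_le ?_ ?_)
    · exact Polynomial.natDegree_pow_le
    · refine (Polynomial.natDegree_C_mul_le _ _).trans ?_
      rw [Polynomial.natDegree_X]
      nlinarith
  have hVdeg : V.natDegree ≤ 2 * j * μ + μ - 1 := by
    have h2 : 1 ≤ 2 * j * μ := by nlinarith
    refine (Polynomial.natDegree_sub_le _ _).trans (max_le ?_ ?_)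
    · refine (Polynomial.natDegree_mul_le).trans ?_
      have h1 : (C ((z' + 1 : ℕ) : ℤ) * derivative A).natDegree ≤ A.natDegree - 1 :=
        (Polynomial.natDegree_C_mul_le _ _).trans (Polynomial.natDegree_derivative_le A)
      omega
    · refine (Polynomial.natDegree_mul_le).trans ?_
      have h1 : (C ((d' + 1 : ℕ) : ℤ) * A).natDegree ≤ A.natDegree :=
        Polynomial.natDegree_C_mul_le _ _
      have h3 := Polynomial.natDegree_derivative_le Y
      omega
  have h3 : (2 * j + 1) * μ = 2 * j * μ + μ := by ring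
  rw [h3]
  omega

end Pool.Agent.H91.CA
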