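import Pool.Agent.H91.CA.Nrm
import Pool.Agent.H91.CA.TayB

/-!
JOB CA-20 (the congruence is an equality, about 100-140 lines; uses the stubs `tay_mod`, `nrm_eq_range`).

Write `W = 4^i`, `q = W + p^(2j)`.  (1) `two_mul_two_pow`: `p^d ≤ p^(n-1) ≤ q^z / p ≤ q^z/2`, so
`q^z ≤ 2 * 2^c`, in particular `p^n ≤ 2 * 2^c` (`p ≥ 2`, `q ≥ p^(2j)`, `d ≤ n - 1`).
(2) `m ≥ 2` since `W^1 < p ≤ W^m`.  `n ≥ 6`, so `2 * 2^c ≥ p^6 > W^(6(m-1)) ≥ W^(m+2) ≥ 2 W^(m+1)`, hence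
`c ≥ 2 i (m+1) =: M`, and `tay_mod` applies with this `M`, `2^M = W^(m+1)`.  (`r` is odd because `n` is even
and `d` is odd.)
(3) Size: `|r^(2m) p| ≤ n^(2m) W^m`, `r^(2m) ≤ n^(2m) W^m`, and with `τ = 1/(64 n^4)`
`r ∑_k |y_k| W^k r^(2(m-k)) = r ∑_k |y_k| τ^k (W/τ)^k r^(2(m-k)) ≤ n (∑_k |y_k| τ^k) (W/τ)^m
≤ n/(4n²) (64 n^4)^m W^m ≤ (64n^4)^m W^m` (`r² ≤ W/τ`).  The absolute value of the difference is at most
`3 (64 n^4)^m W^m < W * W^m = 2^M` by `hbig`; being divisible by `2^M` it is `0`.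
-/

namespace Pool.Agent.H91.CA

open Polynomial

theorem two_mul_two_pow {p q i j z d r c n : ℕ} (hp : 2 ≤ p) (hn : n = 2 * j * z)
    (hr : d + r = n) (hr1 : 1 ≤ r) (hq : q = 4 ^ i + p ^ (2 * j)) (h : 2 ^ c + p ^ d = q ^ z) :
    q ^ z ≤ 2 * 2 ^ c ∧ p ^ n ≤ 2 * 2 ^ c := by
  have hp1 : 1 ≤ p := by omega
  have h1 : p ^ n ≤ q ^ z := by
    rw [hn, pow_mul]
    exact Nat.pow_le_pow_left (by rw [hq]; exact Nat.le_add_left _ _) z
  have h2 : 2 * p ^ d ≤ p ^ n := by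
    calc 2 * p ^ d ≤ p * p ^ d := Nat.mul_le_mul_right _ hp
      _ = p ^ (d + 1) := by rw [pow_succ, mul_comm]
      _ ≤ p ^ n := Nat.pow_le_pow_right hp1 (by omega)
  omega

theorem tay_exact {p q i j z d r c n m : ℕ} (hi : 1 ≤ i) (hj : 1 ≤ j) (hz : 3 ≤ z)
    (hn : n = 2 * j * z) (hr : d + r = n) (hr1 : 1 ≤ r) (hd : d % 2 = 1) (hp : p % 2 = 1)
    (hq : q = 4 ^ i + p ^ (2 * j)) (h : 2 ^ c + p ^ d = q ^ z) (hlt : 4 ^ i < p)
    (hm1 : 4 ^ (i * (m - 1)) < p) (hm2 : p ≤ 4 ^ (i * m)) (hbig : 4 * (64 * n ^ 4) ^ m < 4 ^ i)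
    (y : ℤ[X]) (hdeg : y.natDegree ≤ m) (hy0 : y.coeff 0 = 0)
    (hX : X ^ (m + 1) ∣ ((1 + C (r : ℤ) * y) ^ (2 * j) + C ((r : ℤ) ^ 2) * X) ^ z -
        (1 + C (r : ℤ) * y) ^ d)
    (hy : nrm (1 / (64 * (n : ℝ) ^ 4)) y ≤ 1 / (4 * (n : ℝ) ^ 2)) :
    (r : ℤ) ^ (2 * m) * p = (r : ℤ) ^ (2 * m) +
      r * ∑ k ∈ Finset.range (m + 1), y.coeff k * 4 ^ (i * k) * (r : ℤ) ^ (2 * (m - k)) := by
  have hn6 : 6 ≤ n := by
    have := Nat.mul_le_mul hj hz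
    rw [hn, mul_assoc]
    omega
  have hnn : n = 2 * (j * z) := by rw [hn, mul_assoc]
  have hrodd : r % 2 = 1 := by omega
  have hW4 : 4 ≤ 4 ^ i := by
    calc 4 = 4 ^ 1 := (pow_one 4).symm
      _ ≤ 4 ^ i := Nat.pow_le_pow_right (by norm_num) hi
  have hm : 2 ≤ m := by
    rcases Nat.lt_or_ge m 2 with hlt2 | hge
    · exfalso
      have h5 : 4 ^ (i * m) ≤ 4 ^ i :=
        Nat.pow_le_pow_right (by norm_num) (by
          calc i * m ≤ i * 1 := Nat.mul_le_mul_left _ (by omega)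
            _ = i := mul_one i)
      omega
    · exact hge
  obtain ⟨-, hpn⟩ := two_mul_two_pow (p := p) (q := q) (i := i) (j := j) (z := z) (d := d) (r := r)
    (c := c) (n := n) (by omega) hn hr hr1 hq h
  have hMc : 2 * i * (m + 1) ≤ c := by
    by_contra hc
    push Not at hc
    have h6 : 2 * 2 ^ c ≤ 2 ^ (2 * i * (m + 1)) := by
      calc 2 * 2 ^ c = 2 ^ (c + 1) := by rw [pow_succ, mul_comm]
        _ ≤ 2 ^ (2 * i * (m + 1)) := Nat.pow_le_pow_right (by norm_num) hc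
    have h7 : (4 ^ (i * (m - 1))) ^ 6 < p ^ 6 := Nat.pow_lt_pow_left hm1 (by norm_num)
    have h8 : p ^ 6 ≤ p ^ n := Nat.pow_le_pow_right (by omega) hn6
    have h9 : 2 ^ (2 * i * (m + 1)) ≤ (4 ^ (i * (m - 1))) ^ 6 := by
      rw [← pow_mul, show (4 : ℕ) = 2 ^ 2 by norm_num, ← pow_mul]
      refine Nat.pow_le_pow_right (by norm_num) ?_
      obtain ⟨m', rfl⟩ : ∃ m', m = m' + 2 := ⟨m - 2, by omega⟩
      have : m' + 2 - 1 = m' + 1 := by omega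
      rw [this]
      calc 2 * i * (m' + 2 + 1) ≤ 2 * i * ((m' + 1) * 6) := Nat.mul_le_mul_left _ (by omega)
        _ = 2 * (i * (m' + 1) * 6) := by ring
    omega
  have h' : 2 ^ c + p ^ d = (4 ^ i + p ^ (2 * j)) ^ z := by rw [h, hq]
  have hdvd := tay_mod (p := p) (i := i) (j := j) (z := z) (d := d) (r := r) (c := c) (m := m)
    (M := 2 * i * (m + 1)) hi hj hd hrodd hp h' hMc le_rfl y hdeg hy0 hX
  refine sub_eq_zero.mp (Int.eq_zero_of_abs_lt_dvd hdvd ?_)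
  set S : ℤ := ∑ k ∈ Finset.range (m + 1), y.coeff k * 4 ^ (i * k) * (r : ℤ) ^ (2 * (m - k)) with hS
  have hnR : (6 : ℝ) ≤ n := by exact_mod_cast hn6
  have hrR : (r : ℝ) ≤ n := by exact_mod_cast (by omega : r ≤ n)
  have hr0 : (0 : ℝ) ≤ r := Nat.cast_nonneg r
  obtain ⟨W, hW⟩ : ∃ W : ℝ, W = 4 ^ i := ⟨_, rfl⟩
  have hW1 : (1 : ℝ) ≤ W := by
    rw [hW]
    exact one_le_pow₀ (by norm_num)
  obtain ⟨T, hT⟩ : ∃ T : ℝ, T = 64 * (n : ℝ) ^ 4 := ⟨_, rfl⟩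
  have hT0 : (0 : ℝ) < T := by
    rw [hT]
    positivity
  have hn2T : (n : ℝ) ^ 2 ≤ T := by
    rw [hT]
    nlinarith [sq_nonneg ((n : ℝ) ^ 2), pow_le_pow_left₀ (by norm_num : (0 : ℝ) ≤ 6) hnR 2]
  have hr2T : (r : ℝ) ^ 2 ≤ T * W := by
    calc (r : ℝ) ^ 2 ≤ (n : ℝ) ^ 2 := pow_le_pow_left₀ hr0 hrR 2
      _ ≤ T := hn2T
      _ ≤ T * W := le_mul_of_one_le_right hT0.le hW1
  have hbigR : 4 * T ^ m < W := by
    rw [hT, hW]
    exact_mod_cast hbig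
  have hr2m : (r : ℝ) ^ (2 * m) ≤ T ^ m := by
    rw [pow_mul]
    exact pow_le_pow_left₀ (sq_nonneg _) ((pow_le_pow_left₀ hr0 hrR 2).trans hn2T) m
  have hWm1 : (1 : ℝ) ≤ W ^ m := one_le_pow₀ hW1
  have hpW : (p : ℝ) ≤ W ^ m := by
    rw [hW, ← pow_mul]
    exact_mod_cast hm2
  have hTm : (0 : ℝ) < T ^ m := pow_pos hT0 m
  have hSabs : |(S : ℝ)| ≤ (T * W) ^ m * nrm (1 / T) y := by
    rw [hS]
    push_cast
    rw [nrm_eq_range y (Nat.lt_succ_of_le hdeg), Finset.mul_sum]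
    refine (Finset.abs_sum_le_sum_abs _ _).trans (Finset.sum_le_sum fun k hk => ?_)
    have hk' : k ≤ m := Nat.lt_succ_iff.mp (Finset.mem_range.mp hk)
    rw [abs_mul, abs_mul, abs_of_nonneg (by positivity : (0 : ℝ) ≤ 4 ^ (i * k)),
      abs_of_nonneg (by positivity : (0 : ℝ) ≤ (r : ℝ) ^ (2 * (m - k)))]
    have e1 : (4 : ℝ) ^ (i * k) = W ^ k := by rw [hW, ← pow_mul]
    rw [e1]
    have e2 : (r : ℝ) ^ (2 * (m - k)) ≤ (T * W) ^ (m - k) := by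
      rw [pow_mul]
      exact pow_le_pow_left₀ (sq_nonneg _) hr2T _
    have e3 : (T * W) ^ m = (T * W) ^ k * (T * W) ^ (m - k) := by
      rw [← pow_add, Nat.add_sub_cancel' hk']
    have e4 : W ^ k = (T * W) ^ k * (1 / T) ^ k := by
      rw [← mul_pow]
      congr 1
      field_simp
    calc |(y.coeff k : ℝ)| * W ^ k * (r : ℝ) ^ (2 * (m - k))
        ≤ |(y.coeff k : ℝ)| * W ^ k * (T * W) ^ (m - k) :=
          mul_le_mul_of_nonneg_left e2 (by positivity)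
      _ = (T * W) ^ m * (|(y.coeff k : ℝ)| * (1 / T) ^ k) := by
          rw [e3]
          nth_rewrite 1 [e4]
          ring
  have hy' : nrm (1 / T) y ≤ 1 / (4 * (n : ℝ) ^ 2) := by
    rw [hT]
    exact hy
  have hrS : (r : ℝ) * |(S : ℝ)| ≤ (T * W) ^ m := by
    have h0 : 0 ≤ (T * W) ^ m := by positivity
    have h10 : (r : ℝ) * (1 / (4 * (n : ℝ) ^ 2)) ≤ 1 := by
      rw [mul_one_div, div_le_one (by positivity)]
      nlinarith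
    calc (r : ℝ) * |(S : ℝ)| ≤ r * ((T * W) ^ m * nrm (1 / T) y) :=
          mul_le_mul_of_nonneg_left hSabs hr0
      _ ≤ r * ((T * W) ^ m * (1 / (4 * (n : ℝ) ^ 2))) :=
          mul_le_mul_of_nonneg_left (mul_le_mul_of_nonneg_left hy' h0) hr0
      _ = (T * W) ^ m * (r * (1 / (4 * (n : ℝ) ^ 2))) := by ring
      _ ≤ (T * W) ^ m * 1 := mul_le_mul_of_nonneg_left h10 h0
      _ = (T * W) ^ m := mul_one _
  have hfinal : |((r : ℝ) ^ (2 * m) * p - ((r : ℝ) ^ (2 * m) + r * (S : ℝ)))| <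
      (2 : ℝ) ^ (2 * i * (m + 1)) := by
    have e5 : (2 : ℝ) ^ (2 * i * (m + 1)) = W * W ^ m := by
      rw [pow_mul, pow_mul, show (2 : ℝ) ^ 2 = 4 by norm_num, ← hW, pow_succ, mul_comm]
    rw [e5]
    have a1 : (r : ℝ) ^ (2 * m) * p ≤ T ^ m * W ^ m :=
      mul_le_mul hr2m hpW (Nat.cast_nonneg p) hTm.le
    have a2 : (r : ℝ) ^ (2 * m) ≤ T ^ m * W ^ m :=
      hr2m.trans (le_mul_of_one_le_right hTm.le hWm1)
    have a3 : 0 ≤ (r : ℝ) ^ (2 * m) * p := by positivity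
    have a4 : 0 ≤ (r : ℝ) ^ (2 * m) := by positivity
    have a5 : |(r : ℝ) * (S : ℝ)| ≤ T ^ m * W ^ m := by
      rw [abs_mul, abs_of_nonneg hr0, ← mul_pow]
      exact hrS
    have a6 : 4 * T ^ m * W ^ m < W * W ^ m :=
      mul_lt_mul_of_pos_right hbigR (by positivity)
    have a7 := abs_le.mp a5
    rw [abs_lt]
    constructor <;> nlinarith [mul_pos hTm (lt_of_lt_of_le one_pos hWm1)]
  exact_mod_cast hfinal

end Pool.Agent.H91.CA
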