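import Pool.Agent.H91.CA.Nrm

/-!
JOB CA-21 (2-adic value and lower bound, about 100-150 lines; uses the stubs of Nrm).

`tay_val`.  Let `K = natDegree F ≥ e`.  Multiply `hv` by `r^(2K)`:
`r^(2K) 2^c = ∑_{k=e}^{K} f_k 4^(ik) r^(2(K-k))` in `ℤ`.  If `c ≥ 2i(e+1)`, then modulo `4^(i(e+1))` this gives
`4^(i(e+1)) ∣ f_e 4^(ie) r^(2(K-e))`, so `4^i ∣ f_e r^(2(K-e))`, `4^i ∣ f_e` (`r` odd), and `f_e ≠ 0`,
`|f_e| < 4^i`: contradiction.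

`tay_low`.  `W = 4^i`, `X0 = W/r²` (real), `τ = 1/(64n^4)`, `μ = natDegree y`.
`∑_{k<μ} |y_k| X0^k = ∑_{k<μ} |y_k| τ^k (X0/τ)^k ≤ (1/(4n²)) (X0/τ)^(μ-1)` (`X0/τ ≥ 1` as
`W ≥ n² ≥ r²`) `= X0^(μ-1) (64n^4)^(μ-1)/(4n²) ≤ X0^μ/4`, because `X0 ≥ W/n² ≥ (64n^4)^(μ-1)/n²`.
`|y_μ| ≥ 1`.  If `y_μ ≤ -1`: `y(X0) ≤ -(3/4) X0^μ`, and `X0 ≥ 4` (`W ≥ 4 n² `, `μ ≥ 1`), so
`p = 1 + r y(X0) ≤ 1 - 3 < 0`, contradiction.  So `y_μ ≥ 1`, `y(X0) ≥ (3/4) X0^μ`, and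
`p ≥ (3/4) r X0^μ ≥ X0^μ/2 = W^μ/(2 r^(2μ))`.
-/

namespace Pool.Agent.H91.CA

open Polynomial

theorem tayE_hom (G : ℤ[X]) (a b : ℤ) (hb : b ≠ 0) :
    ∃ M : ℤ, aeval ((a : ℚ) / (b : ℚ)) G * (b : ℚ) ^ G.natDegree = (M : ℚ) ∧
      a ∣ M - G.coeff 0 * b ^ G.natDegree := by
  have hbq : (b : ℚ) ≠ 0 := by exact_mod_cast hb
  refine ⟨∑ k ∈ Finset.range (G.natDegree + 1), G.coeff k * a ^ k * b ^ (G.natDegree - k), ?_, ?_⟩
  · rw [Polynomial.aeval_eq_sum_range, Finset.sum_mul]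
    push_cast
    refine Finset.sum_congr rfl fun k hk => ?_
    have hk' : k ≤ G.natDegree := Nat.lt_succ_iff.mp (Finset.mem_range.mp hk)
    have h1 : (b : ℚ) ^ G.natDegree = b ^ k * b ^ (G.natDegree - k) := by
      rw [← pow_add, Nat.add_sub_cancel' hk']
    rw [h1, div_pow]
    simp only [zsmul_eq_mul]
    field_simp
  · rw [Finset.sum_range_succ']
    simp only [pow_zero, mul_one, Nat.sub_zero, add_sub_cancel_right]
    refine Finset.dvd_sum fun k _ => ?_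
    rw [pow_succ]
    exact ⟨G.coeff (k + 1) * a ^ k * b ^ (G.natDegree - (k + 1)), by ring⟩

theorem tay_val {i r c e : ℕ} (hr : r % 2 = 1) (F : ℤ[X]) (hXe : X ^ e ∣ F)
    (hc : F.coeff e ≠ 0) (hsm : |F.coeff e| < 4 ^ i)
    (hv : aeval ((4 : ℚ) ^ i / (r : ℚ) ^ 2) F = 2 ^ c) : c < 2 * i * (e + 1) := by
  by_contra hcon
  push Not at hcon
  obtain ⟨G, rfl⟩ := hXe
  have hr0 : r ≠ 0 := by omega
  have hG : (X ^ e * G).coeff e = G.coeff 0 := by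
    have := Polynomial.coeff_X_pow_mul G e 0
    simpa using this
  rw [hG] at hc hsm
  have hb : ((r : ℤ) ^ 2) ≠ 0 := by positivity
  obtain ⟨M, hM, hdvd⟩ := tayE_hom G (4 ^ i) ((r : ℤ) ^ 2) hb
  have hrq : (r : ℚ) ≠ 0 := by exact_mod_cast hr0
  push_cast at hM
  have h1 : (4 : ℚ) ^ (i * e) * M = 2 ^ c * ((r : ℚ) ^ 2) ^ (e + G.natDegree) := by
    rw [← hM, ← hv, map_mul, map_pow, aeval_X, div_pow, pow_add, pow_mul]
    have h2 : ((r : ℚ) ^ 2) ^ e ≠ 0 := pow_ne_zero _ (pow_ne_zero _ hrq)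
    field_simp
  have h2 : (4 : ℤ) ^ (i * e) * M = 2 ^ c * ((r : ℤ) ^ 2) ^ (e + G.natDegree) := by
    exact_mod_cast h1
  have h3 : (2 : ℤ) ^ c = 4 ^ (i * e) * (4 ^ i * 2 ^ (c - 2 * i * (e + 1))) := by
    have : (4 : ℤ) = 2 ^ 2 := by norm_num
    rw [this, ← pow_mul, ← pow_mul, ← pow_add, ← pow_add]
    congr 1
    have : 2 * (i * e) + (2 * i + (c - 2 * i * (e + 1))) = c := by
      have h5 : 2 * i * (e + 1) = 2 * (i * e) + 2 * i := by ring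
      omega
    exact this.symm
  rw [h3, mul_assoc] at h2
  have h4 : (4 : ℤ) ^ (i * e) ≠ 0 := by positivity
  have h5 := mul_left_cancel₀ h4 h2
  have h6 : (4 : ℤ) ^ i ∣ M := ⟨2 ^ (c - 2 * i * (e + 1)) * ((r : ℤ) ^ 2) ^ (e + G.natDegree), by
    rw [h5]; ring⟩
  have h7 : (4 : ℤ) ^ i ∣ G.coeff 0 * ((r : ℤ) ^ 2) ^ G.natDegree := by
    have := dvd_sub h6 hdvd
    simpa using this
  have hcop : IsCoprime ((4 : ℤ) ^ i) (((r : ℤ) ^ 2) ^ G.natDegree) := by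
    apply IsCoprime.pow
    apply IsCoprime.pow_right
    have hodd : Odd r := Nat.odd_iff.mpr hr
    have h8 : Nat.Coprime 4 r := by
      have : Nat.Coprime (2 ^ 2) r := Nat.Coprime.pow_left 2 (Nat.coprime_two_left.mpr hodd)
      simpa using this
    exact Nat.isCoprime_iff_coprime.mpr h8
  have h8 : (4 : ℤ) ^ i ∣ G.coeff 0 := hcop.dvd_of_dvd_mul_right h7
  have h9 := Int.le_of_dvd (abs_pos.mpr hc) ((dvd_abs _ _).mpr h8)
  exact absurd h9 (not_le.mpr hsm)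

theorem tay_low {p i r n : ℕ} (hr1 : 1 ≤ r) (hrn : r ≤ n) (y : ℤ[X])
    (hy : nrm (1 / (64 * (n : ℝ) ^ 4)) y ≤ 1 / (4 * (n : ℝ) ^ 2)) (hμ : 1 ≤ y.natDegree)
    (hbig : 4 * (64 * n ^ 4) ^ y.natDegree < 4 ^ i)
    (hp : (p : ℚ) = 1 + r * aeval ((4 : ℚ) ^ i / (r : ℚ) ^ 2) y) :
    4 ^ (i * y.natDegree) ≤ 2 * r ^ (2 * y.natDegree) * p := by
  obtain ⟨m, hm⟩ : ∃ m, y.natDegree = m + 1 := ⟨y.natDegree - 1, by omega⟩
  have hn1 : (1 : ℝ) ≤ n := by exact_mod_cast hr1.trans hrn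
  have hr1' : (1 : ℝ) ≤ r := by exact_mod_cast hr1
  have hrn' : (r : ℝ) ≤ n := by exact_mod_cast hrn
  have hbig' : (4 : ℝ) * (64 * (n : ℝ) ^ 4) ^ y.natDegree < 4 ^ i := by exact_mod_cast hbig
  set Q : ℝ := 64 * (n : ℝ) ^ 4 with hQ
  have hn4 : (1 : ℝ) ≤ (n : ℝ) ^ 4 := one_le_pow₀ hn1
  have hn2 : (1 : ℝ) ≤ (n : ℝ) ^ 2 := one_le_pow₀ hn1
  have hQ1 : (64 : ℝ) ≤ Q := by rw [hQ]; linarith
  have hQpos : 0 < Q := by linarith
  set X0 : ℝ := (4 : ℝ) ^ i / (r : ℝ) ^ 2 with hX0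
  have hr2pos : (0 : ℝ) < (r : ℝ) ^ 2 := by positivity
  have hX0pos : 0 < X0 := by positivity
  have hX0n : (4 : ℝ) ^ i ≤ X0 * (n : ℝ) ^ 2 := by
    rw [hX0, div_mul_eq_mul_div, le_div_iff₀ hr2pos]
    have : (r : ℝ) ^ 2 ≤ (n : ℝ) ^ 2 := by gcongr
    have h4 : (0 : ℝ) ≤ (4 : ℝ) ^ i := by positivity
    nlinarith
  -- value
  have hpR : (p : ℝ) = 1 + r * aeval X0 y := by
    have h1 : ((p : ℚ) : ℝ) = ((1 + r * aeval ((4 : ℚ) ^ i / (r : ℚ) ^ 2) y : ℚ) : ℝ) := by rw [hp]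
    have h2 : ((aeval ((4 : ℚ) ^ i / (r : ℚ) ^ 2) y : ℚ) : ℝ) = aeval X0 y := by
      rw [Polynomial.aeval_eq_sum_range, Polynomial.aeval_eq_sum_range]
      push_cast
      refine Finset.sum_congr rfl fun k _ => ?_
      simp [hX0]
    rw [← h2]
    have h3 := h1
    push_cast at h3 ⊢
    exact h3
  have hval : aeval X0 y = ∑ k ∈ Finset.range (m + 1), (y.coeff k : ℝ) * X0 ^ k +
      (y.coeff (m + 1) : ℝ) * X0 ^ (m + 1) := by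
    rw [Polynomial.aeval_eq_sum_range, hm, Finset.sum_range_succ]
    simp only [zsmul_eq_mul]
  set S : ℝ := ∑ k ∈ Finset.range (m + 1), (y.coeff k : ℝ) * X0 ^ k with hS
  -- the bound for S
  have hXQ : 1 ≤ X0 * Q := by
    have h1 : (1 : ℝ) ≤ Q ^ (m + 1) := one_le_pow₀ (by linarith)
    have h2 : (4 : ℝ) ≤ X0 * (n : ℝ) ^ 2 := by
      rw [hm] at hbig'
      nlinarith
    have h3 : (n : ℝ) ^ 2 ≤ Q := by
      rw [hQ]
      have : (n : ℝ) ^ 2 ≤ (n : ℝ) ^ 4 := pow_le_pow_right₀ hn1 (by norm_num)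
      linarith
    nlinarith
  have hnrm : nrm (1 / Q) y = ∑ k ∈ Finset.range (m + 2), |(y.coeff k : ℝ)| * (1 / Q) ^ k :=
    nrm_eq_range y (by omega)
  have hSabs : |S| ≤ X0 ^ (m + 1) / 4 := by
    have h1 : |S| ≤ ∑ k ∈ Finset.range (m + 1), |(y.coeff k : ℝ)| * X0 ^ k := by
      refine (Finset.abs_sum_le_sum_abs _ _).trans (Finset.sum_le_sum fun k _ => ?_)
      rw [abs_mul, abs_of_pos (pow_pos hX0pos k)]
    have h2 : ∑ k ∈ Finset.range (m + 1), |(y.coeff k : ℝ)| * X0 ^ k ≤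
        (∑ k ∈ Finset.range (m + 1), |(y.coeff k : ℝ)| * (1 / Q) ^ k) * (X0 * Q) ^ m := by
      rw [Finset.sum_mul]
      refine Finset.sum_le_sum fun k hk => ?_
      have hk' : k ≤ m := Nat.lt_succ_iff.mp (Finset.mem_range.mp hk)
      have h3 : X0 ^ k = (1 / Q) ^ k * (X0 * Q) ^ k := by
        rw [← mul_pow]
        congr 1
        field_simp
      rw [h3, mul_assoc]
      have h4 : (X0 * Q) ^ k ≤ (X0 * Q) ^ m := pow_le_pow_right₀ hXQ hk'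
      gcongr
    have h3 : ∑ k ∈ Finset.range (m + 1), |(y.coeff k : ℝ)| * (1 / Q) ^ k ≤ 1 / (4 * (n : ℝ) ^ 2) := by
      refine le_trans ?_ hy
      rw [hnrm, Finset.sum_range_succ _ (m + 1)]
      have : 0 ≤ |(y.coeff (m + 1) : ℝ)| * (1 / Q) ^ (m + 1) := by positivity
      linarith
    have h4 : Q ^ m ≤ X0 * (n : ℝ) ^ 2 := by
      have h5 : Q ^ m ≤ Q ^ (m + 1) := pow_le_pow_right₀ (by linarith) (by omega)
      rw [hm] at hbig'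
      have h6 : 0 ≤ Q ^ m := by positivity
      linarith
    calc |S| ≤ _ := h1
      _ ≤ _ := h2
      _ ≤ 1 / (4 * (n : ℝ) ^ 2) * (X0 * Q) ^ m := by gcongr
      _ = X0 ^ m * (Q ^ m / (4 * (n : ℝ) ^ 2)) := by rw [mul_pow]; ring
      _ ≤ X0 ^ m * (X0 / 4) := by
          have h7 : Q ^ m / (4 * (n : ℝ) ^ 2) ≤ X0 / 4 := by
            rw [div_le_div_iff₀ (by positivity) (by norm_num)]
            nlinarith
          gcongr
      _ = X0 ^ (m + 1) / 4 := by ring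
  have hX4 : 4 ≤ X0 := by
    have h1 : Q ≤ Q ^ (m + 1) := by
      calc Q = Q ^ 1 := (pow_one Q).symm
        _ ≤ Q ^ (m + 1) := pow_le_pow_right₀ (by linarith) (by omega)
    rw [hm] at hbig'
    have h2 : 4 * Q ≤ X0 * (n : ℝ) ^ 2 := by linarith
    have h3 : (n : ℝ) ^ 2 ≤ Q := by
      rw [hQ]
      have : (n : ℝ) ^ 2 ≤ (n : ℝ) ^ 4 := pow_le_pow_right₀ hn1 (by norm_num)
      linarith
    have h4 : 4 * (n : ℝ) ^ 2 ≤ X0 * (n : ℝ) ^ 2 := by linarith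
    exact le_of_mul_le_mul_right h4 (by linarith)
  have hXm : 4 ≤ X0 ^ (m + 1) := by
    calc (4 : ℝ) ≤ X0 := hX4
      _ = X0 ^ 1 := (pow_one _).symm
      _ ≤ X0 ^ (m + 1) := pow_le_pow_right₀ (by linarith) (by omega)
  have hlead : y.coeff (m + 1) ≠ 0 := by
    rw [← hm]
    have : y ≠ 0 := by
      rintro rfl
      simp at hm
    exact Polynomial.leadingCoeff_ne_zero.mpr this
  have hSb := abs_le.mp hSabs
  have hp0 : (0 : ℝ) ≤ p := Nat.cast_nonneg p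
  have hpos : 1 ≤ y.coeff (m + 1) := by
    by_contra hneg
    have h1 : y.coeff (m + 1) ≤ -1 := by omega
    have h2 : (y.coeff (m + 1) : ℝ) ≤ -1 := by exact_mod_cast h1
    have h3 : (y.coeff (m + 1) : ℝ) * X0 ^ (m + 1) ≤ - X0 ^ (m + 1) := by nlinarith
    have h4 : aeval X0 y ≤ -3 := by rw [hval]; linarith
    have h5 : (r : ℝ) * aeval X0 y ≤ -3 := by nlinarith
    linarith
  have hpos' : (1 : ℝ) ≤ (y.coeff (m + 1) : ℝ) := by exact_mod_cast hpos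
  have h3 : X0 ^ (m + 1) ≤ (y.coeff (m + 1) : ℝ) * X0 ^ (m + 1) := by nlinarith
  have h4 : X0 ^ (m + 1) * (3 / 4) ≤ aeval X0 y := by rw [hval]; linarith
  have h5 : X0 ^ (m + 1) * (3 / 4) ≤ r * aeval X0 y := by nlinarith
  have h6 : X0 ^ (m + 1) ≤ 2 * p := by linarith
  have h7 : (4 : ℝ) ^ (i * (m + 1)) ≤ 2 * (r : ℝ) ^ (2 * (m + 1)) * p := by
    have h8 : X0 ^ (m + 1) * (r : ℝ) ^ (2 * (m + 1)) = (4 : ℝ) ^ (i * (m + 1)) := by
      rw [hX0, div_pow, ← pow_mul, ← pow_mul]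
      field_simp
    rw [← h8]
    have h9 : (0 : ℝ) < (r : ℝ) ^ (2 * (m + 1)) := by positivity
    nlinarith
  rw [hm]
  exact_mod_cast h7

end Pool.Agent.H91.CA
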