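import Pool.Agent.H91.CA.TayA
import Pool.Agent.H91.CA.TayC
import Pool.Agent.H91.CA.TayD
import Pool.Agent.H91.CA.TayE

/-!
JOB CA-22 (the contradiction from the Taylor expansion, about 100-150 lines; uses the stubs `tay_series`,
`nrm_F`, `coeff_le_nrm`, `order_bound`, `tay_exact`, `two_mul_two_pow`, `tay_val`, `tay_low`).

`W = 4^i`, `M0 = 64 n^4`, so `4 M0^((2j+1)m) < W`; `m ≥ 2` (as `W < p ≤ W^m`).
Take `y` from `tay_series` for this `m`; `tay_exact` (note `M0^m ≤ M0^((2j+1)m)`), divided by `r^(2m)`, says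
`p = 1 + r y(X0)` in `ℚ`, `X0 = W/r²`.  Put `Y = 1 + C r * y`, `F = (Y^(2j) + C r² * X)^z - Y^d`; then
`aeval X0 F = (p^(2j) + W)^z - p^d = 2^c`, so `F ≠ 0`.  `y` is not constant (`y(0) = 0`, `p ≠ 1`), so
`μ = natDegree y ≥ 1`, `natDegree Y = μ ≤ m`, `Y.coeff 0 = 1`.  Let `e = natTrailingDegree F`:
`X^e ∣ F`, `coeff e ≠ 0`.  `order_bound`: `e ≤ (2j+1) μ ≤ (2j+1) m`.  `nrm_F`, `coeff_le_nrm`:
`|coeff e| ≤ 3 M0^e ≤ 3 M0^((2j+1)m) < W`.  `tay_val`: `c < 2i(e+1)`, so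
`2^c < W^(e+1) ≤ W^((2j+1)μ+1)`.  `tay_low`: `W^μ ≤ 2 r^(2μ) p`.  With `p^n ≤ 2 * 2^c`:
`W^(μ n) ≤ (2 r^(2μ))^n p^n ≤ (2 r^(2μ))^n * 2 * 2^c < 2 (2 r^(2μ))^n W^((2j+1)μ+1)`.
Let `a = μ n - (2j+1) μ - 1 ≥ 0`; so `W^a < 2 (2 r^(2μ))^n`, and cubing `W^(3a) < 8 * 8^n * r^(6μn)`.
`3a ≥ μ n` because `μ(2n - 6j - 3) ≥ 3` (`n = 2jz ≥ 6j`, `j, μ ≥ 1`).  And `W ≥ 100 r^6`
(`W > 4 M0^6 ≥ 100 n^6`), so `W^(3a) ≥ W^(μn) ≥ 100^(μ n) r^(6μn) ≥ 8 * 8^n r^(6μn)`: contradiction.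
-/

namespace Pool.Agent.H91.CA

open Polynomial

private theorem TayF_num {W r n μ j z e c p : ℕ} (hj : 1 ≤ j) (hz : 3 ≤ z) (hn : n = 2 * j * z)
    (hμ : 1 ≤ μ) (he : e ≤ (2 * j + 1) * μ) (hW : 100 * r ^ 6 ≤ W) (hW1 : 1 ≤ W) (hr1 : 1 ≤ r)
    (hlow : W ^ μ ≤ 2 * r ^ (2 * μ) * p) (hpn : p ^ n ≤ 2 * 2 ^ c) (hc : 2 ^ c < W ^ (e + 1)) :
    False := by
  have hn1 : 1 ≤ n := by
    rw [hn]
    nlinarith
  have h1 : W ^ (μ * n) < 2 * (2 * r ^ (2 * μ)) ^ n * W ^ ((2 * j + 1) * μ + 1) := by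
    calc W ^ (μ * n) = (W ^ μ) ^ n := by rw [pow_mul]
      _ ≤ (2 * r ^ (2 * μ) * p) ^ n := Nat.pow_le_pow_left hlow n
      _ = (2 * r ^ (2 * μ)) ^ n * p ^ n := mul_pow _ _ _
      _ ≤ (2 * r ^ (2 * μ)) ^ n * (2 * 2 ^ c) := Nat.mul_le_mul_left _ hpn
      _ < (2 * r ^ (2 * μ)) ^ n * (2 * W ^ (e + 1)) := by
          refine Nat.mul_lt_mul_of_pos_left ?_ (by positivity)
          omega
      _ ≤ (2 * r ^ (2 * μ)) ^ n * (2 * W ^ ((2 * j + 1) * μ + 1)) := by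
          refine Nat.mul_le_mul_left _ (Nat.mul_le_mul_left _ ?_)
          exact Nat.pow_le_pow_right hW1 (by omega)
      _ = 2 * (2 * r ^ (2 * μ)) ^ n * W ^ ((2 * j + 1) * μ + 1) := by ring
  have hE : 3 * ((2 * j + 1) * μ + 1) ≤ 2 * (μ * n) := by
    have h2 : 6 * (j * μ) ≤ μ * n := by
      rw [hn]
      nlinarith [Nat.mul_le_mul_left (2 * (j * μ)) hz]
    have h3 : μ ≤ j * μ := Nat.le_mul_of_pos_left _ (by omega)
    nlinarith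
  have h8 : (2 * (2 * r ^ (2 * μ)) ^ n * W ^ ((2 * j + 1) * μ + 1)) ^ 3 =
      8 * 8 ^ n * r ^ (6 * (μ * n)) * W ^ (3 * ((2 * j + 1) * μ + 1)) := by
    have h9 : ((2 * r ^ (2 * μ)) ^ n) ^ 3 = 8 ^ n * r ^ (6 * (μ * n)) := by
      have h10 : (2 * r ^ (2 * μ)) ^ 3 = 8 * r ^ (6 * μ) := by
        rw [mul_pow, ← pow_mul]
        congr 2
        ring
      rw [pow_right_comm, h10, mul_pow, ← pow_mul, mul_assoc]
    rw [mul_pow, mul_pow, h9, ← pow_mul, mul_comm _ 3]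
    ring
  have h3 : W ^ (μ * n) * W ^ (2 * (μ * n)) <
      8 * 8 ^ n * r ^ (6 * (μ * n)) * W ^ (2 * (μ * n)) := by
    calc W ^ (μ * n) * W ^ (2 * (μ * n)) = (W ^ (μ * n)) ^ 3 := by ring
      _ < (2 * (2 * r ^ (2 * μ)) ^ n * W ^ ((2 * j + 1) * μ + 1)) ^ 3 :=
          Nat.pow_lt_pow_left h1 (by norm_num)
      _ = 8 * 8 ^ n * r ^ (6 * (μ * n)) * W ^ (3 * ((2 * j + 1) * μ + 1)) := h8
      _ ≤ 8 * 8 ^ n * r ^ (6 * (μ * n)) * W ^ (2 * (μ * n)) :=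
          Nat.mul_le_mul_left _ (Nat.pow_le_pow_right hW1 hE)
  have h4 : W ^ (μ * n) < 8 * 8 ^ n * r ^ (6 * (μ * n)) := lt_of_mul_lt_mul_right' h3
  have h5 : 8 * 8 ^ n * r ^ (6 * (μ * n)) ≤ W ^ (μ * n) := by
    calc 8 * 8 ^ n * r ^ (6 * (μ * n)) ≤ 8 ^ n * 8 ^ n * r ^ (6 * (μ * n)) := by
          refine Nat.mul_le_mul_right _ (Nat.mul_le_mul_right _ ?_)
          calc 8 = 8 ^ 1 := (pow_one 8).symm
            _ ≤ 8 ^ n := Nat.pow_le_pow_right (by norm_num) hn1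
      _ = 64 ^ n * r ^ (6 * (μ * n)) := by
          rw [← mul_pow]
          norm_num
      _ ≤ 100 ^ n * r ^ (6 * (μ * n)) :=
          Nat.mul_le_mul_right _ (Nat.pow_le_pow_left (by norm_num) n)
      _ ≤ 100 ^ (μ * n) * r ^ (6 * (μ * n)) := by
          refine Nat.mul_le_mul_right _ (Nat.pow_le_pow_right (by norm_num) ?_)
          exact Nat.le_mul_of_pos_left _ (by omega)
      _ = (100 * r ^ 6) ^ (μ * n) := by
          rw [mul_pow, ← pow_mul]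
      _ ≤ W ^ (μ * n) := Nat.pow_le_pow_left hW _
  omega

private theorem TayF_val {i r m p : ℕ} (hr1 : 1 ≤ r) (y : ℤ[X]) (hdeg : y.natDegree ≤ m)
    (h : (r : ℤ) ^ (2 * m) * p = (r : ℤ) ^ (2 * m) +
      r * ∑ k ∈ Finset.range (m + 1), y.coeff k * 4 ^ (i * k) * (r : ℤ) ^ (2 * (m - k))) :
    (p : ℚ) = 1 + r * aeval ((4 : ℚ) ^ i / (r : ℚ) ^ 2) y := by
  have hr0 : (r : ℚ) ≠ 0 := by
    have : r ≠ 0 := by omega
    exact_mod_cast this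
  have hq : (r : ℚ) ^ (2 * m) * p = (r : ℚ) ^ (2 * m) +
      r * ∑ k ∈ Finset.range (m + 1), (y.coeff k : ℚ) * 4 ^ (i * k) * (r : ℚ) ^ (2 * (m - k)) := by
    exact_mod_cast h
  have hs : ∑ k ∈ Finset.range (m + 1), (y.coeff k : ℚ) * 4 ^ (i * k) * (r : ℚ) ^ (2 * (m - k)) =
      (r : ℚ) ^ (2 * m) * aeval ((4 : ℚ) ^ i / (r : ℚ) ^ 2) y := by
    rw [Polynomial.aeval_eq_sum_range' (Nat.lt_succ_of_le hdeg), Finset.mul_sum]
    refine Finset.sum_congr rfl fun k hk => ?_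
    have hk' : k ≤ m := Nat.lt_succ_iff.mp (Finset.mem_range.mp hk)
    have h1 : (r : ℚ) ^ (2 * m) = (r : ℚ) ^ (2 * (m - k)) * ((r : ℚ) ^ 2) ^ k := by
      rw [← pow_mul, ← pow_add]
      congr 1
      omega
    rw [h1, div_pow, ← pow_mul (4 : ℚ), zsmul_eq_mul]
    have h2 : ((r : ℚ) ^ 2) ^ k ≠ 0 := pow_ne_zero _ (pow_ne_zero _ hr0)
    field_simp
  rw [hs] at hq
  have h3 : (r : ℚ) ^ (2 * m) ≠ 0 := pow_ne_zero _ hr0
  have h4 : (r : ℚ) ^ (2 * m) * p =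
      (r : ℚ) ^ (2 * m) * (1 + r * aeval ((4 : ℚ) ^ i / (r : ℚ) ^ 2) y) := by
    rw [hq]
    ring
  exact mul_left_cancel₀ h3 h4

theorem tay_final {p q i j z d r c n m : ℕ} (hi : 1 ≤ i) (hj : 1 ≤ j) (hz : 3 ≤ z)
    (hn : n = 2 * j * z) (hr : d + r = n) (hr1 : 1 ≤ r) (hd : d % 2 = 1) (hp : p % 2 = 1)
    (hq : q = 4 ^ i + p ^ (2 * j)) (h : 2 ^ c + p ^ d = q ^ z) (hlt : 4 ^ i < p)
    (hm1 : 4 ^ (i * (m - 1)) < p) (hm2 : p ≤ 4 ^ (i * m))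
    (hbig : 4 * (64 * n ^ 4) ^ ((2 * j + 1) * m) < 4 ^ i) : False := by
  have hm : 2 ≤ m := by
    by_contra hm
    have h1 : i * m ≤ i := by
      calc i * m ≤ i * 1 := Nat.mul_le_mul_left _ (by omega)
        _ = i := mul_one i
    have h2 : 4 ^ (i * m) ≤ 4 ^ i := Nat.pow_le_pow_right (by norm_num) h1
    omega
  have hn6 : 6 ≤ n := by
    rw [hn]
    nlinarith
  have hQ1 : 1 ≤ 64 * n ^ 4 := by
    have : 1 ≤ n ^ 4 := Nat.one_le_pow _ _ (by omega)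
    omega
  have hJm : m ≤ (2 * j + 1) * m := Nat.le_mul_of_pos_left _ (by omega)
  have hbigm : ∀ k, k ≤ m → 4 * (64 * n ^ 4) ^ k < 4 ^ i := fun k hk =>
    lt_of_le_of_lt (Nat.mul_le_mul_left 4 (Nat.pow_le_pow_right hQ1 (hk.trans hJm))) hbig
  obtain ⟨y, hdeg, hy0, hX, hy⟩ := tay_series hj (by omega : 1 ≤ z) hn hr hr1 m
  have hex := tay_exact hi hj hz hn hr hr1 hd hp hq h hlt hm1 hm2 (hbigm m le_rfl) y hdeg hy0 hX hy
  have hval := TayF_val hr1 y hdeg hex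
  have hF3 := nrm_F hj (by omega : 1 ≤ z) hn hr hr1 y hy
  set F : ℤ[X] := ((1 + C (r : ℤ) * y) ^ (2 * j) + C ((r : ℤ) ^ 2) * X) ^ z -
    (1 + C (r : ℤ) * y) ^ d with hFdef
  have hr0 : (r : ℚ) ≠ 0 := by
    have : r ≠ 0 := by omega
    exact_mod_cast this
  have haF : aeval ((4 : ℚ) ^ i / (r : ℚ) ^ 2) F = 2 ^ c := by
    have h1 : aeval ((4 : ℚ) ^ i / (r : ℚ) ^ 2) (1 + C (r : ℤ) * y) = (p : ℚ) := by
      rw [hval, map_add, map_one, map_mul, aeval_C]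
      simp
    have h2 : aeval ((4 : ℚ) ^ i / (r : ℚ) ^ 2) (C ((r : ℤ) ^ 2) * X : ℤ[X]) = (4 : ℚ) ^ i := by
      rw [map_mul, aeval_C, aeval_X]
      simp
      field_simp
    rw [hFdef, map_sub, map_pow, map_add, map_pow, h1, h2, map_pow, h1]
    have h3 : (2 : ℚ) ^ c + (p : ℚ) ^ d = (4 ^ i + (p : ℚ) ^ (2 * j)) ^ z := by
      rw [hq] at h
      exact_mod_cast h
    rw [add_comm ((p : ℚ) ^ (2 * j)), ← h3]
    ring
  have hF0 : F ≠ 0 := by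
    intro h0
    rw [h0, map_zero] at haF
    exact absurd haF.symm (by positivity)
  have h4i : 4 ≤ 4 ^ i := by
    calc 4 = 4 ^ 1 := (pow_one 4).symm
      _ ≤ 4 ^ i := Nat.pow_le_pow_right (by norm_num) hi
  have hμ : 1 ≤ y.natDegree := by
    by_contra hμ
    have h1 : y.natDegree = 0 := by omega
    have h2 : y = 0 := by
      rw [Polynomial.eq_C_of_natDegree_eq_zero h1, hy0, C_0]
    rw [h2, map_zero, mul_zero, add_zero] at hval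
    have h3 : p = 1 := by exact_mod_cast hval
    omega
  have hrz : (r : ℤ) ≠ 0 := by
    have : r ≠ 0 := by omega
    exact_mod_cast this
  have hCd : (C (r : ℤ) * y).natDegree = y.natDegree := Polynomial.natDegree_C_mul hrz
  have hYd : (1 + C (r : ℤ) * y).natDegree = y.natDegree := by
    rw [Polynomial.natDegree_add_eq_right_of_natDegree_lt, hCd]
    rw [Polynomial.natDegree_one, hCd]
    omega
  have hY0 : (1 + C (r : ℤ) * y).coeff 0 = 1 := by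
    rw [coeff_add, coeff_C_mul, hy0, mul_zero, add_zero, coeff_one_zero]
  have hXe : X ^ F.natTrailingDegree ∣ F :=
    Polynomial.X_pow_dvd_iff.2 fun k hk => Polynomial.coeff_eq_zero_of_lt_natTrailingDegree hk
  have hFe : F.coeff F.natTrailingDegree ≠ 0 := Polynomial.trailingCoeff_nonzero_iff_nonzero.2 hF0
  have he := order_bound hj (by omega : 1 ≤ z) (by omega : 1 ≤ d) (1 + C (r : ℤ) * y) hY0
    (by rw [hYd]; exact hμ) hF0 hXe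
  rw [hYd] at he
  set e := F.natTrailingDegree with hedef
  have hem : e ≤ (2 * j + 1) * m := he.trans (Nat.mul_le_mul_left _ hdeg)
  have hnR : (0 : ℝ) < n := by
    have : 0 < n := by omega
    exact_mod_cast this
  have hsm : |F.coeff e| < 4 ^ i := by
    have h1 := (coeff_le_nrm (by positivity : (0 : ℝ) ≤ 1 / (64 * (n : ℝ) ^ 4)) F e).trans hF3
    have h2 : |(F.coeff e : ℝ)| ≤ 3 * (64 * (n : ℝ) ^ 4) ^ e := by
      rw [div_pow, one_pow, mul_one_div, div_le_iff₀ (by positivity)] at h1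
      exact h1
    have h3 : (64 * (n : ℝ) ^ 4) ^ e ≤ (64 * (n : ℝ) ^ 4) ^ ((2 * j + 1) * m) := by
      refine pow_le_pow_right₀ ?_ hem
      exact_mod_cast hQ1
    have h4 : (4 : ℝ) * (64 * (n : ℝ) ^ 4) ^ ((2 * j + 1) * m) < 4 ^ i := by exact_mod_cast hbig
    have h5 : (0 : ℝ) < (64 * (n : ℝ) ^ 4) ^ ((2 * j + 1) * m) := by positivity
    have h6 : |(F.coeff e : ℝ)| < 4 ^ i := by linarith
    exact_mod_cast h6
  have hrodd : r % 2 = 1 := by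
    have h1 : n % 2 = 0 := by
      rw [hn, mul_assoc]
      exact Nat.mul_mod_right 2 _
    omega
  have hcv := tay_val hrodd F hXe hFe hsm haF
  have hlow := tay_low hr1 (by omega : r ≤ n) y hy hμ (hbigm _ hdeg) hval
  have hpn := (two_mul_two_pow (by omega : 2 ≤ p) hn hr hr1 hq h).2
  have hW : 100 * r ^ 6 ≤ 4 ^ i := by
    have h1 : 6 ≤ (2 * j + 1) * m := by nlinarith
    have h2 : (64 * n ^ 4) ^ 6 ≤ (64 * n ^ 4) ^ ((2 * j + 1) * m) := Nat.pow_le_pow_right hQ1 h1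
    have h3 : r ^ 6 ≤ n ^ 6 := Nat.pow_le_pow_left (by omega) 6
    have h4 : n ^ 6 ≤ n ^ 24 := Nat.pow_le_pow_right (by omega) (by norm_num)
    have h5 : (64 * n ^ 4) ^ 6 = 64 ^ 6 * n ^ 24 := by ring
    have h6 : 100 * n ^ 24 ≤ 64 ^ 6 * n ^ 24 := Nat.mul_le_mul_right _ (by norm_num)
    omega
  refine TayF_num (W := 4 ^ i) (p := p) (c := c) hj hz hn hμ he hW (by omega) hr1 ?_ hpn ?_
  · rw [← pow_mul]
    exact hlow
  · calc 2 ^ c < 2 ^ (2 * i * (e + 1)) := Nat.pow_lt_pow_right (by norm_num) hcv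
      _ = (4 ^ i) ^ (e + 1) := by
          rw [← pow_mul, show (4 : ℕ) = 2 ^ 2 by norm_num, ← pow_mul]
          congr 1
          ring

end Pool.Agent.H91.CA
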