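import Pool.Agent.H91.CA.Lfl2
import Pool.Agent.H91.CA.Asy

/-!
JOB CA-24 (bound for `z`, about 100-150 lines; uses the stubs `lfl_arch`, `lfl_two`, `L_cond`).

`t = log q ≥ 200`, `x = z t ≥ 200 > exp 5`.  `E = F = ⌈t⌉₊ ≤ 2 t`, `B = max z d`.  `p ≥ 5` (`p % 4 = 1`, `p ≥ 2`),
so `log p ≥ 1`, and `p^d < q^z` gives `d ≤ d log p ≤ z t`; `B ≤ z t`, `E F B ≤ 4 t² * z t ≤ x^9`.
`L = ⌈100 log x⌉₊ ≤ 101 log x` and `hL` hold by `L_cond`.  Let `S = 2500 L² E F` (so `5000 L² E F = 2 S`),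
`S ≤ 10^4 (101 log x)² t² =: S'`, `S ≥ 2`.  `lfl_two`: `c ≤ S²`.
If `p^d ≤ 2^c`: `q^z ≤ 2^(c+1)`, `z t ≤ (c+1) log 2 ≤ S² + 1 ≤ 3 S'²`.
If `2^c < p^d`: `z log q - d log p = log (q^z/p^d) = log (1 + 2^c/p^d)` is between `0` and `2^c/p^d`, so
`lfl_arch` (`a = q`, `b = p`, `u = z`, `v = d`) gives `exp(-2S) ≤ 2^c/p^d`, `d log p ≤ c log 2 + 2 S ≤ S² + 2S`;
`q^z ≤ 2 p^d`, so `z t ≤ 1 + S² + 2S ≤ 3 S² ≤ 3 S'²`.
-/

namespace Pool.Agent.H91.CA

theorem ZLe_exp5 : Real.exp 5 ≤ 200 := by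
  have h1 : Real.exp 5 = Real.exp 1 ^ 5 := by
    rw [← Real.exp_nat_mul]
    norm_num
  have h2 : Real.exp 1 < 2.7182818286 := Real.exp_one_lt_d9
  have h3 : (0 : ℝ) < Real.exp 1 := Real.exp_pos 1
  rw [h1]
  calc Real.exp 1 ^ 5 ≤ (2.72 : ℝ) ^ 5 := pow_le_pow_left₀ h3.le (by linarith) 5
    _ ≤ 200 := by norm_num

theorem ZLe_arch {p q z d c : ℕ} {S : ℝ} (hp : 0 < p) (hq : 0 < q)
    (h : 2 ^ c + p ^ d = q ^ z) (hlt : 2 ^ c < p ^ d)
    (hS : Real.exp (-(2 * S)) ≤ |(z : ℝ) * Real.log q - d * Real.log p|) :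
    z * Real.log q ≤ Real.log 2 + (c * Real.log 2 + 2 * S) := by
  have hp0 : (0 : ℝ) < p := by exact_mod_cast hp
  have hq0 : (0 : ℝ) < q := by exact_mod_cast hq
  have hpd : (0 : ℝ) < (p : ℝ) ^ d := by positivity
  have hqz : (0 : ℝ) < (q : ℝ) ^ z := by positivity
  have h2c : (0 : ℝ) < (2 : ℝ) ^ c := by positivity
  have hr : (2 : ℝ) ^ c + (p : ℝ) ^ d = (q : ℝ) ^ z := by exact_mod_cast h
  have hltr : (2 : ℝ) ^ c < (p : ℝ) ^ d := by exact_mod_cast hlt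
  have e1 : (z : ℝ) * Real.log q = Real.log ((q : ℝ) ^ z) := by rw [Real.log_pow]
  have e2 : (d : ℝ) * Real.log p = Real.log ((p : ℝ) ^ d) := by rw [Real.log_pow]
  have e3 : (z : ℝ) * Real.log q - d * Real.log p = Real.log ((q : ℝ) ^ z / (p : ℝ) ^ d) := by
    rw [Real.log_div hqz.ne' hpd.ne', e1, e2]
  have h3 : (q : ℝ) ^ z / (p : ℝ) ^ d = 1 + (2 : ℝ) ^ c / (p : ℝ) ^ d := by
    rw [← hr]
    field_simp
    ring
  have h4 : 0 < (2 : ℝ) ^ c / (p : ℝ) ^ d := by positivity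
  have h5 : |(z : ℝ) * Real.log q - d * Real.log p| ≤ (2 : ℝ) ^ c / (p : ℝ) ^ d := by
    rw [e3, h3, abs_of_nonneg (Real.log_nonneg (by linarith))]
    have := Real.log_le_sub_one_of_pos (show (0 : ℝ) < 1 + (2 : ℝ) ^ c / (p : ℝ) ^ d by linarith)
    linarith
  have h6 : -(2 * S) ≤ c * Real.log 2 - d * Real.log p := by
    have h7 : -(2 * S) ≤ Real.log ((2 : ℝ) ^ c / (p : ℝ) ^ d) := by
      rw [Real.le_log_iff_exp_le h4]
      exact hS.trans h5
    rw [Real.log_div h2c.ne' hpd.ne', Real.log_pow, Real.log_pow] at h7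
    exact h7
  have h8 : (z : ℝ) * Real.log q ≤ Real.log 2 + d * Real.log p := by
    rw [e1, e2, ← Real.log_mul (by norm_num) hpd.ne']
    apply Real.log_le_log hqz
    linarith
  linarith

theorem z_le_core {p q z d c : ℕ} (hp : 2 ≤ p) (hpq : p < q) (hcop : q.Coprime p)
    (hq4 : q % 4 = 1) (hp4 : p % 4 = 1) (hd : d % 2 = 1) (hzd : z.Coprime d) (hz : 1 ≤ z)
    (h : 2 ^ c + p ^ d = q ^ z) (hlam : 200 ≤ Real.log q) :
    z * Real.log q ≤
      3 * (10 ^ 4 * (101 * Real.log (z * Real.log q)) ^ 2 * (Real.log q) ^ 2) ^ 2 := by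
  have hp0 : (0 : ℝ) < p := by
    have : 0 < p := by omega
    exact_mod_cast this
  have hq0 : (0 : ℝ) < q := by
    have : 0 < q := by omega
    exact_mod_cast this
  set t := Real.log q with ht
  have hz' : (1 : ℝ) ≤ z := by exact_mod_cast hz
  set x := (z : ℝ) * t with hx
  have htx : t ≤ x := by
    rw [hx]
    nlinarith
  have hx200 : 200 ≤ x := by linarith
  have hlogx : 5 ≤ Real.log x := by
    rw [Real.le_log_iff_exp_le (by linarith)]
    exact le_trans ZLe_exp5 hx200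
  set E := ⌈t⌉₊ with hE
  have hEt : t ≤ E := Nat.le_ceil t
  have hEt2 : (E : ℝ) ≤ 2 * t := by
    have := (Nat.ceil_lt_add_one (by linarith : (0 : ℝ) ≤ t)).le
    linarith
  have hE1 : 1 ≤ E := by
    have : (1 : ℝ) ≤ E := by linarith
    exact_mod_cast this
  have hd1 : 1 ≤ d := by omega
  have hp5 : 5 ≤ p := by omega
  have hlogp : 1 ≤ Real.log p := by
    rw [Real.le_log_iff_exp_le hp0]
    have h1 := Real.exp_one_lt_d9
    have h2 : (5 : ℝ) ≤ p := by exact_mod_cast hp5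
    linarith
  have hlogpq : Real.log p ≤ t := Real.log_le_log hp0 (by exact_mod_cast hpq.le)
  have hdx : (d : ℝ) ≤ x := by
    have h1 : (p : ℝ) ^ d ≤ (q : ℝ) ^ z := by
      have : p ^ d ≤ q ^ z := by
        rw [← h]
        exact Nat.le_add_left _ _
      exact_mod_cast this
    have h2 := Real.log_le_log (by positivity) h1
    rw [Real.log_pow, Real.log_pow] at h2
    have h3 : (d : ℝ) ≤ d * Real.log p := by
      have : (0 : ℝ) ≤ d := Nat.cast_nonneg d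
      nlinarith
    linarith
  have hzx : (z : ℝ) ≤ x := by
    rw [hx]
    nlinarith
  set B := max z d with hB
  have hBx : (B : ℝ) ≤ x := by
    rw [hB, Nat.cast_max]
    exact max_le hzx hdx
  have hB1 : 1 ≤ B := le_trans hz (le_max_left _ _)
  have hEFB : (E : ℝ) * E * B ≤ x ^ 9 := by
    have hE0 : (0 : ℝ) ≤ E := Nat.cast_nonneg _
    have h1 : (E : ℝ) * E ≤ (2 * x) * (2 * x) :=
      mul_le_mul (by linarith) (by linarith) hE0 (by linarith)
    have h2 : (E : ℝ) * E * B ≤ (2 * x) * (2 * x) * x :=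
      mul_le_mul h1 hBx (Nat.cast_nonneg _) (by nlinarith)
    have h3 : (4 : ℝ) ≤ x ^ 6 := by
      calc (4 : ℝ) ≤ 200 ^ 6 := by norm_num
        _ ≤ x ^ 6 := pow_le_pow_left₀ (by norm_num) hx200 6
    have h4 : (0 : ℝ) ≤ x ^ 3 := by positivity
    calc (E : ℝ) * E * B ≤ (2 * x) * (2 * x) * x := h2
      _ = 4 * x ^ 3 := by ring
      _ ≤ x ^ 6 * x ^ 3 := mul_le_mul_of_nonneg_right h3 h4
      _ = x ^ 9 := by ring
  obtain ⟨hL, hL101⟩ := L_cond hlogx (by linarith) hE1 hE1 hB1 hEFB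
  set L := ⌈100 * Real.log x⌉₊ with hLdef
  have hL500 : (500 : ℝ) ≤ L := by
    have := Nat.le_ceil (100 * Real.log x)
    linarith
  have hE1' : (1 : ℝ) ≤ E := by exact_mod_cast hE1
  set S := 2500 * (L : ℝ) ^ 2 * E * E with hS
  have hS2 : 2 ≤ S := by
    rw [hS]
    have h1 : (1 : ℝ) ≤ (L : ℝ) ^ 2 := by nlinarith
    have h2 : (1 : ℝ) ≤ (E : ℝ) * E := by nlinarith
    have h3 : 2500 * (L : ℝ) ^ 2 * E * E = 2500 * ((L : ℝ) ^ 2 * (E * E)) := by ring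
    rw [h3]
    nlinarith
  have hSS : S ≤ 10 ^ 4 * (101 * Real.log x) ^ 2 * t ^ 2 := by
    rw [hS]
    have hE0 : (0 : ℝ) ≤ E := Nat.cast_nonneg _
    have h1 : (L : ℝ) ^ 2 ≤ (101 * Real.log x) ^ 2 := pow_le_pow_left₀ (by linarith) hL101 2
    have h2 : (E : ℝ) * E ≤ 4 * t ^ 2 := by nlinarith
    calc 2500 * (L : ℝ) ^ 2 * E * E = 2500 * ((L : ℝ) ^ 2 * (E * E)) := by ring
      _ ≤ 2500 * ((101 * Real.log x) ^ 2 * (4 * t ^ 2)) := by
          apply mul_le_mul_of_nonneg_left _ (by norm_num)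
          exact mul_le_mul h1 h2 (by positivity) (by positivity)
      _ = 10 ^ 4 * (101 * Real.log x) ^ 2 * t ^ 2 := by ring
  have hSS2 : S ^ 2 ≤ (10 ^ 4 * (101 * Real.log x) ^ 2 * t ^ 2) ^ 2 :=
    pow_le_pow_left₀ (by linarith) hSS 2
  have hc := lfl_two hcop hq4 hp4 (by omega) hp hd hzd hz (le_max_left z d) (le_max_right z d) h
    hEt (hlogpq.trans hEt) hE1 hE1 hL
  have hlog2 : Real.log 2 ≤ 1 := by
    have := Real.log_two_lt_d9
    linarith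
  have hlog20 : 0 ≤ Real.log 2 := Real.log_nonneg (by norm_num)
  have hc2 : (c : ℝ) * Real.log 2 ≤ S ^ 2 := by
    have h1 : (0 : ℝ) ≤ c := Nat.cast_nonneg c
    calc (c : ℝ) * Real.log 2 ≤ c * 1 := mul_le_mul_of_nonneg_left hlog2 h1
      _ = c := mul_one _
      _ ≤ S ^ 2 := hc
  rcases le_or_gt (p ^ d) (2 ^ c) with hle | hlt
  · have h1 : (q : ℝ) ^ z ≤ 2 ^ (c + 1) := by
      have : q ^ z ≤ 2 ^ (c + 1) := by
        rw [← h, pow_succ]
        omega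
      exact_mod_cast this
    have h2 := Real.log_le_log (by positivity) h1
    rw [Real.log_pow, Real.log_pow] at h2
    push_cast at h2
    nlinarith
  · have h1 := lfl_arch hcop (by omega) hp hz hd1 (le_max_left z d) (le_max_right z d)
      hEt (hlogpq.trans hEt) hE1 hE1 hL
    have h2 : 5000 * (L : ℝ) ^ 2 * E * E = 2 * S := by
      rw [hS]
      ring
    rw [h2] at h1
    have h3 := ZLe_arch (by omega) (by omega) h hlt h1
    nlinarith

end Pool.Agent.H91.CA
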