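import Pool.Agent.H91.CA.Tri
import Pool.Agent.H91.CA.Inf
import Pool.Agent.H91.CA.TayF
import Pool.Agent.H91.CA.ZLe
import Pool.Agent.H91.CA.RLe
import Pool.Agent.H91.CA.CaseN

/-! Assembly (helper91). -/

namespace Pool.Agent.H91.CA

theorem core : ∃ T : ℝ, ∀ p q i j c d z : ℕ, p.Prime → q.Prime → p % 24 = 1 → 1 ≤ i → 1 ≤ j →
    q = 4 ^ i + p ^ (2 * j) → c % 2 = 0 → 0 < c → d % 2 = 1 → z % 2 = 1 →
    2 ^ c + p ^ d = q ^ z → T ≤ Real.log q →
    (p : ℝ) ^ (2 * j) < 4 ^ i * (Real.log (Real.log q)) ^ 3 := by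
  obtain ⟨T, hT⟩ := asym
  refine ⟨T, fun p q i j c d z hp hq h24 hi hj hqe hc hc0 hd hz h hlarge => ?_⟩
  obtain ⟨hlog, h200, hexp, hfin, hzb⟩ := hT _ hlarge
  set t := Real.log q with ht
  have hll : (5 : ℝ) ≤ Real.log t := le_trans (by norm_num) hlog
  have hp25 : 25 ≤ p := by
    rcases Nat.lt_or_ge p 25 with hlt | hge
    · have : p = 1 := by omega
      exact absurd (this ▸ hp) (by norm_num)
    · exact hge
  have hp2 : 2 ≤ p := hp.two_le
  have hpq : p < q := by
    have h1 : p ^ 1 ≤ p ^ (2 * j) := Nat.pow_le_pow_right (by omega) (by omega)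
    have h2 : 0 < 4 ^ i := by positivity
    rw [pow_one] at h1
    omega
  have hcop : q.Coprime p := (Nat.coprime_primes hq hp).2 (by omega)
  have hq4 : q % 4 = 1 := by
    have h1 : p ^ (2 * j) % 4 = 1 := by
      rw [Nat.pow_mod, show p % 4 = 1 by omega]; simp
    have h2 : 4 ^ i % 4 = 0 := by
      obtain ⟨k, rfl⟩ : ∃ k, i = k + 1 := ⟨i - 1, by omega⟩
      rw [pow_succ]; omega
    omega
  have hzd : z.Coprime d := cop_zd (by omega) (by omega) hp2 (by omega) hz (by omega) h
  have hz1 : 1 ≤ z := by omega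
  have hzt : (z : ℝ) ≤ t ^ 4 :=
    hzb z (by exact_mod_cast hz1) (z_le_core hp2 hpq hcop hq4 (by omega) hd hzd hz1 h h200)
  have hte : t = Real.log ((4 : ℝ) ^ i + (p : ℝ) ^ (2 * j)) := by
    rw [ht, hqe]; push_cast; rfl
  rcases tri hp (by omega) hi hj hqe hd hz h with ⟨hi2, hdiv, hic⟩ | ⟨hdiv, hdl⟩
  · -- case alpha: contradiction
    exfalso
    have h4p : 4 ^ i < p := by
      have := Nat.le_of_dvd (by omega) hdiv
      omega
    have hp97 : 97 ≤ p := by
      have h16 : 16 ∣ p - 1 := by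
        refine dvd_trans ?_ hdiv
        exact (by norm_num : (16 : ℕ) = 4 ^ 2) ▸ pow_dvd_pow 4 hi2
      have h48 : p % 48 = 1 := by omega
      by_contra hlt
      have : p = 49 := by omega
      subst this
      norm_num at hp
    rcases Nat.lt_or_ge d (2 * j * z) with hdl | hdl
    · obtain ⟨r, hr⟩ : ∃ r, d + r = 2 * j * z := ⟨2 * j * z - d, by omega⟩
      have hr1 : 1 ≤ r := by omega
      rcases Nat.lt_or_ge z 3 with hz3 | hz3
      · have hz' : z = 1 := by omega
        subst hz'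
        exact z_one (j := j) (d := d) hp (by omega) hdiv hic hc (by omega) (by omega)
          (by rw [h, hqe, pow_one])
      · have hsm := case_small hp97 hj h4p hte hzt h200 hexp
        have hinf := inf3 hp hp97 hi2 hj hqe hc hc0 (by omega) hz h hr hr1 hsm
        have hrl := r_le hp2 hqe (by omega) hz1 h hr hr1 h200 hll hzt
        obtain ⟨m, hm1, hm2, hm3⟩ := case_num hp97 hi2 hj hz1 hr1 rfl h4p hte hinf hrl hzt
          h200 hll hfin
        exact tay_final hi hj hz3 rfl hr hr1 hd (by omega) hqe h h4p hm1 hm2 hm3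
    · have hpar : d ≠ 2 * j * z := by
        intro he
        have : 2 * j * z % 2 = 0 := by rw [mul_assoc]; omega
        omega
      exact case_b1 hp97 hj h4p hte hzt h200 hexp (dlow hp2 hqe h (by omega))
  · -- case beta
    have hcp : 2 ^ c < p := by
      have := Nat.le_of_dvd (by omega) hdiv
      omega
    have h1 := beta_z (by omega) hpq hcop hz1 (by omega) h hcp h200 hll hzt
    have h2 := dlow hp2 hqe h hdl
    have hlp : 0 < Real.log p := Real.log_pos (by exact_mod_cast (by omega : 1 < p))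
    have h4 : (0 : ℝ) < 4 ^ i := by positivity
    have hL0 : (0 : ℝ) < Real.log t := by linarith
    have h3 : (p : ℝ) ^ (2 * j) * Real.log p <
        (3 * 10 ^ 8 * (Real.log t) ^ 2 * 4 ^ i) * Real.log p := by
      calc (p : ℝ) ^ (2 * j) * Real.log p < z * 4 ^ i := h2
        _ ≤ (3 * 10 ^ 8 * (Real.log t) ^ 2 * Real.log p) * 4 ^ i := by
            exact mul_le_mul_of_nonneg_right h1 h4.le
        _ = _ := by ring
    have h5 := lt_of_mul_lt_mul_right h3 hlp.le
    calc (p : ℝ) ^ (2 * j) < 3 * 10 ^ 8 * (Real.log t) ^ 2 * 4 ^ i := h5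
      _ ≤ Real.log t * (Real.log t) ^ 2 * 4 ^ i := by gcongr
      _ = 4 ^ i * (Real.log t) ^ 3 := by ring

end Pool.Agent.H91.CA
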