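import Mathlib

/-!
JOB CA-16 (the weighted l1 norm of integer polynomials, about 80-120 lines; independent).

`nrm τ f = ∑ |coeff f k| τ^k` (`0 ≤ τ`).  All statements are elementary: `nrm_add_le` (triangle inequality;
write both sides as sums over a common `range`), `nrm_mul_le` (Cauchy product: coefficient of the product is
`∑_{(a,b) in antidiagonal k}`), `nrm_pow_le` by induction, `nrm_trunc_le` (a polynomial whose coefficients
are either those of `f` or `0`).
-/

namespace Pool.Agent.H91.CA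

open Polynomial

/-- Weighted l1 norm. -/
noncomputable def nrm (τ : ℝ) (f : ℤ[X]) : ℝ := ∑ k ∈ f.support, |(f.coeff k : ℝ)| * τ ^ k

theorem nrm_nonneg {τ : ℝ} (hτ : 0 ≤ τ) (f : ℤ[X]) : 0 ≤ nrm τ f := by
  exact Finset.sum_nonneg fun k _ => mul_nonneg (abs_nonneg _) (pow_nonneg hτ k)

/-- The norm as a sum over any range that contains the support. -/
theorem nrm_eq_range {τ : ℝ} (f : ℤ[X]) {N : ℕ} (h : f.natDegree < N) :
    nrm τ f = ∑ k ∈ Finset.range N, |(f.coeff k : ℝ)| * τ ^ k := by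
  unfold nrm
  refine Finset.sum_subset (Polynomial.supp_subset_range h) fun k _ hk => ?_
  rw [Polynomial.notMem_support_iff.mp hk]
  simp

theorem coeff_le_nrm {τ : ℝ} (hτ : 0 ≤ τ) (f : ℤ[X]) (k : ℕ) :
    |(f.coeff k : ℝ)| * τ ^ k ≤ nrm τ f := by
  by_cases hk : k ∈ f.support
  · exact Finset.single_le_sum (f := fun k => |(f.coeff k : ℝ)| * τ ^ k)
      (fun k _ => mul_nonneg (abs_nonneg _) (pow_nonneg hτ k)) hk
  · rw [Polynomial.notMem_support_iff.mp hk]
    simpa using nrm_nonneg hτ f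

theorem nrm_add_le {τ : ℝ} (hτ : 0 ≤ τ) (f g : ℤ[X]) : nrm τ (f + g) ≤ nrm τ f + nrm τ g := by
  obtain ⟨N, hN⟩ : ∃ N, N = max f.natDegree g.natDegree + 1 := ⟨_, rfl⟩
  have hf : f.natDegree < N := by
    rw [hN]
    exact Nat.lt_succ_of_le (le_max_left _ _)
  have hg : g.natDegree < N := by
    rw [hN]
    exact Nat.lt_succ_of_le (le_max_right _ _)
  have hfg : (f + g).natDegree < N := by
    rw [hN]
    exact Nat.lt_succ_of_le (Polynomial.natDegree_add_le f g)
  rw [nrm_eq_range _ hf, nrm_eq_range _ hg, nrm_eq_range _ hfg, ← Finset.sum_add_distrib]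
  refine Finset.sum_le_sum fun k _ => ?_
  rw [← add_mul, Polynomial.coeff_add, Int.cast_add]
  exact mul_le_mul_of_nonneg_right (abs_add_le _ _) (pow_nonneg hτ k)

theorem nrm_neg {τ : ℝ} (f : ℤ[X]) : nrm τ (-f) = nrm τ f := by
  unfold nrm
  rw [Polynomial.support_neg]
  refine Finset.sum_congr rfl fun k _ => ?_
  rw [Polynomial.coeff_neg, Int.cast_neg, abs_neg]

theorem nrm_sum_le {τ : ℝ} (hτ : 0 ≤ τ) {ι : Type*} (s : Finset ι) (f : ι → ℤ[X]) :
    nrm τ (∑ i ∈ s, f i) ≤ ∑ i ∈ s, nrm τ (f i) := by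
  classical
  induction s using Finset.induction_on with
  | empty => simp [nrm]
  | insert a s ha ih =>
    rw [Finset.sum_insert ha, Finset.sum_insert ha]
    exact (nrm_add_le hτ _ _).trans (add_le_add le_rfl ih)

theorem nrm_monomial {τ : ℝ} (k : ℕ) (c : ℤ) : nrm τ (monomial k c) = |(c : ℝ)| * τ ^ k := by
  rw [nrm_eq_range (monomial k c) (Nat.lt_succ_of_le (Polynomial.natDegree_monomial_le c)),
    Finset.sum_eq_single k]
  · rw [Polynomial.coeff_monomial_same]
  · intro b _ hb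
    rw [Polynomial.coeff_monomial_of_ne c hb]
    simp
  · intro h
    exact absurd (Finset.mem_range.mpr (Nat.lt_succ_self k)) h

theorem nrm_mul_le {τ : ℝ} (hτ : 0 ≤ τ) (f g : ℤ[X]) : nrm τ (f * g) ≤ nrm τ f * nrm τ g := by
  rw [Polynomial.mul_eq_sum_sum]
  refine (nrm_sum_le hτ _ _).trans ?_
  have h1 : ∀ i ∈ f.support, nrm τ (g.sum fun j a => (monomial (i + j)) (f.coeff i * a)) ≤
      |(f.coeff i : ℝ)| * τ ^ i * nrm τ g := by
    intro i _
    rw [Polynomial.sum_def]
    refine (nrm_sum_le hτ _ _).trans (le_of_eq ?_)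
    conv_rhs => rw [nrm]
    rw [Finset.mul_sum]
    refine Finset.sum_congr rfl fun j _ => ?_
    rw [nrm_monomial, Int.cast_mul, abs_mul, pow_add]
    ring
  refine (Finset.sum_le_sum h1).trans (le_of_eq ?_)
  rw [← Finset.sum_mul]
  rfl

theorem nrm_C {τ : ℝ} (a : ℤ) : nrm τ (C a) = |(a : ℝ)| := by
  rw [← Polynomial.monomial_zero_left, nrm_monomial, pow_zero, mul_one]

theorem nrm_one {τ : ℝ} : nrm τ 1 = 1 := by
  rw [← Polynomial.C_1, nrm_C]
  simp

theorem nrm_X_pow {τ : ℝ} (k : ℕ) : nrm τ (X ^ k) = τ ^ k := by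
  rw [Polynomial.X_pow_eq_monomial, nrm_monomial]
  simp

theorem nrm_pow_le {τ : ℝ} (hτ : 0 ≤ τ) (f : ℤ[X]) (n : ℕ) : nrm τ (f ^ n) ≤ nrm τ f ^ n := by
  induction n with
  | zero => rw [pow_zero, pow_zero, nrm_one]
  | succ n ih =>
    rw [pow_succ, pow_succ]
    exact (nrm_mul_le hτ _ _).trans (mul_le_mul_of_nonneg_right ih (nrm_nonneg hτ f))

/-- Truncation: there is a polynomial of degree `≤ m` with the same coefficients up to `m`; its norm is not
larger. -/
theorem exists_trunc {τ : ℝ} (hτ : 0 ≤ τ) (f : ℤ[X]) (m : ℕ) :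
    ∃ g : ℤ[X], g.natDegree ≤ m ∧ X ^ (m + 1) ∣ f - g ∧ g.coeff 0 = f.coeff 0 ∧
      nrm τ g ≤ nrm τ f := by
  have hc : ∀ d, (∑ k ∈ Finset.range (m + 1), monomial k (f.coeff k)).coeff d =
      if d < m + 1 then f.coeff d else 0 := by
    intro d
    rw [Polynomial.finsetSum_coeff]
    simp only [Polynomial.coeff_monomial]
    rw [Finset.sum_ite_eq' (Finset.range (m + 1)) d]
    simp only [Finset.mem_range]
  refine ⟨∑ k ∈ Finset.range (m + 1), monomial k (f.coeff k), ?_, ?_, ?_, ?_⟩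
  · refine Polynomial.natDegree_sum_le_of_forall_le _ _ fun k hk => ?_
    exact (Polynomial.natDegree_monomial_le _).trans (Nat.lt_succ_iff.mp (Finset.mem_range.mp hk))
  · rw [Polynomial.X_pow_dvd_iff]
    intro d hd
    rw [Polynomial.coeff_sub, hc, if_pos hd, sub_self]
  · rw [hc, if_pos (Nat.succ_pos m)]
  · refine (nrm_sum_le hτ _ _).trans ?_
    simp only [nrm_monomial]
    rw [nrm_eq_range f (N := max f.natDegree m + 1)
      (Nat.lt_succ_of_le (le_max_left _ _))]
    refine Finset.sum_le_sum_of_subset_of_nonneg ?_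
      fun k _ _ => mul_nonneg (abs_nonneg _) (pow_nonneg hτ k)
    exact Finset.range_subset_range.mpr (Nat.succ_le_succ (le_max_right _ _))

end Pool.Agent.H91.CA
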