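import Pool.Agent.H91.CA.Zero

/-!
JOB CA-02 (from the zero estimate to a nonzero determinant, about 60-100 lines).

Proof.  For a point `P = (r,s)` with `r < R1+R2`, `s < S1+S2` let `w_P : Fin K × Fin L → ℝ`,
`w_P (k,l) = (r u + s v)^k (b^r a^s)^l`.  By `zero_est` a real vector `c` with `∑ c x * w_P x = 0` for all
these `P` is zero, so the `w_P` span `Fin K × Fin L → ℝ` (e.g. `Submodule.span = ⊤` because the dot
product is nondegenerate: a proper subspace is killed by a nonzero linear functional,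
`Submodule.exists_dual_map_eq_bot_of_lt_top` or similar, and a functional is a dot product).
A spanning set contains a basis (`exists_linearIndependent`, `Basis.ofSpan`...), indexed by a type of
cardinality `K * L`, i.e. there is a map `e : Fin K × Fin L → ℕ × ℕ` with `w_{e x}` linearly independent.
Then the matrix with columns `w_{e y}` has nonzero determinant over `ℝ`
(`Matrix.linearIndependent_cols_iff_isUnit`, ...), and it is the cast of the integer determinant
(`Int.cast_det` or `RingHom.map_det`).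
-/

namespace Pool.Agent.H91.CA

/-- the vector attached to a point -/
noncomputable def Pts_w (a b u v K L : ℕ) (p : ℕ × ℕ) (x : Fin K × Fin L) : ℝ :=
  ((p.1 * u + p.2 * v : ℕ) : ℝ) ^ (x.1 : ℕ) * ((b ^ p.1 * a ^ p.2 : ℕ) : ℝ) ^ (x.2 : ℕ)

theorem Pts_span {a b u v K L R1 S1 R2 S2 : ℕ} (hab : a.Coprime b) (ha : 2 ≤ a) (hb : 2 ≤ b)
    (hL : L ≤ R1 * S1)
    (hinj : ∀ r s r' s' : ℕ, r < R2 → s < S2 → r' < R2 → s' < S2 →
      r * u + s * v = r' * u + s' * v → r = r' ∧ s = s')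
    (hN : (K - 1) * L < R2 * S2) :
    Submodule.span ℝ (Set.range fun p : {p : ℕ × ℕ // p.1 < R1 + R2 ∧ p.2 < S1 + S2} =>
      Pts_w a b u v K L p.1) = ⊤ := by
  by_contra hne
  obtain ⟨f, hf0, hf⟩ := Submodule.exists_le_ker_of_lt_top _ (lt_top_iff_ne_top.2 hne)
  apply hf0
  have key : (fun (k : Fin K) (l : Fin L) => f (Pi.single (k, l) 1)) = 0 := by
    refine zero_est hab ha hb hL hinj hN _ ?_
    intro r s hr hs
    have h1 : Pts_w a b u v K L (r, s) ∈ LinearMap.ker f :=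
      hf (Submodule.subset_span ⟨⟨(r, s), hr, hs⟩, rfl⟩)
    rw [LinearMap.mem_ker, LinearMap.pi_apply_eq_sum_univ, Fintype.sum_prod_type] at h1
    rw [← h1]
    refine Finset.sum_congr rfl fun k _ => Finset.sum_congr rfl fun l _ => ?_
    have h2 : (Pi.single (k, l) 1 : Fin K × Fin L → ℝ) = fun j => if (k, l) = j then 1 else 0 := by
      funext j
      by_cases hj : (k, l) = j
      · rw [if_pos hj, ← hj, Pi.single_eq_same]
      · rw [if_neg hj, Pi.single_eq_of_ne (Ne.symm hj)]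
    rw [h2]
    simp only [Pts_w, smul_eq_mul]
    ring
  refine LinearMap.pi_ext' fun x => LinearMap.ext_ring ?_
  have h3 := congrFun (congrFun key x.1) x.2
  simpa using h3

theorem exists_points {a b u v K L R1 S1 R2 S2 : ℕ} (hab : a.Coprime b) (ha : 2 ≤ a) (hb : 2 ≤ b)
    (hL : L ≤ R1 * S1)
    (hinj : ∀ r s r' s' : ℕ, r < R2 → s < S2 → r' < R2 → s' < S2 →
      r * u + s * v = r' * u + s' * v → r = r' ∧ s = s')
    (hN : (K - 1) * L < R2 * S2) :
    ∃ e : Fin K × Fin L → ℕ × ℕ, (∀ x, (e x).1 < R1 + R2 ∧ (e x).2 < S1 + S2) ∧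
      (Matrix.of (fun x y : Fin K × Fin L =>
        (((e y).1 * u + (e y).2 * v : ℕ) : ℤ) ^ (x.1 : ℕ) *
          ((b ^ (e y).1 * a ^ (e y).2 : ℕ) : ℤ) ^ (x.2 : ℕ))).det ≠ 0 := by
  classical
  obtain ⟨κ, g, -, hg2, hg3⟩ := exists_linearIndependent' ℝ
    (fun p : {p : ℕ × ℕ // p.1 < R1 + R2 ∧ p.2 < S1 + S2} => Pts_w a b u v K L p.1)
  rw [Pts_span hab ha hb hL hinj hN] at hg2
  obtain ⟨B, hB⟩ : ∃ B : Module.Basis κ ℝ (Fin K × Fin L → ℝ), ∀ i, B i = Pts_w a b u v K L (g i).1 :=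
    ⟨Module.Basis.mk hg3 hg2.ge, fun i => by rw [Module.Basis.mk_apply]; rfl⟩
  have he : Nonempty (Fin K × Fin L ≃ κ) :=
    ⟨(Pi.basisFun ℝ (Fin K × Fin L)).indexEquiv B⟩
  obtain ⟨ee⟩ := he
  refine ⟨fun x => (g (ee x)).1, fun x => (g (ee x)).2, ?_⟩
  intro hdet
  have hli : LinearIndependent ℝ
      (Matrix.of (fun x y : Fin K × Fin L => Pts_w a b u v K L (g (ee y)).1 x)).col := by
    have h1 := B.linearIndependent.comp ee ee.injective
    have h2 : (B ∘ ee) =
        (Matrix.of (fun x y : Fin K × Fin L => Pts_w a b u v K L (g (ee y)).1 x)).col := by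
      funext y
      exact hB (ee y)
    rw [h2] at h1
    exact h1
  rw [Matrix.linearIndependent_cols_iff_isUnit, Matrix.isUnit_iff_isUnit_det,
    isUnit_iff_ne_zero] at hli
  apply hli
  have h3 := congrArg (Int.castRingHom ℝ) hdet
  rw [RingHom.map_det, map_zero] at h3
  rw [← h3]
  congr 1
  ext x y
  simp [Pts_w]


/-- Injectivity of `(r,s) ↦ r u + s v` on a small box, for coprime `u, v`. -/
theorem inj_box {u v R2 S2 : ℕ} (huv : u.Coprime v) (hu : 1 ≤ u) (hv : 1 ≤ v)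
    (h : R2 ≤ v ∨ S2 ≤ u) : ∀ r s r' s' : ℕ, r < R2 → s < S2 → r' < R2 → s' < S2 →
      r * u + s * v = r' * u + s' * v → r = r' ∧ s = s' := by
  intro r s r' s' hr hs hr' hs' he
  have hz : ((r : ℤ) - r') * u = ((s' : ℤ) - s) * v := by
    have h1 : (r : ℤ) * u + s * v = r' * u + s' * v := by exact_mod_cast he
    linarith
  have hcop : IsCoprime (u : ℤ) (v : ℤ) := Nat.isCoprime_iff_coprime.2 huv
  have hu0 : (u : ℤ) ≠ 0 := by omega
  have hv0 : (v : ℤ) ≠ 0 := by omega
  rcases h with h | h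
  · have hd : (v : ℤ) ∣ (r : ℤ) - r' :=
      hcop.symm.dvd_of_dvd_mul_right (hz ▸ Dvd.intro_left _ rfl)
    have h0 : (r : ℤ) - r' = 0 := by
      refine Int.eq_zero_of_abs_lt_dvd hd ?_
      rw [abs_lt]
      constructor <;> omega
    rw [h0, zero_mul] at hz
    have h1 : (s' : ℤ) - s = 0 := (mul_eq_zero.1 hz.symm).resolve_right hv0
    constructor <;> omega
  · have hd : (u : ℤ) ∣ (s' : ℤ) - s :=
      hcop.dvd_of_dvd_mul_right (hz ▸ Dvd.intro_left _ rfl)
    have h0 : (s' : ℤ) - s = 0 := by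
      refine Int.eq_zero_of_abs_lt_dvd hd ?_
      rw [abs_lt]
      constructor <;> omega
    rw [h0, zero_mul] at hz
    have h1 : (r : ℤ) - r' = 0 := (mul_eq_zero.1 hz).resolve_right hu0
    constructor <;> omega

end Pool.Agent.H91.CA
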