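import Pool.Agent.H91.CA.Nrm

/-!
JOB CA-17 (formal solution of the polynomial equation, about 150-220 lines; uses the stubs of Nrm).

Let `n = 2 j z`, `r = n - d ≥ 1` (so `r ≤ n`), `τ = 1/(64 n^4)`, `δ = 1/(4 n^2)`.  For `y` in `ℤ[X]` put
`Φ(y) = -∑_{a=2}^{n} (choose n a - choose d a) r^(a-2) y^a - ∑_{b=1}^{z} choose z b r^(2b-2) X^b (1+r y)^(2j(z-b))`.
(1) Identity `((1+ry)^(2j) + r² X)^z - (1+ry)^d = r² (y - Φ(y))`:
binomial theorem in `z`: `∑_{b=0}^z choose z b (r²X)^b (1+ry)^(2j(z-b)) - (1+ry)^d`; the `b = 0` term minus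
`(1+ry)^d` is `(1+ry)^n - (1+ry)^d = ∑_{a=0}^n (choose n a - choose d a) r^a y^a` (`choose d a = 0` for
`a > d`), whose `a = 0` term is `0` and `a = 1` term is `(n-d) r y = r² y`.
(2) If `nrm y ≤ δ` then `nrm (Φ y) ≤ δ`: `|choose n a - choose d a| ≤ choose n a ≤ n^a`, `r ≤ n`, so the first
sum has norm `≤ ∑_{a≥2} n^(2a-2) δ^a = n^(-2) ∑_{a≥2} 4^(-a) ≤ n^(-2)/12`; the second one has norm
`≤ ∑_{b≥1} n^(3b-2) τ^b (1 + n δ)^n ≤ n^(-2) exp(1/4) ∑_{b≥1} 64^(-b) ≤ n^(-2) * 1.3/63 ≤ n^(-2)/12`.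
(3) `Φ` is contracting: if `y(0) = y'(0) = 0` and `X^k ∣ y - y'` then `X^(k+1) ∣ Φ(y) - Φ(y')`
(`y^a - y'^a`, `a ≥ 2`, is `y - y'` times a polynomial divisible by `X`; the terms with `b ≥ 1` have the
factor `X`).  Also `X ∣ Φ(y)` if `X ∣ y`.
(4) Induction on `m`, statement: there is `y` with `natDegree y ≤ m`, `coeff 0 = 0`, `X^(m+1) ∣ y - Φ(y)`,
`nrm y ≤ δ`.  `m = 0`: `y = 0`, `X ∣ Φ(0)`.  Step: `y' := trunc_{m+1} Φ(y)` (`exists_trunc`), so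
`X^(m+2) ∣ Φ(y) - y'`, and `X^(m+1) ∣ y - Φ(y)` gives `X^(m+1) ∣ y - y'`, so
`X^(m+2) ∣ Φ(y) - Φ(y')`, and `X^(m+2) ∣ y' - Φ(y')`.

`nrm_F`: `nrm (1 + r y) ≤ 1 + n δ = 1 + 1/(4n)`, `nrm A ≤ (1+1/(4n))^(2j) + n² τ ≤ (1+1/(4n))^(2j) (1 + 1/(64 n))`
(`n² τ = 1/(64 n²)`), so `nrm (A^z) ≤ (1+1/(4n))^n (1+1/(64n))^z ≤ exp(1/4 + 1/64)` and
`nrm ((1+ry)^d) ≤ exp(1/4)`; the sum is `≤ 1.31 + 1.29 ≤ 3`.
-/

namespace Pool.Agent.H91.CA

open Polynomial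

/-- the part of the map from the binomial expansion -/
private noncomputable def TayA_S1 (d r n : ℕ) (y : ℤ[X]) : ℤ[X] :=
  ∑ a ∈ Finset.range (n - 1),
    C (((n.choose (a + 2) : ℤ) - (d.choose (a + 2) : ℤ)) * (r : ℤ) ^ a) * y ^ (a + 2)

/-- the part of the map divisible by `X` -/
private noncomputable def TayA_S2 (j z r : ℕ) (y : ℤ[X]) : ℤ[X] :=
  ∑ b ∈ Finset.range z, C ((z.choose (b + 1) : ℤ) * (r : ℤ) ^ (2 * b)) * X ^ (b + 1) *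
    (1 + C (r : ℤ) * y) ^ (2 * j * (z - (b + 1)))

private noncomputable def TayA_Phi (j z d r n : ℕ) (y : ℤ[X]) : ℤ[X] :=
  -TayA_S1 d r n y - TayA_S2 j z r y

private theorem TayA_binom (r m N : ℕ) (h : m ≤ N) (y : ℤ[X]) :
    (1 + C (r : ℤ) * y) ^ m =
      ∑ a ∈ Finset.range (N + 1), C (m.choose a : ℤ) * (C (r : ℤ) * y) ^ a := by
  rw [add_comm, add_pow]
  have h1 : ∀ a, (C (r : ℤ) * y) ^ a * 1 ^ (m - a) * ((m.choose a : ℕ) : ℤ[X]) =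
      C (m.choose a : ℤ) * (C (r : ℤ) * y) ^ a := by
    intro a
    rw [one_pow, mul_one, mul_comm]
    congr 1
  simp only [h1]
  refine Finset.sum_subset (fun a ha => ?_) fun a _ ha => ?_
  · rw [Finset.mem_range] at ha ⊢
    omega
  · rw [Finset.mem_range, not_lt] at ha
    rw [Nat.choose_eq_zero_of_lt (by omega)]
    simp

private theorem TayA_id1 {d r n : ℕ} (hn2 : 2 ≤ n) (hr : d + r = n) (y : ℤ[X]) :
    (1 + C (r : ℤ) * y) ^ n - (1 + C (r : ℤ) * y) ^ d =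
      C ((r : ℤ) ^ 2) * (y + TayA_S1 d r n y) := by
  obtain ⟨k, rfl⟩ : ∃ k, n = k + 2 := ⟨n - 2, by omega⟩
  rw [TayA_binom r (k + 2) (k + 2) le_rfl y, TayA_binom r d (k + 2) (by omega) y,
    ← Finset.sum_sub_distrib, Finset.sum_range_succ', Finset.sum_range_succ']
  have h1 : k + 2 - 1 = k + 1 := by omega
  unfold TayA_S1
  rw [h1, mul_add, Finset.mul_sum]
  have h2 : ∀ a, C (((k + 2).choose (a + 1 + 1) : ℕ) : ℤ) * (C (r : ℤ) * y) ^ (a + 1 + 1) -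
      C ((d.choose (a + 1 + 1) : ℕ) : ℤ) * (C (r : ℤ) * y) ^ (a + 1 + 1) =
      C ((r : ℤ) ^ 2) * (C ((((k + 2).choose (a + 2) : ℤ) - (d.choose (a + 2) : ℤ)) *
        (r : ℤ) ^ a) * y ^ (a + 2)) := by
    intro a
    rw [C_mul, C_sub, C_pow, C_pow, mul_pow]
    ring
  simp only [h2]
  have h3 : C (((k + 2).choose (0 + 1) : ℕ) : ℤ) * (C (r : ℤ) * y) ^ (0 + 1) -
      C ((d.choose (0 + 1) : ℕ) : ℤ) * (C (r : ℤ) * y) ^ (0 + 1) = C ((r : ℤ) ^ 2) * y := by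
    rw [zero_add, Nat.choose_one_right, Nat.choose_one_right, ← hr, pow_one, ← sub_mul,
      ← C_sub, C_pow]
    have h4 : ((d + r : ℕ) : ℤ) - (d : ℤ) = r := by
      push_cast
      ring
    rw [h4]
    ring
  have h4 : C (((k + 2).choose 0 : ℕ) : ℤ) * (C (r : ℤ) * y) ^ 0 -
      C ((d.choose 0 : ℕ) : ℤ) * (C (r : ℤ) * y) ^ 0 = 0 := by
    rw [Nat.choose_zero_right, Nat.choose_zero_right, sub_self]
  rw [h3, h4]
  ring

private theorem TayA_id2 {j z r n : ℕ} (hn : n = 2 * j * z) (y : ℤ[X]) :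
    ((1 + C (r : ℤ) * y) ^ (2 * j) + C ((r : ℤ) ^ 2) * X) ^ z =
      (1 + C (r : ℤ) * y) ^ n + C ((r : ℤ) ^ 2) * TayA_S2 j z r y := by
  rw [add_comm ((1 + C (r : ℤ) * y) ^ (2 * j)), add_pow, Finset.sum_range_succ']
  unfold TayA_S2
  rw [Finset.mul_sum, add_comm]
  congr 1
  · rw [pow_zero, one_mul, Nat.sub_zero, Nat.choose_zero_right, Nat.cast_one, mul_one, ← pow_mul,
      hn]
  · refine Finset.sum_congr rfl fun b _ => ?_
    rw [← pow_mul, C_mul, C_pow, C_pow, mul_pow]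
    have h1 : (((z.choose (b + 1) : ℕ)) : ℤ[X]) = C ((z.choose (b + 1) : ℕ) : ℤ) := by simp
    rw [h1]
    have h2 : ((C (r : ℤ)) ^ 2) ^ (b + 1) = (C (r : ℤ)) ^ 2 * (C (r : ℤ)) ^ (2 * b) := by ring
    rw [h2]
    ring

private theorem TayA_id {j z d r n : ℕ} (hn2 : 2 ≤ n) (hn : n = 2 * j * z)
    (hr : d + r = n) (y : ℤ[X]) :
    ((1 + C (r : ℤ) * y) ^ (2 * j) + C ((r : ℤ) ^ 2) * X) ^ z - (1 + C (r : ℤ) * y) ^ d =
      C ((r : ℤ) ^ 2) * (y - TayA_Phi j z d r n y) := by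
  rw [TayA_id2 hn]
  have h1 := TayA_id1 hn2 hr y
  have h2 : (1 + C (r : ℤ) * y) ^ n + C ((r : ℤ) ^ 2) * TayA_S2 j z r y -
      (1 + C (r : ℤ) * y) ^ d = ((1 + C (r : ℤ) * y) ^ n - (1 + C (r : ℤ) * y) ^ d) +
      C ((r : ℤ) ^ 2) * TayA_S2 j z r y := by ring
  rw [h2, h1]
  unfold TayA_Phi
  ring

private theorem TayA_exp4 : Real.exp (1 / 4) ≤ 1.3 := by
  have h1 : Real.exp (1 / 4) ^ 4 = Real.exp 1 := by
    rw [← Real.exp_nat_mul]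
    norm_num
  have h2 := Real.exp_one_lt_d9
  have h3 : Real.exp (1 / 4) ^ 4 ≤ 1.3 ^ 4 := by
    rw [h1]
    norm_num at h2 ⊢
    linarith
  exact le_of_pow_le_pow_left₀ (by norm_num) (by norm_num) h3

private theorem TayA_exp3 : Real.exp (1 / 3) ≤ 1.4 := by
  have h1 : Real.exp (1 / 3) ^ 3 = Real.exp 1 := by
    rw [← Real.exp_nat_mul]
    norm_num
  have h2 := Real.exp_one_lt_d9
  have h3 : Real.exp (1 / 3) ^ 3 ≤ 1.4 ^ 3 := by
    rw [h1]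
    norm_num at h2 ⊢
    linarith
  exact le_of_pow_le_pow_left₀ (by norm_num) (by norm_num) h3

private theorem TayA_pow_exp {x : ℝ} (hx : 0 ≤ x) (n : ℕ) : (1 + x) ^ n ≤ Real.exp (n * x) := by
  rw [Real.exp_nat_mul]
  refine pow_le_pow_left₀ (by linarith) ?_ n
  have := Real.add_one_le_exp x
  linarith

/-- the norm of `1 + r y` -/
private theorem TayA_nrm1 {r n : ℕ} (hn2 : 2 ≤ n) (hrn : r ≤ n) (y : ℤ[X])
    (hy : nrm (1 / (64 * (n : ℝ) ^ 4)) y ≤ 1 / (4 * (n : ℝ) ^ 2)) :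
    nrm (1 / (64 * (n : ℝ) ^ 4)) (1 + C (r : ℤ) * y) ≤ 1 + 1 / (4 * (n : ℝ)) := by
  have hn0 : (0 : ℝ) < n := by
    have : 0 < n := by omega
    exact_mod_cast this
  have hτ : (0 : ℝ) ≤ 1 / (64 * (n : ℝ) ^ 4) := by positivity
  refine (nrm_add_le hτ _ _).trans ?_
  rw [nrm_one]
  refine add_le_add le_rfl ((nrm_mul_le hτ _ _).trans ?_)
  rw [nrm_C]
  have h1 : |((r : ℤ) : ℝ)| = (r : ℝ) := by
    rw [Int.cast_natCast]
    exact abs_of_nonneg (Nat.cast_nonneg _)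
  rw [h1]
  have h2 : (r : ℝ) ≤ n := by exact_mod_cast hrn
  calc (r : ℝ) * nrm (1 / (64 * (n : ℝ) ^ 4)) y ≤ n * (1 / (4 * (n : ℝ) ^ 2)) :=
        mul_le_mul h2 hy (nrm_nonneg hτ _) hn0.le
    _ = 1 / (4 * (n : ℝ)) := by field_simp

private theorem TayA_nrm_pow {r n e : ℕ} (hn2 : 2 ≤ n) (hrn : r ≤ n) (he : e ≤ n) (y : ℤ[X])
    (hy : nrm (1 / (64 * (n : ℝ) ^ 4)) y ≤ 1 / (4 * (n : ℝ) ^ 2)) :
    nrm (1 / (64 * (n : ℝ) ^ 4)) ((1 + C (r : ℤ) * y) ^ e) ≤ 1.3 := by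
  have hn0 : (0 : ℝ) < n := by
    have : 0 < n := by omega
    exact_mod_cast this
  have hτ : (0 : ℝ) ≤ 1 / (64 * (n : ℝ) ^ 4) := by positivity
  have h1 := TayA_nrm1 hn2 hrn y hy
  have h2 : (0 : ℝ) ≤ 1 / (4 * (n : ℝ)) := by positivity
  calc nrm (1 / (64 * (n : ℝ) ^ 4)) ((1 + C (r : ℤ) * y) ^ e)
      ≤ nrm (1 / (64 * (n : ℝ) ^ 4)) (1 + C (r : ℤ) * y) ^ e := nrm_pow_le hτ _ _
    _ ≤ (1 + 1 / (4 * (n : ℝ))) ^ e := pow_le_pow_left₀ (nrm_nonneg hτ _) h1 e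
    _ ≤ (1 + 1 / (4 * (n : ℝ))) ^ n := pow_le_pow_right₀ (by linarith) he
    _ ≤ Real.exp (n * (1 / (4 * (n : ℝ)))) := TayA_pow_exp h2 n
    _ = Real.exp (1 / 4) := by
        congr 1
        field_simp
    _ ≤ 1.3 := TayA_exp4

private theorem TayA_geom {x : ℝ} (hx : 0 ≤ x) (hx1 : x < 1) (N : ℕ) :
    ∑ a ∈ Finset.range N, x ^ a ≤ 1 / (1 - x) := by
  have h1 := mul_neg_geom_sum x N
  rw [le_div_iff₀ (by linarith), mul_comm, h1]
  have h2 : 0 ≤ x ^ N := pow_nonneg hx N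
  linarith

private theorem TayA_nrmS1 {d r n : ℕ} (hn2 : 2 ≤ n) (hr : d + r = n) (y : ℤ[X])
    (hy : nrm (1 / (64 * (n : ℝ) ^ 4)) y ≤ 1 / (4 * (n : ℝ) ^ 2)) :
    nrm (1 / (64 * (n : ℝ) ^ 4)) (TayA_S1 d r n y) ≤ 1 / (12 * (n : ℝ) ^ 2) := by
  have hn0 : (0 : ℝ) < n := by
    have : 0 < n := by omega
    exact_mod_cast this
  have hτ : (0 : ℝ) ≤ 1 / (64 * (n : ℝ) ^ 4) := by positivity
  have hrn : (r : ℝ) ≤ n := by
    have : r ≤ n := by omega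
    exact_mod_cast this
  have hterm : ∀ a : ℕ, nrm (1 / (64 * (n : ℝ) ^ 4))
      (C (((n.choose (a + 2) : ℤ) - (d.choose (a + 2) : ℤ)) * (r : ℤ) ^ a) * y ^ (a + 2)) ≤
      1 / (16 * (n : ℝ) ^ 2) * (1 / 4) ^ a := by
    intro a
    refine (nrm_mul_le hτ _ _).trans ?_
    rw [nrm_C]
    have h1 : (d.choose (a + 2) : ℝ) ≤ n.choose (a + 2) := by
      exact_mod_cast Nat.choose_le_choose (a + 2) (by omega : d ≤ n)
    have h2 : (n.choose (a + 2) : ℝ) ≤ (n : ℝ) ^ (a + 2) := by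
      exact_mod_cast Nat.choose_le_pow n (a + 2)
    have h3 : (0 : ℝ) ≤ (d.choose (a + 2) : ℝ) := Nat.cast_nonneg _
    have h4 : |((((n.choose (a + 2) : ℤ) - (d.choose (a + 2) : ℤ)) * (r : ℤ) ^ a : ℤ) : ℝ)| ≤
        (n : ℝ) ^ (a + 2) * (n : ℝ) ^ a := by
      push_cast
      rw [abs_mul, abs_of_nonneg (by linarith : (0 : ℝ) ≤ (n.choose (a + 2) : ℝ) -
        (d.choose (a + 2) : ℝ)), abs_of_nonneg (by positivity : (0 : ℝ) ≤ (r : ℝ) ^ a)]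
      refine mul_le_mul (by linarith) (pow_le_pow_left₀ (Nat.cast_nonneg _) hrn a)
        (by positivity) (by positivity)
    have h5 : nrm (1 / (64 * (n : ℝ) ^ 4)) (y ^ (a + 2)) ≤ (1 / (4 * (n : ℝ) ^ 2)) ^ (a + 2) :=
      (nrm_pow_le hτ _ _).trans (pow_le_pow_left₀ (nrm_nonneg hτ _) hy _)
    calc _ ≤ (n : ℝ) ^ (a + 2) * (n : ℝ) ^ a * (1 / (4 * (n : ℝ) ^ 2)) ^ (a + 2) :=
          mul_le_mul h4 h5 (nrm_nonneg hτ _) (by positivity)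
      _ = 1 / (16 * (n : ℝ) ^ 2) * (1 / 4) ^ a := by
          rw [div_pow, div_pow, mul_pow, ← pow_mul, one_pow, one_pow]
          field_simp
          ring
  unfold TayA_S1
  refine (nrm_sum_le hτ _ _).trans ((Finset.sum_le_sum fun a _ => hterm a).trans ?_)
  rw [← Finset.mul_sum]
  have h1 := TayA_geom (by norm_num : (0 : ℝ) ≤ 1 / 4) (by norm_num) (n - 1)
  calc 1 / (16 * (n : ℝ) ^ 2) * ∑ a ∈ Finset.range (n - 1), (1 / 4 : ℝ) ^ a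
      ≤ 1 / (16 * (n : ℝ) ^ 2) * (1 / (1 - 1 / 4)) :=
        mul_le_mul_of_nonneg_left h1 (by positivity)
    _ = 1 / (12 * (n : ℝ) ^ 2) := by
        field_simp
        norm_num

private theorem TayA_nrmS2 {j z r n : ℕ} (hj : 1 ≤ j) (hz : 1 ≤ z) (hn : n = 2 * j * z)
    (hrn : r ≤ n) (y : ℤ[X])
    (hy : nrm (1 / (64 * (n : ℝ) ^ 4)) y ≤ 1 / (4 * (n : ℝ) ^ 2)) :
    nrm (1 / (64 * (n : ℝ) ^ 4)) (TayA_S2 j z r y) ≤ 1 / (12 * (n : ℝ) ^ 2) := by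
  have hzn : z ≤ n := by
    rw [hn]
    exact Nat.le_mul_of_pos_left _ (by omega)
  have hn2 : 2 ≤ n := by
    rw [hn]
    nlinarith
  have hn0 : (0 : ℝ) < n := by
    have : 0 < n := by omega
    exact_mod_cast this
  have hn1 : (1 : ℝ) ≤ n := by
    have : 1 ≤ n := by omega
    exact_mod_cast this
  have hτ : (0 : ℝ) ≤ 1 / (64 * (n : ℝ) ^ 4) := by positivity
  have hrn' : (r : ℝ) ≤ n := by exact_mod_cast hrn
  have hzn' : (z : ℝ) ≤ n := by exact_mod_cast hzn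
  have hterm : ∀ b : ℕ, nrm (1 / (64 * (n : ℝ) ^ 4))
      (C ((z.choose (b + 1) : ℤ) * (r : ℤ) ^ (2 * b)) * X ^ (b + 1) *
        (1 + C (r : ℤ) * y) ^ (2 * j * (z - (b + 1)))) ≤
      1.3 / (64 * (n : ℝ) ^ 2) * (1 / 64) ^ b := by
    intro b
    refine (nrm_mul_le hτ _ _).trans ?_
    have h1 : nrm (1 / (64 * (n : ℝ) ^ 4)) ((1 + C (r : ℤ) * y) ^ (2 * j * (z - (b + 1)))) ≤
        1.3 := by
      refine TayA_nrm_pow hn2 hrn ?_ y hy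
      rw [hn]
      exact Nat.mul_le_mul_left _ (by omega)
    have h2 : nrm (1 / (64 * (n : ℝ) ^ 4))
        (C ((z.choose (b + 1) : ℤ) * (r : ℤ) ^ (2 * b)) * X ^ (b + 1)) ≤
        1 / (64 * (n : ℝ) ^ 2) * (1 / 64) ^ b := by
      refine (nrm_mul_le hτ _ _).trans ?_
      rw [nrm_C, nrm_X_pow]
      have h3 : (z.choose (b + 1) : ℝ) ≤ (n : ℝ) ^ (b + 1) := by
        have h4 : (z.choose (b + 1) : ℝ) ≤ (z : ℝ) ^ (b + 1) := by
          exact_mod_cast Nat.choose_le_pow z (b + 1)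
        exact h4.trans (pow_le_pow_left₀ (Nat.cast_nonneg _) hzn' _)
      have h4 : |(((z.choose (b + 1) : ℤ) * (r : ℤ) ^ (2 * b) : ℤ) : ℝ)| ≤
          (n : ℝ) ^ (b + 1) * (n : ℝ) ^ (2 * b) := by
        push_cast
        rw [abs_of_nonneg (by positivity)]
        exact mul_le_mul h3 (pow_le_pow_left₀ (Nat.cast_nonneg _) hrn' _) (by positivity)
          (by positivity)
      calc _ ≤ (n : ℝ) ^ (b + 1) * (n : ℝ) ^ (2 * b) * (1 / (64 * (n : ℝ) ^ 4)) ^ (b + 1) :=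
            mul_le_mul_of_nonneg_right h4 (by positivity)
        _ = 1 / (64 * (n : ℝ) ^ 2) * (1 / 64) ^ b * (1 / (n : ℝ) ^ (b + 1)) := by
            rw [div_pow, div_pow, mul_pow, ← pow_mul, one_pow, one_pow]
            field_simp
            ring
        _ ≤ 1 / (64 * (n : ℝ) ^ 2) * (1 / 64) ^ b * 1 := by
            refine mul_le_mul_of_nonneg_left ?_ (by positivity)
            rw [div_le_one (by positivity)]
            exact one_le_pow₀ hn1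
        _ = 1 / (64 * (n : ℝ) ^ 2) * (1 / 64) ^ b := mul_one _
    calc _ ≤ 1 / (64 * (n : ℝ) ^ 2) * (1 / 64) ^ b * 1.3 :=
          mul_le_mul h2 h1 (nrm_nonneg hτ _) (by positivity)
      _ = 1.3 / (64 * (n : ℝ) ^ 2) * (1 / 64) ^ b := by ring
  unfold TayA_S2
  refine (nrm_sum_le hτ _ _).trans ((Finset.sum_le_sum fun b _ => hterm b).trans ?_)
  rw [← Finset.mul_sum]
  have h1 := TayA_geom (by norm_num : (0 : ℝ) ≤ 1 / 64) (by norm_num) z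
  calc 1.3 / (64 * (n : ℝ) ^ 2) * ∑ b ∈ Finset.range z, (1 / 64 : ℝ) ^ b
      ≤ 1.3 / (64 * (n : ℝ) ^ 2) * (1 / (1 - 1 / 64)) :=
        mul_le_mul_of_nonneg_left h1 (by positivity)
    _ = 1.3 / 63 * (1 / (n : ℝ) ^ 2) := by
        field_simp
        norm_num
    _ ≤ 1 / 12 * (1 / (n : ℝ) ^ 2) := mul_le_mul_of_nonneg_right (by norm_num) (by positivity)
    _ = 1 / (12 * (n : ℝ) ^ 2) := by
        field_simp

private theorem TayA_nrmPhi {j z d r n : ℕ} (hj : 1 ≤ j) (hz : 1 ≤ z) (hn : n = 2 * j * z)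
    (hr : d + r = n) (y : ℤ[X])
    (hy : nrm (1 / (64 * (n : ℝ) ^ 4)) y ≤ 1 / (4 * (n : ℝ) ^ 2)) :
    nrm (1 / (64 * (n : ℝ) ^ 4)) (TayA_Phi j z d r n y) ≤ 1 / (4 * (n : ℝ) ^ 2) := by
  have hn2 : 2 ≤ n := by
    rw [hn]
    nlinarith
  have hn0 : (0 : ℝ) < n := by
    have : 0 < n := by omega
    exact_mod_cast this
  have hτ : (0 : ℝ) ≤ 1 / (64 * (n : ℝ) ^ 4) := by positivity
  unfold TayA_Phi
  rw [sub_eq_add_neg]
  refine (nrm_add_le hτ _ _).trans ?_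
  rw [nrm_neg, nrm_neg]
  have h1 := TayA_nrmS1 hn2 hr y hy
  have h2 := TayA_nrmS2 hj hz hn (by omega : r ≤ n) y hy
  have h3 : 1 / (12 * (n : ℝ) ^ 2) + 1 / (12 * (n : ℝ) ^ 2) ≤ 1 / (4 * (n : ℝ) ^ 2) := by
    have h4 : 1 / (12 * (n : ℝ) ^ 2) + 1 / (12 * (n : ℝ) ^ 2) = 2 / 3 * (1 / (4 * (n : ℝ) ^ 2)) := by
      field_simp
      norm_num
    rw [h4]
    have h5 : (0 : ℝ) ≤ 1 / (4 * (n : ℝ) ^ 2) := by positivity
    linarith
  linarith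

/-! ### divisibility -/

private theorem TayA_contr {j z d r n k : ℕ} {y y' : ℤ[X]} (hy : X ∣ y) (hy' : X ∣ y')
    (h : X ^ k ∣ y - y') :
    X ^ (k + 1) ∣ TayA_Phi j z d r n y - TayA_Phi j z d r n y' := by
  have h1 : X ^ (k + 1) ∣ TayA_S1 d r n y - TayA_S1 d r n y' := by
    unfold TayA_S1
    rw [← Finset.sum_sub_distrib]
    refine Finset.dvd_sum fun a _ => ?_
    rw [← mul_sub]
    refine Dvd.dvd.mul_left ?_ _
    have h2 : y ^ (a + 2) - y' ^ (a + 2) =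
        (y - y') * (y * y ^ a) + (y ^ (a + 1) - y' ^ (a + 1)) * y' := by ring
    rw [h2, pow_succ]
    refine dvd_add (mul_dvd_mul h (Dvd.dvd.mul_right hy _)) (mul_dvd_mul ?_ hy')
    exact h.trans (sub_dvd_pow_sub_pow y y' (a + 1))
  have h2 : X ^ (k + 1) ∣ TayA_S2 j z r y - TayA_S2 j z r y' := by
    unfold TayA_S2
    rw [← Finset.sum_sub_distrib]
    refine Finset.dvd_sum fun b _ => ?_
    rw [← mul_sub, pow_succ, mul_comm (X ^ k) X]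
    refine mul_dvd_mul ?_ ?_
    · exact Dvd.dvd.mul_left (dvd_pow_self X (by omega)) _
    · have h3 := sub_dvd_pow_sub_pow (1 + C (r : ℤ) * y) (1 + C (r : ℤ) * y')
        (2 * j * (z - (b + 1)))
      refine Dvd.dvd.trans ?_ h3
      have h4 : 1 + C (r : ℤ) * y - (1 + C (r : ℤ) * y') = C (r : ℤ) * (y - y') := by ring
      rw [h4]
      exact Dvd.dvd.mul_left h _
  unfold TayA_Phi
  have h3 : -TayA_S1 d r n y - TayA_S2 j z r y - (-TayA_S1 d r n y' - TayA_S2 j z r y') =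
      -(TayA_S1 d r n y - TayA_S1 d r n y') - (TayA_S2 j z r y - TayA_S2 j z r y') := by ring
  rw [h3]
  exact dvd_sub (dvd_neg.2 h1) h2

private theorem TayA_X {j z d r n : ℕ} {y : ℤ[X]} (hy : X ∣ y) :
    X ∣ TayA_Phi j z d r n y := by
  unfold TayA_Phi TayA_S1 TayA_S2
  refine dvd_sub (dvd_neg.2 (Finset.dvd_sum fun a _ => ?_)) (Finset.dvd_sum fun b _ => ?_)
  · exact Dvd.dvd.mul_left (dvd_pow hy (by omega)) _
  · exact Dvd.dvd.mul_right (Dvd.dvd.mul_left (dvd_pow_self X (by omega)) _) _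

theorem tay_series {j z d r n : ℕ} (hj : 1 ≤ j) (hz : 1 ≤ z) (hn : n = 2 * j * z)
    (hr : d + r = n) (hr1 : 1 ≤ r) (m : ℕ) :
    ∃ y : ℤ[X], y.natDegree ≤ m ∧ y.coeff 0 = 0 ∧
      X ^ (m + 1) ∣ ((1 + C (r : ℤ) * y) ^ (2 * j) + C ((r : ℤ) ^ 2) * X) ^ z -
        (1 + C (r : ℤ) * y) ^ d ∧
      nrm (1 / (64 * (n : ℝ) ^ 4)) y ≤ 1 / (4 * (n : ℝ) ^ 2) := by
  have hn2 : 2 ≤ n := by
    rw [hn]
    nlinarith
  have hn0 : (0 : ℝ) < n := by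
    have : 0 < n := by omega
    exact_mod_cast this
  have hτ : (0 : ℝ) ≤ 1 / (64 * (n : ℝ) ^ 4) := by positivity
  have key : ∃ y : ℤ[X], y.natDegree ≤ m ∧ y.coeff 0 = 0 ∧
      X ^ (m + 1) ∣ y - TayA_Phi j z d r n y ∧
      nrm (1 / (64 * (n : ℝ) ^ 4)) y ≤ 1 / (4 * (n : ℝ) ^ 2) := by
    induction m with
    | zero =>
      refine ⟨0, by simp, by simp, ?_, ?_⟩
      · rw [zero_add, pow_one]
        exact dvd_sub (dvd_zero _) (TayA_X (dvd_zero _))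
      · have : nrm (1 / (64 * (n : ℝ) ^ 4)) 0 = 0 := by simp [nrm]
        rw [this]
        positivity
    | succ m ih =>
      obtain ⟨y, -, h2, h3, h4⟩ := ih
      obtain ⟨y', h5, h6, h7, h8⟩ := exists_trunc hτ (TayA_Phi j z d r n y) (m + 1)
      have hXy : X ∣ y := X_dvd_iff.2 h2
      have h9 : y'.coeff 0 = 0 := by
        rw [h7]
        exact X_dvd_iff.1 (TayA_X hXy)
      have hXy' : X ∣ y' := X_dvd_iff.2 h9
      have h10 : X ^ (m + 1) ∣ y - y' := by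
        have h11 : y - y' = (y - TayA_Phi j z d r n y) + (TayA_Phi j z d r n y - y') := by ring
        rw [h11]
        exact dvd_add h3 ((pow_dvd_pow X (by omega)).trans h6)
      refine ⟨y', h5, h9, ?_, h8.trans (TayA_nrmPhi hj hz hn hr y h4)⟩
      have h11 : y' - TayA_Phi j z d r n y' =
          -(TayA_Phi j z d r n y - y') +
            (TayA_Phi j z d r n y - TayA_Phi j z d r n y') := by ring
      rw [h11]
      exact dvd_add (dvd_neg.2 h6) (TayA_contr hXy hXy' h10)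
  obtain ⟨y, h1, h2, h3, h4⟩ := key
  refine ⟨y, h1, h2, ?_, h4⟩
  rw [TayA_id hn2 hn hr]
  exact Dvd.dvd.mul_left h3 _

theorem nrm_F {j z d r n : ℕ} (hj : 1 ≤ j) (hz : 1 ≤ z) (hn : n = 2 * j * z)
    (hr : d + r = n) (hr1 : 1 ≤ r) (y : ℤ[X])
    (hy : nrm (1 / (64 * (n : ℝ) ^ 4)) y ≤ 1 / (4 * (n : ℝ) ^ 2)) :
    nrm (1 / (64 * (n : ℝ) ^ 4)) (((1 + C (r : ℤ) * y) ^ (2 * j) + C ((r : ℤ) ^ 2) * X) ^ z -
        (1 + C (r : ℤ) * y) ^ d) ≤ 3 := by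
  have hn2 : 2 ≤ n := by
    rw [hn]
    nlinarith
  have hzn : z ≤ n := by
    rw [hn]
    exact Nat.le_mul_of_pos_left _ (by omega)
  have hrn : r ≤ n := by omega
  have hn0 : (0 : ℝ) < n := by
    have : 0 < n := by omega
    exact_mod_cast this
  have hn1 : (1 : ℝ) ≤ n := by
    have : 1 ≤ n := by omega
    exact_mod_cast this
  have hτ : (0 : ℝ) ≤ 1 / (64 * (n : ℝ) ^ 4) := by positivity
  have h1 := TayA_nrm_pow hn2 hrn (by omega : d ≤ n) y hy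
  have h2 := TayA_nrm1 hn2 hrn y hy
  have hx0 : (0 : ℝ) ≤ 1 / (4 * (n : ℝ)) := by positivity
  have hy0 : (0 : ℝ) ≤ 1 / (64 * (n : ℝ)) := by positivity
  -- the norm of `A`
  have h3 : nrm (1 / (64 * (n : ℝ) ^ 4)) ((1 + C (r : ℤ) * y) ^ (2 * j) + C ((r : ℤ) ^ 2) * X) ≤
      (1 + 1 / (4 * (n : ℝ))) ^ (2 * j) * (1 + 1 / (64 * (n : ℝ))) := by
    refine (nrm_add_le hτ _ _).trans ?_
    have h4 : nrm (1 / (64 * (n : ℝ) ^ 4)) ((1 + C (r : ℤ) * y) ^ (2 * j)) ≤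
        (1 + 1 / (4 * (n : ℝ))) ^ (2 * j) :=
      (nrm_pow_le hτ _ _).trans (pow_le_pow_left₀ (nrm_nonneg hτ _) h2 _)
    have h5 : nrm (1 / (64 * (n : ℝ) ^ 4)) (C ((r : ℤ) ^ 2) * X) ≤ 1 / (64 * (n : ℝ)) := by
      refine (nrm_mul_le hτ _ _).trans ?_
      have h6 : nrm (1 / (64 * (n : ℝ) ^ 4)) (X : ℤ[X]) = 1 / (64 * (n : ℝ) ^ 4) := by
        have := nrm_X_pow (τ := 1 / (64 * (n : ℝ) ^ 4)) 1
        rwa [pow_one, pow_one] at this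
      rw [nrm_C, h6]
      have h7 : |(((r : ℤ) ^ 2 : ℤ) : ℝ)| = (r : ℝ) ^ 2 := by
        push_cast
        exact abs_of_nonneg (by positivity)
      rw [h7]
      have h8 : (r : ℝ) ≤ n := by exact_mod_cast hrn
      have h9 : (r : ℝ) ^ 2 ≤ (n : ℝ) ^ 2 := pow_le_pow_left₀ (Nat.cast_nonneg _) h8 2
      calc (r : ℝ) ^ 2 * (1 / (64 * (n : ℝ) ^ 4)) ≤ (n : ℝ) ^ 2 * (1 / (64 * (n : ℝ) ^ 4)) :=
            mul_le_mul_of_nonneg_right h9 (by positivity)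
        _ = 1 / (64 * (n : ℝ)) * (1 / n) := by
            field_simp
        _ ≤ 1 / (64 * (n : ℝ)) * 1 := by
            refine mul_le_mul_of_nonneg_left ?_ hy0
            rw [div_le_one hn0]
            exact hn1
        _ = 1 / (64 * (n : ℝ)) := mul_one _
    have h6 : (1 : ℝ) ≤ (1 + 1 / (4 * (n : ℝ))) ^ (2 * j) := one_le_pow₀ (by linarith)
    nlinarith [h4, h5, h6, hy0]
  have h4 : nrm (1 / (64 * (n : ℝ) ^ 4))
      (((1 + C (r : ℤ) * y) ^ (2 * j) + C ((r : ℤ) ^ 2) * X) ^ z) ≤ 1.4 := by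
    refine (nrm_pow_le hτ _ _).trans ((pow_le_pow_left₀ (nrm_nonneg hτ _) h3 z).trans ?_)
    rw [mul_pow, ← pow_mul, ← hn]
    have h5 := TayA_pow_exp hx0 n
    have h6 := TayA_pow_exp hy0 z
    have h7 : (n : ℝ) * (1 / (4 * (n : ℝ))) = 1 / 4 := by field_simp
    have h8 : (z : ℝ) * (1 / (64 * (n : ℝ))) ≤ 1 / 64 := by
      have h9 : (z : ℝ) ≤ n := by exact_mod_cast hzn
      calc (z : ℝ) * (1 / (64 * (n : ℝ))) ≤ n * (1 / (64 * (n : ℝ))) :=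
            mul_le_mul_of_nonneg_right h9 hy0
        _ = 1 / 64 := by field_simp
    calc (1 + 1 / (4 * (n : ℝ))) ^ n * (1 + 1 / (64 * (n : ℝ))) ^ z
        ≤ Real.exp (n * (1 / (4 * (n : ℝ)))) * Real.exp (z * (1 / (64 * (n : ℝ)))) :=
          mul_le_mul h5 h6 (by positivity) (Real.exp_pos _).le
      _ = Real.exp (n * (1 / (4 * (n : ℝ))) + z * (1 / (64 * (n : ℝ)))) := (Real.exp_add _ _).symm
      _ ≤ Real.exp (1 / 3) := Real.exp_le_exp.2 (by rw [h7]; linarith)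
      _ ≤ 1.4 := TayA_exp3
  rw [sub_eq_add_neg]
  refine (nrm_add_le hτ _ _).trans ?_
  rw [nrm_neg]
  norm_num at h1 h4 ⊢
  linarith

end Pool.Agent.H91.CA
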