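import Mathlib

/-!
JOB CA-09 (elementary 2-adic and size arguments, about 150-200 lines; independent of all other files).

`tri`.  Let `t = v2(p-1)`, so `t ≥ 3`, `p ≡ 1 + 2^t (mod 2^(t+1))`; as `d` is odd, `p^d ≡ 1 + 2^t`, and
`p^(2j) ≡ 1 (mod 2^(t+1))`.
(a) `c > t`.  Then `q ≡ 1 + 4^i (mod 2^(t+1))` and `(1+4^i)^z ≡ q^z = 2^c + p^d ≡ 1 + 2^t (mod 2^(t+1))`.
As `z` is odd, `(1+4^i)^z - 1 = 4^i * (odd)` (a sum of `z` odd terms `(1+4^i)^k`), so `v2((1+4^i)^z - 1) = 2i`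
and hence `2i = t`: `4^i ∣ p - 1`, `2i < c`, and `2i ≥ 3` gives `i ≥ 2`: first alternative.
(b) `c ≤ t`.  Then `2^c ∣ p-1`.  Suppose `d ≤ 2jz`; parities give `d ≤ 2jz - 1`, and
`2^c = q^z - p^d ≥ p^(2jz) - p^(2jz-1) ≥ p > p - 1 ≥ 2^c`, contradiction (`q ≥ p^(2j)`).

`cop_zd`.  If `g = gcd(z,d) > 1` (odd as `z` is odd), with `Q = q^(z/g)`, `R = p^(d/g)`:
`2^c = Q^g - R^g = (Q - R) * ∑_{k<g} Q^k R^(g-1-k)`, `Q > R`, the second factor is a sum of `g` odd terms,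
so odd, and `≥ Q^(g-1) > 1`, but it divides `2^c`: contradiction.

`z_one`.  `4^i ≤ p - 1 < p`.  `2^c - 4^i = p^d (p^(2j-d) - 1)`, i.e. with `C = 2^(c/2)`:
`(C - 2^i)(C + 2^i) = p^d (p^(2j-d) - 1)`, `C > 2^i`.  The odd prime `p` cannot divide both factors (their
difference is `2 * 2^i`), so `p^d` divides one of them and `p^d ≤ C + 2^i`.
`C^2 = 2^c = 4^i + p^(2j) - p^d < p^(2j)` (as `4^i < p ≤ p^d`), so `C ≤ p^j - 1`, and
`p^d ≤ p^j - 1 + 2^i < p^j + p ≤ p^(j+1)` (`2^i ≤ 4^i < p`; `p ≥ 5`), so `d ≤ j`.  Then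
`C^2 ≥ p^(2j) - p^j + 4^i > p^(2j) - 2 p^j + 1 = (p^j - 1)^2`, so `p^j - 1 < C < p^j`: contradiction.
-/

namespace Pool.Agent.H91.CA

theorem Tri_sum_odd (a : ℕ) (ha : a % 2 = 1) (n : ℕ) :
    (∑ k ∈ Finset.range n, a ^ k) % 2 = n % 2 := by
  induction n with
  | zero => simp
  | succ n ih =>
    rw [Finset.sum_range_succ, Nat.add_mod, ih]
    have h1 : a ^ n % 2 = 1 := by
      rw [Nat.pow_mod, ha]
      simp
    rw [h1]
    omega

theorem Tri_pow_sub (a n : ℕ) : (a + 1) ^ n = a * (∑ k ∈ Finset.range n, (a + 1) ^ k) + 1 := by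
  induction n with
  | zero => simp
  | succ n ih =>
    rw [Finset.sum_range_succ, mul_add, pow_succ]
    nlinarith [ih]

theorem tri {p q i j c d z : ℕ} (hp : p.Prime) (hp8 : p % 8 = 1) (hi : 1 ≤ i) (hj : 1 ≤ j)
    (hq : q = 4 ^ i + p ^ (2 * j)) (hd : d % 2 = 1) (hz : z % 2 = 1)
    (h : 2 ^ c + p ^ d = q ^ z) :
    (2 ≤ i ∧ 4 ^ i ∣ p - 1 ∧ 2 * i < c) ∨ (2 ^ c ∣ p - 1 ∧ 2 * j * z + 1 ≤ d) := by
  have hp2 : 2 ≤ p := hp.two_le
  have hp9 : 9 ≤ p := by omega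
  obtain ⟨t, m, hm, hpm⟩ := Nat.exists_eq_two_pow_mul_odd (n := p - 1) (by omega)
  have hm2 : m % 2 = 1 := Nat.odd_iff.mp hm
  have ht : 3 ≤ t := by
    by_contra hlt
    push Not at hlt
    have h8 : 8 ∣ p - 1 := by omega
    rw [hpm] at h8
    interval_cases t <;> omega
  have h4 : (4 : ℕ) ^ i = 2 ^ (2 * i) := by
    rw [pow_mul]
    norm_num
  rcases Nat.lt_or_ge t c with hc | hc
  · left
    have e1 : p = 1 + 2 ^ t * m := by omega
    -- congruences modulo 2^(t+1)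
    have c1 : p ^ 2 ≡ 1 [MOD 2 ^ (t + 1)] := by
      have hdv : 2 ^ (t + 1) ∣ p ^ 2 - 1 := by
        have e2 : p ^ 2 - 1 = (p + 1) * (p - 1) := by
          rw [← Nat.sq_sub_sq, one_pow]
        rw [e2, hpm]
        obtain ⟨k, hk⟩ : 2 ∣ p + 1 := by omega
        exact ⟨k * m, by rw [hk, pow_succ]; ring⟩
      exact ((Nat.modEq_iff_dvd' (Nat.one_le_pow _ _ (by omega))).mpr hdv).symm
    have c2 : p ^ (2 * j) ≡ 1 [MOD 2 ^ (t + 1)] := by
      have := c1.pow j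
      rwa [← pow_mul, one_pow] at this
    have c3 : p ^ d ≡ p [MOD 2 ^ (t + 1)] := by
      obtain ⟨k, hk⟩ : ∃ k, d = 2 * k + 1 := ⟨d / 2, by omega⟩
      have := (c1.pow k).mul_right p
      rw [← pow_mul, one_pow, one_mul, ← pow_succ, ← hk] at this
      exact this
    have c4 : 2 ^ c ≡ 0 [MOD 2 ^ (t + 1)] := by
      rw [Nat.modEq_zero_iff_dvd]
      exact pow_dvd_pow 2 hc
    have c5 : q ≡ 4 ^ i + 1 [MOD 2 ^ (t + 1)] := by
      rw [hq]
      exact c2.add_left _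
    have c6 : (4 ^ i + 1) ^ z ≡ p [MOD 2 ^ (t + 1)] := by
      have h1 : q ^ z ≡ (4 ^ i + 1) ^ z [MOD 2 ^ (t + 1)] := c5.pow z
      have h2 : 2 ^ c + p ^ d ≡ 0 + p [MOD 2 ^ (t + 1)] := c4.add c3
      rw [h, zero_add] at h2
      exact h1.symm.trans h2
    rw [Tri_pow_sub (4 ^ i) z] at c6
    have c6' : 4 ^ i * (∑ k ∈ Finset.range z, (4 ^ i + 1) ^ k) + 1 ≡ 2 ^ t * m + 1
        [MOD 2 ^ (t + 1)] := by
      have e1' : p = 2 ^ t * m + 1 := by omega
      rw [← e1']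
      exact c6
    have c7 : 4 ^ i * (∑ k ∈ Finset.range z, (4 ^ i + 1) ^ k) ≡ 2 ^ t * m [MOD 2 ^ (t + 1)] :=
      Nat.ModEq.add_right_cancel' 1 c6'
    set S := ∑ k ∈ Finset.range z, (4 ^ i + 1) ^ k with hS
    have hS2 : S % 2 = 1 := by
      rw [hS, Tri_sum_odd _ _ z, hz]
      have : 4 ^ i % 2 = 0 := by
        rw [h4]
        obtain ⟨k, hk⟩ : ∃ k, 2 * i = k + 1 := ⟨2 * i - 1, by omega⟩
        rw [hk, pow_succ]
        omega
      omega
    rw [h4] at c7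
    have hit : 2 * i = t := by
      rcases Nat.lt_trichotomy (2 * i) t with hlt | heq | hgt
      · exfalso
        have d1 : 2 ^ (2 * i + 1) ∣ 2 ^ (t + 1) := pow_dvd_pow 2 (by omega)
        have c8 := Nat.ModEq.of_dvd d1 c7
        have d2 : 2 ^ (2 * i + 1) ∣ 2 ^ t * m := Dvd.dvd.mul_right (pow_dvd_pow 2 (by omega)) m
        have d3 : 2 ^ (2 * i + 1) ∣ 2 ^ (2 * i) * S := (Nat.ModEq.dvd_iff c8 dvd_rfl).mpr d2
        rw [pow_succ] at d3
        have d4 := Nat.dvd_of_mul_dvd_mul_left (pow_pos (by norm_num) _) d3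
        omega
      · exact heq
      · exfalso
        have d2 : 2 ^ (t + 1) ∣ 2 ^ (2 * i) * S := Dvd.dvd.mul_right (pow_dvd_pow 2 (by omega)) S
        have d3 : 2 ^ (t + 1) ∣ 2 ^ t * m := (Nat.ModEq.dvd_iff c7 dvd_rfl).mp d2
        rw [pow_succ] at d3
        have d4 := Nat.dvd_of_mul_dvd_mul_left (pow_pos (by norm_num) _) d3
        omega
    refine ⟨by omega, ?_, by omega⟩
    rw [h4, hit, hpm]
    exact Dvd.intro m rfl
  · right
    have hdv : 2 ^ c ∣ p - 1 := by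
      rw [hpm]
      exact Dvd.dvd.mul_right (pow_dvd_pow 2 hc) m
    refine ⟨hdv, ?_⟩
    by_contra hlt
    push Not at hlt
    have hz1 : 1 ≤ z := by omega
    have hjz : 1 ≤ j * z := Nat.mul_pos hj hz1
    have hd2 : d ≤ 2 * (j * z) - 1 := by
      have : 2 * j * z = 2 * (j * z) := by ring
      omega
    have h1 : p ^ d ≤ p ^ (2 * (j * z) - 1) := Nat.pow_le_pow_right (by omega) hd2
    have h2 : p ^ (2 * (j * z)) ≤ q ^ z := by
      have : p ^ (2 * (j * z)) = (p ^ (2 * j)) ^ z := by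
        rw [← pow_mul]
        congr 1
        ring
      rw [this]
      apply Nat.pow_le_pow_left
      rw [hq]
      exact Nat.le_add_left _ _
    have h3 : p ^ (2 * (j * z)) = p ^ (2 * (j * z) - 1) * p := by
      rw [← pow_succ]
      congr 1
      omega
    have h4' : p ^ 1 ≤ p ^ (2 * (j * z) - 1) := Nat.pow_le_pow_right (by omega) (by omega)
    have h5 : 2 ^ c ≤ p - 1 := Nat.le_of_dvd (by omega) hdv
    rw [pow_one] at h4'
    set A := p ^ (2 * (j * z) - 1) with hA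
    have h6 : A * p ≤ 2 ^ c + A := by
      rw [← h3]
      omega
    have h7 : A * p ≤ (p - 1) + A := by omega
    obtain ⟨e, he⟩ : ∃ e, p = e + 2 := ⟨p - 2, by omega⟩
    rw [he] at h7 h4'
    have h8 : e + 2 - 1 = e + 1 := by omega
    rw [h8] at h7
    nlinarith

theorem Tri_sum2_odd (a b : ℕ) (ha : a % 2 = 1) (hb : b % 2 = 1) (n m : ℕ) :
    (∑ k ∈ Finset.range n, a ^ k * b ^ (m - k)) % 2 = n % 2 := by
  induction n with
  | zero => simp
  | succ n ih =>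
    rw [Finset.sum_range_succ, Nat.add_mod, ih]
    have h1 : a ^ n * b ^ (m - n) % 2 = 1 := by
      rw [Nat.mul_mod, Nat.pow_mod a, Nat.pow_mod b, ha, hb]
      simp
    rw [h1]
    omega

theorem cop_zd {p q c d z : ℕ} (hp : p % 2 = 1) (hq : q % 2 = 1) (hp2 : 2 ≤ p) (hq2 : 2 ≤ q)
    (hz : z % 2 = 1) (hd : 1 ≤ d) (h : 2 ^ c + p ^ d = q ^ z) : z.Coprime d := by
  obtain ⟨g, hg⟩ : ∃ g, g = Nat.gcd z d := ⟨_, rfl⟩
  obtain ⟨z', hz'⟩ : g ∣ z := hg ▸ Nat.gcd_dvd_left z d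
  obtain ⟨d', hd'⟩ : g ∣ d := hg ▸ Nat.gcd_dvd_right z d
  show Nat.gcd z d = 1
  rw [← hg]
  by_contra hg1
  have hg0 : g ≠ 0 := by
    intro h0
    rw [h0, zero_mul] at hz'
    omega
  have hgodd : g % 2 = 1 := by
    by_contra h2
    have h3 : g % 2 = 0 := by omega
    have : z % 2 = 0 := by
      rw [hz', Nat.mul_mod, h3]
      simp
    omega
  have hg3 : 3 ≤ g := by omega
  have hz1 : 1 ≤ z' := by
    rcases Nat.eq_zero_or_pos z' with h0 | h0
    · rw [h0, mul_zero] at hz'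
      omega
    · exact h0
  set Q := q ^ z' with hQ
  set R := p ^ d' with hR
  have hQg : q ^ z = Q ^ g := by
    rw [hQ, ← pow_mul, hz', mul_comm]
  have hRg : p ^ d = R ^ g := by
    rw [hR, ← pow_mul, hd', mul_comm]
  rw [hQg, hRg] at h
  have hQ2 : 2 ≤ Q := by
    calc 2 ≤ q := hq2
      _ = q ^ 1 := (pow_one q).symm
      _ ≤ q ^ z' := Nat.pow_le_pow_right (by omega) hz1
  have hQodd : Q % 2 = 1 := by
    rw [hQ, Nat.pow_mod, hq]
    simp
  have hRodd : R % 2 = 1 := by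
    rw [hR, Nat.pow_mod, hp]
    simp
  set S := ∑ k ∈ Finset.range g, Q ^ k * R ^ (g - 1 - k) with hS
  have hSodd : S % 2 = 1 := by
    rw [hS, Tri_sum2_odd Q R hQodd hRodd g (g - 1), hgodd]
  have hid : (S : ℤ) * ((Q : ℤ) - R) = 2 ^ c := by
    have h1 := geom_sum₂_mul (Q : ℤ) (R : ℤ) g
    have h2 : ((S : ℕ) : ℤ) = ∑ k ∈ Finset.range g, (Q : ℤ) ^ k * (R : ℤ) ^ (g - 1 - k) := by
      rw [hS]
      push_cast
      rfl
    rw [h2, h1]
    have h3 : ((2 : ℤ) ^ c + (R : ℤ) ^ g) = (Q : ℤ) ^ g := by exact_mod_cast h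
    linarith
  have hdv : S ∣ 2 ^ c := by
    have : (S : ℤ) ∣ ((2 ^ c : ℕ) : ℤ) := ⟨(Q : ℤ) - R, by push_cast; exact hid.symm⟩
    exact Int.natCast_dvd_natCast.mp this
  have hcop : Nat.Coprime S (2 ^ c) := by
    apply Nat.Coprime.pow_right
    exact Nat.Coprime.symm ((Nat.coprime_two_left).mpr (Nat.odd_iff.mpr hSodd))
  have hS1 : S = 1 := Nat.Coprime.eq_one_of_dvd hcop hdv
  have hge : Q ^ (g - 1) ≤ S := by
    rw [hS]
    have h1 : g - 1 ∈ Finset.range g := Finset.mem_range.mpr (by omega)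
    have h2 := Finset.single_le_sum (f := fun k => Q ^ k * R ^ (g - 1 - k))
      (fun k _ => Nat.zero_le _) h1
    simpa using h2
  have h9 : 2 ^ 1 ≤ Q ^ (g - 1) := by
    calc 2 ^ 1 ≤ 2 ^ (g - 1) := Nat.pow_le_pow_right (by norm_num) (by omega)
      _ ≤ Q ^ (g - 1) := Nat.pow_le_pow_left hQ2 _
  omega

theorem z_one {p i j c d : ℕ} (hp : p.Prime) (hp5 : 5 ≤ p) (hdiv : 4 ^ i ∣ p - 1)
    (hic : 2 * i < c) (hc : c % 2 = 0) (hd : 1 ≤ d) (hdj : d < 2 * j)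
    (h : 2 ^ c + p ^ d = 4 ^ i + p ^ (2 * j)) : False := by
  have h4p : 4 ^ i ≤ p - 1 := Nat.le_of_dvd (by omega) hdiv
  have h4 : (4 : ℕ) ^ i = 2 ^ i * 2 ^ i := by
    rw [← mul_pow]
    norm_num
  obtain ⟨e, he⟩ : ∃ e, c = 2 * e := ⟨c / 2, by omega⟩
  have hie : i < e := by omega
  set C := 2 ^ e with hC
  have hCC : 2 ^ c = C * C := by
    rw [hC, he, ← pow_add]
    congr 1
    ring
  set B := 2 ^ i with hB
  have hBC : B < C := Nat.pow_lt_pow_right (by norm_num) hie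
  have hB1 : 1 ≤ B := Nat.one_le_pow _ _ (by norm_num)
  set A := p ^ j with hA
  have hAA : p ^ (2 * j) = A * A := by
    rw [hA, ← pow_add]
    congr 1
    ring
  have hpd : p ≤ p ^ d := by
    calc p = p ^ 1 := (pow_one p).symm
      _ ≤ p ^ d := Nat.pow_le_pow_right (by omega) hd
  have hj1 : 1 ≤ j := by omega
  have hpA : p ≤ A := by
    calc p = p ^ 1 := (pow_one p).symm
      _ ≤ p ^ j := Nat.pow_le_pow_right (by omega) hj1
  rw [hCC, hAA, h4] at h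
  rw [h4] at h4p
  -- the key divisibility
  have hsplit : p ^ (2 * j) = p ^ d * p ^ (2 * j - d) := by
    rw [← pow_add]
    congr 1
    omega
  have hdv : p ^ d ∣ (C - B) * (C + B) := by
    have h1 : (C - B) * (C + B) = p ^ d * (p ^ (2 * j - d) - 1) := by
      have h2 : (C - B) * (C + B) = C * C - B * B := by
        rw [mul_comm, ← Nat.mul_self_sub_mul_self_eq]
      have h3 : p ^ d * (p ^ (2 * j - d) - 1) = A * A - p ^ d := by
        rw [Nat.mul_sub, mul_one, ← hsplit, hAA]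
      rw [h2, h3]
      have h4 : B * B ≤ C * C := Nat.mul_le_mul hBC.le hBC.le
      omega
    rw [h1]
    exact Dvd.intro _ rfl
  have hle : p ^ d ≤ C + B := by
    have hCB : 0 < C - B := by omega
    by_cases h1 : p ∣ C - B
    · have h2 : ¬ p ∣ C + B := by
        intro h3
        have h4 : p ∣ (C + B) - (C - B) := Nat.dvd_sub h3 h1
        have h5 : (C + B) - (C - B) = 2 ^ (i + 1) := by
          rw [pow_succ, ← hB]
          omega
        rw [h5] at h4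
        have h6 := hp.dvd_of_dvd_pow h4
        have h7 := Nat.le_of_dvd (by norm_num) h6
        omega
      have h3 : Nat.Coprime (p ^ d) (C + B) :=
        Nat.Coprime.pow_left d ((Nat.Prime.coprime_iff_not_dvd hp).mpr h2)
      have h4 : p ^ d ∣ C - B := h3.dvd_of_dvd_mul_right hdv
      have h5 := Nat.le_of_dvd hCB h4
      omega
    · have h3 : Nat.Coprime (p ^ d) (C - B) :=
        Nat.Coprime.pow_left d ((Nat.Prime.coprime_iff_not_dvd hp).mpr h1)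
      have h4 : p ^ d ∣ C + B := h3.dvd_of_dvd_mul_left hdv
      exact Nat.le_of_dvd (by omega) h4
  have hCA : C < A := by
    by_contra hge
    push Not at hge
    have h1 : A * A ≤ C * C := Nat.mul_le_mul hge hge
    omega
  have hBB : B ≤ B * B := Nat.le_mul_of_pos_left _ hB1
  have hdj2 : d ≤ j := by
    by_contra hlt
    push Not at hlt
    have h1 : p ^ (j + 1) ≤ p ^ d := Nat.pow_le_pow_right (by omega) hlt
    rw [pow_succ, ← hA] at h1
    have h2 : A * 2 ≤ A * p := Nat.mul_le_mul_left _ (by omega)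
    omega
  have hpdA : p ^ d ≤ A := by
    rw [hA]
    exact Nat.pow_le_pow_right (by omega) hdj2
  obtain ⟨a, ha⟩ : ∃ a, A = a + 1 := ⟨A - 1, by omega⟩
  have hCa : C ≤ a := by omega
  have h1 : C * C ≤ a * a := Nat.mul_le_mul hCa hCa
  rw [ha] at h hpdA
  nlinarith

end Pool.Agent.H91.CA
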