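import Mathlib

/-!
JOB CA-01 (zero estimate, about 120-180 lines).

Proof.  Write `A_l(X) = sum_k c k l X^k` (real polynomials, degree `≤ K - 1`), let `Λ` be the set of
`l : Fin L` with `A_l ≠ 0` and suppose `Λ` is nonempty (otherwise all `c k l = 0`).
For `(ρ, σ)` in `[0,R1) × [0,S1)` put `x_{ρσ} = ρ u + σ v`, `y_{ρσ} = b^ρ a^σ`; the `y_{ρσ}` are pairwise
distinct positive integers because `a, b ≥ 2` are coprime (`b^ρ a^σ = b^ρ' a^σ'` with `ρ ≤ ρ'` gives
`a^σ = b^(ρ'-ρ) a^σ'`, so ...).  There are `R1 S1 ≥ L ≥ |Λ|` of them; choose an injection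
`τ : Λ → [0,R1) × [0,S1)`.
Let `Mx` be the `Λ × Λ` matrix over `ℝ[X]` with entries `(A_l.comp (X + C x_{τ j})) * C (y_{τ j}^l)`
(row `j`, column `l`) and `D = det Mx`.
(1) `D ≠ 0`: the coefficient of `D` at degree `Δ = sum_{l ∈ Λ} deg A_l` is
`(prod_l leadingCoeff A_l) * det (y_{τ j}^l)_{j,l ∈ Λ}`, and the generalised Vandermonde determinant is
not zero: otherwise there are reals `e_l` (`l ∈ Λ`), not all zero, with `sum_l e_l y_{τ j}^l = 0` for all
`j`; the polynomial `sum_l e_l Y^l` would have `|Λ|` distinct positive roots but at most `|Λ|` nonzero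
coefficients, contradicting Descartes' rule (`Polynomial.roots_countP_pos_le_signVariations`; sign
variations are `≤ support.card - 1`) -- or by a direct induction.
(ALTERNATIVE avoiding the generalised Vandermonde: the columns of the `[0,R1)×[0,S1)` by `Λ` matrix
`A_l(X + x_j) y_j^l` are linearly independent over `ℝ(X)`: if `sum_l q_l(X) A_l(X + x_j) y_j^l = 0` for
all `j` with polynomials `q_l` not all zero, look at the top coefficient: `sum_{l in Λ0} e_l y_j^l = 0`
with all `e_l ≠ 0`, `Λ0 ≠ ∅`, a nonzero polynomial of degree `< L` with `≥ L` roots. Hence some maximal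
minor `D` is a nonzero polynomial.)
(2) `deg D ≤ Δ ≤ (K - 1) L`.
(3) For `(r,s)` in `[0,R2) × [0,S2)` the point `(r + ρ, s + σ)` is in the range of `hc` and
`x = x_{rs} + x_{ρσ}`, `y = y_{rs} y_{ρσ}`; so `sum_l A_l(x_{rs} + x_{ρσ}) y_{ρσ}^l y_{rs}^l = 0`, that is
the vector `(y_{rs}^l)_l ≠ 0` is in the kernel of the real matrix `Mx` evaluated at `X = x_{rs}`;
so `D(x_{rs}) = 0` (`Matrix.exists_mulVec_eq_zero_iff`, `Matrix.det_eq_zero...`, and `RingHom.map_det`).
By `hinj` the `R2 S2` numbers `x_{rs}` are distinct, so `D` has more than `(K-1)L ≥ deg D` roots.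
Contradiction.
-/

namespace Pool.Agent.H91.CA

open Polynomial Finset in
theorem Zero_pow_inj {a b : ℕ} (hab : a.Coprime b) (ha : 2 ≤ a) (hb : 2 ≤ b) {r s r' s' : ℕ}
    (h : b ^ r * a ^ s = b ^ r' * a ^ s') : r = r' ∧ s = s' := by
  have key : ∀ {r s r' s' : ℕ}, r ≤ r' → b ^ r * a ^ s = b ^ r' * a ^ s' → r = r' ∧ s = s' := by
    intro r s r' s' hr h
    obtain ⟨d, rfl⟩ := Nat.exists_eq_add_of_le hr
    have h1 : a ^ s = b ^ d * a ^ s' := by
      have h2 : b ^ r * a ^ s = b ^ r * (b ^ d * a ^ s') := by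
        rw [h, pow_add, mul_assoc]
      exact Nat.eq_of_mul_eq_mul_left (pow_pos (by omega) r) h2
    have hd : d = 0 := by
      by_contra hd
      have h2 : b ∣ a ^ s := by
        rw [h1]
        exact Dvd.dvd.mul_right (dvd_pow_self b hd) _
      have h3 : Nat.Coprime b (a ^ s) := Nat.Coprime.pow_right s hab.symm
      have h4 : b = 1 := Nat.Coprime.eq_one_of_dvd h3 h2
      omega
    subst hd
    rw [pow_zero, one_mul] at h1
    exact ⟨by simp, Nat.pow_right_injective ha h1⟩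
  rcases le_total r r' with hr | hr
  · exact key hr h
  · have h1 := key hr h.symm
    exact ⟨h1.1.symm, h1.2.symm⟩

/-- the matrix -/
noncomputable def Zero_M {L : ℕ} (A' : Fin L → Polynomial ℝ) (x y : Fin L → ℝ) :
    Matrix (Fin L) (Fin L) (Polynomial ℝ) :=
  Matrix.of fun j l => (A' l).comp (Polynomial.X + Polynomial.C (x j)) *
    Polynomial.C (y j ^ (l : ℕ))

open Polynomial in
theorem Zero_coeff (q A : ℝ[X]) (x : ℝ) (hA : A ≠ 0) {d : ℕ} (hd : (q * A).natDegree ≤ d) :
    (q * A.comp (X + C x)).coeff d = (q * A).coeff d := by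
  by_cases hq : q = 0
  · simp [hq]
  have hX : (X + C x : ℝ[X]).natDegree = 1 := natDegree_X_add_C x
  have hcomp : A.comp (X + C x) ≠ 0 := by
    intro h
    have h1 := leadingCoeff_comp (p := A) (q := X + C x) (by rw [hX]; exact one_ne_zero)
    rw [h, leadingCoeff_zero, leadingCoeff_X_add_C, one_pow, mul_one] at h1
    exact hA (leadingCoeff_eq_zero.1 h1.symm)
  have hn : (q * A.comp (X + C x)).natDegree = (q * A).natDegree := by
    rw [natDegree_mul hq hcomp, natDegree_mul hq hA, natDegree_comp, hX, mul_one]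
  have hl : (q * A.comp (X + C x)).leadingCoeff = (q * A).leadingCoeff := by
    rw [leadingCoeff_mul, leadingCoeff_mul,
      leadingCoeff_comp (by rw [hX]; exact one_ne_zero), leadingCoeff_X_add_C, one_pow, mul_one]
  rcases hd.lt_or_eq with h | h
  · rw [coeff_eq_zero_of_natDegree_lt (by rw [hn]; exact h), coeff_eq_zero_of_natDegree_lt h]
  · rw [← h]
    have h2 : (q * A.comp (X + C x)).coeff ((q * A).natDegree) =
        (q * A.comp (X + C x)).leadingCoeff := by
      rw [leadingCoeff, hn]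
    rw [h2, hl]
    rfl

open Polynomial in
theorem Zero_det_ne {L : ℕ} (A' : Fin L → ℝ[X]) (hA : ∀ l, A' l ≠ 0) (x y : Fin L → ℝ)
    (hy : Function.Injective y) : (Zero_M A' x y).det ≠ 0 := by
  intro h0
  obtain ⟨q, hq, hMq⟩ := Matrix.exists_mulVec_eq_zero_iff.2 h0
  obtain ⟨l1, hl1⟩ : ∃ l, q l ≠ 0 := by
    by_contra h
    push Not at h
    exact hq (funext h)
  obtain ⟨l0, hl0, hmax⟩ := Finset.exists_max_image
    (Finset.univ.filter fun l => q l ≠ 0) (fun l => (q l * A' l).natDegree)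
    ⟨l1, by simp [hl1]⟩
  have hl0' : q l0 ≠ 0 := (Finset.mem_filter.1 hl0).2
  have hle : ∀ l, (q l * A' l).natDegree ≤ (q l0 * A' l0).natDegree := by
    intro l
    by_cases h : q l = 0
    · rw [h, zero_mul, natDegree_zero]
      exact Nat.zero_le _
    · exact hmax l (Finset.mem_filter.2 ⟨Finset.mem_univ l, h⟩)
  have he : (fun l => (q l * A' l).coeff (q l0 * A' l0).natDegree) = (0 : Fin L → ℝ) := by
    refine Matrix.eq_zero_of_mulVec_eq_zero (M := Matrix.vandermonde y)
      (Matrix.det_vandermonde_ne_zero_iff.2 hy) ?_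
    funext j
    have h1 := congrArg (fun P : ℝ[X] => P.coeff (q l0 * A' l0).natDegree) (congrFun hMq j)
    simp only [Matrix.mulVec, dotProduct, Pi.zero_apply, coeff_zero, finsetSum_coeff] at h1 ⊢
    rw [← h1]
    refine Finset.sum_congr rfl fun l _ => ?_
    rw [Matrix.vandermonde_apply, ← Zero_coeff (q l) (A' l) (x j) (hA l) (hle l)]
    show _ = ((A' l).comp (X + C (x j)) * C (y j ^ (l : ℕ)) * q l).coeff _
    have h2 : (A' l).comp (X + C (x j)) * C (y j ^ (l : ℕ)) * q l =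
        C (y j ^ (l : ℕ)) * (q l * (A' l).comp (X + C (x j))) := by ring
    rw [h2, coeff_C_mul]
  have h3 := congrFun he l0
  have h4 : (q l0 * A' l0).leadingCoeff = 0 := h3
  exact mul_ne_zero hl0' (hA l0) (leadingCoeff_eq_zero.1 h4)

open Polynomial in
theorem Zero_deg {L N : ℕ} (A' : Fin L → ℝ[X]) (hA : ∀ l, (A' l).natDegree ≤ N)
    (x y : Fin L → ℝ) : (Zero_M A' x y).det.natDegree ≤ N * L := by
  rw [Matrix.det_apply]
  refine natDegree_sum_le_of_forall_le _ _ fun σ _ => ?_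
  have h1 : (∏ i, Zero_M A' x y (σ i) i).natDegree ≤ N * L := by
    refine (natDegree_prod_le _ _).trans ?_
    have h2 : ∀ i ∈ (Finset.univ : Finset (Fin L)), (Zero_M A' x y (σ i) i).natDegree ≤ N := by
      intro i _
      show ((A' i).comp (X + C (x (σ i))) * C (y (σ i) ^ (i : ℕ))).natDegree ≤ N
      refine (natDegree_mul_C_le _ _).trans ?_
      rw [natDegree_comp, natDegree_X_add_C, mul_one]
      exact hA i
    refine (Finset.sum_le_card_nsmul _ _ N h2).trans ?_
    simp [mul_comm]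
  rcases Int.units_eq_one_or (Equiv.Perm.sign σ) with h | h
  · rw [h, one_smul]
    exact h1
  · rw [h]
    have h3 : ((-1 : ℤˣ) • ∏ i, Zero_M A' x y (σ i) i) = -∏ i, Zero_M A' x y (σ i) i := by
      rw [Units.neg_smul, one_smul]
    rw [h3, natDegree_neg]
    exact h1

theorem zero_est {a b u v K L R1 S1 R2 S2 : ℕ} (hab : a.Coprime b) (ha : 2 ≤ a) (hb : 2 ≤ b)
    (hL : L ≤ R1 * S1)
    (hinj : ∀ r s r' s' : ℕ, r < R2 → s < S2 → r' < R2 → s' < S2 →
      r * u + s * v = r' * u + s' * v → r = r' ∧ s = s')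
    (hN : (K - 1) * L < R2 * S2) (c : Fin K → Fin L → ℝ)
    (hc : ∀ r s : ℕ, r < R1 + R2 → s < S1 + S2 →
      ∑ k : Fin K, ∑ l : Fin L, c k l * ((r * u + s * v : ℕ) : ℝ) ^ (k : ℕ) *
        ((b ^ r * a ^ s : ℕ) : ℝ) ^ (l : ℕ) = 0) :
    c = 0 := by
  classical
  by_contra hne
  set A : Fin L → Polynomial ℝ := fun l => ∑ k : Fin K, Polynomial.C (c k l) *
    Polynomial.X ^ (k : ℕ) with hAdef
  have hAev : ∀ l (t : ℝ), (A l).eval t = ∑ k : Fin K, c k l * t ^ (k : ℕ) := by
    intro l t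
    simp [hAdef, Polynomial.eval_finsetSum]
  have hAdeg : ∀ l, (A l).natDegree ≤ K - 1 := by
    intro l
    refine Polynomial.natDegree_sum_le_of_forall_le _ _ fun k _ => ?_
    refine (Polynomial.natDegree_C_mul_X_pow_le _ _).trans ?_
    have := k.2
    omega
  obtain ⟨l0, hl0⟩ : ∃ l, A l ≠ 0 := by
    by_contra h
    push Not at h
    apply hne
    funext k l
    have h1 := congrArg (fun P : Polynomial ℝ => P.coeff k) (h l)
    simp only [hAdef, Polynomial.finsetSum_coeff, Polynomial.coeff_C_mul_X_pow,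
      Polynomial.coeff_zero] at h1
    rw [Finset.sum_eq_single k] at h1
    · simpa using h1
    · intro k' _ hk'
      rw [if_neg]
      intro h2
      exact hk' (Fin.ext h2).symm
    · intro h2
      exact absurd (Finset.mem_univ k) h2
  set A' : Fin L → Polynomial ℝ := fun l => if A l = 0 then 1 else A l with hA'def
  have hA'ne : ∀ l, A' l ≠ 0 := by
    intro l
    by_cases h : A l = 0
    · simp [hA'def, h]
    · simp [hA'def, h]
  have hA'deg : ∀ l, (A' l).natDegree ≤ K - 1 := by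
    intro l
    by_cases h : A l = 0
    · simp [hA'def, h]
    · simp only [hA'def, if_neg h]
      exact hAdeg l
  obtain ⟨τ⟩ : Nonempty (Fin L ↪ Fin R1 × Fin S1) := by
    apply Function.Embedding.nonempty_of_card_le
    simpa using hL
  set x : Fin L → ℝ := fun j => (((τ j).1 * u + (τ j).2 * v : ℕ) : ℝ) with hx
  set y : Fin L → ℝ := fun j => ((b ^ ((τ j).1 : ℕ) * a ^ ((τ j).2 : ℕ) : ℕ) : ℝ) with hy
  have hyinj : Function.Injective y := by
    intro i j hij
    have h1 : b ^ ((τ i).1 : ℕ) * a ^ ((τ i).2 : ℕ) = b ^ ((τ j).1 : ℕ) * a ^ ((τ j).2 : ℕ) := by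
      have h0 : y i = y j := hij
      simp only [hy] at h0
      exact_mod_cast h0
    have h2 := Zero_pow_inj hab ha hb h1
    exact τ.injective (Prod.ext (Fin.ext h2.1) (Fin.ext h2.2))
  have hD := Zero_det_ne A' hA'ne x y hyinj
  have hdeg := Zero_deg A' hA'deg x y
  apply hD
  refine Polynomial.eq_zero_of_natDegree_lt_card_of_eval_eq_zero' _
    ((Finset.univ : Finset (Fin R2 × Fin S2)).image
      fun z => (((z.1 : ℕ) * u + (z.2 : ℕ) * v : ℕ) : ℝ)) ?_ ?_
  · intro t ht
    obtain ⟨z, -, rfl⟩ := Finset.mem_image.1 ht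
    have h1 : (Zero_M A' x y).det.eval (((z.1 : ℕ) * u + (z.2 : ℕ) * v : ℕ) : ℝ) =
        ((Polynomial.evalRingHom (((z.1 : ℕ) * u + (z.2 : ℕ) * v : ℕ) : ℝ)).mapMatrix
          (Zero_M A' x y)).det := by
      rw [← RingHom.map_det]
      rfl
    rw [h1]
    refine Matrix.exists_mulVec_eq_zero_iff.1
      ⟨fun l => if A l = 0 then 0 else ((b ^ (z.1 : ℕ) * a ^ (z.2 : ℕ) : ℕ) : ℝ) ^ (l : ℕ), ?_, ?_⟩
    · intro h
      have h2 := congrFun h l0
      simp only [if_neg hl0, Pi.zero_apply] at h2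
      have h3 : ((b ^ (z.1 : ℕ) * a ^ (z.2 : ℕ) : ℕ) : ℝ) ≠ 0 := by
        have : 0 < b ^ (z.1 : ℕ) * a ^ (z.2 : ℕ) := by positivity
        exact_mod_cast this.ne'
      exact pow_ne_zero _ h3 h2
    · funext j
      have h4 := hc (z.1 + (τ j).1) (z.2 + (τ j).2)
        (by have := z.1.2; have := (τ j).1.2; omega)
        (by have := z.2.2; have := (τ j).2.2; omega)
      rw [Finset.sum_comm] at h4
      show ∑ l, Polynomial.eval (((z.1 : ℕ) * u + (z.2 : ℕ) * v : ℕ) : ℝ)
        ((A' l).comp (Polynomial.X + Polynomial.C (x j)) * Polynomial.C (y j ^ (l : ℕ))) *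
          (if A l = 0 then 0 else ((b ^ (z.1 : ℕ) * a ^ (z.2 : ℕ) : ℕ) : ℝ) ^ (l : ℕ)) = 0
      refine Eq.trans ?_ h4
      refine Finset.sum_congr rfl fun l _ => ?_
      rw [Polynomial.eval_mul, Polynomial.eval_comp, Polynomial.eval_C, Polynomial.eval_add,
        Polynomial.eval_X, Polynomial.eval_C]
      have h5 : ((((z.1 : ℕ) + ((τ j).1 : ℕ)) * u + ((z.2 : ℕ) + ((τ j).2 : ℕ)) * v : ℕ) : ℝ) =
          (((z.1 : ℕ) * u + (z.2 : ℕ) * v : ℕ) : ℝ) + x j := by
        simp only [hx]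
        push_cast
        ring
      have h6 : ((b ^ ((z.1 : ℕ) + ((τ j).1 : ℕ)) * a ^ ((z.2 : ℕ) + ((τ j).2 : ℕ)) : ℕ) : ℝ) =
          ((b ^ (z.1 : ℕ) * a ^ (z.2 : ℕ) : ℕ) : ℝ) * y j := by
        simp only [hy]
        push_cast
        ring
      rw [← Finset.sum_mul]
      rw [h5, h6, ← hAev l]
      by_cases h : A l = 0
      · rw [if_pos h, h]
        simp
      · rw [if_neg h]
        simp only [hA'def, if_neg h]
        rw [mul_pow]
        ring
  · rw [Finset.card_image_of_injective]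
    · rw [Finset.card_univ, Fintype.card_prod, Fintype.card_fin, Fintype.card_fin]
      exact hdeg.trans_lt hN
    · intro z z' hz
      have hz1 : (((z.1 : ℕ) * u + (z.2 : ℕ) * v : ℕ) : ℝ) =
          (((z'.1 : ℕ) * u + (z'.2 : ℕ) * v : ℕ) : ℝ) := hz
      have h1 : (z.1 : ℕ) * u + (z.2 : ℕ) * v = (z'.1 : ℕ) * u + (z'.2 : ℕ) * v := by
        exact_mod_cast hz1
      have h2 := hinj z.1 z.2 z'.1 z'.2 z.1.2 z.2.2 z'.1.2 z'.2.2 h1
      exact Prod.ext (Fin.ext h2.1) (Fin.ext h2.2)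

end Pool.Agent.H91.CA
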